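import Pool.Agent.T6.H77.NB.Al4

/-!
# The rank of the divisor class group
-/

set_option autoImplicit false

namespace Pool.Agent.T6.H77.NB

open FF

variable (K L : Type) [Field K] [Field L] [Algebra K L] [CharZero K] [IsFF K L]

/-- the rank of the divisor class group of the curve with the function field `L / K` -/
noncomputable def classRank : Cardinal := Module.rank ℤ ((Place K L →₀ ℤ) ⧸ Prin K L)

theorem classRank_eq : classRank K L = picRank K L + 1 := by
  have h1 := rr_add (U := ⊤) (N := Prin K L) (dgL K L) (Prin_le K L) le_top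
  have h2 : Module.rank ℤ ((⊤ : Submodule ℤ (Place K L →₀ ℤ)).map (dgL K L)) = 1 := by
    refine rank_pos_int _ ((Submodule.ne_bot_iff _).2 ?_)
    obtain ⟨P, -⟩ := exists_place (k := K) (K := L)
    refine ⟨P.deg, ⟨Finsupp.single P 1, trivial, ?_⟩, ?_⟩
    · show ddeg (Finsupp.single P 1) = P.deg
      rw [ddeg_single, one_mul]
    · have := P.deg_pos
      omega
  have h3 : rr (⊤ : Submodule ℤ (Place K L →₀ ℤ)) (Prin K L) = classRank K L := by
    unfold rr classRank
    rw [Submodule.map_top, Submodule.range_mkQ, rank_top]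
  rw [h2, h3, top_inf_eq] at h1
  rw [← h1, add_comm]
  rfl

end Pool.Agent.T6.H77.NB
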