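import Pool.Agent.Helper386.D5V.Helper386_FF_Place

/-!
# Almost factorial rings
-/

set_option autoImplicit false

namespace Pool.Agent.T6.H77.NB

open FF

section
variable {M K : Type} [Field M] [Field K] [Algebra M K]

/-- the order as a homomorphism -/
noncomputable def ordM (P : Place M K) : Kˣ →* Multiplicative ℤ where
  toFun x := Multiplicative.ofAdd (P.ord (x : K))
  map_one' := by rw [Units.val_one, P.ord_one]; rfl
  map_mul' x y := by rw [Units.val_mul, P.ord_mul x.ne_zero y.ne_zero]; rfl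

theorem ordM_apply (P : Place M K) (x : Kˣ) : (ordM P x).toAdd = P.ord (x : K) := rfl

theorem ord_prod (P : Place M K) {ι : Type*} (s : Finset ι) (x : ι → Kˣ) (k : ι → ℤ) :
    P.ord ((∏ i ∈ s, x i ^ k i : Kˣ) : K) = ∑ i ∈ s, k i * P.ord (x i : K) := by
  rw [← ordM_apply, map_prod, toAdd_prod]
  refine Finset.sum_congr rfl fun i _ => ?_
  rw [map_zpow, toAdd_zpow, ordM_apply, smul_eq_mul]

theorem ord_upow (P : Place M K) (x : Kˣ) (k : ℤ) : P.ord ((x ^ k : Kˣ) : K) = k * P.ord (x : K) := by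
  rw [Units.val_zpow_eq_zpow_val, P.ord_zpow]

/-- `D` is an almost factorial ring with the set `S` of the essential valuations -/
structure AF (D : Subring K) (S : Set (Place M K)) : Prop where
  const : ∀ c : M, algebraMap M K c ∈ D
  frac : ∀ z : K, ∃ a ∈ D, ∃ b ∈ D, b ≠ 0 ∧ z = a / b
  reg : ∀ P ∈ S, ∀ x ∈ D, P.Reg x
  fin : ∀ x ∈ D, x ≠ 0 → {P | P ∈ S ∧ P.ord x ≠ 0}.Finite
  mem : ∀ x : K, x ≠ 0 → (∀ P ∈ S, 0 ≤ P.ord x) → x ∈ D
  unif : ∀ P ∈ S, ∃ π ∈ D, π ≠ 0 ∧ 0 < P.ord π ∧ ∀ Q ∈ S, Q ≠ P → Q.ord π = 0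

namespace AF

variable {D : Subring K} {S : Set (Place M K)} (h : AF D S)

include h

theorem fin' {x : K} (hx : x ≠ 0) : {P | P ∈ S ∧ P.ord x ≠ 0}.Finite := by
  obtain ⟨a, ha, b, hb, hb0, rfl⟩ := h.frac x
  have ha0 : a ≠ 0 := by
    rintro rfl
    simp at hx
  refine ((h.fin a ha ha0).union (h.fin b hb hb0)).subset ?_
  rintro P ⟨hP, hne⟩
  rw [P.ord_div ha0 hb0] at hne
  by_cases h1 : P.ord a = 0
  · right
    exact ⟨hP, fun h2 => hne (by rw [h1, h2, sub_zero])⟩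
  · left
    exact ⟨hP, h1⟩

theorem unit_iff {x : K} (hx : x ≠ 0) : (x ∈ D ∧ x⁻¹ ∈ D) ↔ ∀ P ∈ S, P.ord x = 0 := by
  constructor
  · rintro ⟨h1, h2⟩ P hP
    have a1 := (P.reg_iff hx).1 (h.reg P hP x h1)
    have a2 := (P.reg_iff (inv_ne_zero hx)).1 (h.reg P hP _ h2)
    rw [P.ord_inv] at a2
    omega
  · intro h1
    refine ⟨h.mem x hx fun P hP => (h1 P hP).ge, h.mem _ (inv_ne_zero hx) fun P hP => ?_⟩
    rw [P.ord_inv, h1 P hP, neg_zero]

/-- elements with given orders -/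
theorem exists_pi : ∃ π : Place M K → Kˣ, (∀ P ∈ S, (π P : K) ∈ D ∧ 0 < P.ord (π P : K) ∧
    ∀ Q ∈ S, Q ≠ P → Q.ord (π P : K) = 0) := by
  classical
  choose! f hf using h.unif
  refine ⟨fun P => if hP : P ∈ S then Units.mk0 (f P) (hf P hP).2.1 else 1, fun P hP => ?_⟩
  simp only [dif_pos hP, Units.val_mk0]
  exact ⟨(hf P hP).1, (hf P hP).2.2⟩

omit h in
theorem approx {π : Place M K → Kˣ} (hπ : ∀ P ∈ S, (π P : K) ∈ D ∧ 0 < P.ord (π P : K) ∧
    ∀ Q ∈ S, Q ≠ P → Q.ord (π P : K) = 0) (s : Finset (Place M K)) (hs : ∀ P ∈ s, P ∈ S) :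
    ∃ m : ℕ, 0 < m ∧ (∀ P ∈ s, 0 < (m : ℤ) / P.ord (π P : K)) ∧ ∀ (n : Place M K → ℤ), ∀ Q ∈ S,
      Q.ord ((∏ P ∈ s, π P ^ (n P * ((m : ℤ) / P.ord (π P : K))) : Kˣ) : K) =
        open Classical in if Q ∈ s then (m : ℤ) * n Q else 0 := by
  classical
  set m : ℕ := ∏ P ∈ s, (P.ord (π P : K)).toNat with hm
  have hm0 : 0 < m := Finset.prod_pos fun P hP => by
    have := (hπ P (hs P hP)).2.1
    omega
  have hdvd : ∀ P ∈ s, P.ord (π P : K) ∣ (m : ℤ) := by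
    intro P hP
    have h1 : (P.ord (π P : K)).toNat ∣ m := Finset.dvd_prod_of_mem _ hP
    have h2 := (hπ P (hs P hP)).2.1
    have h3 : (((P.ord (π P : K)).toNat : ℕ) : ℤ) = P.ord (π P : K) := Int.toNat_of_nonneg h2.le
    rw [← h3]
    exact_mod_cast h1
  refine ⟨m, hm0, ?_, ?_⟩
  · intro P hP
    exact Int.ediv_pos_of_pos_of_dvd (by exact_mod_cast hm0) (hπ P (hs P hP)).2.1.le (hdvd P hP)
  intro n Q hQ
  rw [ord_prod]
  split_ifs with hQs
  · rw [Finset.sum_eq_single_of_mem Q hQs]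
    · rw [mul_assoc, Int.ediv_mul_cancel (hdvd Q hQs), mul_comm]
    · intro P hP hPQ
      rw [(hπ P (hs P hP)).2.2 Q hQ hPQ.symm, mul_zero]
  · refine Finset.sum_eq_zero fun P hP => ?_
    rw [(hπ P (hs P hP)).2.2 Q hQ (fun h => hQs (h ▸ hP)), mul_zero]

/-- a prime ideal contains one of the elements `π P` -/
theorem exists_pi_mem {π : Place M K → Kˣ} (hπ : ∀ P ∈ S, (π P : K) ∈ D ∧ 0 < P.ord (π P : K) ∧
    ∀ Q ∈ S, Q ≠ P → Q.ord (π P : K) = 0) (hmul : ∀ P ∈ S, (π P : K) ∈ D)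
    (I : Ideal D) [hI : I.IsPrime] {x : D} (hx : x ∈ I) (hx0 : x ≠ 0) :
    ∃ P, ∃ hP : P ∈ S, (⟨(π P : K), hmul P hP⟩ : D) ∈ I ∧ 0 < P.ord (x : K) := by
  classical
  have hxK : (x : K) ≠ 0 := fun h0 => hx0 (Subtype.ext h0)
  let s : Finset (Place M K) := (h.fin x x.2 hxK).toFinset
  have hs : ∀ P ∈ s, P ∈ S := fun P hP => ((h.fin x x.2 hxK).mem_toFinset.1 hP).1
  obtain ⟨m, hm, hmd, hord⟩ := approx hπ s hs
  have hpos : ∀ P ∈ s, 0 < P.ord (x : K) := by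
    intro P hP
    have h1 := ((h.fin x x.2 hxK).mem_toFinset.1 hP).2
    have h2 := (P.reg_iff hxK).1 (h.reg P (hs P hP) x x.2)
    omega
  -- the product
  let κ : D := ∏ P ∈ s.attach, (⟨(π P.1 : K), hmul P.1 (hs P.1 P.2)⟩ : D) ^
    ((P.1.ord (x : K)) * ((m : ℤ) / P.1.ord (π P.1 : K))).toNat
  have hκ : (κ : K) = ((∏ P ∈ s, π P ^ (P.ord (x : K) * ((m : ℤ) / P.ord (π P : K))) : Kˣ) : K) := by
    rw [← Finset.prod_attach s]
    simp only [κ]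
    rw [← Subring.subtype_apply, map_prod, Units.coe_prod]
    refine Finset.prod_congr rfl fun P _ => ?_
    rw [map_pow, Subring.subtype_apply, Units.val_zpow_eq_zpow_val, ← zpow_natCast,
      Int.toNat_of_nonneg (mul_nonneg (hpos P.1 P.2).le (hmd P.1 P.2).le)]
  have hκ0 : (κ : K) ≠ 0 := by
    rw [hκ]
    exact Units.ne_zero _
  have hu : ∀ Q ∈ S, Q.ord ((κ : K) / (x : K) ^ m) = 0 := by
    intro Q hQ
    rw [Q.ord_div hκ0 (pow_ne_zero _ hxK), hκ, hord (fun P => P.ord (x : K)) Q hQ, Q.ord_pow]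
    split_ifs with hQs
    · ring
    · have : Q.ord (x : K) = 0 := by
        by_contra hne
        exact hQs ((h.fin x x.2 hxK).mem_toFinset.2 ⟨hQ, hne⟩)
      rw [this]
      ring
  have hud := (h.unit_iff (div_ne_zero hκ0 (pow_ne_zero _ hxK))).2 hu
  have hκI : κ ∈ I := by
    have e1 : κ = ⟨_, hud.1⟩ * x ^ m := by
      apply Subtype.ext
      show (κ : K) = ((κ : K) / (x : K) ^ m) * ((x ^ m : D) : K)
      rw [SubmonoidClass.coe_pow, div_mul_cancel₀ _ (pow_ne_zero _ hxK)]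
    rw [e1]
    exact I.mul_mem_left _ (I.pow_mem_of_mem hx m hm)
  obtain ⟨P, -, hP⟩ := (hI.prod_mem_iff).1 hκI
  exact ⟨P.1, hs P.1 P.2, hI.mem_of_pow_mem _ hP, hpos P.1 P.2⟩

/-- an element of positive order has a power divisible by `π P` -/
theorem pow_div {P : Place M K} (hP : P ∈ S) {π : K} (hπ0 : π ≠ 0) (hπ : ∀ Q ∈ S, Q ≠ P → Q.ord π = 0)
    {x : K} (hx : x ∈ D) (hxP : x = 0 ∨ 0 < P.ord x) : ∃ m : ℕ, ∃ y ∈ D, x ^ m = π * y := by
  by_cases hx0 : x = 0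
  · exact ⟨1, 0, D.zero_mem, by rw [hx0]; simp⟩
  have hpos := hxP.resolve_left hx0
  refine ⟨(P.ord π).toNat, x ^ (P.ord π).toNat / π, ?_, by rw [mul_div_cancel₀ _ hπ0]⟩
  have hxm : x ^ (P.ord π).toNat ≠ 0 := pow_ne_zero _ hx0
  refine h.mem _ (div_ne_zero hxm hπ0) fun Q hQ => ?_
  rw [Q.ord_div hxm hπ0, Q.ord_pow]
  by_cases hQP : Q = P
  · subst hQP
    rcases le_or_gt 0 (Q.ord π) with h1 | h1
    · rw [Int.toNat_of_nonneg h1]
      nlinarith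
    · rw [Int.toNat_of_nonpos h1.le]
      simp only [Nat.cast_zero, zero_mul]
      omega
  · rw [hπ Q hQ hQP, sub_zero]
    exact mul_nonneg (Nat.cast_nonneg _) ((Q.reg_iff hx0).1 (h.reg Q hQ x hx))

/-- the elements of nonnegative order are fractions with denominator of order zero -/
theorem loc_eq {P : Place M K} (hP : P ∈ S) {x : K} (hx : P.Reg x) :
    ∃ b ∈ D, b ≠ 0 ∧ P.ord b = 0 ∧ b * x ∈ D := by
  classical
  by_cases hx0 : x = 0
  · exact ⟨1, D.one_mem, one_ne_zero, P.ord_one, by rw [hx0, mul_zero]; exact D.zero_mem⟩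
  obtain ⟨π, hπ⟩ := h.exists_pi
  let s : Finset (Place M K) := (h.fin' hx0).toFinset.filter fun Q => Q ≠ P
  have hs : ∀ Q ∈ s, Q ∈ S ∧ Q ≠ P := fun Q hQ =>
    ⟨((h.fin' hx0).mem_toFinset.1 (Finset.mem_filter.1 hQ).1).1, (Finset.mem_filter.1 hQ).2⟩
  obtain ⟨m, hm, hmd, hord⟩ := approx hπ s fun Q hQ => (hs Q hQ).1
  set b : Kˣ := ∏ Q ∈ s, π Q ^ (|Q.ord x| * ((m : ℤ) / Q.ord (π Q : K))) with hb
  have hbo : ∀ Q ∈ S, Q.ord (b : K) = if Q ∈ s then (m : ℤ) * |Q.ord x| else 0 := fun Q hQ =>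
    hord (fun Q => |Q.ord x|) Q hQ
  refine ⟨b, ?_, b.ne_zero, ?_, ?_⟩
  · refine h.mem _ b.ne_zero fun Q hQ => ?_
    rw [hbo Q hQ]
    split_ifs
    · positivity
    · exact le_rfl
  · rw [hbo P hP, if_neg]
    intro hPs
    exact (hs P hPs).2 rfl
  · refine h.mem _ (mul_ne_zero b.ne_zero hx0) fun Q hQ => ?_
    rw [Q.ord_mul b.ne_zero hx0, hbo Q hQ]
    split_ifs with hQs
    · have h1 : (1 : ℤ) ≤ m := by exact_mod_cast hm
      have h2 := neg_abs_le (Q.ord x)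
      have h3 : |Q.ord x| ≤ (m : ℤ) * |Q.ord x| := le_mul_of_one_le_left (abs_nonneg _) h1
      omega
    · rw [zero_add]
      by_cases hQP : Q = P
      · subst hQP
        exact (Q.reg_iff hx0).1 hx
      · have : Q.ord x = 0 := by
          by_contra hne
          exact hQs (Finset.mem_filter.2 ⟨(h.fin' hx0).mem_toFinset.2 ⟨hQ, hne⟩, hQP⟩)
        rw [this]

end AF

/-- the localization at an element -/
def loc (D : Subring K) (a : K) (ha : a ∈ D) : Subring K where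
  carrier := {x | ∃ n : ℕ, a ^ n * x ∈ D}
  mul_mem' := by
    rintro x y ⟨n, hn⟩ ⟨m, hm⟩
    exact ⟨n + m, by rw [pow_add, mul_mul_mul_comm]; exact D.mul_mem hn hm⟩
  one_mem' := ⟨0, by rw [pow_zero, one_mul]; exact D.one_mem⟩
  add_mem' := by
    rintro x y ⟨n, hn⟩ ⟨m, hm⟩
    refine ⟨n + m, ?_⟩
    have : a ^ (n + m) * (x + y) = a ^ m * (a ^ n * x) + a ^ n * (a ^ m * y) := by ring
    rw [this]
    exact D.add_mem (D.mul_mem (D.pow_mem ha _) hn) (D.mul_mem (D.pow_mem ha _) hm)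
  zero_mem' := ⟨0, by rw [mul_zero]; exact D.zero_mem⟩
  neg_mem' := by
    rintro x ⟨n, hn⟩
    exact ⟨n, by rw [mul_neg]; exact D.neg_mem hn⟩

theorem mem_loc {D : Subring K} {a : K} {ha : a ∈ D} {x : K} :
    x ∈ loc D a ha ↔ ∃ n : ℕ, a ^ n * x ∈ D := Iff.rfl

theorem le_loc {D : Subring K} {a : K} (ha : a ∈ D) : D ≤ loc D a ha := fun x hx =>
  ⟨0, by rw [pow_zero, one_mul]; exact hx⟩

theorem AF.loc {D : Subring K} {S : Set (Place M K)} (h : AF D S) {a : K} (ha : a ∈ D)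
    (ha0 : a ≠ 0) : AF (loc D a ha) {P | P ∈ S ∧ P.ord a = 0} := by
  classical
  have hordx : ∀ (P : Place M K) (x : K) (n : ℕ), x ≠ 0 →
      P.ord (a ^ n * x) = n * P.ord a + P.ord x := by
    intro P x n hx
    rw [P.ord_mul (pow_ne_zero _ ha0) hx, P.ord_pow]
  refine ⟨fun c => le_loc ha (h.const c), ?_, ?_, ?_, ?_, ?_⟩
  · intro z
    obtain ⟨x, hx, y, hy, hy0, rfl⟩ := h.frac z
    exact ⟨x, le_loc ha hx, y, le_loc ha hy, hy0, rfl⟩
  · rintro P ⟨hP, hPa⟩ x ⟨n, hn⟩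
    by_cases hx0 : x = 0
    · exact Or.inl hx0
    have h1 := (P.reg_iff (mul_ne_zero (pow_ne_zero n ha0) hx0)).1 (h.reg P hP _ hn)
    rw [hordx P x n hx0, hPa, mul_zero, zero_add] at h1
    exact Or.inr h1
  · intro x _ hx0
    refine (h.fin' hx0).subset ?_
    rintro P ⟨⟨hP, _⟩, hne⟩
    exact ⟨hP, hne⟩
  · intro x hx0 hx
    -- the exponent
    let s := (h.fin a ha ha0).toFinset
    refine ⟨∑ P ∈ s, (P.ord x).natAbs, h.mem _ (mul_ne_zero (pow_ne_zero _ ha0) hx0) fun P hP => ?_⟩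
    rw [hordx P x _ hx0]
    by_cases hPa : P.ord a = 0
    · rw [hPa, mul_zero, zero_add]
      exact hx P ⟨hP, hPa⟩
    · have h1 : P ∈ s := (h.fin a ha ha0).mem_toFinset.2 ⟨hP, hPa⟩
      have h2 : (P.ord x).natAbs ≤ ∑ P ∈ s, (P.ord x).natAbs :=
        Finset.single_le_sum (f := fun P => (P.ord x).natAbs) (fun _ _ => Nat.zero_le _) h1
      have h3 := (P.reg_iff ha0).1 (h.reg P hP a ha)
      have h4 : (1 : ℤ) ≤ P.ord a := by omega
      have h5 : ((P.ord x).natAbs : ℤ) ≤ ((∑ P ∈ s, (P.ord x).natAbs : ℕ) : ℤ) := by exact_mod_cast h2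
      have h6 : (0 : ℤ) ≤ ((∑ P ∈ s, (P.ord x).natAbs : ℕ) : ℤ) := Nat.cast_nonneg _
      nlinarith [neg_abs_le (P.ord x), Int.natCast_natAbs (P.ord x)]
  · rintro P ⟨hP, hPa⟩
    obtain ⟨π, hπ, hπ0, hpos, hπQ⟩ := h.unif P hP
    exact ⟨π, le_loc ha hπ, hπ0, hpos, fun Q hQ hQP => hπQ Q hQ.1 hQP⟩

end

end Pool.Agent.T6.H77.NB
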