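import Pool.Agent.T6.H77.NB.NLoc

/-!
# The place of the base under a place
-/

set_option autoImplicit false
set_option linter.unusedSectionVars false
set_option linter.style.haveILetI false

open Polynomial

namespace Pool.Agent.T6.H77.NB

open FF
open Pool.Agent.R410.NG (Ff Asy)

section
variable {M K : Type} [Field M] [Field K] [Algebra M K]
variable {n e ρ : ℕ} {R : Subring M} {T D : Subring K} {hRT : ∀ r ∈ R, algebraMap M K r ∈ T}
  {S : Set (Place M K)}

variable (h : Nice n e R T D hRT S ρ)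

/-- a prime ideal contains the centre of a place -/
theorem exists_cc_le {a : T} {Q : Ideal T} (hQp : Q.IsPrime) (haQ : a ∈ Q) (ha0 : a ≠ 0)
    (hQR : ∀ r : R, r ≠ 0 → iRT hRT r ∉ Q) :
    ∃ P ∈ S, cc h P ≤ Q := by
  classical
  let I : Ideal D :=
    { carrier := {x | ∃ s : R, s ≠ 0 ∧ ∃ ht : algebraMap M K s * (x : K) ∈ T, (⟨_, ht⟩ : T) ∈ Q}
      add_mem' := by
        rintro x y ⟨s, hs, ht, hq⟩ ⟨s', hs', ht', hq'⟩
        have h1 := Q.add_mem (Q.mul_mem_left (iRT hRT s') hq) (Q.mul_mem_left (iRT hRT s) hq')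
        have h2 : (((iRT hRT s' * ⟨_, ht⟩ + iRT hRT s * ⟨_, ht'⟩ : T)) : K) =
            algebraMap M K ((s * s' : R) : M) * ((x + y : D) : K) := by
          show algebraMap M K s' * (algebraMap M K s * x) + algebraMap M K s * (algebraMap M K s' * y) =
            algebraMap M K (s * s') * (x + y)
          rw [map_mul]
          ring
        refine ⟨s * s', mul_ne_zero hs hs', h2 ▸ Subtype.property _, ?_⟩
        convert h1 using 1
        exact Subtype.ext h2.symm
      zero_mem' := by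
        refine ⟨1, one_ne_zero, ?_, ?_⟩
        · show algebraMap M K ((1 : R) : M) * ((0 : D) : K) ∈ T
          rw [show ((0 : D) : K) = 0 from rfl, mul_zero]
          exact T.zero_mem
        · convert Q.zero_mem using 1
          apply Subtype.ext
          show algebraMap M K ((1 : R) : M) * ((0 : D) : K) = 0
          rw [show ((0 : D) : K) = 0 from rfl, mul_zero]
      smul_mem' := by
        rintro c x ⟨s, hs, ht, hq⟩
        obtain ⟨s', hs', hs0', hc⟩ := h.DT c c.2
        have h1 := Q.mul_mem_left (⟨_, hc⟩ : T) hq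
        have h2 : (((⟨_, hc⟩ * ⟨_, ht⟩ : T)) : K) =
            algebraMap M K (((⟨s', hs'⟩ * s : R)) : M) * ((c • x : D) : K) := by
          show algebraMap M K s' * c * (algebraMap M K s * x) = algebraMap M K (s' * s) * (c * x)
          rw [map_mul]
          ring
        refine ⟨⟨s', hs'⟩ * s, mul_ne_zero (fun hh => hs0' (congrArg Subtype.val hh)) hs,
          h2 ▸ Subtype.property _, ?_⟩
        convert h1 using 1
        exact Subtype.ext h2.symm }
  have hI : I.IsPrime := by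
    refine ⟨?_, ?_⟩
    · rw [Ideal.ne_top_iff_one]
      rintro ⟨s, hs, ht, hq⟩
      apply hQR s hs
      convert hq using 1
      apply Subtype.ext
      show algebraMap M K s = algebraMap M K s * ((1 : D) : K)
      rw [show ((1 : D) : K) = 1 from rfl, mul_one]
    · rintro x y ⟨s, hs, ht, hq⟩
      obtain ⟨s1, hs1, hs10, hx⟩ := h.DT x x.2
      obtain ⟨s2, hs2, hs20, hy⟩ := h.DT y y.2
      have h1 : (⟨_, hx⟩ * ⟨_, hy⟩ : T) * iRT hRT s ∈ Q := by
        have h2 := Q.mul_mem_left (iRT hRT (⟨s1, hs1⟩ * ⟨s2, hs2⟩)) hq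
        convert h2 using 1
        apply Subtype.ext
        show algebraMap M K s1 * x * (algebraMap M K s2 * y) * algebraMap M K s =
          algebraMap M K (s1 * s2) * (algebraMap M K s * ((x * y : D) : K))
        rw [map_mul, show ((x * y : D) : K) = (x : K) * y from rfl]
        ring
      have h3 := (hQp.mem_or_mem h1).resolve_right (hQR s hs)
      rcases hQp.mem_or_mem h3 with h4 | h4
      · left
        exact ⟨⟨s1, hs1⟩, fun hh => hs10 (congrArg Subtype.val hh), hx, h4⟩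
      · right
        exact ⟨⟨s2, hs2⟩, fun hh => hs20 (congrArg Subtype.val hh), hy, h4⟩
  have hback : ∀ x : T, (⟨(x : K), h.TD x.2⟩ : D) ∈ I → x ∈ Q := by
    rintro x ⟨s, hs, ht, hq⟩
    have h1 : iRT hRT s * x ∈ Q := by
      convert hq using 1
      exact Subtype.ext rfl
    exact (hQp.mem_or_mem h1).resolve_left (hQR s hs)
  have haI : (⟨a, h.TD a.2⟩ : D) ∈ I := by
    refine ⟨1, one_ne_zero, ?_, ?_⟩
    · show algebraMap M K ((1 : R) : M) * a ∈ T
      rw [show ((1 : R) : M) = 1 from rfl, map_one, one_mul]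
      exact a.2
    · convert haQ using 1
      apply Subtype.ext
      show algebraMap M K ((1 : R) : M) * a = a
      rw [show ((1 : R) : M) = 1 from rfl, map_one, one_mul]
  obtain ⟨π, hπ⟩ := h.af.exists_pi
  obtain ⟨P, hP, hPI, hPa⟩ := h.af.exists_pi_mem hπ (fun P hP => (hπ P hP).1) I haI
    (fun hh => ha0 (Subtype.ext (congrArg (fun z : D => (z : K)) hh)))
  refine ⟨P, hP, ?_⟩
  intro x hx
  rw [mem_cc h hP] at hx
  obtain ⟨m, y, hy, hxm⟩ := h.af.pow_div hP (π P).ne_zero (hπ P hP).2.2 (h.TD x.2) hx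
  apply hback
  apply hI.mem_of_pow_mem m
  have : (⟨(x : K), h.TD x.2⟩ : D) ^ m = ⟨(π P : K), (hπ P hP).1⟩ * ⟨y, hy⟩ := Subtype.ext hxm
  rw [this]
  exact I.mul_mem_right _ hPI

include h in
/-- the elements of `T` have the quotient field `K` -/
theorem frac_T (z : K) : ∃ a b : T, b ≠ 0 ∧ z = (a : K) / b := by
  obtain ⟨a, ha, b, hb, hb0, rfl⟩ := h.af.frac z
  obtain ⟨s1, hs1, hs10, hx⟩ := h.DT a ha
  obtain ⟨s2, hs2, hs20, hy⟩ := h.DT b hb
  have h1 : algebraMap M K s1 ≠ 0 := by rwa [Ne, map_eq_zero]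
  have h2 : algebraMap M K s2 ≠ 0 := by rwa [Ne, map_eq_zero]
  refine ⟨⟨_, T.mul_mem (hRT s2 hs2) hx⟩, ⟨_, T.mul_mem (hRT s1 hs1) hy⟩, ?_, ?_⟩
  · intro hh
    have h3 : algebraMap M K s1 * (algebraMap M K s2 * b) = 0 := congrArg Subtype.val hh
    exact mul_ne_zero h1 (mul_ne_zero h2 hb0) h3
  · show a / b = algebraMap M K s2 * (algebraMap M K s1 * a) / (algebraMap M K s1 * (algebraMap M K s2 * b))
    field_simp

end

section
variable {M K L : Type} [Field M] [Field K] [Field L] [Algebra M K] [Algebra M L] [Algebra K L]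
  [IsScalarTower M K L]
variable {n e ρ : ℕ} {R : Subring M} {T D : Subring K} {hRT : ∀ r ∈ R, algebraMap M K r ∈ T}
  {S : Set (Place M K)}

/-- **The place of the base under a place.** -/
theorem exists_under (h : Nice n e R T D hRT S ρ) (Q : Place M L)
    (hreg : ∀ x : T, Q.Reg (((algebraMap K L).comp T.subtype) x))
    (hnt : ∃ x : K, x ≠ 0 ∧ Q.ord (algebraMap K L x) ≠ 0)
    (hdim : ∀ e', Dm T (cen Q ((algebraMap K L).comp T.subtype) hreg) e' → e ≤ e' + 1)
    (hex : ∃ e', Dm T (cen Q ((algebraMap K L).comp T.subtype) hreg) e') :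
    ∃ P ∈ S, cc h P = cen Q ((algebraMap K L).comp T.subtype) hreg ∧
      ∃ m : ℤ, 0 < m ∧ ∀ x : K, x ≠ 0 → Q.ord (algebraMap K L x) = m * P.ord x := by
  have hinj := (algebraMap K L).injective
  have hL0 : ∀ {x : K}, x ≠ 0 → algebraMap K L x ≠ 0 := fun hx => by rwa [Ne, map_eq_zero]
  have hMK : ∀ c : M, algebraMap K L (algebraMap M K c) = algebraMap M L c := fun c =>
    (IsScalarTower.algebraMap_apply M K L c).symm
  have hmem : ∀ x : T, x ∈ cen Q ((algebraMap K L).comp T.subtype) hreg ↔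
      ((x : K) = 0 ∨ 0 < Q.ord (algebraMap K L x)) := by
    intro x
    rw [mem_cen]
    show (algebraMap K L x = 0 ∨ _) ↔ _
    rw [map_eq_zero]
    rfl
  have hprime := cen_prime Q ((algebraMap K L).comp T.subtype) hreg
  -- a nonzero element of the centre
  obtain ⟨a, ha, ha0⟩ : ∃ a : T, a ∈ cen Q ((algebraMap K L).comp T.subtype) hreg ∧ a ≠ 0 := by
    by_contra hc
    push Not at hc
    have h1 : ∀ a : T, a ≠ 0 → Q.ord (algebraMap K L a) = 0 := by
      intro a ha0
      have haK : (a : K) ≠ 0 := fun hh => ha0 (Subtype.ext hh)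
      have h2 := (Q.reg_iff (hL0 haK)).1 (hreg a)
      by_contra hne
      have h3 : 0 < Q.ord (algebraMap K L a) := lt_of_le_of_ne h2 (Ne.symm hne)
      exact ha0 (hc a ((hmem a).2 (Or.inr h3)))
    obtain ⟨x, hx0, hx⟩ := hnt
    obtain ⟨a, b, hb, rfl⟩ := frac_T h x
    have hbK : (b : K) ≠ 0 := fun hh => hb (Subtype.ext hh)
    have haK : (a : K) ≠ 0 := by
      intro h0
      rw [h0, zero_div] at hx0
      exact hx0 rfl
    apply hx
    rw [map_div₀, Q.ord_div (hL0 haK) (hL0 hbK), h1 a fun hh => haK (congrArg Subtype.val hh), h1 b hb,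
      sub_zero]
  have hQR : ∀ r : R, r ≠ 0 → iRT hRT r ∉ cen Q ((algebraMap K L).comp T.subtype) hreg := by
    intro r hr
    rw [hmem]
    push Not
    have hr0 : (r : M) ≠ 0 := fun hh => hr (Subtype.ext hh)
    refine ⟨iRT_ne hr, ?_⟩
    show Q.ord (algebraMap K L (algebraMap M K r)) ≤ 0
    rw [hMK, Q.ord_const hr0]
  obtain ⟨P, hP, hle⟩ := exists_cc_le h hprime ha ha0 hQR
  have hcc : cc h P = cen Q ((algebraMap K L).comp T.subtype) hreg := by
    obtain ⟨e', he', hd⟩ := cc_dm h hP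
    obtain ⟨e'', hd'⟩ := hex
    have h1 := hdim e'' hd'
    by_contra hne
    have := hd.lt hd' (lt_of_le_of_ne hle hne)
    omega
  -- the elements of `D`
  have hD : ∀ x ∈ D, Q.Reg (algebraMap K L x) := by
    intro x hx
    by_cases hx0 : x = 0
    · left
      rw [hx0, map_zero]
    obtain ⟨s, hs, hs0, hsx⟩ := h.DT x hx
    have h1 := hreg ⟨_, hsx⟩
    change Q.Reg (algebraMap K L (algebraMap M K s * x)) at h1
    have hsK : algebraMap M K s ≠ 0 := by rwa [Ne, map_eq_zero]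
    rw [Q.reg_iff (hL0 (mul_ne_zero hsK hx0)), map_mul, Q.ord_mul (hL0 hsK) (hL0 hx0), hMK,
      Q.ord_const hs0, zero_add] at h1
    exact Or.inr h1
  have hD0 : ∀ x ∈ D, x ≠ 0 → P.ord x = 0 → Q.ord (algebraMap K L x) = 0 := by
    intro x hx hx0 hPx
    obtain ⟨s, hs, hs0, hsx⟩ := h.DT x hx
    have hsK : algebraMap M K s ≠ 0 := by rwa [Ne, map_eq_zero]
    have h1 : (⟨_, hsx⟩ : T) ∉ cc h P := by
      rw [mem_cc h hP]
      push Not
      refine ⟨mul_ne_zero hsK hx0, ?_⟩
      show P.ord (algebraMap M K s * x) ≤ 0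
      rw [P.ord_mul hsK hx0, hPx, ord_c P hs0, zero_add]
    rw [hcc, hmem] at h1
    push Not at h1
    have h2 := h1.2
    change Q.ord (algebraMap K L (algebraMap M K s * x)) ≤ 0 at h2
    rw [map_mul, Q.ord_mul (hL0 hsK) (hL0 hx0), hMK, Q.ord_const hs0, zero_add] at h2
    have h3 := (Q.reg_iff (hL0 hx0)).1 (hD x hx)
    omega
  have hge : ∀ f : K, f ≠ 0 → 0 ≤ P.ord f → 0 ≤ Q.ord (algebraMap K L f) := by
    intro f hf hPf
    obtain ⟨b, hb, hb0, hPb, hbf⟩ := h.af.loc_eq hP (Or.inr hPf)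
    have h1 := (Q.reg_iff (hL0 (mul_ne_zero hb0 hf))).1 (hD _ hbf)
    rw [map_mul, Q.ord_mul (hL0 hb0) (hL0 hf), hD0 b hb hb0 hPb, zero_add] at h1
    exact h1
  have h0 : ∀ f : K, f ≠ 0 → P.ord f = 0 → Q.ord (algebraMap K L f) = 0 := by
    intro f hf h1
    have h2 := hge f hf h1.ge
    have h3 := hge f⁻¹ (inv_ne_zero hf) (by rw [P.ord_inv, h1]; simp)
    rw [map_inv₀, Q.ord_inv] at h3
    omega
  obtain ⟨π, hπ0, hπ⟩ := P.surj
  have h1 : ∀ f : K, f ≠ 0 → Q.ord (algebraMap K L f) = Q.ord (algebraMap K L π) * P.ord f := by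
    intro f hf
    have hz := zpow_ne_zero (-P.ord f) hπ0
    have h2 : Q.ord (algebraMap K L (f * π ^ (-P.ord f))) = 0 := by
      apply h0 _ (mul_ne_zero hf hz)
      rw [P.ord_mul hf hz, P.ord_zpow, hπ]
      ring
    rw [map_mul, Q.ord_mul (hL0 hf) (hL0 hz), map_zpow₀, Q.ord_zpow] at h2
    linarith
  refine ⟨P, hP, hcc, Q.ord (algebraMap K L π), ?_, h1⟩
  have h2 := hge π hπ0 (by omega)
  refine lt_of_le_of_ne h2 fun hh => ?_
  obtain ⟨x, hx0, hx⟩ := hnt
  apply hx
  rw [h1 x hx0, ← hh, zero_mul]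

end

end Pool.Agent.T6.H77.NB
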