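import Mathlib

/-!
# Dimensions of the primes of finitely generated rings
-/

set_option autoImplicit false

open Polynomial

namespace Pool.Agent.T6.H77.NB

/-- the transcendence degree over the integers -/
noncomputable def trz (B : Type) [CommRing B] : Cardinal := Algebra.trdeg ℤ B

/-- the prime `Q` has a residue field of characteristic zero and of transcendence degree `e` -/
def Dm (A : Type) [CommRing A] (Q : Ideal A) (e : ℕ) : Prop :=
  Q.IsPrime ∧ CharZero (A ⧸ Q) ∧ trz (A ⧸ Q) = e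

/-- the prime `Q` has positive residue characteristic -/
def Cp (A : Type) [CommRing A] (Q : Ideal A) : Prop := ∃ N : ℕ, N ≠ 0 ∧ (N : A) ∈ Q

section
variable {A : Type} [CommRing A]

theorem Dm.uniq {Q : Ideal A} {e e' : ℕ} (h : Dm A Q e) (h' : Dm A Q e') : e = e' := by
  have := h.2.2.symm.trans h'.2.2
  exact_mod_cast this

theorem Dm.not_Cp {Q : Ideal A} {e : ℕ} (h : Dm A Q e) : ¬ Cp A Q := by
  rintro ⟨N, hN, hQ⟩
  have := h.2.1
  have h1 : ((N : ℕ) : A ⧸ Q) = 0 := by
    rw [← map_natCast (Ideal.Quotient.mk Q)]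
    exact Ideal.Quotient.eq_zero_iff_mem.2 hQ
  exact hN (Nat.cast_eq_zero.1 h1)

theorem charZero_of_not_Cp {Q : Ideal A} (hQ : Q.IsPrime) (h : ¬ Cp A Q) : CharZero (A ⧸ Q) := by
  have : IsDomain (A ⧸ Q) := Ideal.Quotient.isDomain Q
  refine charZero_of_inj_zero fun n hn => ?_
  by_contra h0
  apply h
  refine ⟨n, h0, ?_⟩
  rw [← Ideal.Quotient.eq_zero_iff_mem, map_natCast]
  exact hn

theorem ft_surj {B C : Type} [CommRing B] [CommRing C] [h : Algebra.FiniteType ℤ B] (φ : B →+* C)
    (hφ : Function.Surjective φ) : Algebra.FiniteType ℤ C :=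
  Algebra.FiniteType.of_surjective φ.toIntAlgHom hφ

theorem dm_or [Algebra.FiniteType ℤ A] {Q : Ideal A} (hQ : Q.IsPrime) (h : ¬ Cp A Q) :
    ∃ e, Dm A Q e := by
  have : IsDomain (A ⧸ Q) := Ideal.Quotient.isDomain Q
  have h2 : trz (A ⧸ Q) < Cardinal.aleph0 := by
    unfold trz
    exact trdeg_lt_aleph0_of_finiteType
      (fin := ft_surj (Ideal.Quotient.mk Q) Ideal.Quotient.mk_surjective)
  obtain ⟨e, he⟩ := Cardinal.lt_aleph0.1 h2
  exact ⟨e, hQ, charZero_of_not_Cp hQ h, he⟩

/-- **The dimension decreases.** -/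
theorem trdeg_lt' {R₀ B C : Type} [CommRing R₀] [IsDomain R₀] [CommRing B] [IsDomain B] [Algebra R₀ B]
    [CommRing C] [IsDomain C] [Algebra R₀ C] {e : ℕ} (he : Algebra.trdeg R₀ B = e)
    (hinj : Function.Injective (algebraMap R₀ C)) (θ : B →ₐ[R₀] C) (hθ : Function.Surjective θ)
    {u : B} (hu0 : u ≠ 0) (huθ : θ u = 0) {e' : ℕ} (he' : Algebra.trdeg R₀ C = e') : e' < e := by
  have hle : e' ≤ e := by
    have h1 := trdeg_le_of_surjective θ hθ
    rw [he, he'] at h1
    exact_mod_cast h1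
  refine lt_of_le_of_ne hle fun hee => ?_
  subst hee
  have : FaithfulSMul R₀ C := (faithfulSMul_iff_algebraMap_injective _ _).2 hinj
  obtain ⟨s, hs⟩ := exists_isTranscendenceBasis R₀ C
  have hcard := hs.cardinalMk_eq_trdeg
  rw [he'] at hcard
  have hfin : Finite s := by
    rw [← Cardinal.lt_aleph0_iff_finite, hcard]
    exact Cardinal.natCast_lt_aleph0
  choose x hx using fun i : s => hθ (i : C)
  have hind : AlgebraicIndependent R₀ x := by
    have h1 : AlgebraicIndependent R₀ (θ ∘ x) := by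
      have h2 : θ ∘ x = ((↑) : s → C) := by
        funext i
        exact hx i
      rw [h2]
      exact hs.1
    exact h1.of_comp θ
  have hb : IsTranscendenceBasis R₀ x :=
    hind.isTranscendenceBasis_of_trdeg_le_of_finite (by rw [he, hcard])
  have halg := hb.isAlgebraic.isAlgebraic u
  obtain ⟨p, hp0, hp⟩ := halg.exists_nonzero_coeff_and_aeval_eq_zero
    (mem_nonZeroDivisors_of_ne_zero hu0)
  have h1 : θ ((p.coeff 0 : Algebra.adjoin R₀ (Set.range x)) : B) = 0 := by
    have h2 : aeval u p = u * aeval u p.divX + ((p.coeff 0 : Algebra.adjoin R₀ (Set.range x)) : B) := by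
      conv_lhs => rw [← Polynomial.X_mul_divX_add p]
      rw [map_add, map_mul, aeval_X, aeval_C]
      rfl
    rw [h2] at hp
    have h3 : ((p.coeff 0 : Algebra.adjoin R₀ (Set.range x)) : B) = -(u * aeval u p.divX) := by
      linear_combination hp
    rw [h3, map_neg, map_mul, huθ, zero_mul, neg_zero]
  obtain ⟨P, hP⟩ : ∃ P : MvPolynomial s R₀, MvPolynomial.aeval x P =
      ((p.coeff 0 : Algebra.adjoin R₀ (Set.range x)) : B) := by
    have h2 := (p.coeff 0).2
    have h2' := (Algebra.adjoin_range_eq_range_aeval R₀ x).le h2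
    obtain ⟨P, hP⟩ := h2'
    exact ⟨P, hP⟩
  have h3 : MvPolynomial.aeval ((↑) : s → C) P = 0 := by
    have h4 : MvPolynomial.aeval ((↑) : s → C) P = θ (MvPolynomial.aeval x P) := by
      rw [← AlgHom.comp_apply, MvPolynomial.comp_aeval]
      congr 2
      funext i
      exact (hx i).symm
    rw [h4, hP]
    exact h1
  have h5 : P = 0 := hs.1.eq_zero_of_aeval_eq_zero P h3
  rw [h5, map_zero] at hP
  exact hp0 (Subtype.ext hP.symm)

theorem trdeg_quot_lt {B : Type} [CommRing B] [IsDomain B] {e : ℕ} (he : trz B = e)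
    {C : Type} [CommRing C] [IsDomain C] [CharZero C] (θ : B →+* C) (hθ : Function.Surjective θ)
    {u : B} (hu0 : u ≠ 0) (huθ : θ u = 0) {e' : ℕ} (he' : trz C = e') : e' < e :=
  trdeg_lt' (R₀ := ℤ) he (fun a b hab => by simpa using hab) θ.toIntAlgHom hθ hu0 huθ he'

theorem Dm.lt {Q Q' : Ideal A} {e e' : ℕ} (h : Dm A Q e) (h' : Dm A Q' e') (hlt : Q < Q') :
    e' < e := by
  have hp := h.1
  have hp' := h'.1
  have := h'.2.1
  have : IsDomain (A ⧸ Q) := Ideal.Quotient.isDomain Q
  have : IsDomain (A ⧸ Q') := Ideal.Quotient.isDomain Q'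
  obtain ⟨x, hx, hx'⟩ := SetLike.exists_of_lt hlt
  refine trdeg_quot_lt h.2.2 (Ideal.Quotient.factor hlt.le) (Ideal.Quotient.factor_surjective hlt.le)
    (u := Ideal.Quotient.mk Q x) ?_ ?_ h'.2.2
  · rw [Ne, Ideal.Quotient.eq_zero_iff_mem]
    exact hx'
  · rw [Ideal.Quotient.factor_mk, Ideal.Quotient.eq_zero_iff_mem]
    exact hx

/-- the transcendence degree over `ℤ` of a field -/
theorem trdeg_int {K : Type} [Field K] [CharZero K] : trz K = Algebra.trdeg ℚ K := by
  have hZQ : Algebra.IsAlgebraic ℤ ℚ := IsLocalization.isAlgebraic (R := ℤ) (S := ℚ) (nonZeroDivisors ℤ)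
  have h5 := trdeg_add_eq ℤ ℚ (A := K)
  rw [trdeg_eq_zero (R := ℤ) (A := ℚ), zero_add] at h5
  exact h5.symm

theorem trdeg_alg {B C : Type} [CommRing B] [IsDomain B] [CharZero B] [CommRing C] [IsDomain C]
    [Algebra B C] (hinj : Function.Injective (algebraMap B C)) [Algebra.IsAlgebraic B C] :
    trz B = trz C := by
  have h1 : FaithfulSMul B C := (faithfulSMul_iff_algebraMap_injective _ _).2 hinj
  have h2 : FaithfulSMul ℤ B := (faithfulSMul_iff_algebraMap_injective _ _).2 (by
    intro a b hab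
    simpa using hab)
  have h3 := trdeg_add_eq ℤ B (A := C)
  rw [trdeg_eq_zero (R := B) (A := C), add_zero] at h3
  exact h3

/-- the kernel of a homomorphism to a field which is algebraic over the image -/
theorem dm_of {κ : Type} [Field κ] [CharZero κ] (φ : A →+* κ) {e : ℕ} (he : Algebra.trdeg ℚ κ = e)
    (h : ∀ z : κ, ∃ p : A[X], p.map φ ≠ 0 ∧ p.eval₂ φ z = 0) : Dm A (RingHom.ker φ) e := by
  have hp : (RingHom.ker φ).IsPrime := RingHom.ker_isPrime φ
  have : IsDomain (A ⧸ RingHom.ker φ) := Ideal.Quotient.isDomain _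
  let j : A ⧸ RingHom.ker φ →+* κ := RingHom.kerLift φ
  have hj : Function.Injective j := RingHom.kerLift_injective φ
  have hc : CharZero (A ⧸ RingHom.ker φ) := by
    refine ⟨fun a b hab => ?_⟩
    have h1 := congrArg j hab
    rw [map_natCast, map_natCast] at h1
    exact Nat.cast_injective h1
  let _ : Algebra (A ⧸ RingHom.ker φ) κ := j.toAlgebra
  have ha : Algebra.IsAlgebraic (A ⧸ RingHom.ker φ) κ := by
    refine ⟨fun z => ?_⟩
    obtain ⟨p, hp0, hp⟩ := h z
    have hjm : j.comp (Ideal.Quotient.mk (RingHom.ker φ)) = φ := by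
      ext a
      rfl
    refine ⟨p.map (Ideal.Quotient.mk (RingHom.ker φ)), ?_, ?_⟩
    · intro h0
      apply hp0
      rw [← hjm, ← Polynomial.map_map, h0, Polynomial.map_zero]
    · rw [Polynomial.aeval_def, Polynomial.eval₂_map]
      have : (algebraMap (A ⧸ RingHom.ker φ) κ).comp (Ideal.Quotient.mk (RingHom.ker φ)) = φ := hjm
      rw [this]
      exact hp
  refine ⟨hp, hc, ?_⟩
  rw [trdeg_alg (B := A ⧸ RingHom.ker φ) (C := κ) hj, trdeg_int, he]

end

end Pool.Agent.T6.H77.NB
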