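import Mathlib

/-!
# Ranks of abelian groups
-/

set_option autoImplicit false

namespace Pool.Agent.T6.H77.NB

section
variable {G G' X : Type} [AddCommGroup G] [AddCommGroup G'] [AddCommGroup X]

/-- the rank of the image of `U` in `G / N` -/
noncomputable def rr (U N : Submodule ℤ G) : Cardinal := Module.rank ℤ (U.map N.mkQ)

theorem rank_torsion {V W : Submodule ℤ G} (hVW : V ≤ W)
    (h : ∀ w ∈ W, ∃ m : ℤ, m ≠ 0 ∧ m • w ∈ V) : Module.rank ℤ V = Module.rank ℤ W := by
  have h1 := Submodule.rank_quotient_add_rank (V.submoduleOf W)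
  have h2 : Module.rank ℤ (W ⧸ V.submoduleOf W) = 0 := by
    rw [Module.rank_eq_zero_iff_isTorsion]
    rintro ⟨w⟩
    obtain ⟨m, hm, hw⟩ := h w w.2
    refine ⟨⟨m, mem_nonZeroDivisors_of_ne_zero hm⟩, ?_⟩
    show (Submodule.Quotient.mk (m • w) : W ⧸ V.submoduleOf W) = 0
    rw [Submodule.Quotient.mk_eq_zero]
    exact hw
  rw [h2, zero_add] at h1
  rw [← h1]
  exact (Submodule.submoduleOfEquivOfLe hVW).symm.rank_eq

theorem rank_map_add (U : Submodule ℤ G) (f : G →ₗ[ℤ] X) :
    Module.rank ℤ (U.map f) + Module.rank ℤ (U ⊓ LinearMap.ker f : Submodule ℤ G) =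
      Module.rank ℤ U := by
  have h1 := LinearMap.rank_range_add_rank_ker (f.domRestrict U)
  rw [← h1]
  congr 1
  · rw [LinearMap.range_domRestrict]
  · have e1 : (LinearMap.ker (f.domRestrict U)).map U.subtype = U ⊓ LinearMap.ker f := by
      ext x
      simp only [Submodule.mem_map, LinearMap.mem_ker, Submodule.mem_inf, Submodule.subtype_apply]
      constructor
      · rintro ⟨y, hy, rfl⟩
        exact ⟨y.2, hy⟩
      · rintro ⟨hx, hx'⟩
        exact ⟨⟨x, hx⟩, hx', rfl⟩
    rw [← e1]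
    exact (Submodule.equivMapOfInjective U.subtype Subtype.val_injective _).rank_eq.symm

theorem rr_add {U N : Submodule ℤ G} (Φ : G →ₗ[ℤ] X) (hN : N ≤ LinearMap.ker Φ) (hNU : N ≤ U) :
    Module.rank ℤ (U.map Φ) + rr (U ⊓ LinearMap.ker Φ) N = rr U N := by
  unfold rr
  rw [← rank_map_add (U.map N.mkQ) (N.liftQ Φ hN)]
  congr 1
  · have : (U.map N.mkQ).map (N.liftQ Φ hN) = U.map Φ := by
      rw [← Submodule.map_comp, Submodule.liftQ_mkQ]
    exact congrArg (fun V : Submodule ℤ X => Module.rank ℤ V) this.symm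
  · have : (U ⊓ LinearMap.ker Φ).map N.mkQ = U.map N.mkQ ⊓ LinearMap.ker (N.liftQ Φ hN) := by
      ext z
      simp only [Submodule.mem_map, Submodule.mem_inf, LinearMap.mem_ker]
      constructor
      · rintro ⟨x, ⟨hx, hx'⟩, rfl⟩
        exact ⟨⟨x, hx, rfl⟩, by rw [Submodule.mkQ_apply, Submodule.liftQ_apply]; exact hx'⟩
      · rintro ⟨⟨x, hx, rfl⟩, hx'⟩
        rw [Submodule.mkQ_apply, Submodule.liftQ_apply] at hx'
        exact ⟨x, ⟨hx, hx'⟩, rfl⟩
    rw [this]

theorem rr_map {U N : Submodule ℤ G} (ι : G →ₗ[ℤ] G') (hι : Function.Injective ι) :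
    rr (U.map ι) (N.map ι) = rr U N := by
  unfold rr
  let j : G ⧸ N →ₗ[ℤ] G' ⧸ N.map ι := N.mapQ (N.map ι) ι (Submodule.le_comap_map ι N)
  have hj : Function.Injective j := by
    rw [← LinearMap.ker_eq_bot, LinearMap.ker_eq_bot']
    rintro ⟨x⟩ hx
    have h1 : (Submodule.Quotient.mk (ι x) : G' ⧸ N.map ι) = 0 := hx
    rw [Submodule.Quotient.mk_eq_zero] at h1
    obtain ⟨y, hy, hxy⟩ := h1
    rw [← hι hxy]
    exact (Submodule.Quotient.mk_eq_zero N).2 hy
  have e1 : (U.map ι).map (N.map ι).mkQ = (U.map N.mkQ).map j := by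
    rw [← Submodule.map_comp, ← Submodule.map_comp]
    rfl
  rw [e1]
  exact (Submodule.equivMapOfInjective j hj _).rank_eq.symm

theorem rr_self {U N : Submodule ℤ G} (h : U ≤ N) : rr U N = 0 := by
  unfold rr
  have : U.map N.mkQ = ⊥ := by
    rw [eq_bot_iff]
    rintro _ ⟨x, hx, rfl⟩
    rw [Submodule.mem_bot]
    exact (Submodule.Quotient.mk_eq_zero N).2 (h hx)
  rw [this]
  exact rank_subsingleton' ℤ _

/-- a subgroup of finite exponent in a free group -/
theorem rank_full {s : Type} [Fintype s] [DecidableEq s] (V : Submodule ℤ (s → ℤ))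
    (h : ∀ i, ∃ m : ℤ, m ≠ 0 ∧ Pi.single i m ∈ V) : Module.rank ℤ V = Fintype.card s := by
  have h1 : Module.rank ℤ V = Module.rank ℤ (⊤ : Submodule ℤ (s → ℤ)) := by
    refine rank_torsion le_top fun w _ => ?_
    choose m hm hV using h
    refine ⟨∏ i, m i, Finset.prod_ne_zero_iff.2 fun i _ => hm i, ?_⟩
    have e1 : (∏ i, m i) • w = ∑ i, ((∏ j ∈ Finset.univ.erase i, m j) * w i) • Pi.single i (m i) := by
      funext k
      rw [Finset.sum_apply, Finset.sum_eq_single k]
      · rw [Pi.smul_apply, Pi.smul_apply, Pi.single_eq_same, smul_eq_mul, smul_eq_mul,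
          ← Finset.prod_erase_mul _ _ (Finset.mem_univ k)]
        ring
      · intro j _ hj
        rw [Pi.smul_apply, Pi.single_eq_of_ne hj.symm, smul_zero]
      · intro hk
        exact absurd (Finset.mem_univ k) hk
    rw [e1]
    exact V.sum_mem fun i _ => V.smul_mem _ (hV i)
  rw [h1, rank_top, rank_fun']

end

end Pool.Agent.T6.H77.NB
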