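import Pool.Agent.Helper386.D5V.Helper386_FF_Fund
import Pool.Agent.T6.H77.NB.AF
import Pool.Agent.T6.H77.NB.Rk
import Pool.Agent.T6.H77.NB.Dim

/-!
# Units of almost factorial rings, and centres of places
-/

set_option autoImplicit false

namespace Pool.Agent.T6.H77.NB

open FF

section
variable {M K : Type} [Field M] [Field K] [Algebra M K]

/-- the order as a linear map -/
noncomputable def ordL (P : Place M K) : Additive Kˣ →ₗ[ℤ] ℤ :=
  AddMonoidHom.toIntLinearMap
    { toFun := fun x => P.ord ((Additive.toMul x : Kˣ) : K)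
      map_zero' := P.ord_one
      map_add' := fun x y => P.ord_mul (Additive.toMul x).ne_zero (Additive.toMul y).ne_zero }

theorem ordL_apply (P : Place M K) (x : Kˣ) : ordL P (Additive.ofMul x) = P.ord (x : K) := rfl

/-- the group of the elements of order zero -/
def UU (S : Set (Place M K)) : Submodule ℤ (Additive Kˣ) where
  carrier := {x | ∀ P ∈ S, ordL P x = 0}
  add_mem' := fun {a b} ha hb P hP => by rw [map_add, ha P hP, hb P hP, add_zero]
  zero_mem' := fun P _ => map_zero _
  smul_mem' := fun c x hx P hP => by rw [map_smul, hx P hP, smul_zero]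

theorem mem_UU {S : Set (Place M K)} {x : Additive Kˣ} : x ∈ UU S ↔ ∀ P ∈ S, ordL P x = 0 := Iff.rfl

variable (M K) in
/-- the group of the constants -/
noncomputable def MM : Submodule ℤ (Additive Kˣ) :=
  LinearMap.range (AddMonoidHom.toIntLinearMap
    (MonoidHom.toAdditive (Units.map (algebraMap M K : M →* K))))

theorem mem_MM {x : Kˣ} : Additive.ofMul x ∈ MM M K ↔ ∃ c : M, algebraMap M K c = x := by
  constructor
  · rintro ⟨y, hy⟩
    refine ⟨((Additive.toMul y : Mˣ) : M), ?_⟩
    have h1 : Units.map (algebraMap M K : M →* K) (Additive.toMul y) = x := congrArg Additive.toMul hy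
    rw [← h1]
    rfl
  · rintro ⟨c, hc⟩
    have hc0 : c ≠ 0 := by
      rintro rfl
      rw [map_zero] at hc
      exact x.ne_zero hc.symm
    refine ⟨Additive.ofMul (Units.mk0 c hc0), ?_⟩
    apply Additive.toMul.injective
    apply Units.ext
    exact hc

theorem MM_le (S : Set (Place M K)) : MM M K ≤ UU S := by
  intro x hx P _
  obtain ⟨c, hc⟩ := mem_MM.1 (show Additive.ofMul (Additive.toMul x) ∈ MM M K from hx)
  show P.ord ((Additive.toMul x : Kˣ) : K) = 0
  rw [← hc]
  refine P.ord_const ?_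
  rintro rfl
  rw [map_zero] at hc
  exact (Additive.toMul x).ne_zero hc.symm

/-- **The units after a localization.** -/
theorem AF.rk_loc {D : Subring K} {S : Set (Place M K)} (h : AF D S) {a : K} (ha : a ∈ D)
    (ha0 : a ≠ 0) : rr (UU {P | P ∈ S ∧ P.ord a = 0}) (MM M K) =
      rr (UU S) (MM M K) + (h.fin a ha ha0).toFinset.card := by
  classical
  let s : Finset (Place M K) := (h.fin a ha ha0).toFinset
  have hs : ∀ P : s, P.1 ∈ S ∧ P.1.ord a ≠ 0 := fun P => (h.fin a ha ha0).mem_toFinset.1 P.2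
  let Φ : Additive Kˣ →ₗ[ℤ] (s → ℤ) := LinearMap.pi fun P => ordL P.1
  have hΦ : ∀ (x : Additive Kˣ) (P : s), Φ x P = ordL P.1 x := fun x P => rfl
  have hk : UU {P | P ∈ S ∧ P.ord a = 0} ⊓ LinearMap.ker Φ = UU S := by
    ext x
    rw [Submodule.mem_inf, LinearMap.mem_ker, mem_UU, mem_UU]
    constructor
    · rintro ⟨h1, h2⟩ P hP
      by_cases hPa : P.ord a = 0
      · exact h1 P ⟨hP, hPa⟩
      · have h3 : P ∈ s := (h.fin a ha ha0).mem_toFinset.2 ⟨hP, hPa⟩
        have := congrFun h2 ⟨P, h3⟩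
        rwa [hΦ] at this
    · intro h1
      refine ⟨fun P hP => h1 P hP.1, ?_⟩
      funext P
      rw [hΦ]
      exact h1 P.1 (hs P).1
  have hMk : MM M K ≤ LinearMap.ker Φ := by
    intro x hx
    rw [LinearMap.mem_ker]
    funext P
    rw [hΦ]
    exact MM_le S hx P.1 (hs P).1
  have h1 := rr_add (U := UU {P | P ∈ S ∧ P.ord a = 0}) Φ hMk (MM_le _)
  rw [hk] at h1
  rw [← h1, add_comm]
  congr 1
  rw [rank_full]
  · rw [Fintype.card_coe]
  · intro P
    obtain ⟨π, hπ⟩ := h.exists_pi
    obtain ⟨_, hpos, h0⟩ := hπ P.1 (hs P).1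
    refine ⟨P.1.ord (π P.1 : K), hpos.ne', Additive.ofMul (π P.1), ?_, ?_⟩
    · intro Q hQ
      exact h0 Q hQ.1 fun hQP => (hs P).2 (hQP ▸ hQ.2)
    · funext Q
      rw [hΦ]
      by_cases hQP : Q = P
      · subst hQP
        rw [Pi.single_eq_same]
        rfl
      · rw [Pi.single_eq_of_ne hQP]
        exact h0 Q.1 (hs Q).1 fun hh => hQP (Subtype.ext hh)

/-- the centre of a place on a ring -/
noncomputable def cen (P : Place M K) {A : Type} [CommRing A] (φ : A →+* K)
    (h : ∀ a, P.Reg (φ a)) : Ideal A :=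
  RingHom.ker (P.redHom φ h)

theorem cen_prime (P : Place M K) {A : Type} [CommRing A] (φ : A →+* K) (h : ∀ a, P.Reg (φ a)) :
    (cen P φ h).IsPrime := RingHom.ker_isPrime _

theorem mem_cen (P : Place M K) {A : Type} [CommRing A] (φ : A →+* K) (h : ∀ a, P.Reg (φ a)) (a : A) :
    a ∈ cen P φ h ↔ (φ a = 0 ∨ 0 < P.ord (φ a)) := by
  unfold cen
  rw [RingHom.mem_ker, Place.redHom_apply, P.red_eq_zero_iff (h a)]

end

end Pool.Agent.T6.H77.NB
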