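import Pool.Agent.Helper386.D5V.Helper386_FF_RR
import Pool.Agent.T6.H77.NB.Un

/-!
# Places of a function field and the primes of its affine ring
-/

set_option autoImplicit false
set_option linter.unusedSectionVars false

open Polynomial IsDedekindDomain IntermediateField

namespace Pool.Agent.T6.H77.NB

open FF

section
variable {K L : Type} [Field K] [Field L] [Algebra K L]

theorem reg_adj {P : Place K L} {t : L} (hP : P.Reg t) (a : Algebra.adjoin K {t}) :
    P.Reg (algebraMap (Algebra.adjoin K {t}) L a) := by
  obtain ⟨a, ha⟩ := a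
  change P.Reg a
  induction ha using Algebra.adjoin_induction with
  | mem x hx =>
    rw [Set.mem_singleton_iff] at hx
    subst hx
    exact hP
  | algebraMap r => exact P.reg_const r
  | add x y _ _ hx hy => exact P.reg_add hx hy
  | mul x y _ _ hx hy => exact P.reg_mul hx hy

variable [CharZero K] [h : IsFF K L]

theorem dedekind {t : L} (ht : Transcendental K t) :
    IsDedekindDomain (integralClosure (Algebra.adjoin K {t}) L) ∧
      IsFractionRing (integralClosure (Algebra.adjoin K {t}) L) L ∧
      IsScalarTower K (integralClosure (Algebra.adjoin K {t}) L) L := by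
  open scoped algebraAdjoinAdjoin in
  let A := Algebra.adjoin K {t}
  let e := Polynomial.algEquivOfTranscendental K t ht
  have hpid : IsPrincipalIdealRing A := IsPrincipalIdealRing.of_surjective e.toRingEquiv e.surjective
  have hded : IsDedekindDomain A := inferInstance
  have hfin := IsFF.finite ht
  have hchar : CharZero K⟮t⟯ := charZero_of_injective_algebraMap (algebraMap K K⟮t⟯).injective
  have hsep : Algebra.IsSeparable K⟮t⟯ L := inferInstance
  refine ⟨integralClosure.isDedekindDomain A K⟮t⟯ L,
    integralClosure.isFractionRing_of_finite_extension K⟮t⟯ L, ?_⟩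
  refine IsScalarTower.of_algebraMap_eq fun c => ?_
  rw [IsScalarTower.algebraMap_apply K A (integralClosure A L), ← IsScalarTower.algebraMap_apply A
    (integralClosure A L) L, ← IsScalarTower.algebraMap_apply K A L]

/-- a nonzero prime of the affine ring is the centre of a place -/
theorem exists_place_of_prime {t : L} (ht : Transcendental K t)
    (I : Ideal (integralClosure (Algebra.adjoin K {t}) L)) (hI : I.IsPrime) (hI0 : I ≠ ⊥) :
    ∃ P : Place K L, P.Reg t ∧ ∀ b : integralClosure (Algebra.adjoin K {t}) L,
      ((b : L) = 0 ∨ 0 < P.ord (b : L)) ↔ b ∈ I := by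
  obtain ⟨h1, h2, h3⟩ := dedekind ht
  let v : HeightOneSpectrum (integralClosure (Algebra.adjoin K {t}) L) := ⟨I, hI, hI0⟩
  refine ⟨placeOf v, ?_, fun b => ?_⟩
  · have h4 := placeOf_reg (k := K) (L := L) v
      (algebraMap (Algebra.adjoin K {t}) _ ⟨t, Algebra.self_mem_adjoin_singleton K t⟩)
    exact h4
  · have h4 := placeOf_red_eq_zero (k := K) (L := L) v b
    rw [Place.red_eq_zero_iff _ (placeOf_reg v b)] at h4
    exact h4

/-- places with the same centre are equal -/
theorem place_ext {t : L} (ht : Transcendental K t) {P P' : Place K L} (hP : P.Reg t) (hP' : P'.Reg t)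
    (hPP : ∀ b : L, IsIntegral (Algebra.adjoin K {t}) b →
      ((b = 0 ∨ 0 < P.ord b) ↔ (b = 0 ∨ 0 < P'.ord b))) : P = P' := by
  obtain ⟨h1, h2, h3⟩ := dedekind ht
  have hr : ∀ {w : Place K L}, w.Reg t → ∀ b : integralClosure (Algebra.adjoin K {t}) L,
      w.Reg (algebraMap _ L b) := fun hw b => Place.reg_of_isIntegral _ (reg_adj hw) b.2
  obtain ⟨v, rfl⟩ := exists_placeOf_eq P (hr hP)
  obtain ⟨v', rfl⟩ := exists_placeOf_eq P' (hr hP')
  congr 1
  ext b
  have e1 := placeOf_red_eq_zero (k := K) (L := L) v b
  have e2 := placeOf_red_eq_zero (k := K) (L := L) v' b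
  rw [Place.red_eq_zero_iff _ (placeOf_reg v b)] at e1
  rw [Place.red_eq_zero_iff _ (placeOf_reg v' b)] at e2
  rw [← e1, ← e2]
  exact hPP b b.2

end

end Pool.Agent.T6.H77.NB
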