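import Pool.Agent.T6.H77.NB.Ch1

/-!
# The generic points of the fibres after a localization
-/

set_option autoImplicit false
set_option linter.unusedSectionVars false
set_option linter.style.haveILetI false

open Polynomial

namespace Pool.Agent.T6.H77.NB

open FF

section
variable {K : Type} [Field K]

theorem isLoc {T : Subring K} {a : K} (ha : a ∈ T) (ha0 : a ≠ 0) :
    letI := (locI T a ha).toAlgebra; IsLocalization.Away (⟨a, ha⟩ : T) (loc T a ha) := by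
  let _ := (locI T a ha).toAlgebra
  refine (isLocalization_iff (Submonoid.powers (⟨a, ha⟩ : T)) (loc T a ha)).2 ⟨?_, ?_, ?_⟩
  · rintro ⟨y, n, rfl⟩
    have h1 : IsUnit (locI T a ha (⟨a, ha⟩ ^ n)) := by
      rw [map_pow]
      exact (loc_unit ha ha0).pow n
    exact h1
  · rintro ⟨z, n, hz⟩
    refine ⟨(⟨_, hz⟩, ⟨⟨a, ha⟩ ^ n, n, rfl⟩), ?_⟩
    apply Subtype.ext
    show z * a ^ n = a ^ n * z
    rw [mul_comm]
  · intro x y hxy
    have hinj : Function.Injective (locI T a ha) := Subring.inclusion_injective (le_loc ha)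
    exact ⟨1, by rw [hinj hxy]⟩

/-- the primes of a localization -/
theorem loc_exists {T : Subring K} {a : K} (ha : a ∈ T) (ha0 : a ≠ 0) (P : Ideal T) (hP : P.IsPrime)
    (haP : (⟨a, ha⟩ : T) ∉ P) : ∃ Q : Ideal (loc T a ha), Q.IsPrime ∧ Q.comap (locI T a ha) = P := by
  let _ := (locI T a ha).toAlgebra
  have hl := isLoc ha ha0
  have hd : Disjoint ((Submonoid.powers (⟨a, ha⟩ : T) : Submonoid T) : Set T) (P : Set T) := by
    rw [Set.disjoint_left]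
    rintro _ ⟨n, rfl⟩ hn
    exact haP (hP.mem_of_pow_mem n hn)
  exact ⟨P.map (locI T a ha), IsLocalization.isPrime_of_isPrime_disjoint _ _ P hP hd,
    IsLocalization.under_map_of_isPrime_disjoint (Submonoid.powers (⟨a, ha⟩ : T)) (loc T a ha) hP hd⟩

theorem loc_le {T : Subring K} {a : K} (ha : a ∈ T) (ha0 : a ≠ 0) {Q Q' : Ideal (loc T a ha)}
    (h : Q.comap (locI T a ha) ≤ Q'.comap (locI T a ha)) : Q ≤ Q' := by
  rintro ⟨x, n, hx⟩ hxQ
  have h1 : (⟨_, hx⟩ : T) ∈ Q.comap (locI T a ha) := by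
    rw [Ideal.mem_comap]
    exact Q.mul_mem_left (locI T a ha (⟨a, ha⟩ ^ n)) hxQ
  have h2 := h h1
  rw [Ideal.mem_comap] at h2
  have h3 : locI T a ha (⟨a, ha⟩ ^ n) * ⟨x, n, hx⟩ ∈ Q' := h2
  have hu : IsUnit (locI T a ha (⟨a, ha⟩ ^ n)) := by
    rw [map_pow]
    exact (loc_unit ha ha0).pow n
  obtain ⟨u, hu⟩ := hu
  rw [← hu] at h3
  have h4 := Q'.mul_mem_left ((u⁻¹ : (loc T a ha)ˣ) : loc T a ha) h3
  rwa [← mul_assoc, Units.inv_mul, one_mul] at h4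

theorem loc_dm {T : Subring K} {a : K} (ha : a ∈ T) (ha0 : a ≠ 0) (Q : Ideal (loc T a ha))
    (hQ : Q.IsPrime) (e : ℕ) : Dm T (Q.comap (locI T a ha)) e ↔ Dm (loc T a ha) Q e := by
  refine dm_comap (locI T a ha) Q hQ ?_ e
  rintro ⟨x, n, hx⟩
  have hu : IsUnit (locI T a ha (⟨a, ha⟩ ^ n)) := by
    rw [map_pow]
    exact (loc_unit ha ha0).pow n
  refine ⟨Polynomial.C (⟨a, ha⟩ ^ n : T) * Polynomial.X - Polynomial.C (⟨_, hx⟩ : T), ?_, ?_⟩
  · intro h0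
    have h6 := congrArg (fun p => Polynomial.coeff p 1) h0
    simp only [Polynomial.map_sub, Polynomial.map_mul, Polynomial.map_C, Polynomial.map_X,
      Polynomial.coeff_sub, Polynomial.coeff_C_mul, Polynomial.coeff_X_one, mul_one,
      Polynomial.coeff_C_succ, sub_zero, Polynomial.coeff_zero] at h6
    rw [RingHom.comp_apply, Ideal.Quotient.eq_zero_iff_mem] at h6
    exact hQ.ne_top (Ideal.eq_top_of_isUnit_mem _ h6 hu)
  · rw [Polynomial.eval₂_sub, Polynomial.eval₂_mul, Polynomial.eval₂_C, Polynomial.eval₂_X,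
      Polynomial.eval₂_C, RingHom.comp_apply, RingHom.comp_apply, ← map_mul, ← map_sub,
      Ideal.Quotient.eq_zero_iff_mem]
    have h7 : locI T a ha (⟨a, ha⟩ ^ n) * ⟨x, n, hx⟩ - locI T a ha ⟨a ^ n * x, hx⟩ = 0 := by
      apply Subtype.ext
      show a ^ n * x - a ^ n * x = 0
      rw [sub_self]
    rw [h7]
    exact Ideal.zero_mem _

end

/-- every point of the base has a generic point of its fibre -/
def FibP {X Y : Type} [CommRing X] [CommRing Y] (f : X →+* Y) : Prop :=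
  ∀ 𝔭 : Ideal X, 𝔭.IsPrime → ∃ 𝔮 : Ideal Y, 𝔮.IsPrime ∧ 𝔮.comap f = 𝔭 ∧
    (∀ e, Dm X 𝔭 e → Dm Y 𝔮 (e + 1)) ∧ ∀ 𝔮' : Ideal Y, 𝔮'.IsPrime → 𝔮'.comap f = 𝔭 → 𝔮 ≤ 𝔮'

section
variable {K L : Type} [Field K] [Field L] [Algebra K L]
variable {T : Subring K} {t : L} {A : Subring L}

theorem Chart.fib_loc (h : Chart T t A) (g : T[X]) (N : T) (hN : N ≠ 0)
    (hg : ∀ 𝔭 : Ideal T, 𝔭.IsPrime → N ∉ 𝔭 → ∃ i, g.coeff i ∉ 𝔭) {b : L} (hb : b ∈ A) (hb0 : b ≠ 0)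
    (hbe : (⟨b, hb⟩ : A) = evT h.TA h.tA g * iRT h.TA N)
    (hTE : ∀ r ∈ loc T (N : K) N.2, algebraMap K L r ∈ loc A b hb) :
    FibP (iRT hTE) := by
  have hNK : (N : K) ≠ 0 := fun hh => hN (Subtype.ext hh)
  have hcomp : (iRT hTE).comp (locI T N N.2) = (locI A b hb).comp (iRT h.TA) := by
    ext x
    rfl
  intro 𝔭₂ h𝔭₂
  have hp : (𝔭₂.comap (locI T N N.2)).IsPrime := Ideal.comap_isPrime _ _
  have hN𝔭 : N ∉ 𝔭₂.comap (locI T N N.2) := by
    intro hh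
    exact h𝔭₂.ne_top (Ideal.eq_top_of_isUnit_mem _ hh (loc_unit N.2 hNK))
  have hq := h.fib (𝔭₂.comap (locI T N N.2))
  have hbq : (⟨b, hb⟩ : A) ∉ Qp h.TA (𝔭₂.comap (locI T N N.2)) := by
    rw [hbe]
    intro hh
    rcases hq.mem_or_mem hh with h1 | h1
    · obtain ⟨i, hi⟩ := hg _ hp hN𝔭
      exact h.evT_notMem _ hi h1
    · have h2 : N ∈ (Qp h.TA (𝔭₂.comap (locI T N N.2))).comap (iRT h.TA) := h1
      rw [h.comap_Qp] at h2
      exact hN𝔭 h2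
  obtain ⟨𝔮, h𝔮, hc⟩ := loc_exists hb hb0 _ hq hbq
  have hcc : (𝔮.comap (iRT hTE)).comap (locI T N N.2) = 𝔭₂.comap (locI T N N.2) := by
    rw [Ideal.comap_comap, hcomp, ← Ideal.comap_comap, hc, h.comap_Qp]
  refine ⟨𝔮, h𝔮, ?_, ?_, ?_⟩
  · exact le_antisymm (loc_le N.2 hNK hcc.le) (loc_le N.2 hNK hcc.ge)
  · intro e hd
    rw [← loc_dm hb hb0 𝔮 h𝔮, hc]
    apply h.dm_Qp
    rwa [loc_dm N.2 hNK 𝔭₂ h𝔭₂]
  · intro 𝔮' h𝔮' hc'
    apply loc_le hb hb0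
    rw [hc]
    refine Qp_le (Ideal.comap_isPrime _ _) ?_
    rw [Ideal.comap_comap, ← hcomp, ← Ideal.comap_comap, hc']

end

end Pool.Agent.T6.H77.NB
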