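import Pool.Agent.T6.H77.NB.Al1
import Pool.Agent.T6.H77.NB.Fib
import Pool.Agent.T6.H77.NB.Ded

/-!
# The vertical and the horizontal places
-/

set_option autoImplicit false
set_option linter.unusedSectionVars false
set_option linter.style.haveILetI false

open Polynomial

namespace Pool.Agent.T6.H77.NB

open FF
open Pool.Agent.R410.NG (Ff Asy)

section
variable {M K L : Type} [Field M] [Field K] [Field L] [Algebra M K] [Algebra M L] [Algebra K L]
  [IsScalarTower M K L]
variable {n n' e ρK ρL : ℕ} {R : Subring M} {T DK : Subring K} {E DL : Subring L}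
  {hRT : ∀ r ∈ R, algebraMap M K r ∈ T} {hRE : ∀ r ∈ R, algebraMap M L r ∈ E}
  {SK : Set (Place M K)} {SL : Set (Place M L)}
variable (hK : Nice n e R T DK hRT SK ρK) (hL : Nice n' (e + 1) R E DL hRE SL ρL)
  (hTE : ∀ r ∈ T, algebraMap K L r ∈ E)

theorem comap_cc {Q : Place M L} (hQ : Q ∈ SL)
    (hreg : ∀ x : T, Q.Reg (((algebraMap K L).comp T.subtype) x)) :
    (cc hL Q).comap (iRT hTE) = cen Q ((algebraMap K L).comp T.subtype) hreg := by
  ext x
  rw [Ideal.mem_comap, mem_cc hL hQ, mem_cen]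
  rfl

include hL hTE in
theorem hregT {Q : Place M L} (hQ : Q ∈ SL) (x : T) :
    Q.Reg (((algebraMap K L).comp T.subtype) x) := regT hL hQ (iRT hTE x)

include hL in
/-- the vertical places lie over places of the base -/
theorem vert1 (hfib : FibP (iRT hTE)) {Q : Place M L} (hQ : Q ∈ SL)
    (hnt : ∃ x : K, x ≠ 0 ∧ Q.ord (algebraMap K L x) ≠ 0) :
    ∃ P ∈ SK, cc hK P = (cc hL Q).comap (iRT hTE) ∧
      ∃ m : ℤ, 0 < m ∧ ∀ x : K, x ≠ 0 → Q.ord (algebraMap K L x) = m * P.ord x := by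
  have hTft := hK.Tft
  rw [comap_cc hL hTE hQ (hregT hL hTE hQ)]
  obtain ⟨e₁, he₁, hd₁⟩ := cc_dm hL hQ
  have he₁' : e₁ = e := by omega
  subst he₁'
  have hp : ((cc hL Q).comap (iRT hTE)).IsPrime := by
    have := cc_prime hL hQ
    exact Ideal.comap_isPrime _ _
  refine exists_under hK Q (hregT hL hTE hQ) hnt ?_ ?_
  · intro e' hd'
    rw [← comap_cc hL hTE hQ] at hd'
    obtain ⟨𝔮₀, h𝔮₀, hc, hd, hmin⟩ := hfib _ hp
    have h1 := hmin _ (cc_prime hL hQ) rfl
    have h2 := hd e' hd'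
    rcases eq_or_lt_of_le h1 with h3 | h3
    · rw [h3] at h2
      exact (hd₁.uniq h2).le
    · exact (h2.lt hd₁ h3).le
  · rw [← comap_cc hL hTE hQ]
    refine dm_or hp ?_
    rintro ⟨m, hm, hm'⟩
    refine hd₁.not_Cp ⟨m, hm, ?_⟩
    rw [Ideal.mem_comap, map_natCast] at hm'
    exact hm'

/-- the place over a place of the base is unique -/
theorem vert2 (hfib : FibP (iRT hTE)) {P : Place M K} (hP : P ∈ SK) {Q Q' : Place M L} (hQ : Q ∈ SL)
    (hQ' : Q' ∈ SL) (h1 : (cc hL Q).comap (iRT hTE) = cc hK P)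
    (h2 : (cc hL Q').comap (iRT hTE) = cc hK P) : Q = Q' := by
  obtain ⟨𝔮₀, h𝔮₀, hc, hd, hmin⟩ := hfib _ (cc_prime hK hP)
  obtain ⟨e', he', hdP⟩ := cc_dm hK hP
  have h3 := hd e' hdP
  have key : ∀ Q : Place M L, Q ∈ SL → (cc hL Q).comap (iRT hTE) = cc hK P → 𝔮₀ = cc hL Q := by
    intro Q hQ h1
    obtain ⟨e₁, he₁, hd₁⟩ := cc_dm hL hQ
    have h4 := hmin _ (cc_prime hL hQ) h1
    by_contra hne
    have := h3.lt hd₁ (lt_of_le_of_ne h4 hne)
    omega
  exact cc_le hL hQ hQ' (by rw [← key Q hQ h1, ← key Q' hQ' h2])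

/-- there is a place over a place of the base -/
theorem vert3 (hfib : FibP (iRT hTE)) {P : Place M K} (hP : P ∈ SK) :
    ∃ Q ∈ SL, (cc hL Q).comap (iRT hTE) = cc hK P := by
  obtain ⟨𝔮₀, h𝔮₀, hc, hd, hmin⟩ := hfib _ (cc_prime hK hP)
  obtain ⟨e', he', hdP⟩ := cc_dm hK hP
  have h3 := hd e' hdP
  -- a nonzero element
  obtain ⟨π, hπ, hπ0, hpos, -⟩ := hK.af.unif P hP
  obtain ⟨s, hs, hs0, hsπ⟩ := hK.DT π hπ
  have hsK : algebraMap M K s ≠ 0 := by rwa [Ne, map_eq_zero]
  have h4 : (⟨_, hsπ⟩ : T) ∈ cc hK P := by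
    rw [mem_cc hK hP]
    right
    show 0 < P.ord (algebraMap M K s * π)
    rw [P.ord_mul hsK hπ0, ord_c P hs0, zero_add]
    exact hpos
  rw [← hc, Ideal.mem_comap] at h4
  obtain ⟨Q, hQ, hle⟩ := exists_cc_le hL h𝔮₀ h4 (by
    intro hh
    have h5 : algebraMap K L (algebraMap M K s * π) = 0 := congrArg Subtype.val hh
    rw [map_eq_zero] at h5
    exact mul_ne_zero hsK hπ0 h5) (by
    intro r hr hh
    apply cc_not_const hK hP hr
    rw [← hc, Ideal.mem_comap]
    convert hh using 1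
    apply Subtype.ext
    show algebraMap K L (algebraMap M K r) = algebraMap M L r
    exact (IsScalarTower.algebraMap_apply M K L (r : M)).symm)
  refine ⟨Q, hQ, ?_⟩
  obtain ⟨e₁, he₁, hd₁⟩ := cc_dm hL hQ
  rcases eq_or_lt_of_le hle with h5 | h5
  · rw [h5, hc]
  · have := hd₁.lt h3 h5
    omega

/-- restriction of scalars -/
def resM (M : Type) [Field M] [Algebra M K] [Algebra M L] [IsScalarTower M K L] (P : Place K L) :
    Place M L where
  ord := P.ord
  ord_zero := P.ord_zero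
  ord_mul := P.ord_mul
  ord_add := P.ord_add
  ord_const := by
    intro c hc
    rw [IsScalarTower.algebraMap_apply M K L]
    exact P.ord_const (by rwa [Ne, map_eq_zero])
  surj := P.surj

theorem resM_inj {P P' : Place K L} (h : resM M P = resM M P') : P = P' := by
  ext x
  have : (resM M P).ord x = (resM M P').ord x := by rw [h]
  exact this

/-- a horizontal place -/
def extK (Q : Place M L) (h : ∀ x : K, x ≠ 0 → Q.ord (algebraMap K L x) = 0) : Place K L where
  ord := Q.ord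
  ord_zero := Q.ord_zero
  ord_mul := Q.ord_mul
  ord_add := Q.ord_add
  ord_const := fun {c} hc => h c hc
  surj := Q.surj

variable [CharZero K] [hff : IsFF K L]

include hK in
theorem dm_hor (he : Algebra.trdeg ℚ K = e) (hTE : ∀ r ∈ T, algebraMap K L r ∈ E) (P : Place K L)
    (hP : ∀ x : E, P.Reg (E.subtype x)) : Dm E (cen P E.subtype hP) e := by
  have : CharZero P.RF := charZero_of_injective_algebraMap (algebraMap K P.RF).injective
  have hfr : IsFractionRing T K := by
    refine IsFractionRing.of_field T K fun z => ?_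
    obtain ⟨a, b, hb, rfl⟩ := frac_T hK z
    exact ⟨a, b, rfl⟩
  have h3 : Algebra.IsAlgebraic K P.RF := Algebra.IsAlgebraic.of_finite K P.RF
  have htr : Algebra.trdeg ℚ P.RF = e := by
    have h2 := trdeg_add_eq ℚ K (A := P.RF)
    rw [he, trdeg_eq_zero (R := K) (A := P.RF), add_zero] at h2
    exact h2.symm
  unfold cen
  refine dm_of (P.redHom E.subtype hP) htr fun z => ?_
  let φ : T →+* P.RF := (P.redHom E.subtype hP).comp (iRT hTE)
  have hφ : ∀ s : T, φ s = algebraMap K P.RF s := fun s => rfl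
  let _ : Algebra T P.RF := φ.toAlgebra
  have hsc : IsScalarTower T K P.RF := IsScalarTower.of_algebraMap_eq fun s => hφ s
  have h4 : IsAlgebraic T z := (IsFractionRing.isAlgebraic_iff T K P.RF).2 (h3.isAlgebraic z)
  obtain ⟨p, hp0, hp⟩ := h4
  have hinj : Function.Injective φ := by
    intro a b hab
    rw [hφ, hφ] at hab
    exact Subtype.ext ((algebraMap K P.RF).injective hab)
  refine ⟨p.map (iRT hTE), ?_, ?_⟩
  · rw [Polynomial.map_map]
    exact (Polynomial.map_ne_zero_iff hinj).2 hp0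
  · rw [Polynomial.eval₂_map]
    exact hp

include hK hL hTE in
/-- a horizontal place which is regular on `E` -/
theorem hor1 (he : Algebra.trdeg ℚ K = e) (P : Place K L)
    (hP : ∀ x : E, P.Reg (E.subtype x)) : resM M P ∈ SL := by
  have hd := dm_hor hK he hTE P hP
  have hreg : ∀ x : E, (resM M P).Reg (((algebraMap L L).comp E.subtype) x) := hP
  have hcen : cen (resM M P) ((algebraMap L L).comp E.subtype) hreg = cen P E.subtype hP := by
    ext x
    rw [mem_cen, mem_cen]
    rfl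
  obtain ⟨Q, hQ, -, m, hm, hQm⟩ := exists_under (L := L) hL (resM M P) hreg (by
    obtain ⟨x, hx0, hx⟩ := P.surj
    refine ⟨x, hx0, ?_⟩
    show P.ord x ≠ 0
    omega) (by
    intro e' hd'
    rw [hcen] at hd'
    rw [hd.uniq hd']) ⟨e, hcen ▸ hd⟩
  have hm1 : m = 1 := by
    obtain ⟨x, hx0, hx⟩ := P.surj
    have h1 := hQm x hx0
    change P.ord x = _ at h1
    rw [hx] at h1
    have : m ∣ 1 := ⟨_, h1⟩
    exact Int.eq_one_of_dvd_one hm.le this
  have : resM M P = Q := by
    ext x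
    by_cases hx : x = 0
    · rw [hx, Place.ord_zero, Place.ord_zero]
    · have h1 := hQm x hx
      rw [hm1, one_mul] at h1
      exact h1
  rw [this]
  exact hQ

include hK hL hTE in
/-- the units of the model have no zeros and no poles on the curve outside the boundary -/
theorem unit_hor (he : Algebra.trdeg ℚ K = e) {x : Lˣ} (hx : Additive.ofMul x ∈ UU SL)
    (P : Place K L) (hP : ∀ x : E, P.Reg (E.subtype x)) : P.ord (x : L) = 0 :=
  hx _ (hor1 hK hL hTE he P hP)

include hK hL hTE in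
/-- a function with a zero at a given place -/
theorem unif_hor (he : Algebra.trdeg ℚ K = e) (P : Place K L) (hP : ∀ x : E, P.Reg (E.subtype x)) :
    ∃ π : L, π ≠ 0 ∧ 0 < P.ord π ∧ ∀ P' : Place K L, (∀ x : E, P'.Reg (E.subtype x)) → P' ≠ P →
      P'.ord π = 0 := by
  obtain ⟨π, -, hπ0, hpos, h0⟩ := hL.af.unif _ (hor1 hK hL hTE he P hP)
  refine ⟨π, hπ0, hpos, fun P' hP' hne => ?_⟩
  exact h0 _ (hor1 hK hL hTE he P' hP') fun hh => hne (resM_inj hh)

omit [CharZero K] hff in
include hL in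
/-- a horizontal place of the model -/
theorem hor2 {Q : Place M L} (hQ : Q ∈ SL) (h : ∀ x : K, x ≠ 0 → Q.ord (algebraMap K L x) = 0)
    (x : E) : (extK Q h).Reg (E.subtype x) := regT hL hQ x

omit [CharZero K] hff in
include hK hL in
/-- the units of the base -/
theorem unit_iff_K (hfib : FibP (iRT hTE)) (y : Kˣ) :
    (∀ P ∈ SK, P.ord (y : K) = 0) ↔ ∀ Q ∈ SL, Q.ord (algebraMap K L y) = 0 := by
  constructor
  · intro h Q hQ
    by_contra hne
    obtain ⟨P, hP, -, m, hm, hPm⟩ := vert1 hK hL hTE hfib hQ ⟨y, y.ne_zero, hne⟩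
    rw [hPm y y.ne_zero, h P hP, mul_zero] at hne
    exact hne rfl
  · intro h P hP
    obtain ⟨Q, hQ, hc⟩ := vert3 hK hL hTE hfib hP
    have hnt : ∃ x : K, x ≠ 0 ∧ Q.ord (algebraMap K L x) ≠ 0 := by
      by_contra hcon
      push Not at hcon
      obtain ⟨π, hπ, hπ0, hpos, -⟩ := hK.af.unif P hP
      obtain ⟨s, hs, hs0, hsπ⟩ := hK.DT π hπ
      have hsK : algebraMap M K s ≠ 0 := by rwa [Ne, map_eq_zero]
      have h4 : (⟨_, hsπ⟩ : T) ∈ cc hK P := by
        rw [mem_cc hK hP]
        right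
        show 0 < P.ord (algebraMap M K s * π)
        rw [P.ord_mul hsK hπ0, ord_c P hs0, zero_add]
        exact hpos
      rw [← hc, Ideal.mem_comap, mem_cc hL hQ] at h4
      rcases h4 with h5 | h5
      · change algebraMap K L (algebraMap M K s * π) = 0 at h5
        rw [map_eq_zero] at h5
        exact mul_ne_zero hsK hπ0 h5
      · change 0 < Q.ord (algebraMap K L (algebraMap M K s * π)) at h5
        rw [hcon _ (mul_ne_zero hsK hπ0)] at h5
        exact lt_irrefl _ h5
    obtain ⟨P', hP', hc', m, hm, hPm⟩ := vert1 hK hL hTE hfib hQ hnt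
    have hPP : P' = P := cc_le hK hP' hP (by rw [hc', hc])
    subst hPP
    have h1 := h Q hQ
    rw [hPm y y.ne_zero] at h1
    rcases mul_eq_zero.1 h1 with h2 | h2
    · omega
    · exact h2

end

end Pool.Agent.T6.H77.NB
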