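import Pool.Agent.T6.H77.NB.Al2

/-!
# Removing the vertical part of a divisor
-/

set_option autoImplicit false
set_option linter.unusedSectionVars false
set_option linter.style.haveILetI false

open Polynomial

namespace Pool.Agent.T6.H77.NB

open FF
open Pool.Agent.R410.NG (Ff Asy)

section
variable {M K L : Type} [Field M] [Field K] [Field L] [Algebra M K] [Algebra M L] [Algebra K L]
  [IsScalarTower M K L]
variable {n n' e ρK ρL : ℕ} {R : Subring M} {T DK : Subring K} {E DL : Subring L}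
  {hRT : ∀ r ∈ R, algebraMap M K r ∈ T} {hRE : ∀ r ∈ R, algebraMap M L r ∈ E}
  {SK : Set (Place M K)} {SL : Set (Place M L)}

/-- **Removing the vertical part.** -/
theorem vert_fix (hK : Nice n e R T DK hRT SK ρK) (hL : Nice n' (e + 1) R E DL hRE SL ρL)
    (hTE : ∀ r ∈ T, algebraMap K L r ∈ E) (hfib : FibP (iRT hTE)) (x : Lˣ)
    (hx : ∀ P : Place K L, (∀ z : E, P.Reg (E.subtype z)) → P.ord (x : L) = 0) :
    ∃ (m : ℤ) (y : Kˣ), m ≠ 0 ∧ ∀ Q ∈ SL,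
      Q.ord ((x ^ m * Units.map (algebraMap K L : K →* L) y : Lˣ) : L) = 0 := by
  classical
  have hL0 : ∀ {x : K}, x ≠ 0 → algebraMap K L x ≠ 0 := fun hx => by rwa [Ne, map_eq_zero]
  let B : Finset (Place M L) := (hL.af.fin' x.ne_zero).toFinset
  have hB : ∀ Q, Q ∈ B ↔ (Q ∈ SL ∧ Q.ord (x : L) ≠ 0) := fun Q =>
    (hL.af.fin' x.ne_zero).mem_toFinset
  -- horizontal places
  have htriv : ∀ Q ∈ SL, (∀ z : K, z ≠ 0 → Q.ord (algebraMap K L z) = 0) → Q.ord (x : L) = 0 := by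
    intro Q hQ h0
    exact hx (extK Q h0) (hor2 hL hQ h0)
  have hchoose : ∀ Q : B, ∃ (P : Place M K) (m : ℤ), 0 < m ∧ P ∈ SK ∧
      cc hK P = (cc hL Q.1).comap (iRT hTE) ∧
        ∀ z : K, z ≠ 0 → Q.1.ord (algebraMap K L z) = m * P.ord z := by
    intro Q
    obtain ⟨hQ, hne⟩ := (hB Q.1).1 Q.2
    have hnt : ∃ z : K, z ≠ 0 ∧ Q.1.ord (algebraMap K L z) ≠ 0 := by
      by_contra hc
      push Not at hc
      exact hne (htriv Q.1 hQ hc)
    obtain ⟨P, hP, hc, m, hm, hPm⟩ := vert1 hK hL hTE hfib hQ hnt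
    exact ⟨P, m, hm, hP, hc, hPm⟩
  choose pB mB hmB hpB hcB hordB using hchoose
  let s : Finset (Place M K) := B.attach.image pB
  have hs : ∀ P ∈ s, P ∈ SK := by
    intro P hP
    obtain ⟨Q, -, rfl⟩ := Finset.mem_image.1 hP
    exact hpB Q
  obtain ⟨π, hπ⟩ := hK.af.exists_pi
  obtain ⟨m₀, hm₀, -, happ⟩ := AF.approx hπ s hs
  have huniq : ∀ Q Q' : B, pB Q = pB Q' → Q = Q' := by
    intro Q Q' hh
    apply Subtype.ext
    refine vert2 hK hL hTE hfib (hpB Q) ((hB Q.1).1 Q.2).1 ((hB Q'.1).1 Q'.2).1 (hcB Q).symm ?_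
    rw [hh]
    exact (hcB Q').symm
  let nP : Place M K → ℤ := fun P => -∑ Q ∈ B.attach.filter (fun Q => pB Q = P),
    Q.1.ord (x : L) * ∏ Q' ∈ B.attach.erase Q, mB Q'
  have hnP : ∀ Q : B, nP (pB Q) = -(Q.1.ord (x : L) * ∏ Q' ∈ B.attach.erase Q, mB Q') := by
    intro Q
    have h1 : B.attach.filter (fun Q' => pB Q' = pB Q) = {Q} := by
      ext Q'
      rw [Finset.mem_filter, Finset.mem_singleton]
      constructor
      · rintro ⟨-, h2⟩
        exact huniq _ _ h2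
      · rintro rfl
        exact ⟨Finset.mem_attach _ _, rfl⟩
    show -∑ Q' ∈ B.attach.filter (fun Q' => pB Q' = pB Q), _ = _
    rw [h1, Finset.sum_singleton]
  set y : Kˣ := ∏ P ∈ s, π P ^ (nP P * ((m₀ : ℤ) / P.ord (π P : K))) with hy
  have hyo : ∀ P ∈ SK, P.ord (y : K) = if P ∈ s then (m₀ : ℤ) * nP P else 0 := fun P hP =>
    happ nP P hP
  refine ⟨(m₀ : ℤ) * ∏ Q' ∈ B.attach, mB Q', y, ?_, ?_⟩
  · refine mul_ne_zero (by exact_mod_cast hm₀.ne') ?_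
    exact Finset.prod_ne_zero_iff.2 fun Q _ => (hmB Q).ne'
  intro Q hQ
  rw [Units.val_mul, Q.ord_mul (Units.ne_zero _) (Units.ne_zero _), ord_upow]
  show _ * Q.ord (x : L) + Q.ord (algebraMap K L (y : K)) = 0
  by_cases hnt : ∃ z : K, z ≠ 0 ∧ Q.ord (algebraMap K L z) ≠ 0
  · by_cases hQB : Q ∈ B
    · rw [hordB ⟨Q, hQB⟩ y y.ne_zero, hyo _ (hpB ⟨Q, hQB⟩), if_pos (Finset.mem_image.2
        ⟨⟨Q, hQB⟩, Finset.mem_attach _ _, rfl⟩), hnP ⟨Q, hQB⟩,
        ← Finset.mul_prod_erase _ _ (Finset.mem_attach _ ⟨Q, hQB⟩)]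
      ring
    · have h1 : Q.ord (x : L) = 0 := by
        by_contra hne
        exact hQB ((hB Q).2 ⟨hQ, hne⟩)
      obtain ⟨P, hP, hc, m, hm, hPm⟩ := vert1 hK hL hTE hfib hQ hnt
      rw [h1, mul_zero, zero_add, hPm y y.ne_zero, hyo P hP, if_neg, mul_zero]
      intro hPs
      obtain ⟨Q', -, hQ'⟩ := Finset.mem_image.1 hPs
      apply hQB
      have h2 : Q'.1 = Q := vert2 hK hL hTE hfib hP ((hB Q'.1).1 Q'.2).1 hQ
        (by rw [← hcB Q', hQ']) hc.symm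
      rw [← h2]
      exact Q'.2
  · push Not at hnt
    rw [htriv Q hQ hnt, hnt y y.ne_zero, mul_zero, zero_add]

end

end Pool.Agent.T6.H77.NB
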