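import Pool.Agent.Helper386.D5V.Helper386_FF_RR
import Pool.Agent.T6.H77.NB.Rk

/-!
# The group of the divisor classes of degree zero of a function field in one variable
-/

set_option autoImplicit false
set_option linter.unusedSectionVars false

namespace Pool.Agent.T6.H77.NB

open FF

section
variable (K L : Type) [Field K] [Field L] [Algebra K L] [CharZero K] [hff : IsFF K L]

/-- the divisor of a function, as a linear map -/
noncomputable def dvL : Additive Lˣ →ₗ[ℤ] (Place K L →₀ ℤ) :=
  AddMonoidHom.toIntLinearMap
    { toFun := fun x => divisor K ((Additive.toMul x : Lˣ) : L)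
      map_zero' := by
        ext P
        exact P.ord_one
      map_add' := fun x y => divisor_mul (Additive.toMul x).ne_zero (Additive.toMul y).ne_zero }

/-- the principal divisors -/
noncomputable def Prin : Submodule ℤ (Place K L →₀ ℤ) := LinearMap.range (dvL K L)

/-- the degree, as a linear map -/
noncomputable def dgL : (Place K L →₀ ℤ) →ₗ[ℤ] ℤ :=
  AddMonoidHom.toIntLinearMap
    { toFun := fun D => ddeg D
      map_zero' := ddeg_zero
      map_add' := ddeg_add }

/-- the divisors of degree zero -/
noncomputable def DivZ : Submodule ℤ (Place K L →₀ ℤ) := LinearMap.ker (dgL K L)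

theorem Prin_le : Prin K L ≤ DivZ K L := by
  rintro _ ⟨x, rfl⟩
  show ddeg (divisor K ((Additive.toMul x : Lˣ) : L)) = 0
  exact ddeg_divisor _

/-- the rank of the group of the divisor classes of degree zero: the rank of the image of the divisors
of degree zero in the quotient by the principal divisors -/
noncomputable def picRank : Cardinal := rr (DivZ K L) (Prin K L)

end

end Pool.Agent.T6.H77.NB
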