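import Pool.Agent.T6.H77.NB.Al3
import Pool.Agent.T6.H77.NB.Pic

/-!
# The rank of the group of the divisor classes of degree zero
-/

set_option autoImplicit false
set_option linter.unusedSectionVars false
set_option linter.style.haveILetI false

open Polynomial

namespace Pool.Agent.T6.H77.NB

open FF
open Pool.Agent.R410.NG (Ff Asy)

theorem rank_pos_int (V : Submodule ℤ ℤ) (hV : V ≠ ⊥) : Module.rank ℤ V = 1 := by
  obtain ⟨x, hx, hx0⟩ := (Submodule.ne_bot_iff V).1 hV
  have h1 : Module.rank ℤ V = Module.rank ℤ (⊤ : Submodule ℤ ℤ) := by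
    refine rank_torsion le_top fun w _ => ⟨x, hx0, ?_⟩
    rw [smul_eq_mul, mul_comm, ← smul_eq_mul]
    exact V.smul_mem w hx
  rw [h1, rank_top, Module.rank_self]

section
variable {M K L : Type} [Field M] [Field K] [Field L] [Algebra M K] [Algebra M L] [Algebra K L]
  [IsScalarTower M K L] [CharZero K] [hff : IsFF K L]
variable {n n' e ρK ρL : ℕ} {R : Subring M} {T DK : Subring K} {E DL : Subring L}
  {hRT : ∀ r ∈ R, algebraMap M K r ∈ T} {hRE : ∀ r ∈ R, algebraMap M L r ∈ E}
  {SK : Set (Place M K)} {SL : Set (Place M L)}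

/-- **The rank of the group of the divisor classes.** -/
theorem rank_pic (hK : Nice n e R T DK hRT SK ρK) (hL : Nice n' (e + 1) R E DL hRE SL ρL)
    (hTE : ∀ r ∈ T, algebraMap K L r ∈ E) (hfib : FibP (iRT hTE)) (he : Algebra.trdeg ℚ K = e)
    (hcl : ∀ x : L, IsAlgebraic K x → ∃ y : K, algebraMap K L y = x)
    (s : Finset (Place K L)) (hs : ∀ P, P ∈ s ↔ ¬ ∀ z : E, P.Reg (E.subtype z)) (hne : s.Nonempty) :
    ∃ ρ : ℕ, picRank K L = ρ ∧ ρ + ρL + 1 = ρK + s.card := by
  classical
  have hs' : ∀ P, P ∉ s → ∀ z : E, P.Reg (E.subtype z) := by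
    intro P hP
    rw [hs, not_not] at hP
    exact hP
  let V : Submodule ℤ (Place K L →₀ ℤ) := Finsupp.supported ℤ ℤ (s : Set (Place K L))
  have hV : ∀ D : Place K L →₀ ℤ, D ∈ V ↔ ∀ P, P ∉ s → D P = 0 := by
    intro D
    rw [Finsupp.mem_supported']
    exact Iff.rfl
  -- the rank of `V`
  have hVrank : Module.rank ℤ V = s.card := by
    rw [(Finsupp.supportedEquivFinsupp (M := ℤ) (R := ℤ) (s : Set (Place K L))).rank_eq,
      rank_finsupp_self]
    simp
  -- the degree
  have hdeg : Module.rank ℤ (V.map (dgL K L)) = 1 := by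
    apply rank_pos_int
    rw [Submodule.ne_bot_iff]
    obtain ⟨P, hP⟩ := hne
    refine ⟨P.deg, ⟨Finsupp.single P 1, ?_, ?_⟩, ?_⟩
    · rw [SetLike.mem_coe, hV]
      intro P' hP'
      rw [Finsupp.single_apply, if_neg]
      rintro rfl
      exact hP' hP
    · show ddeg (Finsupp.single P 1) = P.deg
      rw [ddeg_single, one_mul]
    · have := P.deg_pos
      omega
  have h1 := rank_map_add V (dgL K L)
  rw [hdeg, hVrank] at h1
  have h2 := rank_map_add (V ⊓ DivZ K L) (Prin K L).mkQ
  have h3 : V ⊓ DivZ K L ⊓ LinearMap.ker (Prin K L).mkQ = V ⊓ Prin K L := by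
    rw [Submodule.ker_mkQ, inf_assoc, inf_eq_right.2 (Prin_le K L)]
  rw [h3] at h2
  -- the generators
  have h4 : Module.rank ℤ ((V ⊓ DivZ K L).map (Prin K L).mkQ) = picRank K L := by
    unfold picRank rr
    refine rank_torsion (Submodule.map_mono inf_le_right) ?_
    rintro _ ⟨D, hD, rfl⟩
    -- a multiple of `D` is equivalent to a divisor in `V`
    have h5 : ∀ D : Place K L →₀ ℤ, ∃ m : ℤ, m ≠ 0 ∧ ∃ x : Additive Lˣ, m • D - dvL K L x ∈ V := by
      intro D
      induction D using Finsupp.induction_linear with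
      | zero => exact ⟨1, one_ne_zero, 0, by rw [smul_zero, map_zero, sub_zero]; exact V.zero_mem⟩
      | add D D' ih ih' =>
        obtain ⟨m, hm, x, hx⟩ := ih
        obtain ⟨m', hm', x', hx'⟩ := ih'
        refine ⟨m' * m, mul_ne_zero hm' hm, m' • x + m • x', ?_⟩
        have e1 : (m' * m) • (D + D') - dvL K L (m' • x + m • x') =
            m' • (m • D - dvL K L x) + m • (m' • D' - dvL K L x') := by
          rw [map_add, map_smul, map_smul, smul_sub, smul_sub, smul_smul, smul_smul, smul_add,
            mul_comm m m']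
          abel
        rw [e1]
        exact V.add_mem (V.smul_mem _ hx) (V.smul_mem _ hx')
      | single P a =>
        by_cases hP : P ∈ s
        · refine ⟨1, one_ne_zero, 0, ?_⟩
          rw [one_smul, map_zero, sub_zero, hV]
          intro P' hP'
          rw [Finsupp.single_apply, if_neg]
          rintro rfl
          exact hP' hP
        · obtain ⟨π, hπ0, hpos, h0⟩ := unif_hor hK hL hTE he P (hs' P hP)
          refine ⟨P.ord π, hpos.ne', a • Additive.ofMul (Units.mk0 π hπ0), ?_⟩
          rw [hV]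
          intro P' hP'
          rw [map_smul, Finsupp.sub_apply, Finsupp.smul_apply, Finsupp.smul_apply]
          show P.ord π • (Finsupp.single P a) P' - a • P'.ord π = 0
          by_cases hPP : P' = P
          · subst hPP
            rw [Finsupp.single_eq_same, smul_eq_mul, smul_eq_mul]
            ring
          · rw [Finsupp.single_apply, if_neg (fun hh => hPP hh.symm), h0 P' (hs' P' hP') hPP]
            simp
    obtain ⟨m, hm, x, hx⟩ := h5 D
    refine ⟨m, hm, m • D - dvL K L x, ⟨hx, ?_⟩, ?_⟩
    · exact (DivZ K L).sub_mem ((DivZ K L).smul_mem _ hD) (Prin_le K L ⟨x, rfl⟩)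
    · rw [← map_smul, ← sub_eq_zero, ← map_sub, Submodule.mkQ_apply, Submodule.Quotient.mk_eq_zero]
      refine ⟨-x, ?_⟩
      rw [map_neg]
      abel
  rw [h4] at h2
  -- the units
  let ι : Additive Kˣ →ₗ[ℤ] Additive Lˣ := AddMonoidHom.toIntLinearMap
    (MonoidHom.toAdditive (Units.map (algebraMap K L : K →* L)))
  have hι : ∀ y : Kˣ, ι (Additive.ofMul y) = Additive.ofMul (Units.map (algebraMap K L : K →* L) y) :=
    fun y => rfl
  have hιinj : Function.Injective ι := by
    intro y y' hyy
    have h6 : Units.map (algebraMap K L : K →* L) (Additive.toMul y) =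
      Units.map (algebraMap K L : K →* L) (Additive.toMul y') := congrArg Additive.toMul hyy
    exact Additive.toMul.injective (Units.map_injective (algebraMap K L).injective h6)
  have h6 := rr_add (U := UU SL) (dvL K L) (N := MM M L) (by
    intro x hx
    obtain ⟨c, hc⟩ := mem_MM.1 (show Additive.ofMul (Additive.toMul x) ∈ MM M L from hx)
    rw [LinearMap.mem_ker]
    ext P
    show P.ord ((Additive.toMul x : Lˣ) : L) = 0
    rw [← hc, IsScalarTower.algebraMap_apply M K L]
    refine P.ord_const ?_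
    rintro h0
    rw [IsScalarTower.algebraMap_apply M K L, h0, map_zero] at hc
    exact (Additive.toMul x).ne_zero hc.symm) (MM_le SL)
  have h7 : UU SL ⊓ LinearMap.ker (dvL K L) = (UU SK).map ι := by
    ext x
    rw [Submodule.mem_inf, LinearMap.mem_ker, Submodule.mem_map]
    constructor
    · rintro ⟨hx1, hx2⟩
      have h8 : ∀ P : Place K L, P.ord ((Additive.toMul x : Lˣ) : L) = 0 := fun P =>
        DFunLike.congr_fun hx2 P
      have h9 : IsAlgebraic K ((Additive.toMul x : Lˣ) : L) := by
        by_contra hc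
        obtain ⟨S, hS1, -, hS3⟩ := FF.zeros (k := K) hc
        have hfin := IsFF.finite (k := K) hc
        have h10 : 0 < Module.finrank (IntermediateField.adjoin K {((Additive.toMul x : Lˣ) : L)}) L :=
          Module.finrank_pos
        rw [← hS3] at h10
        obtain ⟨P, hP, -⟩ := Finset.exists_ne_zero_of_sum_ne_zero h10.ne'
        have := (hS1 P).1 hP
        rw [h8 P] at this
        exact lt_irrefl _ this
      obtain ⟨y, hy⟩ := hcl _ h9
      have hy0 : y ≠ 0 := by
        rintro rfl
        rw [map_zero] at hy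
        exact (Additive.toMul x).ne_zero hy.symm
      refine ⟨Additive.ofMul (Units.mk0 y hy0), ?_, ?_⟩
      · have := (unit_iff_K hK hL hTE hfib (Units.mk0 y hy0)).2 fun Q hQ => by
          rw [Units.val_mk0, hy]
          exact hx1 Q hQ
        exact this
      · rw [hι]
        apply Additive.toMul.injective
        apply Units.ext
        exact hy
    · rintro ⟨y, hy, rfl⟩
      constructor
      · exact (unit_iff_K hK hL hTE hfib (Additive.toMul y)).1 hy
      · ext P
        show P.ord (algebraMap K L ((Additive.toMul y : Kˣ) : K)) = 0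
        exact P.ord_const (Additive.toMul y).ne_zero
  have h8 : MM M L = (MM M K).map ι := by
    ext x
    rw [Submodule.mem_map]
    constructor
    · intro hx
      obtain ⟨c, hc⟩ := mem_MM.1 (show Additive.ofMul (Additive.toMul x) ∈ MM M L from hx)
      have hc0 : algebraMap M K c ≠ 0 := by
        intro h0
        rw [IsScalarTower.algebraMap_apply M K L, h0, map_zero] at hc
        exact (Additive.toMul x).ne_zero hc.symm
      refine ⟨Additive.ofMul (Units.mk0 _ hc0), mem_MM.2 ⟨c, rfl⟩, ?_⟩
      rw [hι]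
      apply Additive.toMul.injective
      apply Units.ext
      show algebraMap K L (algebraMap M K c) = _
      rw [← IsScalarTower.algebraMap_apply M K L]
      exact hc
    · rintro ⟨y, hy, rfl⟩
      obtain ⟨c, hc⟩ := mem_MM.1 (show Additive.ofMul (Additive.toMul y) ∈ MM M K from hy)
      refine mem_MM (x := Units.map (algebraMap K L : K →* L) (Additive.toMul y)) |>.2 ⟨c, ?_⟩
      rw [IsScalarTower.algebraMap_apply M K L, hc]
      rfl
  have h9 : rr (UU SL ⊓ LinearMap.ker (dvL K L)) (MM M L) = ρK := by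
    rw [h7, h8, rr_map ι hιinj, hK.rk]
  rw [h9, hL.rk] at h6
  have h10 : Module.rank ℤ ((UU SL).map (dvL K L)) = Module.rank ℤ (V ⊓ Prin K L : Submodule ℤ _) := by
    refine rank_torsion ?_ ?_
    · rintro _ ⟨x, hx, rfl⟩
      refine ⟨?_, x, rfl⟩
      rw [SetLike.mem_coe, hV]
      intro P hP
      exact unit_hor hK hL hTE he (x := Additive.toMul x) hx P (hs' P hP)
    · rintro _ ⟨hw, x, rfl⟩
      rw [SetLike.mem_coe, hV] at hw
      obtain ⟨m, y, hm, hy⟩ := vert_fix hK hL hTE hfib (Additive.toMul x) fun P hP => by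
        by_cases hPs : P ∈ s
        · exact absurd hP ((hs P).1 hPs)
        · exact hw P hPs
      refine ⟨m, hm, Additive.ofMul (Additive.toMul x ^ m *
        Units.map (algebraMap K L : K →* L) y), hy, ?_⟩
      rw [ofMul_mul, map_add, ofMul_zpow, map_smul]
      have h11 : dvL K L (Additive.ofMul (Units.map (algebraMap K L : K →* L) y)) = 0 := by
        ext P
        show P.ord (algebraMap K L (y : K)) = 0
        exact P.ord_const y.ne_zero
      rw [h11, add_zero]
      rfl
  rw [h10] at h6
  -- the arithmetic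
  have hfin1 : Module.rank ℤ (V ⊓ Prin K L : Submodule ℤ _) < Cardinal.aleph0 := by
    refine lt_of_le_of_lt ?_ (Cardinal.natCast_lt_aleph0 (n := ρL))
    rw [← h6]
    exact self_le_add_right _ _
  obtain ⟨r₁, hr₁⟩ := Cardinal.lt_aleph0.1 hfin1
  have hfin2 : Module.rank ℤ (V ⊓ DivZ K L : Submodule ℤ _) < Cardinal.aleph0 := by
    refine lt_of_le_of_lt ?_ (Cardinal.natCast_lt_aleph0 (n := s.card))
    rw [← h1]
    exact self_le_add_left _ _
  obtain ⟨r₂, hr₂⟩ := Cardinal.lt_aleph0.1 hfin2
  have hfin3 : picRank K L < Cardinal.aleph0 := by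
    refine lt_of_le_of_lt ?_ hfin2
    rw [← h2]
    exact self_le_add_right _ _
  obtain ⟨ρ, hρ⟩ := Cardinal.lt_aleph0.1 hfin3
  refine ⟨ρ, hρ, ?_⟩
  have h1' : Module.rank ℤ (V ⊓ DivZ K L : Submodule ℤ _) = r₂ := hr₂
  change 1 + Module.rank ℤ (V ⊓ DivZ K L : Submodule ℤ _) = (s.card : Cardinal) at h1
  rw [h1'] at h1
  rw [hρ, hr₁, h1'] at h2
  rw [hr₁] at h6
  have a1 : 1 + r₂ = s.card := by exact_mod_cast h1
  have a2 : ρ + r₁ = r₂ := by exact_mod_cast h2
  have a3 : r₁ + ρK = ρL := by exact_mod_cast h6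
  omega

end

end Pool.Agent.T6.H77.NB
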