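import Pool.Agent.T6.H77.NB.Tot

/-!
# The bound for the number of the points of the total space over a prime
-/

set_option autoImplicit false
set_option linter.unusedSectionVars false
set_option linter.style.haveILetI false

open Polynomial

namespace Pool.Agent.T6.H77.NB

open FF
open Pool.Agent.R410.NG (Ff Asy)

section
variable {X : Type} [CommRing X] [hX : Algebra.FiniteType ℤ X]

/-- the bound for the number of the points of a hypersurface -/
theorem hyp_bound {e : ℕ} (h : Dm X ⊥ e) {u : X} (hu : u ≠ 0) : ∃ (C : ℝ) (N : ℕ), 0 ≤ C ∧ N ≠ 0 ∧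
    ∀ (F : Type) [Field F] [Finite F], ((N : ℕ) : F) ≠ 0 →
      ct (fun φ : X →+* F => φ u = 0) * Nat.card F ≤ C * (Nat.card F : ℝ) ^ e := by
  obtain ⟨C, N, hC, hN, g⟩ := dm_hyp h (u := u) fun hh => hu hh
  refine ⟨C, N, hC, hN, fun F _ _ hF => ?_⟩
  refine le_trans (le_of_eq ?_) (g F hF)
  congr 1
  exact ct_congr (p' := fun φ : X →+* F => (∀ a ∈ (⊥ : Ideal X), φ a = 0) ∧ φ u = 0) fun φ => by
    constructor
    · intro hh
      refine ⟨fun a ha => ?_, hh⟩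
      rw [Ideal.mem_bot] at ha
      rw [ha, map_zero]
    · exact fun hh => hh.2

theorem all_bound {e : ℕ} (h : Dm X ⊥ e) : ∃ C : ℝ, 0 ≤ C ∧
    ∀ (F : Type) [Field F] [Finite F], ct (fun _ : X →+* F => True) ≤ C * (Nat.card F : ℝ) ^ e := by
  obtain ⟨C, hC, g⟩ := dm_bound h
  refine ⟨C, hC, fun F _ _ => ?_⟩
  refine le_trans (le_of_eq ?_) (g F)
  exact ct_congr (p' := fun φ : X →+* F => ∀ a ∈ (⊥ : Ideal X), φ a = 0) fun φ => by
    constructor
    · intro _ a ha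
      rw [Ideal.mem_bot] at ha
      rw [ha, map_zero]
    · exact fun _ => trivial

end

section
variable {M K L : Type} [Field M] [Field K] [Field L] [Algebra M K] [Algebra M L] [Algebra K L]
  [IsScalarTower M K L] [CharZero K] [hff : IsFF K L]
variable {T : Subring K} {t : L} {A A' : Subring L}

/-- **The defect is bounded over every prime.** -/
theorem bd_defect (h : Chart T t A) (h' : Chart T t⁻¹ A') {n n' e ρK ρL : ℕ}
    (he : Algebra.trdeg ℚ K = e) (hn' : n' = n + 1)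
    {g : T[X]} {N : T} (hg0 : g ≠ 0) (hN : N ≠ 0) {R : Subring M}
    {DK : Subring K} {DL : Subring L}
    {hRT : ∀ x ∈ R, algebraMap M K x ∈ loc T (N : K) N.2} {SK : Set (Place M K)}
    (hK : Nice n e R (loc T (N : K) N.2) DK hRT SK ρK)
    {hRE : ∀ x ∈ R, algebraMap M L x ∈ loc A ((evT h.TA h.tA g * iRT h.TA N : A) : L)
      (evT h.TA h.tA g * iRT h.TA N : A).2} {SL : Set (Place M L)}
    (hL : Nice n' (e + 1) R (loc A ((evT h.TA h.tA g * iRT h.TA N : A) : L)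
      (evT h.TA h.tA g * iRT h.TA N : A).2) DL hRE SL ρL) {O : Type} [CommRing O] (o : O →+* R)
    (oT : O →+* T) (oA : O →+* A) (oA' : O →+* A')
    (hoT : (locI T (N : K) N.2).comp oT = (iRT hRT).comp o)
    (hoA : (locI A ((evT h.TA h.tA g * iRT h.TA N : A) : L)
      (evT h.TA h.tA g * iRT h.TA N : A).2).comp oA = (iRT hRE).comp o) :
    ∃ (C : ℝ) (m : ℕ), 0 ≤ C ∧ m ≠ 0 ∧ ∀ (F : Type) [Field F] [Finite F], ((m : ℕ) : F) ≠ 0 →
      ∀ ψ : O →+* F, |defect T A A' ⟨t⁻¹, h'.tA⟩ F (fun φ => φ.comp oT = ψ) (fun χ => χ.comp oA = ψ)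
        (fun χ => χ.comp oA' = ψ)| ≤ C * (Nat.card F : ℝ) ^ e := by
  classical
  subst hn'
  have hTft := h.Tft
  have hAft := h.Aft
  have hA'ft := h'.Aft
  have ht0 : t ≠ 0 := by
    rintro rfl
    exact h.tr isAlgebraic_zero
  have hNK : (N : K) ≠ 0 := fun hh => hN (Subtype.ext hh)
  have hNL : algebraMap K L N ≠ 0 := by rwa [Ne, map_eq_zero]
  have hNA : iRT h.TA N ≠ 0 := fun hh => hNL (congrArg Subtype.val hh)
  have hgA0 : evT h.TA h.tA g ≠ 0 := fun h0 => hg0 (evT_inj h.TA h.tA h.tr (by rw [h0, map_zero]))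
  have hb0 : ((evT h.TA h.tA g * iRT h.TA N : A) : L) ≠ 0 := fun hh =>
    mul_ne_zero hgA0 hNA (Subtype.ext hh)
  obtain ⟨C1, m1, hC1, hm1, g1⟩ := hK.n6
  obtain ⟨C2, m2, hC2, hm2, g2⟩ := hL.n6
  obtain ⟨C3, hC3, g3⟩ := all_bound (X := T) (h.dm_bot he)
  obtain ⟨C4, m4, hC4, hm4, g4⟩ := hyp_bound (X := A) (h.dm_botA he) hgA0
  obtain ⟨C5, m5, hC5, hm5, g5⟩ := hyp_bound (X := T) (h.dm_bot he) hN
  obtain ⟨C6, m6, hC6, hm6, g6⟩ := hyp_bound (X := A) (h.dm_botA he) hNA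
  obtain ⟨C7, m7, hC7, hm7, g7⟩ := hyp_bound (X := A') (h'.dm_botA he) (u := ⟨t⁻¹, h'.tA⟩)
    fun hh => inv_ne_zero ht0 (congrArg Subtype.val hh)
  refine ⟨(C1 + C2) + C3 + C4 + (2 * C5 + C6) + C7, m1 * m2 * m4 * m5 * m6 * m7, by positivity,
    by positivity, fun F _ _ hF ψ => ?_⟩
  have hfinT : Finite (T →+* F) := hom_fin F
  have hfinA : Finite (A →+* F) := hom_fin F
  have hfinA' : Finite (A' →+* F) := hom_fin F
  push_cast at hF
  have f7 := right_ne_zero_of_mul hF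
  have hF6 := left_ne_zero_of_mul hF
  have f6 := right_ne_zero_of_mul hF6
  have hF5 := left_ne_zero_of_mul hF6
  have f5 := right_ne_zero_of_mul hF5
  have hF4 := left_ne_zero_of_mul hF5
  have f4 := right_ne_zero_of_mul hF4
  have hF2 := left_ne_zero_of_mul hF4
  have f2 := right_ne_zero_of_mul hF2
  have f1 := left_ne_zero_of_mul hF2
  set q : ℝ := (Nat.card F : ℝ) with hq
  have hq1 : (1 : ℝ) ≤ q := by
    rw [hq]
    exact_mod_cast Nat.card_pos
  have hq0 : (0 : ℝ) < q := by linarith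
  have hqe : (0 : ℝ) < q ^ e := by positivity
  rw [defect_eq h g N]
  -- the first term
  have e1 := g1 F f1 (fun φ => φ.comp o = ψ)
  have e2 := g2 F f2 (fun φ => φ.comp o = ψ)
  have a1 : ct (fun χ : loc T (N : K) N.2 →+* F => (χ.comp (iRT hRT)).comp o = ψ) =
      ct (fun φ : T →+* F => φ.comp oT = ψ ∧ φ N ≠ 0) := by
    rw [← ct_loc N.2 hNK F (fun φ => φ.comp oT = ψ)]
    refine ct_congr fun χ => ?_
    rw [RingHom.comp_assoc, RingHom.comp_assoc, hoT]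
  have a2 : ct (fun χ : loc A ((evT h.TA h.tA g * iRT h.TA N : A) : L)
        (evT h.TA h.tA g * iRT h.TA N : A).2 →+* F => (χ.comp (iRT hRE)).comp o = ψ) =
      ct (fun χ : A →+* F => χ.comp oA = ψ ∧ χ (evT h.TA h.tA g * iRT h.TA N) ≠ 0) := by
    rw [← ct_loc (evT h.TA h.tA g * iRT h.TA N : A).2 hb0 F (fun φ => φ.comp oA = ψ)]
    refine ct_congr fun χ => ?_
    rw [RingHom.comp_assoc, RingHom.comp_assoc, hoA]
  rw [a1] at e1
  rw [a2] at e2
  set cT := ct (fun φ : T →+* F => φ.comp oT = ψ ∧ φ N ≠ 0) with hcT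
  set cE := ct (fun χ : A →+* F => χ.comp oA = ψ ∧ χ (evT h.TA h.tA g * iRT h.TA N) ≠ 0) with hcE
  set cR := ct (fun φ : R →+* F => φ.comp o = ψ) with hcR
  have t1 : |q * cT - cE| ≤ (C1 + C2) * q ^ e := by
    have b2 : |q ^ (n + 1) * cR - cE| ≤ C2 * q ^ e := by
      refine le_of_mul_le_mul_right ?_ hq0
      calc _ ≤ C2 * q ^ (e + 1) := e2
        _ = _ := by rw [pow_succ]; ring
    have b1 : |q ^ (n + 1) * cR - q * cT| ≤ C1 * q ^ e := by
      have : q ^ (n + 1) * cR - q * cT = (q ^ n * cR - cT) * q := by rw [pow_succ]; ring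
      rw [this, abs_mul, abs_of_pos hq0]
      exact e1
    have b3 : q * cT - cE = (q ^ (n + 1) * cR - cE) - (q ^ (n + 1) * cR - q * cT) := by ring
    rw [b3]
    have b4 := abs_sub (q ^ (n + 1) * cR - cE) (q ^ (n + 1) * cR - q * cT)
    rw [add_mul]
    linarith
  -- the other terms
  have t2 : cT ≤ C3 * q ^ e := (ct_mono (p' := fun _ : T →+* F => True) fun _ _ => trivial).trans (g3 F)
  have t2' : 0 ≤ cT := ct_nonneg _
  have t3 : ct (fun χ : A →+* F => (χ (evT h.TA h.tA g) = 0 ∧ χ (iRT h.TA N) ≠ 0) ∧ χ.comp oA = ψ) ≤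
      C4 * q ^ e := by
    refine (ct_mono (p' := fun χ : A →+* F => χ (evT h.TA h.tA g) = 0) fun χ hχ => hχ.1.1).trans ?_
    refine le_of_mul_le_mul_right ?_ hq0
    calc _ ≤ C4 * q ^ (e + 1) := g4 F f4
      _ = _ := by rw [pow_succ]; ring
  have t3' := ct_nonneg (fun χ : A →+* F => (χ (evT h.TA h.tA g) = 0 ∧ χ (iRT h.TA N) ≠ 0) ∧
    χ.comp oA = ψ)
  have t4 : (q + 1) * ct (fun φ : T →+* F => φ N = 0 ∧ φ.comp oT = ψ) ≤ 2 * C5 * q ^ e := by
    have b1 : ct (fun φ : T →+* F => φ N = 0 ∧ φ.comp oT = ψ) ≤ ct (fun φ : T →+* F => φ N = 0) :=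
      ct_mono fun φ hφ => hφ.1
    have b2 := g5 F f5
    have b3 := ct_nonneg (fun φ : T →+* F => φ N = 0 ∧ φ.comp oT = ψ)
    calc (q + 1) * ct (fun φ : T →+* F => φ N = 0 ∧ φ.comp oT = ψ) ≤
        (2 * q) * ct (fun φ : T →+* F => φ N = 0) :=
          mul_le_mul (by linarith) b1 b3 (by linarith)
      _ = 2 * (ct (fun φ : T →+* F => φ N = 0) * q) := by ring
      _ ≤ 2 * (C5 * q ^ e) := by linarith
      _ = _ := by ring
  have t4' := ct_nonneg (fun φ : T →+* F => φ N = 0 ∧ φ.comp oT = ψ)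
  have t5 : ct (fun χ : A →+* F => χ (iRT h.TA N) = 0 ∧ χ.comp oA = ψ) ≤ C6 * q ^ e := by
    refine (ct_mono (p' := fun χ : A →+* F => χ (iRT h.TA N) = 0) fun χ hχ => hχ.1).trans ?_
    refine le_of_mul_le_mul_right ?_ hq0
    calc _ ≤ C6 * q ^ (e + 1) := g6 F f6
      _ = _ := by rw [pow_succ]; ring
  have t5' := ct_nonneg (fun χ : A →+* F => χ (iRT h.TA N) = 0 ∧ χ.comp oA = ψ)
  have t6 : ct (fun χ : A' →+* F => χ ⟨t⁻¹, h'.tA⟩ = 0 ∧ χ.comp oA' = ψ) ≤ C7 * q ^ e := by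
    refine (ct_mono (p' := fun χ : A' →+* F => χ ⟨t⁻¹, h'.tA⟩ = 0) fun χ hχ => hχ.1).trans ?_
    refine le_of_mul_le_mul_right ?_ hq0
    calc _ ≤ C7 * q ^ (e + 1) := g7 F f7
      _ = _ := by rw [pow_succ]; ring
  have t6' := ct_nonneg (fun χ : A' →+* F => χ ⟨t⁻¹, h'.tA⟩ = 0 ∧ χ.comp oA' = ψ)
  have t4'' : 0 ≤ (q + 1) * ct (fun φ : T →+* F => φ N = 0 ∧ φ.comp oT = ψ) :=
    mul_nonneg (by linarith) t4'
  have b1 := abs_le.1 t1
  have p3 : 0 ≤ C3 * q ^ e := by positivity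
  have p4 : 0 ≤ C4 * q ^ e := by positivity
  have p5 : 0 ≤ 2 * C5 * q ^ e := by positivity
  have p6 : 0 ≤ C6 * q ^ e := by positivity
  have p7 : 0 ≤ C7 * q ^ e := by positivity
  have hsum : ((C1 + C2) + C3 + C4 + (2 * C5 + C6) + C7) * q ^ e = (C1 + C2) * q ^ e + C3 * q ^ e +
    C4 * q ^ e + (2 * C5 * q ^ e + C6 * q ^ e) + C7 * q ^ e := by ring
  rw [hsum, abs_le]
  constructor <;> linarith

end

end Pool.Agent.T6.H77.NB
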