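import Pool.Agent.T6.H77.NB.NLoc2

/-!
# Charts of families of curves: the generic points of the fibres
-/

set_option autoImplicit false
set_option linter.unusedSectionVars false
set_option linter.style.haveILetI false

open Polynomial

namespace Pool.Agent.T6.H77.NB

open FF
open Pool.Agent.R410.NG (Ff Asy)

/-- the dimensions of a prime and of its preimage -/
theorem dm_comap {X Y : Type} [CommRing X] [CommRing Y] (f : X →+* Y) (Q : Ideal Y) (hQ : Q.IsPrime)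
    (h : ∀ y : Y, ∃ p : X[X], p.map ((Ideal.Quotient.mk Q).comp f) ≠ 0 ∧
      p.eval₂ ((Ideal.Quotient.mk Q).comp f) (Ideal.Quotient.mk Q y) = 0) (e : ℕ) :
    Dm X (Q.comap f) e ↔ Dm Y Q e := by
  have hp' : (Q.comap f).IsPrime := Ideal.comap_isPrime f Q
  have : IsDomain (Y ⧸ Q) := Ideal.Quotient.isDomain _
  have : IsDomain (X ⧸ Q.comap f) := Ideal.Quotient.isDomain _
  let j : X ⧸ Q.comap f →+* Y ⧸ Q := Ideal.quotientMap Q f le_rfl
  have hj : Function.Injective j := Ideal.quotientMap_injective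
  have hjm : j.comp (Ideal.Quotient.mk (Q.comap f)) = (Ideal.Quotient.mk Q).comp f := by
    ext x
    rfl
  have hal : letI := j.toAlgebra; Algebra.IsAlgebraic (X ⧸ Q.comap f) (Y ⧸ Q) := by
    let _ := j.toAlgebra
    refine ⟨fun z => ?_⟩
    obtain ⟨y, rfl⟩ := Ideal.Quotient.mk_surjective z
    obtain ⟨p, hp0, hp⟩ := h y
    refine ⟨p.map (Ideal.Quotient.mk (Q.comap f)), ?_, ?_⟩
    · intro h0
      apply hp0
      rw [← hjm, ← Polynomial.map_map, h0, Polynomial.map_zero]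
    · rw [Polynomial.aeval_def, Polynomial.eval₂_map]
      have : (algebraMap (X ⧸ Q.comap f) (Y ⧸ Q)).comp (Ideal.Quotient.mk (Q.comap f)) =
        (Ideal.Quotient.mk Q).comp f := hjm
      rw [this]
      exact hp
  constructor
  · rintro ⟨-, hc, ht⟩
    refine ⟨hQ, ?_, ?_⟩
    · exact charZero_of_injective_ringHom hj
    · rw [← ht]
      let _ := j.toAlgebra
      exact (trdeg_alg (B := X ⧸ Q.comap f) (C := Y ⧸ Q) hj).symm
  · rintro ⟨-, hc, ht⟩
    have hcz : CharZero (X ⧸ Q.comap f) := by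
      refine ⟨fun a b hab => ?_⟩
      have h1 := congrArg j hab
      rw [map_natCast, map_natCast] at h1
      exact Nat.cast_injective h1
    refine ⟨hp', hcz, ?_⟩
    rw [← ht]
    let _ := j.toAlgebra
    exact trdeg_alg (B := X ⧸ Q.comap f) (C := Y ⧸ Q) hj

/-- the fibre of a polynomial ring -/
theorem dm_polyC {X : Type} [CommRing X] {P : Ideal X} {e : ℕ} (h : Dm X P e) :
    Dm X[X] (P.map (Polynomial.C : X →+* X[X])) (e + 1) := by
  have hp := h.1
  have hc := h.2.1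
  have : IsDomain (X ⧸ P) := Ideal.Quotient.isDomain _
  have hp' : (P.map (Polynomial.C : X →+* X[X])).IsPrime := Ideal.isPrime_map_C_of_isPrime
  have : IsDomain (X[X] ⧸ P.map (Polynomial.C : X →+* X[X])) := Ideal.Quotient.isDomain _
  let ε := Ideal.polynomialQuotientEquivQuotientPolynomial P
  have hcz : CharZero (X[X] ⧸ P.map (Polynomial.C : X →+* X[X])) :=
    charZero_of_injective_ringHom (f := ε.toRingHom) ε.injective
  refine ⟨hp', hcz, ?_⟩
  have h1 : trz ((X ⧸ P)[X]) = (e + 1 : ℕ) := by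
    have h2 : FaithfulSMul ℤ (X ⧸ P) := (faithfulSMul_iff_algebraMap_injective _ _).2 (by
      intro a b hab
      simpa using hab)
    have h3 := trdeg_add_eq ℤ (X ⧸ P) (A := (X ⧸ P)[X])
    rw [Polynomial.trdeg_of_isDomain] at h3
    have h4 : Algebra.trdeg ℤ (X ⧸ P) = e := h.2.2
    rw [h4] at h3
    unfold trz
    push_cast
    convert h3.symm using 2
    exact Subsingleton.elim _ _
  rw [← h1]
  exact (ε.toIntAlgEquiv.trdeg_eq).symm

section
variable {K L : Type} [Field K] [Field L] [Algebra K L]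
variable {T : Subring K} {t : L} {A : Subring L}

/-- the evaluation at `t` -/
noncomputable def evT (hTA : ∀ r ∈ T, algebraMap K L r ∈ A) (ht : t ∈ A) : T[X] →+* A :=
  Polynomial.eval₂RingHom (iRT hTA) ⟨t, ht⟩

theorem evT_C (hTA : ∀ r ∈ T, algebraMap K L r ∈ A) (ht : t ∈ A) (r : T) :
    evT hTA ht (Polynomial.C r) = iRT hTA r := by
  unfold evT
  rw [Polynomial.coe_eval₂RingHom, Polynomial.eval₂_C]

theorem evT_coe (hTA : ∀ r ∈ T, algebraMap K L r ∈ A) (ht : t ∈ A) (g : T[X]) :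
    ((evT hTA ht g : A) : L) = g.eval₂ ((algebraMap K L).comp T.subtype) t := by
  unfold evT
  rw [Polynomial.coe_eval₂RingHom, ← Subring.subtype_apply, Polynomial.hom_eval₂]
  rfl

theorem evT_inj (hTA : ∀ r ∈ T, algebraMap K L r ∈ A) (ht : t ∈ A) (htr : Transcendental K t) :
    Function.Injective (evT hTA ht) := by
  rw [injective_iff_map_eq_zero]
  intro g hg
  have h1 := evT_coe hTA ht g
  rw [hg] at h1
  have h2 : Polynomial.aeval t (g.map T.subtype) = 0 := by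
    rw [Polynomial.aeval_def, Polynomial.eval₂_map]
    exact h1.symm
  have h3 : g.map T.subtype = 0 := (transcendental_iff.1 htr) _ h2
  exact (Polynomial.map_eq_zero_iff (f := T.subtype) Subtype.val_injective).1 h3

/-- the generic point of the fibre at `𝔭` -/
def Qp (hTA : ∀ r ∈ T, algebraMap K L r ∈ A) (𝔭 : Ideal T) [h𝔭 : 𝔭.IsPrime] : Ideal A where
  carrier := {a | ∃ s : T, s ∉ 𝔭 ∧ iRT hTA s * a ∈ 𝔭.map (iRT hTA)}
  add_mem' := by
    rintro x y ⟨s, hs, hx⟩ ⟨s', hs', hy⟩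
    refine ⟨s * s', fun hh => (h𝔭.mem_or_mem hh).elim hs hs', ?_⟩
    rw [map_mul, mul_add]
    refine add_mem ?_ ?_
    · rw [mul_right_comm]
      exact Ideal.mul_mem_right _ _ hx
    · rw [mul_assoc]
      exact Ideal.mul_mem_left _ _ hy
  zero_mem' := ⟨1, fun hh => h𝔭.ne_top ((Ideal.eq_top_iff_one _).2 hh), by
    rw [mul_zero]
    exact Ideal.zero_mem _⟩
  smul_mem' := by
    rintro c x ⟨s, hs, hx⟩
    refine ⟨s, hs, ?_⟩
    rw [smul_eq_mul, mul_left_comm]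
    exact Ideal.mul_mem_left _ _ hx

theorem mem_Qp {hTA : ∀ r ∈ T, algebraMap K L r ∈ A} {𝔭 : Ideal T} [𝔭.IsPrime] {a : A} :
    a ∈ Qp hTA 𝔭 ↔ ∃ s : T, s ∉ 𝔭 ∧ iRT hTA s * a ∈ 𝔭.map (iRT hTA) := Iff.rfl

/-- a prime over `𝔭` contains the generic point -/
theorem Qp_le {hTA : ∀ r ∈ T, algebraMap K L r ∈ A} {𝔭 : Ideal T} [𝔭.IsPrime] {Q : Ideal A}
    (hQ : Q.IsPrime) (hc : Q.comap (iRT hTA) = 𝔭) : Qp hTA 𝔭 ≤ Q := by
  rintro a ⟨s, hs, ha⟩
  have h1 : 𝔭.map (iRT hTA) ≤ Q := by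
    rw [Ideal.map_le_iff_le_comap, hc]
  rcases hQ.mem_or_mem (h1 ha) with h2 | h2
  · exfalso
    apply hs
    rw [← hc]
    exact h2
  · exact h2

/-- a chart of a family of curves over `T` -/
structure Chart (T : Subring K) (t : L) (A : Subring L) : Prop where
  Tft : Algebra.FiniteType ℤ T
  Aft : Algebra.FiniteType ℤ A
  Tfrac : ∀ z : K, ∃ a ∈ T, ∃ b ∈ T, b ≠ 0 ∧ z = a / b
  Afrac : ∀ z : L, ∃ a ∈ A, ∃ b ∈ A, b ≠ 0 ∧ z = a / b
  TA : ∀ r ∈ T, algebraMap K L r ∈ A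
  tA : t ∈ A
  tr : Transcendental K t
  int : (evT TA tA).IsIntegral
  nor : ∀ x : L, IsIntegral (Algebra.adjoin K {t}) x → ∃ s ∈ T, s ≠ 0 ∧ algebraMap K L s * x ∈ A
  fib : ∀ (𝔭 : Ideal T) [𝔭.IsPrime], (Qp TA 𝔭).IsPrime

namespace Chart

variable (h : Chart T t A)

include h

theorem comap_Qp (𝔭 : Ideal T) [h𝔭 : 𝔭.IsPrime] : (Qp h.TA 𝔭).comap (iRT h.TA) = 𝔭 := by
  apply le_antisymm
  · intro s hs
    by_contra hs𝔭
    obtain ⟨s', hs', hm⟩ := hs
    apply (h.fib 𝔭).ne_top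
    rw [Ideal.eq_top_iff_one]
    refine ⟨s' * s, fun hh => (h𝔭.mem_or_mem hh).elim hs' hs𝔭, ?_⟩
    rw [mul_one, map_mul]
    exact hm
  · intro s hs
    refine ⟨1, fun hh => h𝔭.ne_top ((Ideal.eq_top_iff_one _).2 hh), ?_⟩
    rw [map_one, one_mul]
    exact Ideal.mem_map_of_mem _ hs

/-- the generic point of the fibre over the line -/
theorem comap_evT (𝔭 : Ideal T) [h𝔭 : 𝔭.IsPrime] :
    (Qp h.TA 𝔭).comap (evT h.TA h.tA) = 𝔭.map Polynomial.C := by
  apply le_antisymm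
  · have hp : (𝔭.map (Polynomial.C : T →+* T[X])).IsPrime := Ideal.isPrime_map_C_of_isPrime
    let _ : Algebra T[X] A := (evT h.TA h.tA).toAlgebra
    have hint : Algebra.IsIntegral T[X] A := ⟨h.int⟩
    obtain ⟨Q, hQ, hQc⟩ := Ideal.exists_ideal_over_prime_of_isIntegral_of_isDomain (S := A)
      (𝔭.map (Polynomial.C : T →+* T[X])) (by
        have h1 : RingHom.ker (algebraMap T[X] A) = ⊥ :=
          (RingHom.injective_iff_ker_eq_bot _).1 (evT_inj h.TA h.tA h.tr)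
        rw [h1]
        exact bot_le)
    have hQ2 : Q.comap (evT h.TA h.tA) = 𝔭.map Polynomial.C := hQc
    have hQ3 : Q.comap (iRT h.TA) = 𝔭 := by
      ext s
      rw [Ideal.mem_comap, ← evT_C h.TA h.tA, ← Ideal.mem_comap, hQ2, Ideal.mem_map_C_iff]
      constructor
      · intro h1
        have := h1 0
        rwa [Polynomial.coeff_C_zero] at this
      · intro h1 n
        rw [Polynomial.coeff_C]
        split_ifs
        · exact h1
        · exact 𝔭.zero_mem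
    rw [← hQ2]
    exact Ideal.comap_mono (Qp_le hQ hQ3)
  · rw [Ideal.map_le_iff_le_comap]
    intro s hs
    rw [Ideal.mem_comap, Ideal.mem_comap, evT_C]
    have := (h.comap_Qp 𝔭).ge hs
    exact this

theorem evT_notMem (𝔭 : Ideal T) [h𝔭 : 𝔭.IsPrime] {g : T[X]} {i : ℕ} (hi : g.coeff i ∉ 𝔭) :
    evT h.TA h.tA g ∉ Qp h.TA 𝔭 := by
  intro hh
  have h1 : g ∈ (Qp h.TA 𝔭).comap (evT h.TA h.tA) := hh
  rw [h.comap_evT, Ideal.mem_map_C_iff] at h1
  exact hi (h1 i)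

theorem dm_Qp (𝔭 : Ideal T) [h𝔭 : 𝔭.IsPrime] {e : ℕ} (hd : Dm T 𝔭 e) :
    Dm A (Qp h.TA 𝔭) (e + 1) := by
  have hq := h.fib 𝔭
  rw [← dm_comap (evT h.TA h.tA) (Qp h.TA 𝔭) hq, h.comap_evT]
  · exact dm_polyC hd
  · intro a
    obtain ⟨p, hp, hpe⟩ := h.int a
    have : Nontrivial (A ⧸ Qp h.TA 𝔭) := Ideal.Quotient.nontrivial_iff.2 hq.ne_top
    refine ⟨p, (hp.map _).ne_zero, ?_⟩
    rw [← Polynomial.hom_eval₂, hpe, map_zero]

/-- the dimensions of the points of the fibre -/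
theorem dim_le {Q : Ideal A} {e e' : ℕ} (hd : Dm A Q e) (hd' : Dm T (Q.comap (iRT h.TA)) e') :
    e ≤ e' + 1 ∧ (e = e' + 1 → haveI := hd'.1; Q = Qp h.TA (Q.comap (iRT h.TA))) := by
  have hp := hd'.1
  have h1 := Qp_le (hTA := h.TA) (𝔭 := Q.comap (iRT h.TA)) hd.1 rfl
  have h2 := h.dm_Qp _ hd'
  constructor
  · rcases eq_or_lt_of_le h1 with h3 | h3
    · rw [h3] at h2
      exact (hd.uniq h2).le
    · exact (h2.lt hd h3).le
  · intro he
    by_contra hne
    have h3 : Qp h.TA (Q.comap (iRT h.TA)) < Q := lt_of_le_of_ne h1 fun hh => hne hh.symm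
    have := h2.lt hd h3
    omega

end Chart

end

end Pool.Agent.T6.H77.NB
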