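import Pool.Agent.T6.H77.NB.Ch1
import Pool.Agent.T6.H77.NB.Ded

/-!
# Charts of families of curves: the horizontal divisors
-/

set_option autoImplicit false
set_option linter.unusedSectionVars false
set_option linter.style.haveILetI false

open Polynomial

namespace Pool.Agent.T6.H77.NB

open FF
open Pool.Agent.R410.NG (Ff Asy)

section
variable {K L : Type} [Field K] [Field L] [Algebra K L]
variable {T : Subring K} {t : L} {A : Subring L}

/-- the coefficients as elements of the affine ring of the generic fibre -/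
noncomputable def adjT (T : Subring K) (t : L) : T[X] →+* Algebra.adjoin K {t} :=
  Polynomial.eval₂RingHom ((algebraMap K (Algebra.adjoin K {t})).comp T.subtype)
    ⟨t, Algebra.self_mem_adjoin_singleton K t⟩

theorem adjT_coe (g : T[X]) : ((adjT T t g : Algebra.adjoin K {t}) : L) =
    g.eval₂ ((algebraMap K L).comp T.subtype) t := by
  unfold adjT
  rw [Polynomial.coe_eval₂RingHom]
  show (Algebra.adjoin K {t}).subtype (Polynomial.eval₂ _ _ g) = _
  rw [Polynomial.hom_eval₂]
  rfl

namespace Chart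

variable (h : Chart T t A)

include h

theorem isInt (a : A) : IsIntegral (Algebra.adjoin K {t}) (a : L) := by
  obtain ⟨p, hp, hpe⟩ := h.int a
  refine ⟨p.map (adjT T t), hp.map _, ?_⟩
  rw [Polynomial.eval₂_map]
  have h1 : (algebraMap (Algebra.adjoin K {t}) L).comp (adjT T t) = A.subtype.comp (evT h.TA h.tA) := by
    refine RingHom.ext fun g => ?_
    rw [RingHom.comp_apply, RingHom.comp_apply]
    exact (adjT_coe g).trans (evT_coe h.TA h.tA g).symm
  rw [h1]
  have h2 := congrArg A.subtype hpe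
  rw [Polynomial.hom_eval₂, map_zero] at h2
  exact h2

theorem regA {P : Place K L} (hP : P.Reg t) (a : A) : P.Reg (A.subtype a) :=
  Place.reg_of_isIntegral _ (reg_adj hP) (h.isInt a)

open Classical in
/-- the centre of a place on the chart -/
noncomputable def cA (P : Place K L) : Ideal A :=
  if hP : P.Reg t then cen P A.subtype (h.regA hP) else ⊥

theorem cA_eq {P : Place K L} (hP : P.Reg t) : h.cA P = cen P A.subtype (h.regA hP) := dif_pos hP

theorem mem_cA {P : Place K L} (hP : P.Reg t) (a : A) :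
    a ∈ h.cA P ↔ ((a : L) = 0 ∨ 0 < P.ord (a : L)) := by
  rw [cA_eq h hP, mem_cen]
  rfl

theorem cA_prime {P : Place K L} (hP : P.Reg t) : (h.cA P).IsPrime := by
  rw [cA_eq h hP]
  exact cen_prime _ _ _

theorem fracT : IsFractionRing T K := by
  refine IsFractionRing.of_field T K fun z => ?_
  obtain ⟨a, ha, b, hb, hb0, rfl⟩ := h.Tfrac z
  exact ⟨⟨a, ha⟩, ⟨b, hb⟩, rfl⟩

variable [CharZero K] [hff : IsFF K L]

/-- the dimension of the residue field of a place -/
theorem trdeg_RF {e : ℕ} (he : Algebra.trdeg ℚ K = e) (P : Place K L) :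
    haveI : CharZero P.RF := charZero_of_injective_algebraMap (algebraMap K P.RF).injective
    Algebra.trdeg ℚ P.RF = e := by
  have : CharZero P.RF := charZero_of_injective_algebraMap (algebraMap K P.RF).injective
  have h2 := trdeg_add_eq ℚ K (A := P.RF)
  have h3 : Algebra.IsAlgebraic K P.RF := Algebra.IsAlgebraic.of_finite K P.RF
  rw [he, trdeg_eq_zero (R := K) (A := P.RF), add_zero] at h2
  exact h2.symm

/-- every element of the residue field is algebraic over the image of `T` -/
theorem alg_RF (P : Place K L) (φ : T →+* P.RF)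
    (hφ : ∀ s : T, φ s = algebraMap K P.RF s) (z : P.RF) :
    ∃ p : T[X], p.map φ ≠ 0 ∧ p.eval₂ φ z = 0 := by
  have hfr := h.fracT
  have h3 : Algebra.IsAlgebraic K P.RF := Algebra.IsAlgebraic.of_finite K P.RF
  let _ : Algebra T P.RF := φ.toAlgebra
  have hsc : IsScalarTower T K P.RF := IsScalarTower.of_algebraMap_eq fun s => hφ s
  have h4 : IsAlgebraic T z := (IsFractionRing.isAlgebraic_iff T K P.RF).2 (h3.isAlgebraic z)
  obtain ⟨p, hp0, hp⟩ := h4
  refine ⟨p, ?_, hp⟩
  have hinj : Function.Injective φ := by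
    intro a b hab
    rw [hφ, hφ] at hab
    exact Subtype.ext ((algebraMap K P.RF).injective hab)
  exact (Polynomial.map_ne_zero_iff hinj).2 hp0

theorem dm_cA {e : ℕ} (he : Algebra.trdeg ℚ K = e) {P : Place K L} (hP : P.Reg t) :
    Dm A (h.cA P) e := by
  have : CharZero P.RF := charZero_of_injective_algebraMap (algebraMap K P.RF).injective
  rw [cA_eq h hP]
  unfold cen
  refine dm_of (P.redHom A.subtype (h.regA hP)) (h.trdeg_RF he P) fun z => ?_
  obtain ⟨p, hp0, hp⟩ := h.alg_RF P ((P.redHom A.subtype (h.regA hP)).comp (iRT h.TA)) (fun s => rfl) z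
  refine ⟨p.map (iRT h.TA), ?_, ?_⟩
  · rw [Polynomial.map_map]
    exact hp0
  · rw [Polynomial.eval₂_map]
    exact hp

theorem dm_bot {e : ℕ} (he : Algebra.trdeg ℚ K = e) : Dm T ⊥ e := by
  have hfr := h.fracT
  have h0 : RingHom.ker (algebraMap T K) = ⊥ :=
    (RingHom.injective_iff_ker_eq_bot _).1 (IsFractionRing.injective T K)
  rw [← h0]
  refine dm_of (algebraMap T K) he fun z => ?_
  have : Algebra.IsAlgebraic T K := IsLocalization.isAlgebraic (R := T) (S := K) (nonZeroDivisors T)
  obtain ⟨p, hp0, hp⟩ := this.isAlgebraic z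
  exact ⟨p, (Polynomial.map_ne_zero_iff (IsFractionRing.injective T K)).2 hp0, hp⟩

/-- the primes of the chart over the generic point of the base are the centres of the places -/
theorem exists_cA {Q : Ideal A} (hQ : Q.IsPrime) (hc : Q.comap (iRT h.TA) = ⊥) {a : A} (ha : a ∈ Q)
    (ha0 : a ≠ 0) : ∃ P : Place K L, P.Reg t ∧ 0 < P.ord (a : L) ∧ h.cA P = Q := by
  let B := integralClosure (Algebra.adjoin K {t}) L
  have hns : ∀ s : T, s ≠ 0 → iRT h.TA s ∉ Q := by
    intro s hs hh
    have : s ∈ Q.comap (iRT h.TA) := hh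
    rw [hc] at this
    exact hs this
  have hB : ∀ b : B, ∃ s : T, s ≠ 0 ∧ algebraMap K L s * (b : L) ∈ A := by
    intro b
    obtain ⟨s, hs, hs0, hsb⟩ := h.nor b b.2
    exact ⟨⟨s, hs⟩, fun hh => hs0 (congrArg Subtype.val hh), hsb⟩
  let I : Ideal B :=
    { carrier := {x | ∃ s : T, s ≠ 0 ∧ ∃ hx : algebraMap K L s * (x : L) ∈ A, (⟨_, hx⟩ : A) ∈ Q}
      add_mem' := by
        rintro x y ⟨s, hs, hx, hq⟩ ⟨s', hs', hy, hq'⟩
        have h1 := Q.add_mem (Q.mul_mem_left (iRT h.TA s') hq) (Q.mul_mem_left (iRT h.TA s) hq')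
        have h2 : (((iRT h.TA s' * ⟨_, hx⟩ + iRT h.TA s * ⟨_, hy⟩ : A)) : L) =
            algebraMap K L ((s * s' : T) : K) * ((x + y : B) : L) := by
          show algebraMap K L s' * (algebraMap K L s * x) + algebraMap K L s * (algebraMap K L s' * y) =
            algebraMap K L (s * s') * (x + y)
          rw [map_mul]
          ring
        refine ⟨s * s', mul_ne_zero hs hs', h2 ▸ Subtype.property _, ?_⟩
        convert h1 using 1
        exact Subtype.ext h2.symm
      zero_mem' := by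
        refine ⟨1, one_ne_zero, ?_, ?_⟩
        · show algebraMap K L ((1 : T) : K) * ((0 : B) : L) ∈ A
          rw [show ((0 : B) : L) = 0 from rfl, mul_zero]
          exact A.zero_mem
        · convert Q.zero_mem using 1
          apply Subtype.ext
          show algebraMap K L ((1 : T) : K) * ((0 : B) : L) = 0
          rw [show ((0 : B) : L) = 0 from rfl, mul_zero]
      smul_mem' := by
        rintro c x ⟨s, hs, hx, hq⟩
        obtain ⟨s', hs', hcA⟩ := hB c
        have h1 := Q.mul_mem_left (⟨_, hcA⟩ : A) hq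
        have h2 : (((⟨_, hcA⟩ * ⟨_, hx⟩ : A)) : L) =
            algebraMap K L ((s' * s : T) : K) * ((c • x : B) : L) := by
          show algebraMap K L s' * c * (algebraMap K L s * x) = algebraMap K L (s' * s) * (c * x)
          rw [map_mul]
          ring
        refine ⟨s' * s, mul_ne_zero hs' hs, h2 ▸ Subtype.property _, ?_⟩
        convert h1 using 1
        exact Subtype.ext h2.symm }
  have hI : I.IsPrime := by
    refine ⟨?_, ?_⟩
    · rw [Ideal.ne_top_iff_one]
      rintro ⟨s, hs, hx, hq⟩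
      apply hns s hs
      convert hq using 1
      apply Subtype.ext
      show algebraMap K L s = algebraMap K L s * ((1 : B) : L)
      rw [show ((1 : B) : L) = 1 from rfl, mul_one]
    · rintro x y ⟨s, hs, hxy, hq⟩
      obtain ⟨s1, hs1, hx⟩ := hB x
      obtain ⟨s2, hs2, hy⟩ := hB y
      have h1 : (⟨_, hx⟩ * ⟨_, hy⟩ : A) * iRT h.TA s ∈ Q := by
        have h2 := Q.mul_mem_left (iRT h.TA (s1 * s2)) hq
        convert h2 using 1
        apply Subtype.ext
        show algebraMap K L s1 * x * (algebraMap K L s2 * y) * algebraMap K L s =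
          algebraMap K L (s1 * s2) * (algebraMap K L s * ((x * y : B) : L))
        rw [map_mul, show ((x * y : B) : L) = (x : L) * y from rfl]
        ring
      have h3 := (hQ.mem_or_mem h1).resolve_right (hns s hs)
      rcases hQ.mem_or_mem h3 with h4 | h4
      · left
        exact ⟨s1, hs1, hx, h4⟩
      · right
        exact ⟨s2, hs2, hy, h4⟩
  have hIA : ∀ (b : B) (x : A), (b : L) = x → (b ∈ I ↔ x ∈ Q) := by
    intro b x hbx
    constructor
    · rintro ⟨s, hs, hx, hq⟩
      have h1 : iRT h.TA s * x ∈ Q := by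
        convert hq using 1
        apply Subtype.ext
        show algebraMap K L s * (x : L) = algebraMap K L s * (b : L)
        rw [hbx]
      exact (hQ.mem_or_mem h1).resolve_left (hns s hs)
    · intro hx
      refine ⟨1, one_ne_zero, ?_, ?_⟩
      · show algebraMap K L ((1 : T) : K) * (b : L) ∈ A
        rw [show ((1 : T) : K) = 1 from rfl, map_one, one_mul, hbx]
        exact x.2
      · convert hx using 1
        apply Subtype.ext
        show algebraMap K L ((1 : T) : K) * (b : L) = x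
        rw [show ((1 : T) : K) = 1 from rfl, map_one, one_mul, hbx]
  let jA : A → B := fun x => ⟨x, h.isInt x⟩
  have hI0 : I ≠ ⊥ := by
    intro h0
    have h1 : jA a ∈ I := (hIA (jA a) a rfl).2 ha
    rw [h0, Ideal.mem_bot] at h1
    exact ha0 (Subtype.ext (congrArg (fun z : B => (z : L)) h1))
  obtain ⟨P, hP, hPI⟩ := exists_place_of_prime h.tr I hI hI0
  refine ⟨P, hP, ?_, ?_⟩
  · have h1 := (hPI (jA a)).2 ((hIA (jA a) a rfl).2 ha)
    exact h1.resolve_left fun hh => ha0 (Subtype.ext hh)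
  · ext x
    rw [h.mem_cA hP, ← hIA (jA x) x rfl, ← hPI (jA x)]

/-- the centre determines the place -/
theorem cA_inj {P P' : Place K L} (hP : P.Reg t) (hP' : P'.Reg t) (hc : h.cA P = h.cA P') : P = P' := by
  refine place_ext h.tr hP hP' fun b hb => ?_
  obtain ⟨s, hs, hs0, hsb⟩ := h.nor b hb
  have hsL : algebraMap K L s ≠ 0 := by rwa [Ne, map_eq_zero]
  by_cases hb0 : b = 0
  · simp [hb0]
  have h1 := h.mem_cA hP ⟨_, hsb⟩
  have h2 := h.mem_cA hP' ⟨_, hsb⟩
  rw [hc, h2] at h1
  have h3 : ∀ w : Place K L, w.ord (algebraMap K L s * b) = w.ord b := by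
    intro w
    rw [w.ord_mul hsL hb0, w.ord_const hs0, zero_add]
  simp only [h3, mul_eq_zero, hsL, false_or] at h1
  exact h1.symm

/-- **The number of the points of a horizontal divisor.** -/
theorem asy_hor {e : ℕ} (he : Algebra.trdeg ℚ K = e) {g : T[X]} {N : T} (hN : N ≠ 0)
    (hg : ∀ 𝔭 : Ideal T, 𝔭.IsPrime → N ∉ 𝔭 → ∃ i, g.coeff i ∉ 𝔭) (s : Finset (Place K L))
    (hs : ∀ P, P ∈ s ↔ (P.Reg t ∧ 0 < P.ord (g.eval₂ ((algebraMap K L).comp T.subtype) t))) :
    Asy (fun F _ _ => ct (fun ψ : A →+* F => ψ (evT h.TA h.tA g) = 0 ∧ ψ (iRT h.TA N) ≠ 0)) e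
      s.card := by
  classical
  have hTft := h.Tft
  have hAft := h.Aft
  have hg0 : evT h.TA h.tA g ≠ 0 := by
    intro h0
    have h1 : g = 0 := evT_inj h.TA h.tA h.tr (by rw [h0, map_zero])
    have hbp : (⊥ : Ideal T).IsPrime := Ideal.isPrime_bot
    obtain ⟨i, hi⟩ := hg ⊥ hbp fun hh => hN hh
    rw [h1, Polynomial.coeff_zero] at hi
    exact hi (Ideal.zero_mem _)
  have hcomap : ∀ P : Place K L, P.Reg t → ∀ r : T, r ≠ 0 → iRT h.TA r ∉ h.cA P := by
    intro P hP r hr
    rw [h.mem_cA hP]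
    push Not
    have hr0 : (r : K) ≠ 0 := fun hh => hr (Subtype.ext hh)
    refine ⟨?_, ?_⟩
    · show algebraMap K L r ≠ 0
      rwa [Ne, map_eq_zero]
    · show P.ord (algebraMap K L r) ≤ 0
      rw [P.ord_const hr0]
  have hcard : (s.image h.cA).card = s.card := by
    refine Finset.card_image_of_injOn ?_
    intro P hP P' hP' hc
    exact h.cA_inj ((hs P).1 hP).1 ((hs P').1 hP').1 hc
  have h1 := asy_count (A := A) (Ideal.span {evT h.TA h.tA g}) (iRT h.TA N) (s.image h.cA) e ?_ ?_ ?_
  · rw [hcard] at h1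
    refine h1.congr 1 one_ne_zero fun F _ _ _ => ?_
    rw [ZN_eq]
  · intro Q hQ
    obtain ⟨P, hP, rfl⟩ := Finset.mem_image.1 hQ
    obtain ⟨hP1, hP2⟩ := (hs P).1 hP
    refine ⟨?_, hcomap P hP1 N hN, h.dm_cA he hP1⟩
    rw [Ideal.span_singleton_le_iff_mem, h.mem_cA hP1, evT_coe]
    exact Or.inr hP2
  · intro Q hQ
    have hQp : Q.IsPrime := hQ.1.1
    have hgQ : evT h.TA h.tA g ∈ Q := hQ.1.2 (Ideal.mem_span_singleton_self _)
    by_cases hNQ : iRT h.TA N ∈ Q
    · exact Or.inl hNQ
    right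
    by_cases hCp : Cp A Q
    · exact Or.inr (Or.inl hCp)
    obtain ⟨eQ, hdQ⟩ := dm_or hQp hCp
    by_cases hbot : Q.comap (iRT h.TA) = ⊥
    · left
      obtain ⟨P, hP1, hP2, hP3⟩ := h.exists_cA hQp hbot hgQ hg0
      rw [Finset.mem_image]
      refine ⟨P, ?_, hP3⟩
      rw [hs]
      refine ⟨hP1, ?_⟩
      rwa [evT_coe] at hP2
    · right
      right
      have hpp : (Q.comap (iRT h.TA)).IsPrime := Ideal.comap_isPrime _ _
      have hCp' : ¬ Cp T (Q.comap (iRT h.TA)) := by
        rintro ⟨n, hn, hm⟩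
        refine hCp ⟨n, hn, ?_⟩
        rw [Ideal.mem_comap, map_natCast] at hm
        exact hm
      obtain ⟨e₀, hd₀⟩ := dm_or hpp hCp'
      have hlt : e₀ < e := (h.dm_bot he).lt hd₀ (bot_lt_iff_ne_bot.2 hbot)
      obtain ⟨h5, h6⟩ := h.dim_le hdQ hd₀
      refine ⟨eQ, ?_, hdQ⟩
      rcases eq_or_lt_of_le h5 with h7 | h7
      · exfalso
        have h8 := h6 h7
        obtain ⟨i, hi⟩ := hg _ hpp (fun hh => hNQ hh)
        have h9 := h.evT_notMem (Q.comap (iRT h.TA)) hi
        rw [h8] at hgQ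
        exact h9 hgQ
      · omega
  · intro Q hQ Q' hQ' hle
    obtain ⟨P, hP, rfl⟩ := Finset.mem_image.1 hQ
    obtain ⟨P', hP', rfl⟩ := Finset.mem_image.1 hQ'
    by_contra hne
    have := (h.dm_cA he ((hs P).1 hP).1).lt (h.dm_cA he ((hs P').1 hP').1) (lt_of_le_of_ne hle hne)
    omega

end Chart

end

end Pool.Agent.T6.H77.NB
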