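import Pool.Agent.T6.H77.NB.Ch2

/-!
# Charts of families of curves: the vertical divisors
-/

set_option autoImplicit false
set_option linter.unusedSectionVars false
set_option linter.style.haveILetI false

open Polynomial

namespace Pool.Agent.T6.H77.NB

open FF
open Pool.Agent.R410.NG (Ff Asy)

section
variable {K L : Type} [Field K] [Field L] [Algebra K L]
variable {T : Subring K} {t : L} {A : Subring L}

open Classical in
/-- the generic point of the fibre, for any ideal -/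
noncomputable def Qgen (hTA : ∀ r ∈ T, algebraMap K L r ∈ A) (𝔭 : Ideal T) : Ideal A :=
  if h : 𝔭.IsPrime then haveI := h; Qp hTA 𝔭 else ⊥

theorem Qgen_eq (hTA : ∀ r ∈ T, algebraMap K L r ∈ A) (𝔭 : Ideal T) [h : 𝔭.IsPrime] :
    Qgen hTA 𝔭 = Qp hTA 𝔭 := dif_pos h

namespace Chart

variable (h : Chart T t A)

include h

variable [CharZero K] [hff : IsFF K L]

/-- the number of the points of the base with `N = 0` is negligible -/
theorem small_T {e : ℕ} (he : Algebra.trdeg ℚ K = e) {N : T} (hN : N ≠ 0) :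
    Small (fun F _ _ => ct (fun φ : T →+* F => φ N = 0)) e := by
  have hTft := h.Tft
  have hNb : N ∉ (⊥ : Ideal T) := fun hh => hN hh
  obtain ⟨C, M, hC, hM, g⟩ := dm_hyp (h.dm_bot he) hNb
  refine small_of_mulq ⟨C, M, hC, hM, fun F _ _ hF => ?_⟩
  rw [abs_of_nonneg (ct_nonneg _)]
  refine le_trans (le_of_eq ?_) (g F hF)
  congr 1
  exact ct_congr (p' := fun φ : T →+* F => (∀ a ∈ (⊥ : Ideal T), φ a = 0) ∧ φ N = 0) fun φ => by
    constructor
    · intro hh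
      refine ⟨fun a ha => ?_, hh⟩
      rw [Ideal.mem_bot] at ha
      rw [ha, map_zero]
    · exact fun hh => hh.2

/-- **The number of the points of a vertical divisor.** -/
theorem asy_vert {e : ℕ} (he : Algebra.trdeg ℚ K = e) {N : T} (hN : N ≠ 0) :
    Asy (fun F _ _ => ((Nat.card F : ℝ) + 1) * ct (fun φ : T →+* F => φ N = 0) -
      ct (fun ψ : A →+* F => ψ (iRT h.TA N) = 0)) e 0 := by
  classical
  have hTft := h.Tft
  have hAft := h.Aft
  have hnoe : IsNoetherianRing T := Algebra.FiniteType.isNoetherianRing ℤ T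
  have hmf : (Ideal.span {N}).minimalPrimes.Finite :=
    Ideal.finite_minimalPrimes_of_isNoetherianRing T _
  let Ps : Finset (Ideal T) := hmf.toFinset.filter fun 𝔭 => ∃ e', e' + 1 = e ∧ Dm T 𝔭 e'
  have hPs : ∀ 𝔭, 𝔭 ∈ Ps ↔ 𝔭 ∈ (Ideal.span {N}).minimalPrimes ∧ ∃ e', e' + 1 = e ∧ Dm T 𝔭 e' := by
    intro 𝔭
    rw [Finset.mem_filter, hmf.mem_toFinset]
  have hbot := h.dm_bot he
  have hne : ∀ 𝔭 : Ideal T, N ∈ 𝔭 → ∀ e₀, Dm T 𝔭 e₀ → e₀ < e := by
    intro 𝔭 hN𝔭 e₀ hd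
    refine hbot.lt hd (bot_lt_iff_ne_bot.2 ?_)
    rintro rfl
    exact hN hN𝔭
  -- the base
  have h1 := asy_countq (A := T) (Ideal.span {N}) 1 Ps e ?_ ?_ ?_
  · -- the total space
    have h2 := asy_count (A := A) (Ideal.span {iRT h.TA N}) 1 (Ps.image (Qgen h.TA)) e ?_ ?_ ?_
    · have hcard : (Ps.image (Qgen h.TA)).card = Ps.card := by
        refine Finset.card_image_of_injOn ?_
        intro 𝔭 h𝔭 𝔭' h𝔭' hQ
        have p1 := ((hPs 𝔭).1 h𝔭).1.1.1
        have p2 := ((hPs 𝔭').1 h𝔭').1.1.1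
        change Qgen h.TA 𝔭 = Qgen h.TA 𝔭' at hQ
        rw [Qgen_eq, Qgen_eq] at hQ
        rw [← h.comap_Qp 𝔭, ← h.comap_Qp 𝔭', hQ]
      rw [hcard] at h2
      have h3 := (h1.add (h.small_T he hN).asy).add h2.neg
      rw [show (Ps.card : ℝ) + 0 + -(Ps.card : ℝ) = 0 by ring] at h3
      refine h3.congr 1 one_ne_zero fun F _ _ _ => ?_
      rw [ZN_eq, ZN_eq]
      have e1 : ct (fun φ : T →+* F => φ N = 0 ∧ φ 1 ≠ 0) = ct (fun φ : T →+* F => φ N = 0) :=
        ct_congr fun φ => by rw [map_one]; simp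
      have e2 : ct (fun ψ : A →+* F => ψ (iRT h.TA N) = 0 ∧ ψ 1 ≠ 0) =
          ct (fun ψ : A →+* F => ψ (iRT h.TA N) = 0) :=
        ct_congr fun φ => by rw [map_one]; simp
      rw [e1, e2]
      ring
    · intro Q hQ
      obtain ⟨𝔭, h𝔭, rfl⟩ := Finset.mem_image.1 hQ
      obtain ⟨hmin, e', he', hd⟩ := (hPs 𝔭).1 h𝔭
      have hp := hmin.1.1
      rw [Qgen_eq]
      have hd' := h.dm_Qp 𝔭 hd
      refine ⟨?_, ?_, he' ▸ hd'⟩
      · rw [Ideal.span_singleton_le_iff_mem]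
        have h4 : N ∈ 𝔭 := hmin.1.2 (Ideal.mem_span_singleton_self _)
        have h5 := (h.comap_Qp 𝔭).ge h4
        exact h5
      · exact fun hh => hd'.1.ne_top ((Ideal.eq_top_iff_one _).2 hh)
    · intro Q hQ
      have hQp : Q.IsPrime := hQ.1.1
      have hNQ : iRT h.TA N ∈ Q := hQ.1.2 (Ideal.mem_span_singleton_self _)
      right
      by_cases hCp : Cp A Q
      · exact Or.inr (Or.inl hCp)
      obtain ⟨eQ, hdQ⟩ := dm_or hQp hCp
      have hpp : (Q.comap (iRT h.TA)).IsPrime := Ideal.comap_isPrime _ _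
      have hCp' : ¬ Cp T (Q.comap (iRT h.TA)) := by
        rintro ⟨n, hn, hm⟩
        refine hCp ⟨n, hn, ?_⟩
        rw [Ideal.mem_comap, map_natCast] at hm
        exact hm
      obtain ⟨e₀, hd₀⟩ := dm_or hpp hCp'
      have hN0 : N ∈ Q.comap (iRT h.TA) := hNQ
      have hlt := hne _ hN0 e₀ hd₀
      obtain ⟨h5, h6⟩ := h.dim_le hdQ hd₀
      by_cases heq : eQ = e
      · left
        rw [Finset.mem_image]
        refine ⟨Q.comap (iRT h.TA), ?_, ?_⟩
        · rw [hPs]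
          refine ⟨?_, e₀, by omega, hd₀⟩
          -- minimality
          obtain ⟨𝔭₁, hm₁, hle₁⟩ := Ideal.exists_minimalPrimes_le (J := Q.comap (iRT h.TA))
            (I := Ideal.span {N}) (by rwa [Ideal.span_singleton_le_iff_mem])
          have hp₁ := hm₁.1.1
          have hCp₁ : ¬ Cp T 𝔭₁ := fun ⟨n, hn, hm⟩ => hCp' ⟨n, hn, hle₁ hm⟩
          obtain ⟨e₁, hd₁⟩ := dm_or hp₁ hCp₁
          have hlt₁ := hne 𝔭₁ (hm₁.1.2 (Ideal.mem_span_singleton_self _)) e₁ hd₁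
          rcases eq_or_lt_of_le hle₁ with h7 | h7
          · rw [← h7]
            exact hm₁
          · have := hd₁.lt hd₀ h7
            omega
        · rw [Qgen_eq]
          exact (h6 (by omega)).symm
      · right
        right
        exact ⟨eQ, by omega, hdQ⟩
    · intro Q hQ Q' hQ' hle
      obtain ⟨𝔭, h𝔭, rfl⟩ := Finset.mem_image.1 hQ
      obtain ⟨𝔭', h𝔭', rfl⟩ := Finset.mem_image.1 hQ'
      obtain ⟨hmin, e', he', hd⟩ := (hPs 𝔭).1 h𝔭
      obtain ⟨hmin', e'', he'', hd'⟩ := (hPs 𝔭').1 h𝔭'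
      have hp := hmin.1.1
      have hp' := hmin'.1.1
      rw [Qgen_eq, Qgen_eq] at hle ⊢
      by_contra hne'
      have := (h.dm_Qp 𝔭 hd).lt (h.dm_Qp 𝔭' hd') (lt_of_le_of_ne hle hne')
      omega
  · intro 𝔭 h𝔭
    obtain ⟨hmin, e', he', hd⟩ := (hPs 𝔭).1 h𝔭
    refine ⟨hmin.1.2, ?_, e', he', hd⟩
    exact fun hh => hd.1.ne_top ((Ideal.eq_top_iff_one _).2 hh)
  · intro 𝔭 h𝔭
    have hp : 𝔭.IsPrime := h𝔭.1.1
    right
    by_cases hCp : Cp T 𝔭
    · exact Or.inr (Or.inl hCp)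
    obtain ⟨e₀, hd₀⟩ := dm_or hp hCp
    have hlt := hne 𝔭 (h𝔭.1.2 (Ideal.mem_span_singleton_self _)) e₀ hd₀
    by_cases heq : e₀ + 1 = e
    · left
      exact (hPs 𝔭).2 ⟨h𝔭, e₀, heq, hd₀⟩
    · right
      right
      exact ⟨e₀, by omega, hd₀⟩
  · intro 𝔭 h𝔭 𝔭' h𝔭' hle
    obtain ⟨hmin, e', he', hd⟩ := (hPs 𝔭).1 h𝔭
    obtain ⟨hmin', e'', he'', hd'⟩ := (hPs 𝔭').1 h𝔭'
    by_contra hne'
    have := hd.lt hd' (lt_of_le_of_ne hle hne')
    omega

end Chart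

end

end Pool.Agent.T6.H77.NB
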