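import Pool.Agent.R410.NG.Asy
import Pool.Agent.T6.H77.NB.Dim

/-!
# The number of the points of finitely generated rings with values in finite fields
-/

set_option autoImplicit false
set_option linter.unusedSectionVars false
set_option linter.style.haveILetI false

open Polynomial NumberField

namespace Pool.Agent.T6.H77.NB

open Pool.Agent.R410.NG (Ff Asy asy_hom)
open Pool.Agent.R410.BS (good_le hom_le)
open Pool.Agent.R410.LW (FG)

/-- negligible functions -/
def Small (T : Ff) (e : ℕ) : Prop := ∃ (C : ℝ) (N : ℕ), 0 ≤ C ∧ N ≠ 0 ∧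
  ∀ (F : Type) [Field F] [Finite F], ((N : ℕ) : F) ≠ 0 →
    |T F| * √(Nat.card F : ℝ) ≤ C * (Nat.card F : ℝ) ^ e

theorem Small.zero (e : ℕ) : Small (fun _ _ _ => 0) e :=
  ⟨0, 1, le_rfl, one_ne_zero, fun F _ _ _ => by rw [abs_zero, zero_mul, zero_mul]⟩

theorem Small.mono {T T' : Ff} {e : ℕ} (h : Small T e) (N : ℕ) (hN : N ≠ 0)
    (h' : ∀ (F : Type) [Field F] [Finite F], ((N : ℕ) : F) ≠ 0 → |T' F| ≤ |T F|) : Small T' e := by
  obtain ⟨C, M, hC, hM, h1⟩ := h
  refine ⟨C, N * M, hC, mul_ne_zero hN hM, fun F _ _ hF => ?_⟩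
  rw [Nat.cast_mul] at hF
  exact (mul_le_mul_of_nonneg_right (h' F (left_ne_zero_of_mul hF)) (Real.sqrt_nonneg _)).trans
    (h1 F (right_ne_zero_of_mul hF))

theorem Small.add {T T' : Ff} {e : ℕ} (h : Small T e) (h' : Small T' e) :
    Small (fun F _ _ => T F + T' F) e := by
  obtain ⟨C, M, hC, hM, h1⟩ := h
  obtain ⟨C', M', hC', hM', h2⟩ := h'
  refine ⟨C + C', M * M', add_nonneg hC hC', mul_ne_zero hM hM', fun F _ _ hF => ?_⟩
  rw [Nat.cast_mul] at hF
  have e1 := h1 F (left_ne_zero_of_mul hF)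
  have e2 := h2 F (right_ne_zero_of_mul hF)
  calc |T F + T' F| * √(Nat.card F : ℝ) ≤ (|T F| + |T' F|) * √(Nat.card F : ℝ) :=
        mul_le_mul_of_nonneg_right (abs_add_le _ _) (Real.sqrt_nonneg _)
    _ ≤ (C + C') * (Nat.card F : ℝ) ^ e := by
        rw [add_mul, add_mul]
        exact add_le_add e1 e2

theorem Small.sum {ι : Type*} (s : Finset ι) (T : ι → Ff) {e : ℕ} (h : ∀ i ∈ s, Small (T i) e) :
    Small (fun F _ _ => ∑ i ∈ s, T i F) e := by
  classical
  induction s using Finset.induction_on with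
  | empty =>
    refine (Small.zero e).mono 1 one_ne_zero fun F _ _ _ => ?_
    rw [Finset.sum_empty]
  | insert i s hi ih =>
    refine ((h i (Finset.mem_insert_self _ _)).add (ih fun j hj =>
      h j (Finset.mem_insert_of_mem hj))).mono 1 one_ne_zero fun F _ _ _ => ?_
    rw [Finset.sum_insert hi]

theorem Small.neg {T : Ff} {e : ℕ} (h : Small T e) : Small (fun F _ _ => -T F) e :=
  h.mono 1 one_ne_zero fun F _ _ _ => by rw [abs_neg]

theorem Small.mulq {T : Ff} {e : ℕ} (h : Small T e) :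
    Small (fun F _ _ => (Nat.card F : ℝ) * T F) (e + 1) := by
  obtain ⟨C, M, hC, hM, h1⟩ := h
  refine ⟨C, M, hC, hM, fun F _ _ hF => ?_⟩
  have e1 := h1 F hF
  have hq : (0 : ℝ) ≤ (Nat.card F : ℝ) := Nat.cast_nonneg _
  rw [abs_mul, abs_of_nonneg hq, pow_succ, mul_assoc]
  calc (Nat.card F : ℝ) * (|T F| * √(Nat.card F : ℝ)) ≤
      (Nat.card F : ℝ) * (C * (Nat.card F : ℝ) ^ e) := mul_le_mul_of_nonneg_left e1 hq
    _ = _ := by ring

theorem asy_small {T T' : Ff} {e : ℕ} {r : ℝ} (h : Asy T e r)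
    (h' : Small (fun F _ _ => T' F - T F) e) : Asy T' e r := h.near h'

theorem Small.asy {T : Ff} {e : ℕ} (h : Small T e) : Asy T e 0 := by
  refine (Asy.zero e).near ?_
  obtain ⟨C, N, hC, hN, h1⟩ := h
  exact ⟨C, N, hC, hN, fun F _ _ hF => by rw [sub_zero]; exact h1 F hF⟩

theorem sqrt_le_q (F : Type) [Field F] [Finite F] : √(Nat.card F : ℝ) ≤ Nat.card F := by
  have hq1 : (1 : ℝ) ≤ Nat.card F := by exact_mod_cast Nat.card_pos
  rw [Real.sqrt_le_left (by linarith)]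
  nlinarith

/-- a bound by a smaller power of `q` -/
theorem small_of_lt {T : Ff} {e e' : ℕ} (hlt : e' < e) (h : ∃ (C : ℝ) (N : ℕ), 0 ≤ C ∧ N ≠ 0 ∧
    ∀ (F : Type) [Field F] [Finite F], ((N : ℕ) : F) ≠ 0 →
      |T F| ≤ C * (Nat.card F : ℝ) ^ e') : Small T e := by
  obtain ⟨C, N, hC, hN, h1⟩ := h
  refine ⟨C, N, hC, hN, fun F _ _ hF => ?_⟩
  have hq1 : (1 : ℝ) ≤ Nat.card F := by exact_mod_cast Nat.card_pos
  calc |T F| * √(Nat.card F : ℝ) ≤ C * (Nat.card F : ℝ) ^ e' * (Nat.card F : ℝ) :=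
        mul_le_mul (h1 F hF) (sqrt_le_q F) (Real.sqrt_nonneg _) (by positivity)
    _ = C * (Nat.card F : ℝ) ^ (e' + 1) := by rw [pow_succ]; ring
    _ ≤ C * (Nat.card F : ℝ) ^ e :=
        mul_le_mul_of_nonneg_left (pow_le_pow_right₀ hq1 hlt) hC

theorem small_of_mulq {T : Ff} {e : ℕ} (h : ∃ (C : ℝ) (N : ℕ), 0 ≤ C ∧ N ≠ 0 ∧
    ∀ (F : Type) [Field F] [Finite F], ((N : ℕ) : F) ≠ 0 →
      |T F| * Nat.card F ≤ C * (Nat.card F : ℝ) ^ e) : Small T e := by
  obtain ⟨C, N, hC, hN, h1⟩ := h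
  refine ⟨C, N, hC, hN, fun F _ _ hF => ?_⟩
  exact (mul_le_mul_of_nonneg_left (sqrt_le_q F) (abs_nonneg _)).trans (h1 F hF)

theorem fg_frac {B M : Type} [CommRing B] [Field M] [Algebra B M] [IsFractionRing B M]
    [h : Algebra.FiniteType ℤ B] : FG M := by
  classical
  obtain ⟨G, hG⟩ := h.out
  refine ⟨G.image (algebraMap B M), ?_⟩
  rw [eq_top_iff]
  intro z _
  have h1 : ∀ b : B, algebraMap B M b ∈
      Subfield.closure ((G.image (algebraMap B M) : Finset M) : Set M) := by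
    intro b
    have hb : b ∈ Algebra.adjoin ℤ (G : Set B) := by rw [hG]; trivial
    induction hb using Algebra.adjoin_induction with
    | mem x hx =>
      apply Subfield.subset_closure
      rw [Finset.coe_image]
      exact ⟨x, hx, rfl⟩
    | algebraMap n =>
      rw [eq_intCast, map_intCast]
      exact intCast_mem _ n
    | add x y _ _ hx hy =>
      rw [map_add]
      exact add_mem hx hy
    | mul x y _ _ hx hy =>
      rw [map_mul]
      exact mul_mem hx hy
  obtain ⟨a, b, hb, rfl⟩ := IsFractionRing.div_surjective (A := B) z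
  exact div_mem (h1 a) (h1 b)

section
variable {B : Type} [CommRing B] [IsDomain B] [CharZero B]

theorem cz_frac : CharZero (FractionRing B) :=
  charZero_of_injective_algebraMap (IsFractionRing.injective B (FractionRing B))

theorem trz_frac : letI := cz_frac (B := B); Algebra.trdeg ℚ (FractionRing B) = trz B := by
  letI := cz_frac (B := B)
  have : Algebra.IsAlgebraic B (FractionRing B) :=
    IsLocalization.isAlgebraic (R := B) (S := FractionRing B) (nonZeroDivisors B)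
  show Algebra.trdeg ℚ (FractionRing B) = trz B
  rw [← trdeg_int]
  exact (trdeg_alg (IsFractionRing.injective B (FractionRing B))).symm

theorem hom_le' (hft : Algebra.FiniteType ℤ B) {e : ℕ} (he : trz B = e) : ∃ C : ℝ, 0 ≤ C ∧
    ∀ (F : Type) [Field F] [Finite F], (Nat.card (B →+* F) : ℝ) ≤ C * (Nat.card F : ℝ) ^ e := by
  letI := cz_frac (B := B)
  exact hom_le (R := B) (K := FractionRing B) (IsFractionRing.injective B (FractionRing B))
    (trz_frac.trans he).le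

theorem good_le' (hft : Algebra.FiniteType ℤ B) {e : ℕ} (he : trz B = e) {u : B} (hu : u ≠ 0) :
    ∃ (C : ℝ) (N : ℕ), 0 ≤ C ∧ N ≠ 0 ∧ ∀ (F : Type) [Field F] [Finite F], ((N : ℕ) : F) ≠ 0 →
      (Nat.card {φ : B →+* F // φ u = 0} : ℝ) * Nat.card F ≤ C * (Nat.card F : ℝ) ^ e := by
  letI := cz_frac (B := B)
  obtain ⟨C, N, hC, hN, h⟩ := good_le (R := B) (K := FractionRing B)
    (IsFractionRing.injective B (FractionRing B)) (trz_frac.trans he).le hu
  exact ⟨C, N, hC, hN, fun F _ _ hF => (h F hF).2⟩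

theorem asy_hom' (hft : Algebra.FiniteType ℤ B) {e : ℕ} (he : trz B = e) :
    Asy (fun F _ _ => (Nat.card (B →+* F) : ℝ)) e 1 := by
  letI := cz_frac (B := B)
  exact asy_hom (M := FractionRing B) (fg_frac (B := B)) (trz_frac.trans he) B

end

/-- the number of the points of `Spec A` in the zero set of `I` and with `N ≠ 0` -/
noncomputable def ZN (A : Type) [CommRing A] (I : Ideal A) (N : A) : Ff := fun F _ _ =>
  (Nat.card {φ : A →+* F // (∀ a ∈ I, φ a = 0) ∧ φ N ≠ 0} : ℝ)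

section
variable {A : Type} [CommRing A] [hA : Algebra.FiniteType ℤ A]

theorem hom_fin (F : Type) [Field F] [Finite F] : Finite (A →+* F) :=
  @Pool.Agent.TH958.An.finite_hom A _ hA F _ _

/-- the points of a closed subset -/
def qEquiv (Q : Ideal A) (N : A) (F : Type) [Field F] :
    {φ : A →+* F // (∀ a ∈ Q, φ a = 0) ∧ φ N ≠ 0} ≃
      {φ : A ⧸ Q →+* F // φ (Ideal.Quotient.mk Q N) ≠ 0} where
  toFun φ := ⟨Ideal.Quotient.lift Q φ.1 φ.2.1, by rw [Ideal.Quotient.lift_mk]; exact φ.2.2⟩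
  invFun φ := ⟨φ.1.comp (Ideal.Quotient.mk Q), fun a ha => by
    rw [RingHom.comp_apply, Ideal.Quotient.eq_zero_iff_mem.2 ha, map_zero], φ.2⟩
  left_inv φ := Subtype.ext (RingHom.ext fun x => by
    rw [RingHom.comp_apply]
    exact Ideal.Quotient.lift_mk Q φ.1 φ.2.1)
  right_inv φ := by
    apply Subtype.ext
    apply Ideal.Quotient.ringHom_ext
    exact RingHom.ext fun x => by
      rw [RingHom.comp_apply, RingHom.comp_apply]
      exact Ideal.Quotient.lift_mk Q _ _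

/-- the number of all the points -/
theorem dm_bound {Q : Ideal A} {e : ℕ} (h : Dm A Q e) : ∃ C : ℝ, 0 ≤ C ∧
    ∀ (F : Type) [Field F] [Finite F],
      (Nat.card {φ : A →+* F // ∀ a ∈ Q, φ a = 0} : ℝ) ≤ C * (Nat.card F : ℝ) ^ e := by
  have hp := h.1
  have hc := h.2.1
  have : IsDomain (A ⧸ Q) := Ideal.Quotient.isDomain Q
  have hft := ft_surj (Ideal.Quotient.mk Q) Ideal.Quotient.mk_surjective
  obtain ⟨C, hC, g⟩ := hom_le' hft h.2.2
  refine ⟨C, hC, fun F _ _ => ?_⟩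
  refine le_trans (le_of_eq ?_) (g F)
  have e1 : {φ : A →+* F // ∀ a ∈ Q, φ a = 0} ≃ (A ⧸ Q →+* F) :=
    { toFun := fun φ => Ideal.Quotient.lift Q φ.1 φ.2
      invFun := fun φ => ⟨φ.comp (Ideal.Quotient.mk Q), fun a ha => by
        rw [RingHom.comp_apply, Ideal.Quotient.eq_zero_iff_mem.2 ha, map_zero]⟩
      left_inv := fun φ => Subtype.ext (RingHom.ext fun x => by
        rw [RingHom.comp_apply]
        exact Ideal.Quotient.lift_mk Q φ.1 φ.2)
      right_inv := fun φ => by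
        apply Ideal.Quotient.ringHom_ext
        exact RingHom.ext fun x => by
          rw [RingHom.comp_apply, RingHom.comp_apply]
          exact Ideal.Quotient.lift_mk Q _ _ }
  rw [Nat.card_congr e1]

/-- the number of the points of a hypersurface section -/
theorem dm_hyp {Q : Ideal A} {e : ℕ} (h : Dm A Q e) {u : A} (hu : u ∉ Q) :
    ∃ (C : ℝ) (N : ℕ), 0 ≤ C ∧ N ≠ 0 ∧ ∀ (F : Type) [Field F] [Finite F], ((N : ℕ) : F) ≠ 0 →
      (Nat.card {φ : A →+* F // (∀ a ∈ Q, φ a = 0) ∧ φ u = 0} : ℝ) * Nat.card F ≤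
        C * (Nat.card F : ℝ) ^ e := by
  have hp := h.1
  have hc := h.2.1
  have : IsDomain (A ⧸ Q) := Ideal.Quotient.isDomain Q
  have hft := ft_surj (Ideal.Quotient.mk Q) Ideal.Quotient.mk_surjective
  have hu' : Ideal.Quotient.mk Q u ≠ 0 := by rwa [Ne, Ideal.Quotient.eq_zero_iff_mem]
  obtain ⟨C, N, hC, hN, g⟩ := good_le' hft h.2.2 hu'
  refine ⟨C, N, hC, hN, fun F _ _ hF => ?_⟩
  refine le_trans (le_of_eq ?_) (g F hF)
  have e1 : {φ : A →+* F // (∀ a ∈ Q, φ a = 0) ∧ φ u = 0} ≃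
      {φ : A ⧸ Q →+* F // φ (Ideal.Quotient.mk Q u) = 0} :=
    { toFun := fun φ => ⟨Ideal.Quotient.lift Q φ.1 φ.2.1, by
        rw [Ideal.Quotient.lift_mk]; exact φ.2.2⟩
      invFun := fun φ => ⟨φ.1.comp (Ideal.Quotient.mk Q), fun a ha => by
        rw [RingHom.comp_apply, Ideal.Quotient.eq_zero_iff_mem.2 ha, map_zero], φ.2⟩
      left_inv := fun φ => Subtype.ext (RingHom.ext fun x => by
        rw [RingHom.comp_apply]
        exact Ideal.Quotient.lift_mk Q φ.1 φ.2.1)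
      right_inv := fun φ => by
        apply Subtype.ext
        apply Ideal.Quotient.ringHom_ext
        exact RingHom.ext fun x => by
          rw [RingHom.comp_apply, RingHom.comp_apply]
          exact Ideal.Quotient.lift_mk Q _ _ }
  rw [Nat.card_congr e1]

theorem asy_prime {Q : Ideal A} {e : ℕ} (h : Dm A Q e) {N : A} (hN : N ∉ Q) :
    Asy (ZN A Q N) e 1 := by
  have hp := h.1
  have hc := h.2.1
  have : IsDomain (A ⧸ Q) := Ideal.Quotient.isDomain Q
  have hft := ft_surj (Ideal.Quotient.mk Q) Ideal.Quotient.mk_surjective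
  have h1 := asy_hom' hft h.2.2
  obtain ⟨C, M, hC, hM, g⟩ := dm_hyp h hN
  refine asy_small h1 (small_of_mulq ⟨C, M, hC, hM, fun F _ _ hF => ?_⟩)
  refine le_trans (mul_le_mul_of_nonneg_right ?_ (Nat.cast_nonneg _)) (g F hF)
  have hfinA : Finite (A →+* F) := hom_fin F
  have hfin : Finite (A ⧸ Q →+* F) := Pool.Agent.TH958.An.finite_hom F
  have e1 : Nat.card (A ⧸ Q →+* F) = Nat.card {φ : A ⧸ Q →+* F // φ (Ideal.Quotient.mk Q N) ≠ 0} +
      Nat.card {φ : A →+* F // (∀ a ∈ Q, φ a = 0) ∧ φ N = 0} := by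
    have e2 : {φ : A →+* F // (∀ a ∈ Q, φ a = 0) ∧ φ N = 0} ≃
        {φ : A ⧸ Q →+* F // ¬ (φ (Ideal.Quotient.mk Q N) ≠ 0)} :=
      { toFun := fun φ => ⟨Ideal.Quotient.lift Q φ.1 φ.2.1, by
          rw [Ideal.Quotient.lift_mk, not_not]; exact φ.2.2⟩
        invFun := fun φ => ⟨φ.1.comp (Ideal.Quotient.mk Q), fun a ha => by
          rw [RingHom.comp_apply, Ideal.Quotient.eq_zero_iff_mem.2 ha, map_zero], not_not.1 φ.2⟩
        left_inv := fun φ => Subtype.ext (RingHom.ext fun x => by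
          rw [RingHom.comp_apply]
          exact Ideal.Quotient.lift_mk Q φ.1 φ.2.1)
        right_inv := fun φ => by
          apply Subtype.ext
          apply Ideal.Quotient.ringHom_ext
          exact RingHom.ext fun x => by
            rw [RingHom.comp_apply, RingHom.comp_apply]
            exact Ideal.Quotient.lift_mk Q _ _ }
    classical
    rw [Nat.card_congr e2, ← Nat.card_sum]
    exact Nat.card_congr (Equiv.sumCompl _).symm
  unfold ZN
  rw [Nat.card_congr (qEquiv Q N F), e1]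
  push_cast
  rw [abs_le]
  constructor
  · linarith
  · have : (0 : ℝ) ≤ (Nat.card {φ : A →+* F // (∀ a ∈ Q, φ a = 0) ∧ φ N = 0} : ℝ) :=
      Nat.cast_nonneg _
    linarith

/-- small primes -/
def Sm (A : Type) [CommRing A] (P : Ideal A) (e : ℕ) : Prop :=
  Cp A P ∨ ∃ e', e' < e ∧ Dm A P e'

theorem small_sm {P : Ideal A} {e : ℕ} (h : Sm A P e) (N : A) : Small (ZN A P N) e := by
  rcases h with ⟨n, hn, hP⟩ | ⟨e', he', h⟩
  · refine (Small.zero e).mono n hn fun F _ _ hF => ?_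
    unfold ZN
    have : IsEmpty {φ : A →+* F // (∀ a ∈ P, φ a = 0) ∧ φ N ≠ 0} := by
      refine ⟨fun φ => hF ?_⟩
      rw [← map_natCast φ.1]
      exact φ.2.1 _ hP
    rw [Nat.card_of_isEmpty]
    simp
  · obtain ⟨C, hC, g⟩ := dm_bound h
    refine small_of_lt he' ⟨C, 1, hC, one_ne_zero, fun F _ _ _ => ?_⟩
    unfold ZN
    rw [abs_of_nonneg (Nat.cast_nonneg _)]
    refine le_trans ?_ (g F)
    have hfinA : Finite (A →+* F) := hom_fin F
    exact_mod_cast Nat.card_le_card_of_injective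
      (fun φ : {φ : A →+* F // (∀ a ∈ P, φ a = 0) ∧ φ N ≠ 0} =>
        (⟨φ.1, φ.2.1⟩ : {φ : A →+* F // ∀ a ∈ P, φ a = 0}))
      (fun φ φ' h => Subtype.ext (congrArg (fun w => w.1) h))

/-- **The number of the points of a scheme** by its components of maximal dimension. -/
theorem asy_count (I : Ideal A) (N : A) (𝒬 : Finset (Ideal A)) (e : ℕ)
    (h1 : ∀ Q ∈ 𝒬, I ≤ Q ∧ N ∉ Q ∧ Dm A Q e)
    (h2 : ∀ P ∈ I.minimalPrimes, N ∈ P ∨ P ∈ 𝒬 ∨ Sm A P e)
    (h3 : ∀ Q ∈ 𝒬, ∀ Q' ∈ 𝒬, Q ≤ Q' → Q = Q') : Asy (ZN A I N) e 𝒬.card := by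
  classical
  have hnoe : IsNoetherianRing A := Algebra.FiniteType.isNoetherianRing ℤ A
  have hmf : I.minimalPrimes.Finite := Ideal.finite_minimalPrimes_of_isNoetherianRing A I
  let Ps : Finset (Ideal A) := hmf.toFinset.filter fun P => Sm A P e
  have hZ : Asy (fun F _ _ => ∑ Q ∈ 𝒬, ZN A Q N F) e 𝒬.card := by
    have := Asy.sum 𝒬 (fun Q => ZN A Q N) (e := e) (fun _ => 1) fun Q hQ =>
      asy_prime (h1 Q hQ).2.2 (h1 Q hQ).2.1
    simpa using this
  have hS1 : Small (fun F _ _ => ∑ P ∈ Ps, ZN A P N F) e :=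
    Small.sum Ps _ fun P hP => small_sm (Finset.mem_filter.1 hP).2 N
  have hS2 : Small (fun F _ _ => ∑ z ∈ 𝒬.offDiag, (Nat.card {φ : A →+* F //
      ((∀ a ∈ z.1, φ a = 0) ∧ (∀ a ∈ z.2, φ a = 0)) ∧ φ N ≠ 0} : ℝ)) e := by
    refine Small.sum _ _ fun z hz => ?_
    obtain ⟨hz1, hz2, hz3⟩ := Finset.mem_offDiag.1 hz
    have hn : ¬ z.2 ≤ z.1 := fun h => hz3 (h3 _ hz2 _ hz1 h).symm
    obtain ⟨u, hu2, hu1⟩ := SetLike.not_le_iff_exists.1 hn
    obtain ⟨C, M, hC, hM, g⟩ := dm_hyp (h1 _ hz1).2.2 hu1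
    refine small_of_mulq ⟨C, M, hC, hM, fun F _ _ hF => ?_⟩
    refine le_trans (mul_le_mul_of_nonneg_right ?_ (Nat.cast_nonneg _)) (g F hF)
    rw [abs_of_nonneg (Nat.cast_nonneg _)]
    have hfinA : Finite (A →+* F) := hom_fin F
    exact_mod_cast Nat.card_le_card_of_injective
      (fun φ : {φ : A →+* F // ((∀ a ∈ z.1, φ a = 0) ∧ (∀ a ∈ z.2, φ a = 0)) ∧ φ N ≠ 0} =>
        (⟨φ.1, φ.2.1.1, φ.2.1.2 u hu2⟩ : {φ : A →+* F // (∀ a ∈ z.1, φ a = 0) ∧ φ u = 0}))
      (fun φ φ' h => Subtype.ext (congrArg (fun w => w.1) h))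
  refine asy_small hZ ((hS1.add hS2).mono 1 one_ne_zero fun F _ _ _ => ?_)
  have hfinA : Finite (A →+* F) := hom_fin F
  let _ := Fintype.ofFinite (A →+* F)
  -- the sets of homomorphisms
  let H : Finset (A →+* F) := Finset.univ.filter fun φ => φ N ≠ 0
  let k : (A →+* F) → Ideal A → Prop := fun φ P => ∀ a ∈ P, φ a = 0
  have hcard : ∀ P : Ideal A, ZN A P N F = ((H.filter fun φ => k φ P).card : ℝ) := by
    intro P
    unfold ZN
    rw [Nat.card_eq_fintype_card, Fintype.card_subtype]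
    congr 2
    ext φ
    simp only [Finset.mem_filter, Finset.mem_univ, true_and, H, k]
    tauto
  have hcard2 : ∀ z : Ideal A × Ideal A, (Nat.card {φ : A →+* F //
      ((∀ a ∈ z.1, φ a = 0) ∧ (∀ a ∈ z.2, φ a = 0)) ∧ φ N ≠ 0} : ℝ) =
      ((H.filter fun φ => k φ z.1 ∧ k φ z.2).card : ℝ) := by
    intro z
    rw [Nat.card_eq_fintype_card, Fintype.card_subtype]
    congr 2
    ext φ
    simp only [Finset.mem_filter, Finset.mem_univ, true_and, H, k]
    tauto
  simp only [hcard, hcard2]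
  -- upper bound
  have hup : (H.filter fun φ => k φ I).card ≤
      ∑ Q ∈ 𝒬, (H.filter fun φ => k φ Q).card + ∑ P ∈ Ps, (H.filter fun φ => k φ P).card := by
    have hsub : (H.filter fun φ => k φ I) ⊆ (𝒬.biUnion fun Q => H.filter fun φ => k φ Q) ∪
        (Ps.biUnion fun P => H.filter fun φ => k φ P) := by
      intro φ hφ
      rw [Finset.mem_filter] at hφ
      have hker : (RingHom.ker φ).IsPrime := RingHom.ker_isPrime φ
      obtain ⟨P, hP, hPk⟩ := Ideal.exists_minimalPrimes_le (J := RingHom.ker φ) (I := I)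
        fun a ha => hφ.2 a ha
      have hkP : k φ P := fun a ha => hPk ha
      rw [Finset.mem_union, Finset.mem_biUnion, Finset.mem_biUnion]
      rcases h2 P hP with h | h | h
      · exact absurd (hkP _ h) (Finset.mem_filter.1 hφ.1).2
      · left
        exact ⟨P, h, Finset.mem_filter.2 ⟨hφ.1, hkP⟩⟩
      · right
        exact ⟨P, Finset.mem_filter.2 ⟨hmf.mem_toFinset.2 hP, h⟩, Finset.mem_filter.2 ⟨hφ.1, hkP⟩⟩
    exact (Finset.card_le_card hsub).trans ((Finset.card_union_le _ _).trans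
      (add_le_add Finset.card_biUnion_le Finset.card_biUnion_le))
  -- lower bound
  have hlow : ∑ Q ∈ 𝒬, (H.filter fun φ => k φ Q).card ≤ (H.filter fun φ => k φ I).card +
      ∑ z ∈ 𝒬.offDiag, (H.filter fun φ => k φ z.1 ∧ k φ z.2).card := by
    have e1 : ∑ Q ∈ 𝒬, (H.filter fun φ => k φ Q).card =
        ∑ φ ∈ H, (𝒬.filter fun Q => k φ Q).card := by
      simp only [Finset.card_filter]
      exact Finset.sum_comm
    have e2 : ∑ z ∈ 𝒬.offDiag, (H.filter fun φ => k φ z.1 ∧ k φ z.2).card =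
        ∑ φ ∈ H, (𝒬.offDiag.filter fun z => k φ z.1 ∧ k φ z.2).card := by
      simp only [Finset.card_filter]
      exact Finset.sum_comm
    rw [e1, e2, Finset.card_filter, ← Finset.sum_add_distrib]
    refine Finset.sum_le_sum fun φ _ => ?_
    set S := 𝒬.filter fun Q => k φ Q with hS
    have e3 : S.offDiag ⊆ 𝒬.offDiag.filter fun z => k φ z.1 ∧ k φ z.2 := by
      intro z hz
      rw [Finset.mem_offDiag] at hz
      rw [Finset.mem_filter, Finset.mem_offDiag]
      have a1 := Finset.mem_filter.1 hz.1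
      have a2 := Finset.mem_filter.1 hz.2.1
      exact ⟨⟨a1.1, a2.1, hz.2.2⟩, a1.2, a2.2⟩
    have e4 := Finset.card_le_card e3
    rw [Finset.offDiag_card] at e4
    rcases Nat.eq_zero_or_pos S.card with h0 | h0
    · rw [h0]
      exact Nat.zero_le _
    · have e5 : k φ I := by
        obtain ⟨Q, hQ⟩ := Finset.card_pos.1 h0
        have a1 := Finset.mem_filter.1 hQ
        exact fun a ha => a1.2 a ((h1 Q a1.1).1 ha)
      rw [if_pos e5]
      have e6 : S.card ≤ 1 + (S.card * S.card - S.card) := by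
        rcases Nat.lt_or_ge S.card 2 with h6 | h6
        · omega
        · have : 2 * S.card ≤ S.card * S.card := Nat.mul_le_mul_right _ h6
          omega
      omega
  have hupR : ((H.filter fun φ => k φ I).card : ℝ) ≤
      ∑ Q ∈ 𝒬, ((H.filter fun φ => k φ Q).card : ℝ) +
        ∑ P ∈ Ps, ((H.filter fun φ => k φ P).card : ℝ) := by exact_mod_cast hup
  have hlowR : ∑ Q ∈ 𝒬, ((H.filter fun φ => k φ Q).card : ℝ) ≤
      ((H.filter fun φ => k φ I).card : ℝ) +
        ∑ z ∈ 𝒬.offDiag, ((H.filter fun φ => k φ z.1 ∧ k φ z.2).card : ℝ) := by exact_mod_cast hlow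
  have hn1 : (0 : ℝ) ≤ ∑ P ∈ Ps, ((H.filter fun φ => k φ P).card : ℝ) :=
    Finset.sum_nonneg fun _ _ => Nat.cast_nonneg _
  have hn2 : (0 : ℝ) ≤ ∑ z ∈ 𝒬.offDiag, ((H.filter fun φ => k φ z.1 ∧ k φ z.2).card : ℝ) :=
    Finset.sum_nonneg fun _ _ => Nat.cast_nonneg _
  rw [abs_of_nonneg (add_nonneg hn1 hn2), abs_le]
  constructor <;> linarith

/-- the version with a shift of the dimension -/
theorem asy_countq (I : Ideal A) (N : A) (𝒬 : Finset (Ideal A)) (e : ℕ)
    (h1 : ∀ Q ∈ 𝒬, I ≤ Q ∧ N ∉ Q ∧ ∃ e', e' + 1 = e ∧ Dm A Q e')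
    (h2 : ∀ P ∈ I.minimalPrimes, N ∈ P ∨ P ∈ 𝒬 ∨ Cp A P ∨ ∃ e', e' + 1 < e ∧ Dm A P e')
    (h3 : ∀ Q ∈ 𝒬, ∀ Q' ∈ 𝒬, Q ≤ Q' → Q = Q') :
    Asy (fun F _ _ => (Nat.card F : ℝ) * ZN A I N F) e 𝒬.card := by
  rcases e with _ | e
  · have hQ : 𝒬 = ∅ := by
      rw [Finset.eq_empty_iff_forall_notMem]
      intro Q hQ
      obtain ⟨_, _, e', he', _⟩ := h1 Q hQ
      omega
    subst hQ
    have h6 : Small (fun F _ _ => (Nat.card F : ℝ) * ZN A I N F) 0 := by
      classical
      have hnoe : IsNoetherianRing A := Algebra.FiniteType.isNoetherianRing ℤ A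
      have hmf : I.minimalPrimes.Finite := Ideal.finite_minimalPrimes_of_isNoetherianRing A I
      have h5 : ∀ P ∈ I.minimalPrimes, ∃ n : ℕ, n ≠ 0 ∧ (N ∈ P ∨ (n : A) ∈ P) := by
        intro P hP
        rcases h2 P hP with h | h | ⟨n, hn, h⟩ | ⟨e', he', _⟩
        · exact ⟨1, one_ne_zero, Or.inl h⟩
        · exact absurd h (Finset.notMem_empty _)
        · exact ⟨n, hn, Or.inr h⟩
        · omega
      choose! n hn hnP using h5
      refine ⟨0, ∏ P ∈ hmf.toFinset, n P, le_rfl,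
        Finset.prod_ne_zero_iff.2 fun P hP => hn P (hmf.mem_toFinset.1 hP), fun F _ _ hF => ?_⟩
      have hemp : IsEmpty {φ : A →+* F // (∀ a ∈ I, φ a = 0) ∧ φ N ≠ 0} := by
        refine ⟨fun φ => ?_⟩
        have hker : (RingHom.ker φ.1).IsPrime := RingHom.ker_isPrime φ.1
        obtain ⟨P, hP, hPk⟩ := Ideal.exists_minimalPrimes_le (J := RingHom.ker φ.1) (I := I)
          fun a ha => φ.2.1 a ha
        rcases hnP P hP with h | h
        · exact φ.2.2 (hPk h)
        · apply hF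
          rw [Nat.cast_prod]
          refine Finset.prod_eq_zero (hmf.mem_toFinset.2 hP) ?_
          rw [← map_natCast φ.1]
          exact hPk h
      have hz : Nat.card {φ : A →+* F // (∀ a ∈ I, φ a = 0) ∧ φ N ≠ 0} = 0 := Nat.card_of_isEmpty
      show |(Nat.card F : ℝ) * (Nat.card {φ : A →+* F // (∀ a ∈ I, φ a = 0) ∧ φ N ≠ 0} : ℝ)| * _ ≤ _
      rw [hz]
      simp
    simpa using h6.asy
  · have h4 := asy_count I N 𝒬 e (fun Q hQ => by
      obtain ⟨a, b, e', he', hd⟩ := h1 Q hQ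
      have : e' = e := by omega
      exact ⟨a, b, this ▸ hd⟩) (fun P hP => by
      rcases h2 P hP with h | h | h | ⟨e', he', h⟩
      · exact Or.inl h
      · exact Or.inr (Or.inl h)
      · exact Or.inr (Or.inr (Or.inl h))
      · exact Or.inr (Or.inr (Or.inr ⟨e', by omega, h⟩))) h3
    exact h4.mulq

end

end Pool.Agent.T6.H77.NB
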