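import Mathlib

/-!
# Fibres of algebras and tensor products
-/

set_option autoImplicit false
set_option linter.unusedSectionVars false

open scoped TensorProduct

namespace Pool.Agent.T6.H77.NB

section
variable {T A : Type} [CommRing T] [CommRing A] [Algebra T A]

/-- a homomorphism which factors through the fibre -/
theorem tensor_factor (𝔭 : Ideal T) [h𝔭 : 𝔭.IsPrime] {C : Type} [CommRing C] (j : A →+* C)
    (h1 : ∀ s, s ∉ 𝔭 → IsUnit (j (algebraMap T A s))) (h0 : ∀ s ∈ 𝔭, j (algebraMap T A s) = 0) {a : A}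
    (h : (1 : FractionRing (T ⧸ 𝔭)) ⊗ₜ[T] a = 0) : j a = 0 := by
  have hdom : IsDomain (T ⧸ 𝔭) := Ideal.Quotient.isDomain 𝔭
  let fT : T →+* C := j.comp (algebraMap T A)
  let _ : Algebra T C := fT.toAlgebra
  let fκ : T ⧸ 𝔭 →+* C := Ideal.Quotient.lift 𝔭 fT h0
  have hu : ∀ y : nonZeroDivisors (T ⧸ 𝔭), IsUnit (fκ y) := by
    rintro ⟨y, hy⟩
    obtain ⟨x, rfl⟩ := Ideal.Quotient.mk_surjective y
    have hx : x ∉ 𝔭 := by
      intro hx
      exact nonZeroDivisors.ne_zero hy (Ideal.Quotient.eq_zero_iff_mem.2 hx)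
    show IsUnit (fκ (Ideal.Quotient.mk 𝔭 x))
    rw [Ideal.Quotient.lift_mk]
    exact h1 x hx
  let fF : FractionRing (T ⧸ 𝔭) →+* C := IsLocalization.lift hu
  have hfF : ∀ x : T, fF (algebraMap T (FractionRing (T ⧸ 𝔭)) x) = fT x := by
    intro x
    rw [IsScalarTower.algebraMap_apply T (T ⧸ 𝔭) (FractionRing (T ⧸ 𝔭))]
    show IsLocalization.lift hu (algebraMap (T ⧸ 𝔭) (FractionRing (T ⧸ 𝔭)) (Ideal.Quotient.mk 𝔭 x)) = _
    rw [IsLocalization.lift_eq, Ideal.Quotient.lift_mk]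
  let gF : FractionRing (T ⧸ 𝔭) →ₐ[T] C := { fF with commutes' := hfF }
  let gA : A →ₐ[T] C := { j with commutes' := fun x => rfl }
  let Φ : FractionRing (T ⧸ 𝔭) ⊗[T] A →ₐ[T] C :=
    Algebra.TensorProduct.lift gF gA fun _ _ => Commute.all _ _
  have h2 : Φ ((1 : FractionRing (T ⧸ 𝔭)) ⊗ₜ[T] a) = j a := by
    rw [Algebra.TensorProduct.lift_tmul, map_one, one_mul]
    rfl
  rw [← h2, h, map_zero]

/-- the kernel of the map to the fibre -/
theorem ker_tensor (𝔭 : Ideal T) [h𝔭 : 𝔭.IsPrime] (a : A) :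
    (1 : FractionRing (T ⧸ 𝔭)) ⊗ₜ[T] a = 0 ↔
      ∃ s : T, s ∉ 𝔭 ∧ algebraMap T A s * a ∈ 𝔭.map (algebraMap T A) := by
  have hdom : IsDomain (T ⧸ 𝔭) := Ideal.Quotient.isDomain 𝔭
  constructor
  · intro h
    -- the localization of the quotient
    let J := 𝔭.map (algebraMap T A)
    let B := A ⧸ J
    let S : Submonoid B := (𝔭.primeCompl).map ((Ideal.Quotient.mk J).comp (algebraMap T A))
    have h2 := tensor_factor (C := Localization S) 𝔭
      ((algebraMap B (Localization S)).comp (Ideal.Quotient.mk J))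
      (fun x hx => IsLocalization.map_units (Localization S) (⟨_, x, hx, rfl⟩ : S)) (fun x hx => by
        rw [RingHom.comp_apply, Ideal.Quotient.eq_zero_iff_mem.2 (Ideal.mem_map_of_mem _ hx), map_zero]) h
    rw [RingHom.comp_apply, IsLocalization.map_eq_zero_iff S] at h2
    obtain ⟨⟨_, s, hs, rfl⟩, h3⟩ := h2
    refine ⟨s, hs, ?_⟩
    rw [← Ideal.Quotient.eq_zero_iff_mem, map_mul]
    exact h3
  · rintro ⟨s, hs, h⟩
    let iA : A →ₐ[T] FractionRing (T ⧸ 𝔭) ⊗[T] A := Algebra.TensorProduct.includeRight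
    have h1 : ∀ x ∈ 𝔭.map (algebraMap T A), iA x = 0 := by
      intro x hx
      have h2 : 𝔭.map (algebraMap T A) ≤
          RingHom.ker (iA : A →+* FractionRing (T ⧸ 𝔭) ⊗[T] A) := by
        rw [Ideal.map_le_iff_le_comap]
        intro y hy
        rw [Ideal.mem_comap, RingHom.mem_ker]
        show iA (algebraMap T A y) = 0
        rw [AlgHom.commutes, Algebra.TensorProduct.algebraMap_apply,
          IsScalarTower.algebraMap_apply T (T ⧸ 𝔭) (FractionRing (T ⧸ 𝔭))]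
        have : algebraMap T (T ⧸ 𝔭) y = 0 := Ideal.Quotient.eq_zero_iff_mem.2 hy
        rw [this, map_zero, TensorProduct.zero_tmul]
      exact h2 hx
    have h2 := h1 _ h
    rw [map_mul, AlgHom.commutes, Algebra.TensorProduct.algebraMap_apply] at h2
    have h3 : algebraMap T (FractionRing (T ⧸ 𝔭)) s ≠ 0 := by
      rw [IsScalarTower.algebraMap_apply T (T ⧸ 𝔭) (FractionRing (T ⧸ 𝔭)), Ne,
        map_eq_zero_iff _ (IsFractionRing.injective (T ⧸ 𝔭) (FractionRing (T ⧸ 𝔭)))]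
      intro h0
      exact hs (Ideal.Quotient.eq_zero_iff_mem.1 h0)
    have h4 : (1 : FractionRing (T ⧸ 𝔭)) ⊗ₜ[T] a =
        ((algebraMap T (FractionRing (T ⧸ 𝔭)) s)⁻¹ ⊗ₜ[T] (1 : A)) *
          ((algebraMap T (FractionRing (T ⧸ 𝔭)) s ⊗ₜ[T] (1 : A)) * iA a) := by
      rw [← mul_assoc, Algebra.TensorProduct.tmul_mul_tmul, inv_mul_cancel₀ h3, mul_one]
      show _ = (1 ⊗ₜ[T] 1) * ((1 : FractionRing (T ⧸ 𝔭)) ⊗ₜ[T] a)
      rw [Algebra.TensorProduct.tmul_mul_tmul, one_mul, one_mul]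
    rw [h4, h2, mul_zero]

/-- the generic points of the fibres -/
theorem prime_of_tensor (𝔭 : Ideal T) [h𝔭 : 𝔭.IsPrime]
    (h : IsDomain (FractionRing (T ⧸ 𝔭) ⊗[T] A)) (Q : Ideal A)
    (hQ : ∀ a, a ∈ Q ↔ ∃ s : T, s ∉ 𝔭 ∧ algebraMap T A s * a ∈ 𝔭.map (algebraMap T A)) :
    Q.IsPrime := by
  let iA : A →ₐ[T] FractionRing (T ⧸ 𝔭) ⊗[T] A := Algebra.TensorProduct.includeRight
  have h1 : Q = RingHom.ker (iA : A →+* FractionRing (T ⧸ 𝔭) ⊗[T] A) := by
    ext a
    rw [hQ, ← ker_tensor, RingHom.mem_ker]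
    rfl
  rw [h1]
  exact RingHom.ker_isPrime _

end

section
variable {T K L : Type} [CommRing T] [IsDomain T] [Field K] [Field L] [Algebra T K]
  [IsFractionRing T K] [Algebra K L] [Algebra T L] [IsScalarTower T K L]

/-- the elements of the generic fibre -/
theorem tensor_frac {A : Type} [CommRing A] [Algebra T A] (z : K ⊗[T] A) : ∃ (s : T) (a : A), s ≠ 0 ∧
    z = (algebraMap T K s)⁻¹ ⊗ₜ[T] a := by
  have hinj : Function.Injective (algebraMap T K) := IsFractionRing.injective T K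
  induction z using TensorProduct.induction_on with
  | zero => exact ⟨1, 0, one_ne_zero, by rw [TensorProduct.tmul_zero]⟩
  | tmul x a =>
    obtain ⟨r, s, hs, rfl⟩ := IsFractionRing.div_surjective (A := T) x
    refine ⟨s, r • a, nonZeroDivisors.ne_zero hs, ?_⟩
    rw [← TensorProduct.smul_tmul, Algebra.smul_def, div_eq_mul_inv]
  | add x y hx hy =>
    obtain ⟨s, a, hs, rfl⟩ := hx
    obtain ⟨s', a', hs', rfl⟩ := hy
    refine ⟨s * s', s' • a + s • a', mul_ne_zero hs hs', ?_⟩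
    have h1 : algebraMap T K s ≠ 0 := by rwa [Ne, map_eq_zero_iff _ hinj]
    have h2 : algebraMap T K s' ≠ 0 := by rwa [Ne, map_eq_zero_iff _ hinj]
    rw [TensorProduct.tmul_add, ← TensorProduct.smul_tmul, ← TensorProduct.smul_tmul,
      Algebra.smul_def, Algebra.smul_def, map_mul]
    congr 2
    · field_simp
    · field_simp

/-- integral elements over the generic fibre -/
theorem nor_of_tensor (A : Subalgebra T L) (hA : ∀ z : L, ∃ a ∈ A, ∃ b ∈ A, b ≠ 0 ∧ z = a / b)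
    (hdom : IsDomain (K ⊗[T] A)) (hic : IsIntegrallyClosed (K ⊗[T] A)) {t : L} (ht : t ∈ A) (x : L)
    (hx : IsIntegral (Algebra.adjoin K {t}) x) :
    ∃ s : T, s ≠ 0 ∧ algebraMap T L s * x ∈ A := by
  have hinj : Function.Injective (algebraMap T K) := IsFractionRing.injective T K
  have hTL : ∀ s : T, algebraMap T L s = algebraMap K L (algebraMap T K s) := fun s =>
    IsScalarTower.algebraMap_apply T K L s
  let Φ : K ⊗[T] A →ₐ[T] L := Algebra.TensorProduct.lift (IsScalarTower.toAlgHom T K L) A.val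
    fun _ _ => Commute.all _ _
  have hΦ : ∀ (c : K) (a : A), Φ (c ⊗ₜ[T] a) = algebraMap K L c * (a : L) := fun c a => by
    rw [Algebra.TensorProduct.lift_tmul]
    rfl
  have hΦinj : Function.Injective Φ := by
    rw [injective_iff_map_eq_zero]
    intro z hz
    obtain ⟨s, a, hs, rfl⟩ := tensor_frac (T := T) (K := K) z
    rw [hΦ] at hz
    have h1 : algebraMap K L (algebraMap T K s)⁻¹ ≠ 0 := by
      rw [Ne, map_eq_zero, inv_eq_zero, map_eq_zero_iff _ hinj]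
      exact hs
    have h2 : (a : L) = 0 := (mul_eq_zero.1 hz).resolve_left h1
    have h3 : a = 0 := Subtype.ext h2
    rw [h3, TensorProduct.tmul_zero]
  let _ : Algebra (K ⊗[T] A) L := (Φ : K ⊗[T] A →+* L).toAlgebra
  have hfrac : IsFractionRing (K ⊗[T] A) L := by
    have hf : FaithfulSMul (K ⊗[T] A) L := (faithfulSMul_iff_algebraMap_injective _ _).2 hΦinj
    refine IsFractionRing.of_field (K ⊗[T] A) L fun z => ?_
    obtain ⟨a, ha, b, hb, hb0, rfl⟩ := hA z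
    refine ⟨1 ⊗ₜ[T] ⟨a, ha⟩, 1 ⊗ₜ[T] ⟨b, hb⟩, ?_⟩
    symm
    show Φ (1 ⊗ₜ[T] ⟨a, ha⟩) / Φ (1 ⊗ₜ[T] ⟨b, hb⟩) = _
    rw [hΦ, hΦ, map_one, one_mul, one_mul]
  -- the affine ring of the generic fibre maps to the tensor product
  have hadj : ∀ y ∈ Algebra.adjoin K {t}, ∃ z : K ⊗[T] A, Φ z = y := by
    intro y hy
    induction hy using Algebra.adjoin_induction with
    | mem y hy =>
      rw [Set.mem_singleton_iff] at hy
      subst hy
      exact ⟨1 ⊗ₜ[T] ⟨y, ht⟩, by rw [hΦ, map_one, one_mul]⟩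
    | algebraMap c => exact ⟨c ⊗ₜ[T] 1, by rw [hΦ]; simp⟩
    | add y y' _ _ h1 h2 =>
      obtain ⟨z, rfl⟩ := h1
      obtain ⟨z', rfl⟩ := h2
      exact ⟨z + z', map_add _ _ _⟩
    | mul y y' _ _ h1 h2 =>
      obtain ⟨z, rfl⟩ := h1
      obtain ⟨z', rfl⟩ := h2
      exact ⟨z * z', map_mul _ _ _⟩
  have hint : IsIntegral (K ⊗[T] A) x := by
    obtain ⟨p, hp, hpe⟩ := hx
    let W : Subring L := (Φ : K ⊗[T] A →+* L).range
    let j : Algebra.adjoin K {t} →+* W := (algebraMap (Algebra.adjoin K {t}) L).codRestrict W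
      fun y => by
        obtain ⟨z, hz⟩ := hadj y y.2
        exact ⟨z, hz⟩
    have hl : p.map j ∈ Polynomial.lifts (Φ : K ⊗[T] A →+* L).rangeRestrict := by
      rw [Polynomial.lifts_iff_coeff_lifts]
      intro n
      exact RingHom.rangeRestrict_surjective _ _
    obtain ⟨q, hq, -, hqm⟩ := Polynomial.lifts_and_natDegree_eq_and_monic hl (hp.map j)
    refine ⟨q, hqm, ?_⟩
    have e1 : algebraMap (K ⊗[T] A) L = W.subtype.comp (Φ : K ⊗[T] A →+* L).rangeRestrict := rfl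
    rw [e1, ← Polynomial.eval₂_map, hq, Polynomial.eval₂_map]
    exact hpe
  rw [IsIntegrallyClosed.isIntegral_iff (K := L)] at hint
  obtain ⟨z, hz⟩ := hint
  obtain ⟨s, a, hs, rfl⟩ := tensor_frac (T := T) (K := K) z
  refine ⟨s, hs, ?_⟩
  have h4 : Φ ((algebraMap T K s)⁻¹ ⊗ₜ[T] a) = x := hz
  rw [hΦ] at h4
  have h5 : algebraMap K L (algebraMap T K s) ≠ 0 := by
    rw [Ne, map_eq_zero, map_eq_zero_iff _ hinj]
    exact hs
  rw [← h4, hTL, map_inv₀, mul_inv_cancel_left₀ h5]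
  exact a.2

end

end Pool.Agent.T6.H77.NB
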