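import Pool.Agent.T6.H77.NB.Rs
import Pool.Agent.T6.H77.NB.Tens

/-!
# The residue for fibrations between fields which are purely transcendental over a common field
-/

set_option autoImplicit false
set_option linter.unusedSectionVars false
set_option linter.style.haveILetI false

open scoped TensorProduct

namespace Pool.Agent.T6.H77.NB

open Polynomial NumberField IsDedekindDomain
open FF
open Pool.Agent.R410.NG (Ff Asy)
open Pool.Agent.Y707.PR (HasResidue)

section
variable {T K L : Type} [CommRing T] [IsDomain T] [Field K] [Field L] [Algebra T K]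
  [IsFractionRing T K] [Algebra K L] [Algebra T L] [IsScalarTower T K L]

/-- the identification of a subalgebra with its subring -/
noncomputable def eA (A : Subalgebra T L) : A ≃+* A.toSubring where
  toFun x := ⟨x, x.2⟩
  invFun x := ⟨x, x.2⟩
  left_inv _ := rfl
  right_inv _ := rfl
  map_mul' _ _ := rfl
  map_add' _ _ := rfl

variable (T K) in
/-- the identification of the base ring with its image -/
noncomputable def eT : T ≃+* (algebraMap T K).range :=
  RingEquiv.ofBijective (algebraMap T K).rangeRestrict
    ⟨fun _ _ h => IsFractionRing.injective T K (congrArg Subtype.val h),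
      RingHom.rangeRestrict_surjective _⟩

theorem eT_coe (x : T) : ((eT T K x : (algebraMap T K).range) : K) = algebraMap T K x := rfl

/-- the chart defined by a subalgebra -/
theorem chart_of (hT : Algebra.FiniteType ℤ T) (t : L) (A : Subalgebra T L)
    (hft : Algebra.FiniteType T A) (ht : Transcendental K t) (htA : t ∈ A)
    (hfr : ∀ z : L, ∃ a ∈ A, ∃ b ∈ A, b ≠ 0 ∧ z = a / b)
    (hint : ∀ a ∈ A, IsIntegral (Algebra.adjoin T {t}) a)
    (hfib : ∀ (F : Type) [Field F] [Algebra T F], IsDomain (F ⊗[T] A))
    (hnor : IsIntegrallyClosed (K ⊗[T] A)) : Chart (algebraMap T K).range t A.toSubring := by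
  have hTL : ∀ s : T, algebraMap T L s = algebraMap K L (algebraMap T K s) := fun s =>
    IsScalarTower.algebraMap_apply T K L s
  have hTA : ∀ r ∈ (algebraMap T K).range, algebraMap K L r ∈ A.toSubring := by
    rintro _ ⟨s, rfl⟩
    rw [← hTL]
    exact A.algebraMap_mem s
  have hcomp : (iRT hTA).comp (eT T K : T →+* (algebraMap T K).range) =
      (eA A : A →+* A.toSubring).comp (algebraMap T A) := by
    ext x
    exact (hTL x).symm
  refine ⟨?_, ?_, ?_, ?_, hTA, htA, ht, ?_, ?_, ?_⟩
  · exact ft_surj (algebraMap T K).rangeRestrict (RingHom.rangeRestrict_surjective _)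
  · have hA : Algebra.FiniteType ℤ A := Algebra.FiniteType.trans hT hft
    exact ft_surj (eA A : A →+* A.toSubring) (eA A).surjective
  · intro z
    obtain ⟨a, b, hb, rfl⟩ := IsFractionRing.div_surjective (A := T) z
    refine ⟨_, ⟨a, rfl⟩, _, ⟨b, rfl⟩, ?_, rfl⟩
    rw [Ne, map_eq_zero_iff _ (IsFractionRing.injective T K)]
    exact nonZeroDivisors.ne_zero hb
  · exact hfr
  · -- integrality
    let θ : ((algebraMap T K).range)[X] →+* Algebra.adjoin T {t} :=
      Polynomial.eval₂RingHom ((algebraMap T (Algebra.adjoin T {t})).comp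
        ((eT T K).symm : (algebraMap T K).range →+* T)) ⟨t, Algebra.self_mem_adjoin_singleton T t⟩
    have hθ : ∀ g, ((θ g : Algebra.adjoin T {t}) : L) = ((evT hTA htA g : A.toSubring) : L) := by
      intro g
      rw [evT_coe]
      show (Algebra.adjoin T {t}).subtype (Polynomial.eval₂ _ _ g) = _
      rw [Polynomial.hom_eval₂]
      congr 1
      ext x
      obtain ⟨y, rfl⟩ := (eT T K).surjective x
      show algebraMap T L ((eT T K).symm (eT T K y)) = algebraMap K L (algebraMap T K y)
      rw [RingEquiv.symm_apply_apply, hTL]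
    have hθs : Function.Surjective θ := by
      rintro ⟨y, hy⟩
      induction hy using Algebra.adjoin_induction with
      | mem y hy =>
        rw [Set.mem_singleton_iff] at hy
        subst hy
        refine ⟨Polynomial.X, ?_⟩
        show Polynomial.eval₂ _ _ _ = _
        rw [Polynomial.eval₂_X]
      | algebraMap c =>
        refine ⟨Polynomial.C (eT T K c), ?_⟩
        show Polynomial.eval₂ _ _ _ = _
        rw [Polynomial.eval₂_C]
        apply Subtype.ext
        show algebraMap T L ((eT T K).symm (eT T K c)) = algebraMap T L c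
        rw [RingEquiv.symm_apply_apply]
      | add y y' _ _ h1 h2 =>
        obtain ⟨z, hz⟩ := h1
        obtain ⟨z', hz'⟩ := h2
        exact ⟨z + z', by rw [map_add, hz, hz']; rfl⟩
      | mul y y' _ _ h1 h2 =>
        obtain ⟨z, hz⟩ := h1
        obtain ⟨z', hz'⟩ := h2
        exact ⟨z * z', by rw [map_mul, hz, hz']; rfl⟩
    rintro ⟨a, ha⟩
    obtain ⟨p, hp, hpe⟩ := hint a ha
    have hl : p ∈ Polynomial.lifts θ := by
      rw [Polynomial.lifts_iff_coeff_lifts]
      intro n
      exact hθs _
    obtain ⟨q, hq, -, hqm⟩ := Polynomial.lifts_and_natDegree_eq_and_monic hl hp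
    refine ⟨q, hqm, ?_⟩
    apply Subtype.ext
    have e1 : A.toSubring.subtype (Polynomial.eval₂ (evT hTA htA) ⟨a, ha⟩ q) =
        Polynomial.eval₂ (algebraMap (Algebra.adjoin T {t}) L) a p := by
      rw [Polynomial.hom_eval₂, ← hq, Polynomial.eval₂_map]
      congr 1
      exact RingHom.ext fun g => (hθ g).symm
    rw [hpe] at e1
    exact e1
  · -- normality
    intro x hx
    obtain ⟨s, hs, hsx⟩ := nor_of_tensor (K := K) A hfr (hfib K) hnor htA x hx
    refine ⟨algebraMap T K s, ⟨s, rfl⟩, ?_, ?_⟩
    · rwa [Ne, map_eq_zero_iff _ (IsFractionRing.injective T K)]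
    · rw [← hTL]
      exact hsx
  · -- the fibres
    intro 𝔭' h𝔭'
    let r : T →+* (algebraMap T K).range := (eT T K : T →+* (algebraMap T K).range)
    have hr : Function.Surjective r := (eT T K).surjective
    let 𝔭 : Ideal T := 𝔭'.comap r
    have h𝔭 : 𝔭.IsPrime := Ideal.comap_isPrime _ _
    have hmap : 𝔭.map r = 𝔭' := Ideal.map_comap_of_surjective r hr 𝔭'
    have hmm : 𝔭'.map (iRT hTA) = (𝔭.map (algebraMap T A)).map (eA A : A →+* A.toSubring) := by
      rw [← hmap, Ideal.map_map, Ideal.map_map]
      congr 1
    have hprime := prime_of_tensor (A := A) 𝔭 (by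
      have : IsDomain (T ⧸ 𝔭) := Ideal.Quotient.isDomain 𝔭
      exact hfib (FractionRing (T ⧸ 𝔭))) ((Qp hTA 𝔭').comap (eA A : A →+* A.toSubring)) (by
      intro a
      rw [Ideal.mem_comap, mem_Qp, hmm]
      have e2 : ∀ z : A, (eA A : A →+* A.toSubring) z ∈
          (𝔭.map (algebraMap T A)).map (eA A : A →+* A.toSubring) ↔ z ∈ 𝔭.map (algebraMap T A) := by
        intro z
        rw [← Ideal.mem_comap, Ideal.comap_map_of_bijective (eA A : A →+* A.toSubring)
          (show Function.Bijective (eA A : A →+* A.toSubring) from (eA A).bijective)]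
      constructor
      · rintro ⟨s', hs', hm⟩
        obtain ⟨s, rfl⟩ := hr s'
        refine ⟨s, hs', ?_⟩
        rw [← e2, map_mul]
        have e3 : (eA A : A →+* A.toSubring) (algebraMap T A s) = iRT hTA (r s) :=
          (RingHom.congr_fun hcomp s).symm
        rw [e3]
        exact hm
      · rintro ⟨s, hs, hm⟩
        refine ⟨r s, hs, ?_⟩
        rw [← e2, map_mul] at hm
        have e3 : (eA A : A →+* A.toSubring) (algebraMap T A s) = iRT hTA (r s) :=
          (RingHom.congr_fun hcomp s).symm
        rw [e3] at hm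
        exact hm)
    have h5 : Qp hTA 𝔭' = ((Qp hTA 𝔭').comap (eA A : A →+* A.toSubring)).comap
        ((eA A).symm : A.toSubring →+* A) := by
      rw [Ideal.comap_comap]
      have : (eA A : A →+* A.toSubring).comp ((eA A).symm : A.toSubring →+* A) = RingHom.id _ := by
        ext x
        rfl
      rw [this, Ideal.comap_id]
    rw [h5]
    exact Ideal.comap_isPrime _ _

end

/-- the homomorphisms from isomorphic rings -/
theorem ct_re {X Y : Type} [CommRing X] [CommRing Y] (E : X ≃+* Y) (F : Type) [Field F]
    (p : (Y →+* F) → Prop) : ct p = ct (fun φ : X →+* F => p (φ.comp (E.symm : Y →+* X))) := by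
  let ε : (Y →+* F) ≃ (X →+* F) :=
    { toFun := fun φ => φ.comp (E : X →+* Y)
      invFun := fun φ => φ.comp (E.symm : Y →+* X)
      left_inv := fun φ => RingHom.ext fun x => by
        show φ (E (E.symm x)) = φ x
        rw [E.apply_symm_apply]
      right_inv := fun φ => RingHom.ext fun x => by
        show φ (E.symm (E x)) = φ x
        rw [E.symm_apply_apply] }
  refine ct_equiv ε fun φ => ?_
  have : ((ε φ).comp (E.symm : Y →+* X)) = φ := ε.symm_apply_apply φ
  show p φ ↔ p ((ε φ).comp (E.symm : Y →+* X))
  rw [this]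

/-- a model of a finitely generated field which contains the integers of the base field -/
theorem exists_R (k M : Type) [Field k] [NumberField k] [Field M] [Algebra k M]
    [Algebra.EssFiniteType k M] : ∃ R : Subring M, Algebra.FiniteType ℤ R ∧
      (∀ c : M, ∃ a ∈ R, ∃ b ∈ R, b ≠ 0 ∧ c = a / b) ∧ ∀ c : 𝓞 k, algebraMap k M c ∈ R := by
  classical
  obtain ⟨s, hs⟩ := IntermediateField.fg_top k M
  have hO : Algebra.FiniteType ℤ (𝓞 k) := inferInstance
  obtain ⟨G, hG⟩ := hO.out
  let j : 𝓞 k →+* M := (algebraMap k M).comp (algebraMap (𝓞 k) k)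
  let G' : Finset M := s ∪ G.image j
  let B : Subalgebra ℤ M := Algebra.adjoin ℤ (G' : Set M)
  have hBft : Algebra.FiniteType ℤ B := (Subalgebra.fg_iff_finiteType _).1 ⟨G', rfl⟩
  have hj : ∀ c : 𝓞 k, j c ∈ B := by
    intro c
    have hc : c ∈ Algebra.adjoin ℤ (G : Set (𝓞 k)) := by rw [hG]; trivial
    induction hc using Algebra.adjoin_induction with
    | mem x hx =>
      apply Algebra.subset_adjoin
      exact Finset.mem_coe.2 (Finset.mem_union_right _ (Finset.mem_image_of_mem _ hx))
    | algebraMap n =>
      rw [eq_intCast, map_intCast]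
      exact intCast_mem _ n
    | add x y _ _ hx hy =>
      rw [map_add]
      exact add_mem hx hy
    | mul x y _ _ hx hy =>
      rw [map_mul]
      exact mul_mem hx hy
  refine ⟨B.toSubring, ?_, ?_, hj⟩
  · let f : B →+* B.toSubring := (B.val : B →+* M).codRestrict B.toSubring fun x => x.2
    exact ft_surj f fun x => ⟨⟨x, x.2⟩, rfl⟩
  · intro c
    -- the field generated by `B`
    have hk : ∀ x : k, algebraMap k M x ∈ Subfield.closure (B : Set M) := by
      intro x
      obtain ⟨a, b, hb, rfl⟩ := IsFractionRing.div_surjective (A := 𝓞 k) x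
      rw [map_div₀]
      exact div_mem (Subfield.subset_closure (hj a)) (Subfield.subset_closure (hj b))
    let E : IntermediateField k M := (Subfield.closure (B : Set M)).toIntermediateField hk
    have hE : E = ⊤ := by
      rw [eq_top_iff, ← hs, IntermediateField.adjoin_le_iff]
      intro x hx
      exact Subfield.subset_closure (Algebra.subset_adjoin
        (Finset.mem_coe.2 (Finset.mem_union_left _ hx)))
    have hc : c ∈ Subfield.closure (B : Set M) := by
      have : c ∈ E := by rw [hE]; trivial
      exact this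
    rw [Subfield.mem_closure_iff] at hc
    obtain ⟨y, hy, z, hz, rfl⟩ := hc
    have hcl : Subring.closure (B : Set M) = B.toSubring := by
      have h6 := Subring.closure_eq B.toSubring
      exact h6
    rw [hcl] at hy hz
    by_cases hz0 : z = 0
    · exact ⟨0, B.toSubring.zero_mem, 1, B.toSubring.one_mem, one_ne_zero, by rw [hz0]; simp⟩
    · exact ⟨y, hy, z, hz, hz0, rfl⟩

end Pool.Agent.T6.H77.NB
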