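import Mathlib

/-!
# Projective models of curves, and the averages of the Frobenius traces of their fibres
-/

set_option autoImplicit false
set_option linter.unusedSectionVars false

open scoped TensorProduct

namespace Pool.Agent.T6.H77.NB

open NumberField IsDedekindDomain

/-- The field `K` is purely transcendental over `M`: it is generated over `M` by `n` algebraically
independent elements. -/
def PurelyTranscendental (M K : Type) [Field M] [Field K] [Algebra M K] (n : ℕ) : Prop :=
  ∃ w : Fin n → K, AlgebraicIndependent M w ∧ IntermediateField.adjoin M (Set.range w) = ⊤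

/-- The fibres of `Spec A` over `Spec T` are geometrically integral: `F ⊗ A` is a domain for every
field `F` over `T`. -/
def IntegralFibres (T A : Type) [CommRing T] [CommRing A] [Algebra T A] : Prop :=
  ∀ (F : Type) [Field F] [Algebra T F], IsDomain (F ⊗[T] A)

section
variable {T L : Type} [CommRing T] (K : Type) [Field K] [Field L] [Algebra T K] [Algebra T L]

/-- A chart of a family of curves over `T` with the function field `L`: the subalgebra `A` of `L` has
the quotient field `L`, and it is finite over `T[t]`; its fibres over `T` are geometrically integral and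
the generic fibre is normal. -/
structure CurveChart (t : L) (A : Subalgebra T L) : Prop where
  finiteType : Algebra.FiniteType T A
  mem : t ∈ A
  frac : ∀ z : L, ∃ a ∈ A, ∃ b ∈ A, b ≠ 0 ∧ z = a / b
  integral : ∀ a ∈ A, IsIntegral (Algebra.adjoin T {t}) a
  fibre : IntegralFibres T A
  normal : IsIntegrallyClosed (K ⊗[T] A)

/-- A projective model over `T` of a curve with the function field `L` over the quotient field `K` of
`T`: it is the union of the charts `Spec A` and `Spec A'`, and finite over the projective line with
coordinate `t`.  All its fibres are geometrically integral, and the generic fibre is normal. -/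
structure CurveModel [Algebra K L] (t : L) (A A' : Subalgebra T L) : Prop where
  transcendental : Transcendental K t
  chart : CurveChart K t A
  chart' : CurveChart K t⁻¹ A'
  glue : ∀ a ∈ A, ∃ n : ℕ, t⁻¹ ^ n * a ∈ A'
  glue' : ∀ a ∈ A', ∃ n : ℕ, t ^ n * a ∈ A

end

/-- the points of `Spec B` with values in `F` over the point `φ` of `Spec T` -/
def PointsOver {T F : Type} [CommRing T] [CommRing F] (B : Type) [CommRing B] [Algebra T B]
    (φ : T →+* F) : Type :=
  {ψ : B →+* F // ψ.comp (algebraMap T B) = φ}

/-- the number of the points of the fibre over the point `φ` of `Spec T`, for the union of the charts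
`Spec A` and `Spec A'`: the points of `Spec A`, and the points of `Spec A'` where the function `z` (the
inverse of the coordinate) vanishes -/
noncomputable def fibrePoints {T F : Type} [CommRing T] [CommRing F] (A A' : Type) [CommRing A]
    [CommRing A'] [Algebra T A] [Algebra T A'] (z : A') (φ : T →+* F) : ℕ :=
  Nat.card (PointsOver A φ) + Nat.card {ψ : PointsOver A' φ // ψ.1 z = 0}

/-- the sum `∑_y a(f⁻¹(y))` over the points `y` of `Spec T` with values in the finite field `F` and
over the point `ψ` of `Spec O`, where `a(f⁻¹(y)) = #F + 1 - #f⁻¹(y)(F)` -/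
noncomputable def fibreSum {O F : Type} [CommRing O] [CommRing F] (T : Type) [CommRing T]
    [Algebra O T] (A A' : Type) [CommRing A] [CommRing A'] [Algebra T A] [Algebra T A'] (z : A')
    (ψ : O →+* F) : ℝ :=
  ∑ᶠ φ : PointsOver T ψ, ((Nat.card F : ℝ) + 1 - fibrePoints A A' z φ.1)

/-- the average `𝔄_v = q_v^{-m} ∑_y a_v(f⁻¹(y))` over the points `y` of the fibre of `Spec T` at `v`,
where `a_v(f⁻¹(y)) = q_v + 1 - #f⁻¹(y)(𝔽_v)` -/
noncomputable def fibreAverage {k : Type} [Field k] [NumberField k] (T : Type) [CommRing T]
    [Algebra (𝓞 k) T] (A A' : Type) [CommRing A] [CommRing A'] [Algebra T A] [Algebra T A'] (z : A')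
    (m : ℕ) (v : HeightOneSpectrum (𝓞 k)) : ℝ :=
  fibreSum T A A' z (Ideal.Quotient.mk v.asIdeal) / (Nat.card (𝓞 k ⧸ v.asIdeal) : ℝ) ^ m

/-- the average of the Frobenius traces of the fibres of a model -/
noncomputable def modelAverage (k : Type) [Field k] [NumberField k] {T K L : Type} [CommRing T]
    [Algebra (𝓞 k) T] [Field K] [Field L] [Algebra T K] [Algebra T L] [Algebra K L] {t : L}
    {A A' : Subalgebra T L} (h : CurveModel K t A A') (m : ℕ) (v : HeightOneSpectrum (𝓞 k)) : ℝ :=
  fibreAverage T A A' ⟨t⁻¹, h.chart'.mem⟩ m v

/-- The two structures of `K` over the integers of `k`, through the subring `T` and through the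
subfield `M`, are the same. -/
def SameIntegers (k M K T : Type) [Field k] [NumberField k] [Field M] [Algebra k M] [Field K]
    [Algebra M K] [CommRing T] [Algebra (𝓞 k) T] [Algebra T K] : Prop :=
  ∀ c : 𝓞 k, algebraMap T K (algebraMap (𝓞 k) T c) = algebraMap M K (algebraMap k M c)

end Pool.Agent.T6.H77.NB
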