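import Pool.Agent.T6.H77.NB.Fin
import Pool.Agent.T6.H77.NB.Model

/-!
# The analytic Nagao conjecture for fields with nice models
-/

set_option autoImplicit false
set_option linter.unusedSectionVars false
set_option linter.style.haveILetI false

open scoped TensorProduct

namespace Pool.Agent.T6.H77.NB

open Polynomial NumberField IsDedekindDomain
open FF
open Pool.Agent.R410.NG (Ff Asy)
open Pool.Agent.Y707.PR (HasResidue)

/-- The field `K`, of transcendence degree `n` over `M` and `e` over `ℚ`, has nice models over the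
localizations of every model of `M`. -/
def NiceField (M K : Type) [Field M] [Field K] [Algebra M K] (n e : ℕ) : Prop :=
  ∀ R : Subring M, Algebra.FiniteType ℤ R → (∀ c : M, ∃ a ∈ R, ∃ b ∈ R, b ≠ 0 ∧ c = a / b) →
    ∃ r₀ : R, r₀ ≠ 0 ∧ ∀ s : R, s ≠ 0 → ∀ (r : M) (hr : r ∈ R), r = ((r₀ * s : R) : M) →
      ∃ (T D : Subring K) (hRT : ∀ x ∈ loc R r hr, algebraMap M K x ∈ T) (S : Set (Place M K)) (ρ : ℕ),
        Nice n e (loc R r hr) T D hRT S ρ

theorem loc_frac {M : Type} [Field M] {R : Subring M}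
    (hR : ∀ c : M, ∃ a ∈ R, ∃ b ∈ R, b ≠ 0 ∧ c = a / b) {r : M} (hr : r ∈ R) (c : M) :
    ∃ a ∈ loc R r hr, ∃ b ∈ loc R r hr, b ≠ 0 ∧ c = a / b := by
  obtain ⟨a, ha, b, hb, hb0, rfl⟩ := hR c
  exact ⟨a, le_loc hr ha, b, le_loc hr hb, hb0, rfl⟩

/-- purely transcendental extensions have nice models -/
theorem niceField_poly {M K : Type} [Field M] [Field K] [Algebra M K] [CharZero M] {n d : ℕ}
    {w : Fin n → K} (hd : Algebra.trdeg ℚ M = d) (hw : AlgebraicIndependent M w)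
    (htop : IntermediateField.adjoin M (Set.range w) = ⊤) : NiceField M K n (d + n) := by
  intro R hRft hR
  refine ⟨1, one_ne_zero, fun s hs r hr hrs => ?_⟩
  have hr0 : r ≠ 0 := by
    rw [hrs, one_mul]
    exact fun hh => hs (Subtype.ext hh)
  obtain ⟨hRT, S, h⟩ := nice_poly w hd hw htop (loc R r hr) (loc_ft hRft hr hr0) (loc_frac hR hr)
  exact ⟨_, _, hRT, S, 0, h⟩

section
variable {T K L : Type} [CommRing T] [IsDomain T] [Field K] [Field L] [Algebra T K]
  [IsFractionRing T K] [Algebra K L] [Algebra T L] [IsScalarTower T K L]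

/-- the sum over the points of the base -/
theorem sum_fibre {k : Type} [Field k] [NumberField k] [Algebra (𝓞 k) T] [Algebra.FiniteType ℤ T]
    {t : L} (A : Subalgebra T L) {A' : Subalgebra T L} (ht : t⁻¹ ∈ A') [Algebra.FiniteType ℤ A]
    [Algebra.FiniteType ℤ A'] (F : Type) [Field F] [Finite F] (ψ : 𝓞 k →+* F) :
    fibreSum T A A' ⟨t⁻¹, ht⟩ ψ =
      dfc (algebraMap (𝓞 k) T) ((algebraMap T A).comp (algebraMap (𝓞 k) T))
        ((algebraMap T A').comp (algebraMap (𝓞 k) T)) ⟨t⁻¹, ht⟩ F ψ := by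
  classical
  have hfinT : Finite (T →+* F) := hom_fin F
  have hfinA : Finite (A →+* F) := hom_fin F
  have hfinA' : Finite (A' →+* F) := hom_fin F
  have hfinP : Finite (PointsOver T ψ) :=
    inferInstanceAs (Finite {φ : T →+* F // φ.comp (algebraMap (𝓞 k) T) = ψ})
  let _ := Fintype.ofFinite (PointsOver T ψ)
  let _ := Fintype.ofFinite (T →+* F)
  unfold fibreSum
  rw [finsum_eq_sum_of_fintype, Finset.sum_sub_distrib, Finset.sum_const, Finset.card_univ,
    nsmul_eq_mul]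
  unfold fibrePoints dfc
  push_cast
  rw [Finset.sum_add_distrib]
  have e1 : (Fintype.card (PointsOver T ψ) : ℝ) =
      ct (fun φ : T →+* F => True ∧ φ.comp (algebraMap (𝓞 k) T) = ψ) := by
    unfold ct
    rw [← Nat.card_eq_fintype_card]
    congr 1
    exact Nat.card_congr (Equiv.subtypeEquivRight (p := fun φ : T →+* F =>
      φ.comp (algebraMap (𝓞 k) T) = ψ) fun φ => by tauto)
  -- a sum over the fibres
  have key : ∀ {X : Type} [CommRing X] (j : T →+* X) [Finite (X →+* F)] (p : (X →+* F) → Prop),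
      ∑ φ : PointsOver T ψ, (Nat.card {χ : X →+* F // χ.comp j = φ.1 ∧ p χ} : ℝ) =
      ct (fun χ : X →+* F => p χ ∧ χ.comp (j.comp (algebraMap (𝓞 k) T)) = ψ) := by
    intro X _ j _ p
    unfold ct
    rw [← Nat.cast_sum]
    congr 1
    rw [← Nat.card_sigma]
    refine Nat.card_congr ?_
    exact
      { toFun := fun z => ⟨z.2.1, z.2.2.2, by
          rw [← RingHom.comp_assoc, z.2.2.1]
          exact z.1.2⟩
        invFun := fun χ => ⟨⟨χ.1.comp j, by
          rw [RingHom.comp_assoc]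
          exact χ.2.2⟩, ⟨χ.1, rfl, χ.2.1⟩⟩
        left_inv := by
          rintro ⟨⟨φ, hφ⟩, ⟨χ, hχ1, hχ⟩⟩
          obtain rfl : χ.comp j = φ := hχ1
          rfl
        right_inv := fun χ => rfl }
  have e2 := key (algebraMap T A) (fun _ => True)
  have e3 := key (algebraMap T A') (fun χ => χ ⟨t⁻¹, ht⟩ = 0)
  have e4 : ∑ φ : PointsOver T ψ, (Nat.card (PointsOver A φ.1) : ℝ) =
      ∑ φ : PointsOver T ψ,
        (Nat.card {χ : A →+* F // χ.comp (algebraMap T A) = φ.1 ∧ True} : ℝ) := by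
    refine Finset.sum_congr rfl fun φ _ => ?_
    congr 1
    exact Nat.card_congr (Equiv.subtypeEquivRight (p := fun χ : A →+* F =>
      χ.comp (algebraMap T A) = φ.1) fun χ => by tauto)
  have e5 : ∑ φ : PointsOver T ψ,
      (Nat.card {χ : PointsOver A' φ.1 // χ.1 (⟨t⁻¹, ht⟩ : A') = 0} : ℝ) =
      ∑ φ : PointsOver T ψ,
        (Nat.card {χ : A' →+* F // χ.comp (algebraMap T A') = φ.1 ∧ χ ⟨t⁻¹, ht⟩ = 0} : ℝ) := by
    refine Finset.sum_congr rfl fun φ _ => ?_
    congr 1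
    exact Nat.card_congr (Equiv.subtypeSubtypeEquivSubtypeInter (fun χ : A' →+* F =>
      χ.comp (algebraMap T A') = φ.1) fun χ => χ ⟨t⁻¹, ht⟩ = 0)
  rw [e4, e5, e2, e3, e1]
  ring

variable [CharZero K] [hff : IsFF K L]

/-- **The analytic Nagao conjecture for fields with nice models.** -/
theorem main_nice (k : Type) [Field k] [NumberField k] (M : Type) [Field M] [Algebra k M]
    [Algebra.EssFiniteType k M] [Algebra M K] [Algebra M L] [IsScalarTower M K L] {n m : ℕ}
    (hK : NiceField M K n m) (hL : NiceField M L (n + 1) (m + 1)) (hm : Algebra.trdeg ℚ K = m)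
    (hcl : ∀ x : L, IsAlgebraic K x → ∃ y : K, algebraMap K L y = x)
    [Algebra (𝓞 k) T] [Algebra.FiniteType (𝓞 k) T]
    (hk : SameIntegers k M K T)
    {t : L} {A A' : Subalgebra T L} (h : CurveModel K t A A')
    (S : Finset (HeightOneSpectrum (𝓞 k))) :
    ∃ ρ : ℕ, picRank K L = ρ ∧ HasResidue S (modelAverage k h m) 1 (-(ρ : ℤ)) := by
  classical
  have hTZ : Algebra.FiniteType ℤ T :=
    Algebra.FiniteType.trans (S := 𝓞 k) inferInstance inferInstance
  have hfA := h.chart.finiteType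
  have hfA' := h.chart'.finiteType
  have hAZ : Algebra.FiniteType ℤ A := Algebra.FiniteType.trans hTZ hfA
  have hA'Z : Algebra.FiniteType ℤ A' := Algebra.FiniteType.trans hTZ hfA'
  have htr' : Transcendental K t⁻¹ := fun hh => h.transcendental (by simpa using hh.inv)
  have ht0 : t ≠ 0 := by
    rintro rfl
    exact h.transcendental isAlgebraic_zero
  have hfr' : ∀ z : L, ∃ a ∈ A', ∃ b ∈ A', b ≠ 0 ∧ z = a / b := by
    intro z
    obtain ⟨a, ha, b, hb, hb0, rfl⟩ := h.chart.frac z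
    obtain ⟨i, hi⟩ := h.glue a ha
    obtain ⟨j, hj⟩ := h.glue b hb
    refine ⟨t⁻¹ ^ j * (t⁻¹ ^ i * a), A'.mul_mem (A'.pow_mem h.chart'.mem j) hi,
      t⁻¹ ^ i * (t⁻¹ ^ j * b), A'.mul_mem (A'.pow_mem h.chart'.mem i) hj, ?_, ?_⟩
    · exact mul_ne_zero (pow_ne_zero _ (inv_ne_zero ht0)) (mul_ne_zero
        (pow_ne_zero _ (inv_ne_zero ht0)) hb0)
    · have h1 : t⁻¹ ^ i ≠ 0 := pow_ne_zero _ (inv_ne_zero ht0)
      have h2 : t⁻¹ ^ j ≠ 0 := pow_ne_zero _ (inv_ne_zero ht0)
      field_simp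
  have hC : Chart (algebraMap T K).range t A.toSubring :=
    chart_of hTZ t A hfA h.transcendental h.chart.mem h.chart.frac h.chart.integral h.chart.fibre h.chart.normal
  have hC' : Chart (algebraMap T K).range t⁻¹ A'.toSubring :=
    chart_of hTZ t⁻¹ A' hfA' htr' h.chart'.mem hfr' h.chart'.integral h.chart'.fibre h.chart'.normal
  -- the models
  obtain ⟨R, hRft, hR, hRk⟩ := exists_R k M
  obtain ⟨r₁, hr₁, hK1⟩ := hK R hRft hR
  obtain ⟨r₂, hr₂, hL1⟩ := hL R hRft hR
  obtain ⟨T₁, D₁, hRT₁, S₁, ρ₁, hn₁⟩ := hK1 r₂ hr₂ ((r₁ * r₂ : R) : M) (r₁ * r₂ : R).2 rfl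
  obtain ⟨T₂, D₂, hRT₂, S₂, ρ₂, hn₂⟩ := hL1 r₁ hr₁ ((r₁ * r₂ : R) : M) (r₁ * r₂ : R).2
    (by rw [mul_comm])
  obtain ⟨g, N, hg0, hN0, hgN, R', hRR', ⟨hRT', DK, SK, ρK, hnK⟩, ⟨hRE', DL, SL, ρL, hnL⟩⟩ :=
    exists_models hC hn₁ hn₂
  obtain ⟨ρ, hρ, has⟩ := asy_defect hC hC' hm hcl rfl hg0 hN0 hgN hnK hnL
  refine ⟨ρ, hρ, ?_⟩
  -- the structure homomorphisms
  let o : 𝓞 k →+* R' := ((algebraMap k M).comp (algebraMap (𝓞 k) k)).codRestrict R' fun c =>
    hRR' (le_loc _ (hRk c))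
  let oT : 𝓞 k →+* T := algebraMap (𝓞 k) T
  let oA : 𝓞 k →+* A := (algebraMap T A).comp oT
  let oA' : 𝓞 k →+* A' := (algebraMap T A').comp oT
  have hTL : ∀ s : T, algebraMap T L s = algebraMap K L (algebraMap T K s) := fun s =>
    IsScalarTower.algebraMap_apply T K L s
  have hbd := bd_defect hC hC' hm rfl hg0 hN0 hnK hnL o
    ((eT T K : T →+* (algebraMap T K).range).comp oT) ((eA A : A →+* A.toSubring).comp oA)
    ((eA A' : A' →+* A'.toSubring).comp oA') (by
      refine RingHom.ext fun c => Subtype.ext ?_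
      exact hk c) (by
      refine RingHom.ext fun c => Subtype.ext ?_
      show algebraMap T L (algebraMap (𝓞 k) T c) = algebraMap M L (algebraMap k M c)
      rw [hTL, hk c, ← IsScalarTower.algebraMap_apply M K L])
  -- the comparison of the numbers
  have hcT : ∀ (F : Type) [Field F] (ψ : 𝓞 k →+* F),
      ct (fun φ : (algebraMap T K).range →+* F =>
        φ.comp ((eT T K : T →+* (algebraMap T K).range).comp oT) = ψ) =
      ct (fun φ : T →+* F => True ∧ φ.comp oT = ψ) := by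
    intro F _ ψ
    rw [ct_re (eT T K)]
    refine ct_congr fun φ => ?_
    have : (φ.comp ((eT T K).symm : (algebraMap T K).range →+* T)).comp
        ((eT T K : T →+* (algebraMap T K).range).comp oT) = φ.comp oT := by
      refine RingHom.ext fun c => ?_
      show φ ((eT T K).symm (eT T K (oT c))) = φ (oT c)
      rw [RingEquiv.symm_apply_apply]
    rw [this]
    tauto
  have hcA : ∀ (B : Subalgebra T L) (F : Type) [Field F] (ψ : 𝓞 k →+* F) (z : B)
      (q : Prop → Prop), ct (fun φ : B.toSubring →+* F => q (φ (eA B z) = 0) ∧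
        φ.comp ((eA B : B →+* B.toSubring).comp ((algebraMap T B).comp oT)) = ψ) =
      ct (fun φ : B →+* F => q (φ z = 0) ∧ φ.comp ((algebraMap T B).comp oT) = ψ) := by
    intro B F _ ψ z q
    rw [ct_re (eA B)]
    refine ct_congr fun φ => ?_
    have h1 : (φ.comp ((eA B).symm : B.toSubring →+* B)).comp
        ((eA B : B →+* B.toSubring).comp ((algebraMap T B).comp oT)) =
        φ.comp ((algebraMap T B).comp oT) := rfl
    have h2 : (φ.comp ((eA B).symm : B.toSubring →+* B)) (eA B z) = φ z := rfl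
    rw [h1, h2]
  have hdfc : ∀ (F : Type) [Field F] (ψ : 𝓞 k →+* F),
      defect (algebraMap T K).range A.toSubring A'.toSubring ⟨t⁻¹, hC'.tA⟩ F
        (fun φ => φ.comp ((eT T K : T →+* (algebraMap T K).range).comp oT) = ψ)
        (fun χ => χ.comp ((eA A : A →+* A.toSubring).comp oA) = ψ)
        (fun χ => χ.comp ((eA A' : A' →+* A'.toSubring).comp oA') = ψ) =
      dfc oT oA oA' ⟨t⁻¹, h.chart'.mem⟩ F ψ := by
    intro F _ ψ
    unfold defect dfc
    have e1 := hcT F ψ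
    have e2 := hcA A F ψ 0 (fun _ => True)
    have e3 := hcA A' F ψ ⟨t⁻¹, h.chart'.mem⟩ id
    have e4 : ct (fun χ : A.toSubring →+* F => χ.comp ((eA A : A →+* A.toSubring).comp oA) = ψ) =
        ct (fun φ : A.toSubring →+* F => True ∧
          φ.comp ((eA A : A →+* A.toSubring).comp ((algebraMap T A).comp oT)) = ψ) :=
      ct_congr fun χ => by
        constructor
        · exact fun hh => ⟨trivial, hh⟩
        · exact fun hh => hh.2
    rw [e1, e4, e2]
    congr 1
  have htot : ∀ (F : Type) [Field F],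
      defect (algebraMap T K).range A.toSubring A'.toSubring ⟨t⁻¹, hC'.tA⟩ F
        (fun _ => True) (fun _ => True) (fun _ => True) =
      ((Nat.card F : ℝ) + 1) * ct (fun _ : T →+* F => True) - ct (fun _ : A →+* F => True) -
        ct (fun χ : A' →+* F => χ ⟨t⁻¹, h.chart'.mem⟩ = 0) := by
    intro F _
    unfold defect
    rw [ct_re (eT T K), ct_re (eA A), ct_re (eA A')]
    congr 1
    refine ct_congr fun χ => ?_
    constructor
    · exact fun hh => hh.1
    · exact fun hh => ⟨hh, trivial⟩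
  have hres := residue_dfc (k := k) oT oA oA' ⟨t⁻¹, h.chart'.mem⟩ m (-(ρ : ℤ)) (by
    obtain ⟨C, N', hC0, hN', g'⟩ := hbd
    refine ⟨C, N', hC0, hN', fun F _ _ hF ψ => ?_⟩
    rw [← hdfc F ψ]
    exact g' F hF ψ) (by
    have h3 : ((-(ρ : ℤ) : ℤ) : ℝ) = -(ρ : ℝ) := by push_cast; rfl
    rw [h3]
    refine has.congr 1 one_ne_zero fun F _ _ _ => ?_
    rw [htot F]) S
  have hfun : (fun v => fibreAverage (k := k) T A A' ⟨t⁻¹, h.chart'.mem⟩ m v) = fun v : HeightOneSpectrum (𝓞 k) =>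
      ((Nat.card (𝓞 k ⧸ v.asIdeal) : ℝ) ^ m)⁻¹ *
        dfc oT oA oA' ⟨t⁻¹, h.chart'.mem⟩ (𝓞 k ⧸ v.asIdeal) (Ideal.Quotient.mk v.asIdeal) := by
    funext v
    have hfin := Pool.Agent.H341R2.finite_v v
    unfold fibreAverage
    rw [div_eq_inv_mul, sum_fibre (k := k) A h.chart'.mem (𝓞 k ⧸ v.asIdeal) (Ideal.Quotient.mk v.asIdeal)]
  show HasResidue S (fun v => fibreAverage (k := k) T A A' ⟨t⁻¹, h.chart'.mem⟩ m v) 1 (-(ρ : ℤ))
  rw [hfun]
  exact_mod_cast hres

end

end Pool.Agent.T6.H77.NB
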