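import Pool.Agent.T6.H77.NB.Fib

/-!
# Two models become equal after a localization
-/

set_option autoImplicit false
set_option linter.unusedSectionVars false
set_option linter.style.haveILetI false

open Polynomial

namespace Pool.Agent.T6.H77.NB

open FF

section
variable {K : Type} [Field K]

theorem loc_le_of {T W : Subring K} {a : K} {ha : a ∈ T} (ha0 : a ≠ 0) (hT : T ≤ W) (hi : a⁻¹ ∈ W) :
    loc T a ha ≤ W := by
  rintro x ⟨n, hn⟩
  have h1 : x = a⁻¹ ^ n * (a ^ n * x) := by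
    rw [inv_pow, inv_mul_cancel_left₀ (pow_ne_zero n ha0)]
  rw [h1]
  exact W.mul_mem (W.pow_mem hi n) (hT hn)

theorem inv_mem_loc {T : Subring K} {a : K} (ha : a ∈ T) (ha0 : a ≠ 0) : a⁻¹ ∈ loc T a ha :=
  ⟨1, by rw [pow_one, mul_inv_cancel₀ ha0]; exact T.one_mem⟩

theorem inv_mem_mul {T : Subring K} {a b : K} (ha : a ∈ T) (hb : b ∈ T) (ha0 : a ≠ 0) (hb0 : b ≠ 0) :
    a⁻¹ ∈ loc T (a * b) (T.mul_mem ha hb) := by
  have h1 : a⁻¹ = b * (a * b)⁻¹ := by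
    field_simp
  rw [h1]
  exact Subring.mul_mem _ (le_loc _ hb) (inv_mem_loc _ (mul_ne_zero ha0 hb0))

theorem exists_le_loc {X Y : Subring K} (hX : Algebra.FiniteType ℤ X)
    (hY : ∀ z : K, ∃ a ∈ Y, ∃ b ∈ Y, b ≠ 0 ∧ z = a / b) :
    ∃ y, ∃ hy : y ∈ Y, y ≠ 0 ∧ X ≤ loc Y y hy := by
  classical
  obtain ⟨G, hG⟩ := hX.out
  choose f hf g hg hg0 hfg using hY
  refine ⟨∏ x ∈ G, g x, Y.prod_mem fun x _ => hg x, Finset.prod_ne_zero_iff.2 fun x _ => hg0 x, ?_⟩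
  have key : ∀ x : X, (x : K) ∈ loc Y (∏ x ∈ G, g x) (Y.prod_mem fun x _ => hg x) := by
    intro x
    have hx : x ∈ Algebra.adjoin ℤ (G : Set X) := by rw [hG]; trivial
    induction hx using Algebra.adjoin_induction with
    | mem x hx =>
      refine ⟨1, ?_⟩
      rw [pow_one, ← Finset.prod_erase_mul G _ (Finset.mem_coe.1 hx), mul_assoc]
      refine Y.mul_mem (Y.prod_mem fun x _ => hg x) ?_
      have h1 : g x * (x : K) = f x := by
        conv_lhs => rw [hfg x]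
        rw [← hfg x]
        have := hfg x
        rw [eq_div_iff (hg0 x)] at this
        rw [mul_comm]
        exact this
      rw [h1]
      exact hf x
    | algebraMap n =>
      rw [eq_intCast]
      push_cast
      exact intCast_mem _ n
    | add x y _ _ hx hy =>
      rw [Subring.coe_add]
      exact add_mem hx hy
    | mul x y _ _ hx hy =>
      rw [Subring.coe_mul]
      exact mul_mem hx hy
  intro x hx
  exact key ⟨x, hx⟩

/-- **Two models become equal after a localization.** -/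
theorem exists_match {X Y : Subring K} (hX : Algebra.FiniteType ℤ X) (hY : Algebra.FiniteType ℤ Y)
    (hXf : ∀ z : K, ∃ a ∈ X, ∃ b ∈ X, b ≠ 0 ∧ z = a / b)
    (hYf : ∀ z : K, ∃ a ∈ Y, ∃ b ∈ Y, b ≠ 0 ∧ z = a / b) :
    ∃ x, ∃ hx : x ∈ X, ∃ y, ∃ hy : y ∈ Y, x ≠ 0 ∧ y ≠ 0 ∧ loc X x hx = loc Y y hy := by
  obtain ⟨y₀, hy₀, hy₀0, hXY⟩ := exists_le_loc hX hYf
  obtain ⟨x₀, hx₀, hx₀0, hYX⟩ := exists_le_loc (loc_ft hY hy₀ hy₀0) hXf
  obtain ⟨m, hm⟩ := hXY hx₀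
  have hy10 : y₀ ^ m * x₀ ≠ 0 := mul_ne_zero (pow_ne_zero m hy₀0) hx₀0
  refine ⟨x₀, hx₀, y₀ * (y₀ ^ m * x₀), Y.mul_mem hy₀ hm, hx₀0, mul_ne_zero hy₀0 hy10, ?_⟩
  apply le_antisymm
  · refine loc_le_of hx₀0 (hXY.trans (loc_le_of hy₀0 (le_loc _) (inv_mem_mul hy₀ hm hy₀0 hy10))) ?_
    have h1 : x₀⁻¹ = y₀ ^ m * (y₀ ^ m * x₀)⁻¹ := by
      field_simp
    rw [h1]
    refine Subring.mul_mem _ (le_loc _ (Y.pow_mem hy₀ m)) ?_
    have h2 : (y₀ ^ m * x₀)⁻¹ = y₀ * (y₀ * (y₀ ^ m * x₀))⁻¹ := by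
      field_simp
    rw [h2]
    exact Subring.mul_mem _ (le_loc _ hy₀) (inv_mem_loc _ (mul_ne_zero hy₀0 hy10))
  · refine loc_le_of (mul_ne_zero hy₀0 hy10) ((le_loc hy₀).trans hYX) ?_
    rw [mul_inv, mul_inv]
    have h3 : y₀⁻¹ ∈ loc X x₀ hx₀ := hYX (inv_mem_loc hy₀ hy₀0)
    refine Subring.mul_mem _ h3 (Subring.mul_mem _ ?_ (inv_mem_loc hx₀ hx₀0))
    rw [← inv_pow]
    exact Subring.pow_mem _ h3 m

/-- a further localization -/
theorem loc_mul_eq {X Y : Subring K} {x y : K} {hx : x ∈ X} {hy : y ∈ Y} (hx0 : x ≠ 0) (hy0 : y ≠ 0)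
    (hW : loc X x hx = loc Y y hy) {u z z' : K} (hu0 : u ≠ 0) (hz0 : z ≠ 0) (hu : u ∈ loc X x hx)
    (hu' : u⁻¹ ∈ loc X x hx) (hz : z ∈ Y) (hz' : z' ∈ X) (he : z' = u * z) :
    loc X (x * z') (X.mul_mem hx hz') = loc Y (y * z) (Y.mul_mem hy hz) := by
  have hz'0 : z' ≠ 0 := by rw [he]; exact mul_ne_zero hu0 hz0
  have h1 : loc X x hx ≤ loc X (x * z') (X.mul_mem hx hz') :=
    loc_le_of hx0 (le_loc _) (inv_mem_mul hx hz' hx0 hz'0)
  have h2 : loc Y y hy ≤ loc Y (y * z) (Y.mul_mem hy hz) :=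
    loc_le_of hy0 (le_loc _) (inv_mem_mul hy hz hy0 hz0)
  have h3 : z⁻¹ ∈ loc Y (y * z) (Y.mul_mem hy hz) := by
    have h4 := inv_mem_mul hz hy hz0 hy0
    simpa only [mul_comm z y] using h4
  have h3' : z'⁻¹ ∈ loc X (x * z') (X.mul_mem hx hz') := by
    have h4 := inv_mem_mul hz' hx hz'0 hx0
    simpa only [mul_comm z' x] using h4
  apply le_antisymm
  · refine loc_le_of (mul_ne_zero hx0 hz'0) ((le_loc hx).trans (hW.le.trans h2)) ?_
    rw [mul_inv]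
    refine Subring.mul_mem _ (h2 (hW.le (inv_mem_loc hx hx0))) ?_
    rw [he, mul_inv]
    exact Subring.mul_mem _ (h2 (hW.le hu')) h3
  · refine loc_le_of (mul_ne_zero hy0 hz0) ((le_loc hy).trans (hW.ge.trans h1)) ?_
    rw [mul_inv]
    refine Subring.mul_mem _ (h1 (hW.ge (inv_mem_loc hy hy0))) ?_
    have h5 : z⁻¹ = u * z'⁻¹ := by
      rw [he]
      field_simp
    rw [h5]
    exact Subring.mul_mem _ (h1 hu) h3'

end

section
variable {K L : Type} [Field K] [Field L] [Algebra K L]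
variable {T : Subring K} {t : L} {A : Subring L}

/-- a multiple of a function which is a polynomial -/
theorem Chart.exists_norm (h : Chart T t A) {a : A} (ha : a ≠ 0) :
    ∃ g : T[X], g ≠ 0 ∧ ∃ a' : A, evT h.TA h.tA g = a * a' := by
  let _ : Algebra T[X] A := (evT h.TA h.tA).toAlgebra
  have h1 : IsIntegral T[X] a := h.int a
  obtain ⟨g, hg, a', ha'⟩ := (h1.isAlgebraic).exists_nonzero_dvd (mem_nonZeroDivisors_of_ne_zero ha)
  exact ⟨g, hg, a', ha'⟩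

end

end Pool.Agent.T6.H77.NB
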