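import Pool.Agent.T6.H77.NB.NLoc

/-!
# Localization of nice models: the numbers of the points
-/

set_option autoImplicit false
set_option linter.unusedSectionVars false
set_option linter.style.haveILetI false

open Polynomial

namespace Pool.Agent.T6.H77.NB

open FF
open Pool.Agent.R410.NG (Ff Asy)

section
variable {M K : Type} [Field M] [Field K] [Algebra M K]
variable {n e ρ : ℕ} {R : Subring M} {T D : Subring K} {hRT : ∀ r ∈ R, algebraMap M K r ∈ T}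
  {S : Set (Place M K)}

open Classical in
/-- the centres which contain `a` -/
noncomputable def QQ (h : Nice n e R T D hRT S ρ) {a : K} (ha : a ∈ T) (ha0 : a ≠ 0) :
    Finset (Ideal T) := (h.af.fin a (h.TD ha) ha0).toFinset.image (cc h)

theorem mem_QQ (h : Nice n e R T D hRT S ρ) {a : K} (ha : a ∈ T) (ha0 : a ≠ 0) (Q : Ideal T) :
    Q ∈ QQ h ha ha0 ↔ ∃ P ∈ S, P.ord a ≠ 0 ∧ Q = cc h P := by
  classical
  unfold QQ
  rw [Finset.mem_image]
  constructor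
  · rintro ⟨P, hP, rfl⟩
    obtain ⟨h1, h2⟩ := (h.af.fin a (h.TD ha) ha0).mem_toFinset.1 hP
    exact ⟨P, h1, h2, rfl⟩
  · rintro ⟨P, hP, hPa, rfl⟩
    exact ⟨P, (h.af.fin a (h.TD ha) ha0).mem_toFinset.2 ⟨hP, hPa⟩, rfl⟩

theorem card_QQ (h : Nice n e R T D hRT S ρ) {a : K} (ha : a ∈ T) (ha0 : a ≠ 0) :
    (QQ h ha ha0).card = (h.af.fin a (h.TD ha) ha0).toFinset.card := by
  classical
  unfold QQ
  refine Finset.card_image_of_injOn ?_
  intro P hP P' hP' hcc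
  have h1 := ((h.af.fin a (h.TD ha) ha0).mem_toFinset.1 (Finset.mem_coe.1 hP)).1
  have h2 := ((h.af.fin a (h.TD ha) ha0).mem_toFinset.1 (Finset.mem_coe.1 hP')).1
  exact cc_le h h1 h2 (le_of_eq hcc)

theorem QQ_pos (h : Nice n e R T D hRT S ρ) {a : K} (ha : a ∈ T) (ha0 : a ≠ 0) {P : Place M K}
    (hP : P ∈ S) (hPa : P.ord a ≠ 0) : 0 < P.ord a := by
  have := (P.reg_iff ha0).1 (h.af.reg P hP a (h.TD ha))
  omega

/-- a denominator which removes the vertical components -/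
def GoodR (h : Nice n e R T D hRT S ρ) {a : K} (ha : a ∈ T) (ha0 : a ≠ 0) (r : R) : Prop :=
  ∀ Q ∈ (Ideal.span {(⟨a, ha⟩ : T)}).minimalPrimes, iRT hRT r ∈ Q ∨ Q ∈ QQ h ha ha0

theorem exists_goodR (h : Nice n e R T D hRT S ρ) {a : K} (ha : a ∈ T) (ha0 : a ≠ 0) :
    ∃ r₀ : R, r₀ ≠ 0 ∧ ∀ s : R, GoodR h ha ha0 (r₀ * s) := by
  classical
  have hft := h.Tft
  have hnoe : IsNoetherianRing T := Algebra.FiniteType.isNoetherianRing ℤ T
  have hmf : (Ideal.span {(⟨a, ha⟩ : T)}).minimalPrimes.Finite :=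
    Ideal.finite_minimalPrimes_of_isNoetherianRing T _
  have h1 : ∀ Q : Ideal T, ∃ r : R, r ≠ 0 ∧ ((∃ r' : R, r' ≠ 0 ∧ iRT hRT r' ∈ Q) → iRT hRT r ∈ Q) := by
    intro Q
    by_cases hQ : ∃ r' : R, r' ≠ 0 ∧ iRT hRT r' ∈ Q
    · obtain ⟨r', hr', hq⟩ := hQ
      exact ⟨r', hr', fun _ => hq⟩
    · exact ⟨1, one_ne_zero, fun hh => absurd hh hQ⟩
  choose f hf0 hf using h1
  refine ⟨∏ Q ∈ hmf.toFinset, f Q, Finset.prod_ne_zero_iff.2 fun Q _ => hf0 Q, fun s Q hQ => ?_⟩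
  by_cases hex : ∃ r' : R, r' ≠ 0 ∧ iRT hRT r' ∈ Q
  · left
    rw [map_mul, map_prod]
    apply Ideal.mul_mem_right
    exact Ideal.mem_of_dvd _ (Finset.dvd_prod_of_mem _ (hmf.mem_toFinset.2 hQ)) (hf Q hex)
  · right
    push Not at hex
    rw [mem_QQ]
    exact min_prime h ha ha0 hQ hex

theorem asy_QQ (h : Nice n e R T D hRT S ρ) {a : K} (ha : a ∈ T) (ha0 : a ≠ 0) {r : R} (hr : r ≠ 0)
    (hg : GoodR h ha ha0 r) : Asy (fun F _ _ => (Nat.card F : ℝ) *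
      ct (fun ψ : T →+* F => ψ ⟨a, ha⟩ = 0 ∧ ψ (iRT hRT r) ≠ 0)) e
        (h.af.fin a (h.TD ha) ha0).toFinset.card := by
  classical
  have hft := h.Tft
  have h1 := asy_countq (A := T) (Ideal.span {(⟨a, ha⟩ : T)}) (iRT hRT r) (QQ h ha ha0) e ?_ ?_ ?_
  · rw [card_QQ] at h1
    refine h1.congr 1 one_ne_zero fun F _ _ _ => ?_
    rw [ZN_eq]
  · intro Q hQ
    rw [mem_QQ] at hQ
    obtain ⟨P, hP, hPa, rfl⟩ := hQ
    refine ⟨?_, cc_not_const h hP hr, cc_dm h hP⟩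
    rw [Ideal.span_singleton_le_iff_mem, mem_cc h hP]
    right
    exact QQ_pos h ha ha0 hP hPa
  · intro Q hQ
    rcases hg Q hQ with h2 | h2
    · exact Or.inl h2
    · exact Or.inr (Or.inl h2)
  · intro Q hQ Q' hQ' hle
    rw [mem_QQ] at hQ hQ'
    obtain ⟨P, hP, hPa, rfl⟩ := hQ
    obtain ⟨P', hP', hPa', rfl⟩ := hQ'
    rw [cc_le h hP hP' hle]

/-- the points of the hypersurface are covered by the components -/
theorem cover_QQ (h : Nice n e R T D hRT S ρ) {a : K} (ha : a ∈ T) (ha0 : a ≠ 0) {r : R}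
    (hg : GoodR h ha ha0 r) (F : Type) [Field F] (ψ : T →+* F) (h1 : ψ ⟨a, ha⟩ = 0)
    (h2 : ψ (iRT hRT r) ≠ 0) : ∃ Q ∈ QQ h ha ha0, ∀ x ∈ Q, ψ x = 0 := by
  have hker : (RingHom.ker ψ).IsPrime := RingHom.ker_isPrime ψ
  obtain ⟨P, hP, hPk⟩ := Ideal.exists_minimalPrimes_le (J := RingHom.ker ψ)
    (I := Ideal.span {(⟨a, ha⟩ : T)}) (by
      rw [Ideal.span_singleton_le_iff_mem]
      exact h1)
  rcases hg P hP with h3 | h3
  · exact absurd (hPk h3) h2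
  · exact ⟨P, h3, fun x hx => hPk hx⟩

theorem bound_QQ (h : Nice n e R T D hRT S ρ) {a : K} (ha : a ∈ T) (ha0 : a ≠ 0) {r : R}
    (hg : GoodR h ha ha0 r) : ∃ C : ℝ, 0 ≤ C ∧ ∀ (F : Type) [Field F] [Finite F],
      ct (fun ψ : T →+* F => ψ ⟨a, ha⟩ = 0 ∧ ψ (iRT hRT r) ≠ 0) * (Nat.card F : ℝ) ≤
        C * (Nat.card F : ℝ) ^ e := by
  classical
  have hft := h.Tft
  have h1 : ∀ Q : Ideal T, ∃ C : ℝ, 0 ≤ C ∧ (Q ∈ QQ h ha ha0 → ∀ (F : Type) [Field F] [Finite F],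
      ct (fun ψ : T →+* F => ∀ x ∈ Q, ψ x = 0) * (Nat.card F : ℝ) ≤ C * (Nat.card F : ℝ) ^ e) := by
    intro Q
    by_cases hQ : Q ∈ QQ h ha ha0
    · have hQ' := hQ
      rw [mem_QQ] at hQ'
      obtain ⟨P, hP, hPa, rfl⟩ := hQ'
      obtain ⟨e', he', hd⟩ := cc_dm h hP
      obtain ⟨C, hC, g⟩ := dm_bound hd
      refine ⟨C, hC, fun _ F _ _ => ?_⟩
      have := mul_le_mul_of_nonneg_right (g F) (Nat.cast_nonneg (α := ℝ) (Nat.card F))
      have hpe : (Nat.card F : ℝ) ^ e = (Nat.card F : ℝ) ^ e' * Nat.card F := by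
        rw [← pow_succ, he']
      rw [hpe, ← mul_assoc]
      exact this
    · exact ⟨0, le_rfl, fun hh => absurd hh hQ⟩
  choose C hC g using h1
  refine ⟨∑ Q ∈ QQ h ha ha0, C Q, Finset.sum_nonneg fun Q _ => hC Q, fun F _ _ => ?_⟩
  have hfin : Finite (T →+* F) := hom_fin F
  have h2 := ct_cover (QQ h ha ha0) (fun ψ : T →+* F => ψ ⟨a, ha⟩ = 0 ∧ ψ (iRT hRT r) ≠ 0)
    (fun Q ψ => ∀ x ∈ Q, ψ x = 0) (fun ψ hψ => cover_QQ h ha ha0 hg F ψ hψ.1 hψ.2)
  calc _ ≤ (∑ Q ∈ QQ h ha ha0, ct (fun ψ : T →+* F => ∀ x ∈ Q, ψ x = 0)) * (Nat.card F : ℝ) :=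
        mul_le_mul_of_nonneg_right h2 (Nat.cast_nonneg _)
    _ = ∑ Q ∈ QQ h ha ha0, ct (fun ψ : T →+* F => ∀ x ∈ Q, ψ x = 0) * (Nat.card F : ℝ) := by
        rw [Finset.sum_mul]
    _ ≤ ∑ Q ∈ QQ h ha ha0, C Q * (Nat.card F : ℝ) ^ e := Finset.sum_le_sum fun Q hQ => g Q hQ F
    _ = _ := by rw [Finset.sum_mul]

theorem small_QQ (h : Nice n e R T D hRT S ρ) {a : K} (ha : a ∈ T) (ha0 : a ≠ 0) {r s : R}
    (hs : s ≠ 0) (hg : GoodR h ha ha0 r) : Small (fun F _ _ => (Nat.card F : ℝ) *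
      ct (fun ψ : T →+* F => (ψ ⟨a, ha⟩ = 0 ∧ ψ (iRT hRT r) ≠ 0) ∧ ψ (iRT hRT s) = 0)) e := by
  classical
  have hft := h.Tft
  have h1 : ∀ Q : Ideal T, Q ∈ QQ h ha ha0 → Small (fun F _ _ => (Nat.card F : ℝ) *
      ct (fun ψ : T →+* F => (∀ x ∈ Q, ψ x = 0) ∧ ψ (iRT hRT s) = 0)) e := by
    intro Q hQ
    rw [mem_QQ] at hQ
    obtain ⟨P, hP, hPa, rfl⟩ := hQ
    obtain ⟨e', he', hd⟩ := cc_dm h hP
    obtain ⟨C, N, hC, hN, g⟩ := dm_hyp hd (cc_not_const h hP hs)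
    refine small_of_lt (e' := e') (by omega) ⟨C, N, hC, hN, fun F _ _ hF => ?_⟩
    rw [abs_of_nonneg (mul_nonneg (Nat.cast_nonneg _) (ct_nonneg _)), mul_comm]
    exact g F hF
  refine (Small.sum (QQ h ha ha0) _ h1).mono 1 one_ne_zero fun F _ _ _ => ?_
  have hfin : Finite (T →+* F) := hom_fin F
  rw [abs_of_nonneg (mul_nonneg (Nat.cast_nonneg _) (ct_nonneg _)),
    abs_of_nonneg (Finset.sum_nonneg fun Q _ => mul_nonneg (Nat.cast_nonneg _) (ct_nonneg _)),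
    ← Finset.mul_sum]
  refine mul_le_mul_of_nonneg_left ?_ (Nat.cast_nonneg _)
  exact ct_cover (QQ h ha ha0) _ (fun Q (ψ : T →+* F) => (∀ x ∈ Q, ψ x = 0) ∧ ψ (iRT hRT s) = 0)
    (fun ψ hψ => by
      obtain ⟨Q, hQ, hQ'⟩ := cover_QQ h ha ha0 hg F ψ hψ.1.1 hψ.1.2
      exact ⟨Q, hQ, hQ', hψ.2⟩)

/-- **Localization of nice models.** -/
theorem Nice.exists_loc (h : Nice n e R T D hRT S ρ) {a : K} (ha : a ∈ T) (ha0 : a ≠ 0) :
    ∃ r₀ : R, r₀ ≠ 0 ∧ ∀ s : R, s ≠ 0 → ∀ (r : M) (hr : r ∈ R), r = ((r₀ * s : R) : M) →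
      ∀ (b : K) (hb : b ∈ T), b = algebraMap M K r * a →
      ∃ hRT' : ∀ x ∈ loc R r hr, algebraMap M K x ∈ loc T b hb,
      Nice n e (loc R r hr) (loc T b hb) (loc D b (h.TD hb)) hRT' {P | P ∈ S ∧ P.ord b = 0}
        (ρ + (h.af.fin a (h.TD ha) ha0).toFinset.card) := by
  classical
  obtain ⟨r₀, hr₀, hgood⟩ := exists_goodR h ha ha0
  refine ⟨r₀, hr₀, ?_⟩
  intro s hs r hr hrs b hb hba
  set rR : R := r₀ * s with hrR
  have hg : GoodR h ha ha0 rR := hgood s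
  have hrR0 : rR ≠ 0 := mul_ne_zero hr₀ hs
  have hr0 : r ≠ 0 := by
    rw [hrs]
    exact fun hh => hrR0 (Subtype.ext hh)
  have hrr : (⟨r, hr⟩ : R) = rR := Subtype.ext hrs
  have hrK : algebraMap M K r ≠ 0 := by rwa [Ne, map_eq_zero]
  have hb0 : b ≠ 0 := by
    rw [hba]
    exact mul_ne_zero hrK ha0
  have hordb : ∀ P : Place M K, P.ord b = P.ord a := by
    intro P
    rw [hba, P.ord_mul hrK ha0, ord_c P hr0, zero_add]
  have hRT' : ∀ x ∈ loc R r hr, algebraMap M K x ∈ loc T b hb := by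
    rintro x ⟨m, hm⟩
    refine ⟨m, ?_⟩
    rw [hba, mul_pow, mul_right_comm, ← map_pow, ← map_mul]
    exact T.mul_mem (hRT _ hm) (T.pow_mem ha m)
  have hbT : (⟨b, hb⟩ : T) = iRT hRT rR * ⟨a, ha⟩ := by
    apply Subtype.ext
    show b = algebraMap M K rR * a
    rw [hba, hrs]
  refine ⟨hRT', ?_⟩
  have hRft := h.Rft
  have hTft := h.Tft
  have hRft' := loc_ft h.Rft hr hr0
  have hTft' := loc_ft h.Tft hb hb0
  -- the compatibility of the homomorphisms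
  have hcomp : (iRT hRT').comp (locI R r hr) = (locI T b hb).comp (iRT hRT) := by
    ext x
    rfl
  refine ⟨hRft', hTft', ?_, ?_, h.af.loc (h.TD hb) hb0, ?_, ?_, ?_, ?_, ?_⟩
  · rintro x ⟨m, hm⟩
    exact ⟨m, h.TD hm⟩
  · rintro x ⟨m, hm⟩
    obtain ⟨s', hs', hs0', hx⟩ := h.DT _ hm
    refine ⟨s', le_loc hr hs', hs0', m, ?_⟩
    rw [mul_left_comm]
    exact hx
  · rintro P ⟨hP, hPb⟩ h'
    obtain ⟨e', he', hd⟩ := h.dim P hP (regT h hP)
    exact ⟨e', he', dm_loc hb hb0 (regT h hP) h' hPb hd⟩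
  · have h1 := h.af.rk_loc (h.TD hb) hb0
    rw [h1, h.rk, Nat.cast_add]
    congr 3
    ext P
    rw [Set.Finite.mem_toFinset, Set.Finite.mem_toFinset]
    show (P ∈ S ∧ P.ord b ≠ 0) ↔ (P ∈ S ∧ P.ord a ≠ 0)
    rw [hordb]
  · -- n4
    intro r' hr'
    obtain ⟨m, hm⟩ := r'.2
    let s₁ : R := ⟨_, hm⟩
    have hs₁ : s₁ ≠ 0 := by
      intro hh
      have h2 : r ^ m * (r' : M) = 0 := congrArg Subtype.val hh
      rcases mul_eq_zero.1 h2 with h3 | h3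
      · exact pow_ne_zero m hr0 h3
      · exact hr' (Subtype.ext h3)
    have h4a := h.n4 (rR * s₁) (mul_ne_zero hrR0 hs₁)
    have h4b := (h.n4 rR hrR0).neg
    have h4c := (small_QQ h ha ha0 hs₁ hg).asy
    have h4 := (h4a.add h4b).add h4c
    rw [show (0 : ℝ) + -0 + 0 = 0 by ring] at h4
    refine h4.congr 1 one_ne_zero fun F _ _ _ => ?_
    have hfinR : Finite (R →+* F) := hom_fin F
    have hfinT : Finite (T →+* F) := hom_fin F
    -- the points over `R`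
    have e1 : ct (fun φ : loc R r hr →+* F => φ r' = 0) =
        ct (fun φ : R →+* F => φ (rR * s₁) = 0) - ct (fun φ : R →+* F => φ rR = 0) := by
      obtain ⟨ε, hε⟩ := exists_locEquiv hr hr0 F
      have a1 : ct (fun φ : loc R r hr →+* F => φ r' = 0) =
          ct (fun φ : R →+* F => φ (rR * s₁) = 0 ∧ ¬ φ rR = 0) := by
        unfold ct
        refine Nat.cast_inj.2 (Nat.card_congr ?_)
        refine (ε.subtypeEquiv (q := fun z => z.1 (rR * s₁) = 0) fun φ => ?_).trans ?_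
        · rw [hε]
          have a2 : (φ.comp (locI R r hr)) (rR * s₁) = φ (locI R r hr ⟨r, hr⟩) ^ (m + 1) * φ r' := by
            rw [RingHom.comp_apply, ← map_pow, ← map_mul]
            congr 1
            apply Subtype.ext
            show (rR : M) * (r ^ m * (r' : M)) = r ^ (m + 1) * (r' : M)
            rw [← hrs]
            ring
          rw [a2, mul_eq_zero, or_iff_right]
          exact pow_ne_zero _ ((loc_unit hr hr0).map φ).ne_zero
        · refine (Equiv.subtypeSubtypeEquivSubtypeInter (fun φ : R →+* F => φ ⟨r, hr⟩ ≠ 0)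
            (fun φ => φ (rR * s₁) = 0)).trans (Equiv.subtypeEquivRight fun φ => ?_)
          rw [hrr]
          exact and_comm
      rw [a1, ct_split (fun φ : R →+* F => φ (rR * s₁) = 0) (fun φ => φ rR = 0)]
      have a3 : ct (fun φ : R →+* F => φ (rR * s₁) = 0 ∧ φ rR = 0) = ct (fun φ : R →+* F => φ rR = 0) :=
        ct_congr fun φ => ⟨fun hh => hh.2, fun hh => ⟨by rw [map_mul, hh, zero_mul], hh⟩⟩
      rw [a3]
      ring
    have e2 : ct (fun ψ : loc T b hb →+* F => ψ (iRT hRT' r') = 0) =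
        ct (fun ψ : T →+* F => ψ (iRT hRT (rR * s₁)) = 0) - ct (fun ψ : T →+* F => ψ (iRT hRT rR) = 0) -
          ct (fun ψ : T →+* F => (ψ ⟨a, ha⟩ = 0 ∧ ψ (iRT hRT rR) ≠ 0) ∧ ψ (iRT hRT s₁) = 0) := by
      obtain ⟨ε, hε⟩ := exists_locEquiv hb hb0 F
      have a1 : ct (fun ψ : loc T b hb →+* F => ψ (iRT hRT' r') = 0) =
          ct (fun ψ : T →+* F => (ψ (iRT hRT (rR * s₁)) = 0 ∧ ¬ ψ (iRT hRT rR) = 0) ∧
            ¬ ψ ⟨a, ha⟩ = 0) := by
        unfold ct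
        refine Nat.cast_inj.2 (Nat.card_congr ?_)
        refine (ε.subtypeEquiv (q := fun z => z.1 (iRT hRT (rR * s₁)) = 0) fun ψ => ?_).trans ?_
        · rw [hε]
          have a2 : (ψ.comp (locI T b hb)) (iRT hRT (rR * s₁)) =
              (ψ.comp (locI T b hb)) (iRT hRT rR) ^ (m + 1) * ψ (iRT hRT' r') := by
            rw [RingHom.comp_apply, RingHom.comp_apply, ← map_pow, ← map_mul]
            congr 1
            apply Subtype.ext
            show algebraMap M K ((rR : M) * (r ^ m * (r' : M))) =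
              (algebraMap M K (rR : M)) ^ (m + 1) * algebraMap M K (r' : M)
            rw [← map_pow, ← map_mul, ← hrs]
            congr 1
            ring
          have a4 : (ψ.comp (locI T b hb)) (iRT hRT rR) ≠ 0 := by
            intro h0
            apply ((loc_unit hb hb0).map ψ).ne_zero
            show (ψ.comp (locI T b hb)) ⟨b, hb⟩ = 0
            rw [hbT, map_mul, h0, zero_mul]
          rw [a2, mul_eq_zero, or_iff_right]
          exact pow_ne_zero _ a4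
        · refine (Equiv.subtypeSubtypeEquivSubtypeInter (fun ψ : T →+* F => ψ ⟨b, hb⟩ ≠ 0)
            (fun ψ => ψ (iRT hRT (rR * s₁)) = 0)).trans (Equiv.subtypeEquivRight fun ψ => ?_)
          rw [hbT, map_mul, mul_ne_zero_iff]
          tauto
      have a5 := ct_split (fun ψ : T →+* F => ψ (iRT hRT (rR * s₁)) = 0 ∧ ¬ ψ (iRT hRT rR) = 0)
        (fun ψ => ψ ⟨a, ha⟩ = 0)
      have a6 := ct_split (fun ψ : T →+* F => ψ (iRT hRT (rR * s₁)) = 0) (fun ψ => ψ (iRT hRT rR) = 0)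
      have a3 : ct (fun ψ : T →+* F => ψ (iRT hRT (rR * s₁)) = 0 ∧ ψ (iRT hRT rR) = 0) =
          ct (fun ψ : T →+* F => ψ (iRT hRT rR) = 0) :=
        ct_congr fun ψ => ⟨fun hh => hh.2, fun hh => ⟨by rw [map_mul, map_mul, hh, zero_mul], hh⟩⟩
      have a7 : ct (fun ψ : T →+* F => (ψ (iRT hRT (rR * s₁)) = 0 ∧ ¬ ψ (iRT hRT rR) = 0) ∧
          ψ ⟨a, ha⟩ = 0) =
          ct (fun ψ : T →+* F => (ψ ⟨a, ha⟩ = 0 ∧ ψ (iRT hRT rR) ≠ 0) ∧ ψ (iRT hRT s₁) = 0) := by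
        refine ct_congr fun ψ => ?_
        rw [map_mul, map_mul, mul_eq_zero]
        tauto
      rw [a1]
      rw [a3] at a6
      rw [a7] at a5
      linarith
    rw [e1, e2]
    ring
  · -- n5
    have h5a := h.n5
    have h5b := (h.n4 rR hrR0).neg
    have h5c := asy_QQ h ha ha0 hrR0 hg
    have h5 := (h5a.add h5b).add h5c
    rw [show (ρ : ℝ) + -0 + ((h.af.fin a (h.TD ha) ha0).toFinset.card : ℝ) =
      ((ρ + (h.af.fin a (h.TD ha) ha0).toFinset.card : ℕ) : ℝ) by push_cast; ring] at h5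
    refine h5.congr 1 one_ne_zero fun F _ _ _ => ?_
    have hfinR : Finite (R →+* F) := hom_fin F
    have hfinT : Finite (T →+* F) := hom_fin F
    have e1 : ct (fun _ : loc R r hr →+* F => True) =
        ct (fun _ : R →+* F => True) - ct (fun φ : R →+* F => φ rR = 0) := by
      obtain ⟨ε, hε⟩ := exists_locEquiv hr hr0 F
      have a1 : ct (fun _ : loc R r hr →+* F => True) = ct (fun φ : R →+* F => True ∧ ¬ φ rR = 0) := by
        unfold ct
        refine Nat.cast_inj.2 (Nat.card_congr ?_)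
        refine (Equiv.subtypeUnivEquiv fun _ => trivial).trans (ε.trans
          (Equiv.subtypeEquivRight fun φ => ?_))
        rw [hrr]
        tauto
      have a2 := ct_split (fun _ : R →+* F => True) (fun φ => φ rR = 0)
      have a3 : ct (fun φ : R →+* F => True ∧ φ rR = 0) = ct (fun φ : R →+* F => φ rR = 0) :=
        ct_congr fun φ => by tauto
      rw [a1]
      rw [a3] at a2
      linarith
    have e2 : ct (fun _ : loc T b hb →+* F => True) =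
        ct (fun _ : T →+* F => True) - ct (fun ψ : T →+* F => ψ (iRT hRT rR) = 0) -
          ct (fun ψ : T →+* F => ψ ⟨a, ha⟩ = 0 ∧ ψ (iRT hRT rR) ≠ 0) := by
      obtain ⟨ε, hε⟩ := exists_locEquiv hb hb0 F
      have a1 : ct (fun _ : loc T b hb →+* F => True) =
          ct (fun ψ : T →+* F => (True ∧ ¬ ψ (iRT hRT rR) = 0) ∧ ¬ ψ ⟨a, ha⟩ = 0) := by
        unfold ct
        refine Nat.cast_inj.2 (Nat.card_congr ?_)
        refine (Equiv.subtypeUnivEquiv fun _ => trivial).trans (ε.trans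
          (Equiv.subtypeEquivRight fun ψ => ?_))
        rw [hbT, map_mul, mul_ne_zero_iff]
        tauto
      have a2 := ct_split (fun _ : T →+* F => True) (fun ψ => ψ (iRT hRT rR) = 0)
      have a3 : ct (fun ψ : T →+* F => True ∧ ψ (iRT hRT rR) = 0) =
          ct (fun ψ : T →+* F => ψ (iRT hRT rR) = 0) := ct_congr fun ψ => by tauto
      have a4 := ct_split (fun ψ : T →+* F => True ∧ ¬ ψ (iRT hRT rR) = 0) (fun ψ => ψ ⟨a, ha⟩ = 0)
      have a5 : ct (fun ψ : T →+* F => (True ∧ ¬ ψ (iRT hRT rR) = 0) ∧ ψ ⟨a, ha⟩ = 0) =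
          ct (fun ψ : T →+* F => ψ ⟨a, ha⟩ = 0 ∧ ψ (iRT hRT rR) ≠ 0) := ct_congr fun ψ => by tauto
      rw [a1]
      rw [a3] at a2
      rw [a5] at a4
      linarith
    rw [e1, e2]
    ring
  · -- n6
    obtain ⟨C, N, hC, hN, g⟩ := h.n6
    obtain ⟨C', hC', g'⟩ := bound_QQ h ha ha0 hg
    refine ⟨C + C', N, add_nonneg hC hC', hN, fun F _ _ hF Φ => ?_⟩
    have hfinR : Finite (R →+* F) := hom_fin F
    have hfinT : Finite (T →+* F) := hom_fin F
    obtain ⟨εR, hεR⟩ := exists_locEquiv hr hr0 F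
    obtain ⟨εT, hεT⟩ := exists_locEquiv hb hb0 F
    let Φ' : (R →+* F) → Prop := fun φ => ∃ hφ : φ ⟨r, hr⟩ ≠ 0, Φ (εR.symm ⟨φ, hφ⟩)
    have e1 : ct Φ = ct Φ' := by
      unfold ct
      refine Nat.cast_inj.2 (Nat.card_congr ?_)
      refine (εR.subtypeEquiv (q := fun z => Φ (εR.symm z)) fun φ => by
        rw [Equiv.symm_apply_apply]).trans ?_
      exact { toFun := fun z => ⟨z.1.1, z.1.2, z.2⟩
              invFun := fun z => ⟨⟨z.1, z.2.choose⟩, z.2.choose_spec⟩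
              left_inv := fun z => rfl
              right_inv := fun z => rfl }
    have e2 : ct (fun ψ : loc T b hb →+* F => Φ (ψ.comp (iRT hRT'))) =
        ct (fun ψ : T →+* F => Φ' (ψ.comp (iRT hRT)) ∧ ¬ ψ ⟨a, ha⟩ = 0) := by
      unfold ct
      refine Nat.cast_inj.2 (Nat.card_congr ?_)
      refine (εT.subtypeEquiv (q := fun z => Φ' (z.1.comp (iRT hRT))) fun ψ => ?_).trans ?_
      · rw [hεT, RingHom.comp_assoc, ← hcomp, ← RingHom.comp_assoc]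
        have a1 : ((ψ.comp (iRT hRT')).comp (locI R r hr)) = (εR (ψ.comp (iRT hRT'))).1 :=
          (hεR _).symm
        rw [a1]
        constructor
        · intro hh
          refine ⟨(εR (ψ.comp (iRT hRT'))).2, ?_⟩
          show Φ (εR.symm (εR (ψ.comp (iRT hRT'))))
          rw [Equiv.symm_apply_apply]
          exact hh
        · rintro ⟨hh, hh'⟩
          have a2 : Φ (εR.symm (εR (ψ.comp (iRT hRT')))) := hh'
          rwa [Equiv.symm_apply_apply] at a2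
      · refine (Equiv.subtypeSubtypeEquivSubtypeInter (fun ψ : T →+* F => ψ ⟨b, hb⟩ ≠ 0)
            (fun ψ => Φ' (ψ.comp (iRT hRT)))).trans (Equiv.subtypeEquivRight fun ψ => ?_)
        rw [hbT, map_mul, mul_ne_zero_iff]
        constructor
        · rintro ⟨⟨_, h2⟩, h3⟩
          exact ⟨h3, h2⟩
        · rintro ⟨h3, h2⟩
          refine ⟨⟨?_, h2⟩, h3⟩
          obtain ⟨h4, -⟩ := h3
          rw [hrr] at h4
          exact h4
    have a5 := ct_split (fun ψ : T →+* F => Φ' (ψ.comp (iRT hRT))) (fun ψ => ψ ⟨a, ha⟩ = 0)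
    have a6 : ct (fun ψ : T →+* F => Φ' (ψ.comp (iRT hRT)) ∧ ψ ⟨a, ha⟩ = 0) ≤
        ct (fun ψ : T →+* F => ψ ⟨a, ha⟩ = 0 ∧ ψ (iRT hRT rR) ≠ 0) := by
      refine ct_mono fun ψ hψ => ⟨hψ.2, ?_⟩
      obtain ⟨⟨h4, -⟩, -⟩ := hψ
      rw [hrr] at h4
      exact h4
    have a7 := g F hF Φ'
    have a8 := g' F
    rw [e1, e2]
    have a9 : (0 : ℝ) ≤ Nat.card F := Nat.cast_nonneg _
    have a10 := ct_nonneg (fun ψ : T →+* F => Φ' (ψ.comp (iRT hRT)) ∧ ψ ⟨a, ha⟩ = 0)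
    have a11 : |(Nat.card F : ℝ) ^ n * ct Φ' -
        ct (fun ψ : T →+* F => Φ' (ψ.comp (iRT hRT)) ∧ ¬ ψ ⟨a, ha⟩ = 0)| ≤
        |(Nat.card F : ℝ) ^ n * ct Φ' - ct (fun ψ : T →+* F => Φ' (ψ.comp (iRT hRT)))| +
          ct (fun ψ : T →+* F => ψ ⟨a, ha⟩ = 0 ∧ ψ (iRT hRT rR) ≠ 0) := by
      have a12 : (Nat.card F : ℝ) ^ n * ct Φ' -
        ct (fun ψ : T →+* F => Φ' (ψ.comp (iRT hRT)) ∧ ¬ ψ ⟨a, ha⟩ = 0) =
        ((Nat.card F : ℝ) ^ n * ct Φ' - ct (fun ψ : T →+* F => Φ' (ψ.comp (iRT hRT)))) +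
          ct (fun ψ : T →+* F => Φ' (ψ.comp (iRT hRT)) ∧ ψ ⟨a, ha⟩ = 0) := by
        rw [a5]
        ring
      rw [a12]
      refine (abs_add_le _ _).trans (add_le_add le_rfl ?_)
      rw [abs_of_nonneg a10]
      exact a6
    calc _ ≤ (|(Nat.card F : ℝ) ^ n * ct Φ' - ct (fun ψ : T →+* F => Φ' (ψ.comp (iRT hRT)))| +
          ct (fun ψ : T →+* F => ψ ⟨a, ha⟩ = 0 ∧ ψ (iRT hRT rR) ≠ 0)) * (Nat.card F : ℝ) :=
          mul_le_mul_of_nonneg_right a11 a9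
      _ ≤ (C + C') * (Nat.card F : ℝ) ^ e := by
          rw [add_mul, add_mul]
          exact add_le_add a7 a8

end

end Pool.Agent.T6.H77.NB
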