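import Pool.Agent.T6.H77.NB.Ufd

/-!
# Dimensions of the hypersurfaces of affine spaces
-/

set_option autoImplicit false
set_option linter.unusedSectionVars false

namespace Pool.Agent.T6.H77.NB

open FF

section
variable {M : Type} [Field M] {n : ℕ}

/-- a prime of a polynomial ring over a field involves one of the variables -/
theorem exists_deg {π : MvPolynomial (Fin n) M} (hπ : Prime π) :
    ∃ i, MvPolynomial.degreeOf i π ≠ 0 := by
  by_contra hc
  push Not at hc
  have h1 : π.totalDegree = 0 := by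
    rw [MvPolynomial.totalDegree_eq_zero_iff]
    intro m hm x
    have := MvPolynomial.monomial_le_degreeOf x hm
    rw [hc x] at this
    omega
  rw [MvPolynomial.totalDegree_eq_zero_iff_eq_C] at h1
  apply hπ.not_isUnit
  rw [MvPolynomial.isUnit_iff_eq_C_of_isReduced]
  refine ⟨_, ?_, h1⟩
  rw [isUnit_iff_ne_zero]
  intro h0
  rw [h0, map_zero] at h1
  exact hπ.ne_zero h1

theorem ind_mod {π : MvPolynomial (Fin n) M} {i : Fin n} (hi : MvPolynomial.degreeOf i π ≠ 0) :
    AlgebraicIndependent M (fun j : {j : Fin n // j ≠ i} =>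
      Ideal.Quotient.mk (Ideal.span {π}) (MvPolynomial.X j.1)) := by
  rw [algebraicIndependent_iff]
  intro p hp
  by_contra hp0
  have h1 : MvPolynomial.aeval (fun j : {j : Fin n // j ≠ i} =>
      Ideal.Quotient.mk (Ideal.span {π}) (MvPolynomial.X j.1)) p =
        Ideal.Quotient.mkₐ M (Ideal.span {π}) (MvPolynomial.rename (Subtype.val) p) := by
    rw [← AlgHom.comp_apply]
    congr 1
    apply MvPolynomial.algHom_ext
    intro j
    rw [MvPolynomial.aeval_X, AlgHom.comp_apply, MvPolynomial.rename_X]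
    rfl
  rw [h1] at hp
  have h2 : π ∣ MvPolynomial.rename Subtype.val p := by
    rw [← Ideal.mem_span_singleton]
    exact Ideal.Quotient.eq_zero_iff_mem.1 hp
  obtain ⟨g, hg⟩ := h2
  have h3 : MvPolynomial.rename (Subtype.val : {j : Fin n // j ≠ i} → Fin n) p ≠ 0 := by
    intro h0
    apply hp0
    apply MvPolynomial.rename_injective _ (Subtype.val_injective (p := fun j : Fin n => j ≠ i))
    rw [h0, map_zero]
  have hπ0 : π ≠ 0 := by
    rintro rfl
    rw [zero_mul] at hg
    exact h3 hg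
  have hg0 : g ≠ 0 := by
    rintro rfl
    rw [mul_zero] at hg
    exact h3 hg
  have h4 : MvPolynomial.degreeOf i (MvPolynomial.rename (Subtype.val : {j : Fin n // j ≠ i} → Fin n) p)
      = 0 := by
    rw [MvPolynomial.degreeOf_eq_sup, ← Nat.le_zero, Finset.sup_le_iff]
    intro d hd
    rw [MvPolynomial.mem_support_iff] at hd
    obtain ⟨u, hu, -⟩ := MvPolynomial.coeff_rename_ne_zero _ _ _ hd
    rw [← hu, Finsupp.mapDomain_of_notMem_range]
    rintro ⟨j, hj⟩
    exact j.2 hj
  rw [hg, MvPolynomial.degreeOf_mul_eq hπ0 hg0] at h4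
  omega

theorem trdeg_mod {π : MvPolynomial (Fin n) M} (hπ : Prime π) :
    ∃ m, m + 1 = n ∧ Algebra.trdeg M (MvPolynomial (Fin n) M ⧸ Ideal.span {π}) = m := by
  obtain ⟨i, hi⟩ := exists_deg hπ
  have hp : (Ideal.span {π}).IsPrime := (Ideal.span_singleton_prime hπ.ne_zero).2 hπ
  have : IsDomain (MvPolynomial (Fin n) M ⧸ Ideal.span {π}) := Ideal.Quotient.isDomain _
  have h0 : Algebra.trdeg M (MvPolynomial (Fin n) M) = (n : ℕ) := by
    rw [MvPolynomial.trdeg_of_isDomain]
    simp
  have h1 : Algebra.trdeg M (MvPolynomial (Fin n) M ⧸ Ideal.span {π}) ≤ (n : ℕ) := by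
    rw [← h0]
    exact trdeg_le_of_surjective (Ideal.Quotient.mkₐ M (Ideal.span {π})) Ideal.Quotient.mk_surjective
  obtain ⟨m, hm⟩ := Cardinal.lt_aleph0.1 (lt_of_le_of_lt h1 (Cardinal.natCast_lt_aleph0))
  refine ⟨m, ?_, hm⟩
  have h2 : m < n := trdeg_lt' h0 (algebraMap M (MvPolynomial (Fin n) M ⧸ Ideal.span {π})).injective
    (Ideal.Quotient.mkₐ M (Ideal.span {π})) Ideal.Quotient.mk_surjective (u := π) hπ.ne_zero
    (Ideal.Quotient.eq_zero_iff_mem.2 (Ideal.mem_span_singleton_self π)) hm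
  have h3 := (ind_mod hi).cardinalMk_le_trdeg
  rw [hm, Cardinal.mk_fintype] at h3
  have h4 : Fintype.card {j : Fin n // j ≠ i} = n - 1 := by
    rw [Fintype.card_subtype_compl, Fintype.card_fin, Fintype.card_subtype_eq]
  rw [h4] at h3
  have h5 : n - 1 ≤ m := by exact_mod_cast h3
  omega

theorem frac_aux {κ : Type} [Field κ] (x y a b : κ) (hb : b ≠ 0) :
    x * (y * b) * (a / b) - y * (x * a) = 0 := by
  field_simp
  ring

variable [CharZero M]

theorem dim_poly {K : Type} [Field K] [Algebra M K] {d : ℕ} (hd : Algebra.trdeg ℚ M = d)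
    [Algebra (MvPolynomial (Fin n) M) K] [IsFractionRing (MvPolynomial (Fin n) M) K]
    (hc : ∀ c : M, algebraMap (MvPolynomial (Fin n) M) K (MvPolynomial.C c) = algebraMap M K c)
    (R : Subring M) (T : Subring K) (hRT : ∀ r ∈ R, algebraMap M K r ∈ T)
    (hT1 : ∀ t ∈ T, ∃ b : MvPolynomial (Fin n) M, algebraMap _ K b = t)
    (hT2 : ∀ b : MvPolynomial (Fin n) M, ∃ r ∈ R, r ≠ 0 ∧
      algebraMap M K r * algebraMap (MvPolynomial (Fin n) M) K b ∈ T)
    {π : MvPolynomial (Fin n) M} (hπ : Prime π) {P : Place M K} (hP : IsPl M K π P)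
    (h : ∀ a : T, P.Reg (T.subtype a)) :
    ∃ e', e' + 1 = d + n ∧ Dm T (cen P T.subtype h) e' := by
  classical
  obtain ⟨m, hm, htr⟩ := trdeg_mod hπ
  have hp : (Ideal.span {π}).IsPrime := (Ideal.span_singleton_prime hπ.ne_zero).2 hπ
  have hdom : IsDomain (MvPolynomial (Fin n) M ⧸ Ideal.span {π}) := Ideal.Quotient.isDomain _
  let B := MvPolynomial (Fin n) M
  let C := MvPolynomial (Fin n) M ⧸ Ideal.span {π}
  let κ := FractionRing C
  have hBi : Function.Injective (algebraMap B K) := IsFractionRing.injective B K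
  have hCi : Function.Injective (algebraMap C κ) := IsFractionRing.injective C κ
  have hcz : CharZero κ := charZero_of_injective_algebraMap (algebraMap M κ).injective
  -- the transcendence degree
  have h1 : Algebra.trdeg M κ = m := by
    have hal : Algebra.IsAlgebraic C κ := IsLocalization.isAlgebraic (R := C) (S := κ) (nonZeroDivisors C)
    have h2 := trdeg_add_eq M C (A := κ)
    rw [trdeg_eq_zero (R := C) (A := κ), add_zero] at h2
    rw [← h2]
    exact htr
  have h3 : Algebra.trdeg ℚ κ = (d + m : ℕ) := by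
    have h2 := trdeg_add_eq ℚ M (A := κ)
    rw [hd, h1] at h2
    rw [← h2]
    push_cast
    rfl
  -- the homomorphism
  choose bT hbT using hT1
  let φ : T →+* κ :=
    { toFun := fun t => algebraMap C κ (Ideal.Quotient.mk _ (bT t.1 t.2))
      map_one' := by
        have : bT (1 : T).1 (1 : T).2 = 1 := hBi (by rw [hbT, map_one]; rfl)
        rw [this, map_one, map_one]
      map_mul' := fun x y => by
        have : bT (x * y : T).1 (x * y : T).2 = bT x.1 x.2 * bT y.1 y.2 :=
          hBi (by rw [map_mul, hbT, hbT, hbT]; rfl)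
        rw [this, map_mul, map_mul]
      map_zero' := by
        have : bT (0 : T).1 (0 : T).2 = 0 := hBi (by rw [hbT, map_zero]; rfl)
        rw [this, map_zero, map_zero]
      map_add' := fun x y => by
        have : bT (x + y : T).1 (x + y : T).2 = bT x.1 x.2 + bT y.1 y.2 :=
          hBi (by rw [map_add, hbT, hbT, hbT]; rfl)
        rw [this, map_add, map_add] }
  have hφ : ∀ (t : T) (b : B), algebraMap B K b = t → φ t = algebraMap C κ (Ideal.Quotient.mk _ b) := by
    intro t b hb
    have : bT t.1 t.2 = b := hBi (by rw [hbT, hb])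
    show algebraMap C κ (Ideal.Quotient.mk _ (bT t.1 t.2)) = _
    rw [this]
  have hker : RingHom.ker φ = cen P T.subtype h := by
    ext t
    rw [RingHom.mem_ker, mem_cen, hφ t (bT t.1 t.2) (hbT _ _), map_eq_zero_iff _ hCi,
      Ideal.Quotient.eq_zero_iff_mem, Ideal.mem_span_singleton]
    have ht : T.subtype t = algebraMap B K (bT t.1 t.2) := (hbT t.1 t.2).symm
    rw [ht, map_eq_zero_iff _ hBi]
    by_cases h0 : bT t.1 t.2 = 0
    · rw [h0]
      simp
    · rw [hP.ord hπ h0]
      simp only [h0, false_or]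
      rw [← multiplicity_ne_zero]
      omega
  refine ⟨d + m, by omega, ?_⟩
  rw [← hker]
  refine dm_of φ h3 fun z => ?_
  obtain ⟨a, b, hb, rfl⟩ := IsFractionRing.div_surjective (A := C) z
  obtain ⟨a, rfl⟩ := Ideal.Quotient.mk_surjective a
  obtain ⟨b, rfl⟩ := Ideal.Quotient.mk_surjective b
  have hb0 := nonZeroDivisors.ne_zero hb
  obtain ⟨r, hr, hr0, hra⟩ := hT2 a
  obtain ⟨s, hs, hs0, hsb⟩ := hT2 b
  have hconst : ∀ c : M, c ≠ 0 → (Ideal.Quotient.mk (Ideal.span {π}) (MvPolynomial.C c) : C) ≠ 0 := by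
    intro c hc0 h0
    have h5 : (algebraMap M C) c = 0 := h0
    rw [map_eq_zero] at h5
    exact hc0 h5
  have e1 := T.mul_mem (hRT s hs) hra
  have e2 := T.mul_mem (hRT r hr) hsb
  have hra' : φ ⟨_, e1⟩ = algebraMap C κ (Ideal.Quotient.mk _
      (MvPolynomial.C s * (MvPolynomial.C r * a))) := hφ _ _ (by rw [map_mul, map_mul, hc, hc])
  have hsb' : φ ⟨_, e2⟩ = algebraMap C κ (Ideal.Quotient.mk _
      (MvPolynomial.C r * (MvPolynomial.C s * b))) := hφ _ _ (by rw [map_mul, map_mul, hc, hc])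
  have hne : φ ⟨_, e2⟩ ≠ 0 := by
    rw [hsb', Ne, map_eq_zero_iff _ hCi, map_mul, map_mul]
    exact mul_ne_zero (hconst r hr0) (mul_ne_zero (hconst s hs0) hb0)
  refine ⟨Polynomial.C (⟨_, e2⟩ : T) * Polynomial.X - Polynomial.C (⟨_, e1⟩ : T), ?_, ?_⟩
  · intro h0
    have h6 := congrArg (fun p => Polynomial.coeff p 1) h0
    simp only [Polynomial.map_sub, Polynomial.map_mul, Polynomial.map_C, Polynomial.map_X,
      Polynomial.coeff_sub, Polynomial.coeff_C_mul, Polynomial.coeff_X_one, mul_one,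
      Polynomial.coeff_C_succ, sub_zero, Polynomial.coeff_zero] at h6
    exact hne h6
  · rw [Polynomial.eval₂_sub, Polynomial.eval₂_mul, Polynomial.eval₂_C, Polynomial.eval₂_X,
      Polynomial.eval₂_C, hra', hsb']
    have hb1 : algebraMap C κ (Ideal.Quotient.mk (Ideal.span {π}) b) ≠ 0 := by
      rw [Ne, map_eq_zero_iff _ hCi]
      exact hb0
    simp only [map_mul]
    exact frac_aux _ _ _ _ hb1

end

end Pool.Agent.T6.H77.NB
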