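import Pool.Agent.T6.H77.NB.Nice
import Pool.Agent.T6.H77.NB.Poly

/-!
# Affine spaces are nice
-/

set_option autoImplicit false
set_option linter.unusedSectionVars false
set_option linter.style.haveILetI false

namespace Pool.Agent.T6.H77.NB

open FF
open Pool.Agent.R410.NG (Ff Asy)

theorem ft_mvpoly {B C : Type} [CommRing B] [CommRing C] {n : ℕ} (hB : Algebra.FiniteType ℤ B)
    (θ : B →+* C) (c : Fin n → C) (h : ∀ x : C, ∃ p : MvPolynomial (Fin n) B, x = p.eval₂ θ c) :
    Algebra.FiniteType ℤ C := by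
  classical
  obtain ⟨G, hG⟩ := hB.out
  refine ⟨⟨Finset.univ.image c ∪ G.image θ, ?_⟩⟩
  rw [eq_top_iff]
  rintro x -
  have hθ : ∀ b, θ b ∈ Algebra.adjoin ℤ ((Finset.univ.image c ∪ G.image θ : Finset C) : Set C) := by
    intro b
    have hb : b ∈ Algebra.adjoin ℤ (G : Set B) := by rw [hG]; trivial
    induction hb using Algebra.adjoin_induction with
    | mem x hx =>
      apply Algebra.subset_adjoin
      exact Finset.mem_coe.2 (Finset.mem_union_right _ (Finset.mem_image_of_mem _ hx))
    | algebraMap n =>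
      rw [eq_intCast, map_intCast]
      exact intCast_mem _ n
    | add x y _ _ hx hy =>
      rw [map_add]
      exact add_mem hx hy
    | mul x y _ _ hx hy =>
      rw [map_mul]
      exact mul_mem hx hy
  obtain ⟨p, hp⟩ := h x
  rw [hp]
  clear hp x
  induction p using MvPolynomial.induction_on with
  | C a =>
    rw [MvPolynomial.eval₂_C]
    exact hθ a
  | add p q ihp ihq =>
    rw [MvPolynomial.eval₂_add]
    exact add_mem ihp ihq
  | mul_X p i ih =>
    rw [MvPolynomial.eval₂_mul, MvPolynomial.eval₂_X]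
    refine mul_mem ih (Algebra.subset_adjoin ?_)
    exact Finset.mem_coe.2 (Finset.mem_union_left _ (Finset.mem_image_of_mem _ (Finset.mem_univ i)))

/-- the points of the affine space -/
noncomputable def mvEquiv (R : Type) [CommRing R] (n : ℕ) (F : Type) [Field F] :
    (MvPolynomial (Fin n) R →+* F) ≃ (R →+* F) × (Fin n → F) where
  toFun ψ := (ψ.comp MvPolynomial.C, fun i => ψ (MvPolynomial.X i))
  invFun z := MvPolynomial.eval₂Hom z.1 z.2
  left_inv ψ := by
    apply MvPolynomial.ringHom_ext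
    · intro r
      rw [MvPolynomial.eval₂Hom_C]
      rfl
    · intro i
      rw [MvPolynomial.eval₂Hom_X']
  right_inv z := by
    refine Prod.ext ?_ ?_
    · ext r
      show MvPolynomial.eval₂Hom z.1 z.2 (MvPolynomial.C r) = z.1 r
      rw [MvPolynomial.eval₂Hom_C]
    · funext i
      show MvPolynomial.eval₂Hom z.1 z.2 (MvPolynomial.X i) = z.2 i
      rw [MvPolynomial.eval₂Hom_X']

section
variable {M K : Type} [Field M] [Field K] [Algebra M K] {n : ℕ} (w : Fin n → K)

/-- the model of the affine space -/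
noncomputable def polyT (R : Subring M) : Subring K :=
  (MvPolynomial.eval₂Hom ((algebraMap M K).comp R.subtype) w).range

/-- the ring of the polynomials -/
noncomputable def polyD (M : Type) [Field M] [Algebra M K] (w : Fin n → K) : Subring K :=
  (MvPolynomial.eval₂Hom (algebraMap M K) w).range

theorem eval₂_sub (R : Subring M) (p : MvPolynomial (Fin n) R) :
    MvPolynomial.eval₂Hom ((algebraMap M K).comp R.subtype) w p =
      MvPolynomial.eval₂Hom (algebraMap M K) w (MvPolynomial.map R.subtype p) := by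
  rw [MvPolynomial.coe_eval₂Hom, MvPolynomial.coe_eval₂Hom, MvPolynomial.eval₂_map]

theorem clear_den (R : Subring M) (hR : ∀ c : M, ∃ a ∈ R, ∃ b ∈ R, b ≠ 0 ∧ c = a / b)
    (f : MvPolynomial (Fin n) M) : ∃ r : R, r ≠ 0 ∧ ∃ g : MvPolynomial (Fin n) R,
      MvPolynomial.map R.subtype g = MvPolynomial.C (r : M) * f := by
  induction f using MvPolynomial.induction_on with
  | C c =>
    obtain ⟨a, ha, b, hb, hb0, rfl⟩ := hR c
    refine ⟨⟨b, hb⟩, fun hh => hb0 (congrArg Subtype.val hh), MvPolynomial.C ⟨a, ha⟩, ?_⟩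
    rw [MvPolynomial.map_C, ← MvPolynomial.C_mul]
    congr 1
    show a = b * (a / b)
    rw [mul_div_cancel₀ _ hb0]
  | add p q ihp ihq =>
    obtain ⟨r, hr, g, hg⟩ := ihp
    obtain ⟨r', hr', g', hg'⟩ := ihq
    refine ⟨r * r', mul_ne_zero hr hr', MvPolynomial.C r' * g + MvPolynomial.C r * g', ?_⟩
    rw [map_add, map_mul, map_mul, MvPolynomial.map_C, MvPolynomial.map_C, hg, hg']
    show MvPolynomial.C (r' : M) * (MvPolynomial.C (r : M) * p) + MvPolynomial.C (r : M) *
      (MvPolynomial.C (r' : M) * q) = MvPolynomial.C ((r : M) * r') * (p + q)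
    rw [MvPolynomial.C_mul]
    ring
  | mul_X p i ih =>
    obtain ⟨r, hr, g, hg⟩ := ih
    refine ⟨r, hr, g * MvPolynomial.X i, ?_⟩
    rw [map_mul, MvPolynomial.map_X, hg, mul_assoc]

variable [CharZero M]

theorem nice_poly {d : ℕ} (hd : Algebra.trdeg ℚ M = d) (hw : AlgebraicIndependent M w)
    (htop : IntermediateField.adjoin M (Set.range w) = ⊤) (R : Subring M)
    (hRft : Algebra.FiniteType ℤ R) (hR : ∀ c : M, ∃ a ∈ R, ∃ b ∈ R, b ≠ 0 ∧ c = a / b) :
    ∃ (hRT : ∀ r ∈ R, algebraMap M K r ∈ polyT w R) (S : Set (Place M K)),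
      Nice n (d + n) R (polyT w R) (polyD M w) hRT S 0 := by
  classical
  let B := MvPolynomial (Fin n) M
  let ev : B →+* K := MvPolynomial.eval₂Hom (algebraMap M K) w
  have hev : ∀ b : B, ev b = MvPolynomial.aeval w b := fun b => rfl
  let _ : Algebra B K := ev.toAlgebra
  have hinj : Function.Injective (algebraMap B K) := hw
  have hfrac : IsFractionRing B K := by
    have hf : FaithfulSMul B K := (faithfulSMul_iff_algebraMap_injective B K).2 hinj
    refine IsFractionRing.of_field B K fun z => ?_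
    have hz : z ∈ IntermediateField.adjoin M (Set.range w) := by rw [htop]; trivial
    rw [IntermediateField.mem_adjoin_range_iff] at hz
    obtain ⟨r, s, hrs⟩ := hz
    exact ⟨r, s, hrs⟩
  have hc : ∀ c : M, algebraMap B K (MvPolynomial.C c) = algebraMap M K c := fun c =>
    MvPolynomial.eval₂Hom_C _ _ _
  have haf := af_ufd (M := M) (K := K) (B := B) fun c => ⟨MvPolynomial.C c, hc c⟩
  have hRT : ∀ r ∈ R, algebraMap M K r ∈ polyT w R := by
    intro r hr
    refine ⟨MvPolynomial.C ⟨r, hr⟩, ?_⟩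
    rw [MvPolynomial.eval₂Hom_C]
    rfl
  have hTD : polyT w R ≤ polyD M w := by
    rintro _ ⟨p, rfl⟩
    exact ⟨_, (eval₂_sub w R p).symm⟩
  have hDT : ∀ x ∈ polyD M w, ∃ r ∈ R, r ≠ 0 ∧ algebraMap M K r * x ∈ polyT w R := by
    rintro _ ⟨f, rfl⟩
    obtain ⟨r, hr, g, hg⟩ := clear_den R hR f
    refine ⟨r, r.2, fun hh => hr (Subtype.ext hh), g, ?_⟩
    rw [eval₂_sub, hg, map_mul, MvPolynomial.eval₂Hom_C]
  refine ⟨hRT, SP M K B, hRft, ?_, hTD, hDT, haf, ?_, ?_, ?_, ?_, ?_⟩
  · -- finite type
    refine ft_mvpoly hRft (iRT hRT) (fun i => ⟨w i, MvPolynomial.X i, by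
      rw [MvPolynomial.eval₂Hom_X']⟩) ?_
    rintro ⟨_, p, rfl⟩
    refine ⟨p, ?_⟩
    apply Subtype.ext
    show MvPolynomial.eval₂Hom ((algebraMap M K).comp R.subtype) w p =
      (polyT w R).subtype (MvPolynomial.eval₂ _ _ p)
    rw [MvPolynomial.hom_eval₂]
    rfl
  · rintro P ⟨π, hπ, hP⟩ h
    refine dim_poly hd hc R (polyT w R) hRT ?_ ?_ hπ hP h
    · intro t ht
      obtain ⟨b, hb⟩ := hTD ht
      exact ⟨b, hb⟩
    · intro b
      exact hDT _ ⟨b, rfl⟩
  · -- the units
    rw [Nat.cast_zero]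
    apply rr_self
    intro x hx
    have hx0 : ((Additive.toMul x : Kˣ) : K) ≠ 0 := Units.ne_zero _
    have h1 := (haf.unit_iff hx0).2 fun P hP => hx P hP
    obtain ⟨⟨a, ha⟩, ⟨b, hb⟩⟩ := h1
    have hab : a * b = 1 := by
      apply hinj
      rw [map_mul, ha, hb, map_one, mul_inv_cancel₀ hx0]
    have hu : IsUnit a := IsUnit.of_mul_eq_one _ hab
    rw [MvPolynomial.isUnit_iff_eq_C_of_isReduced] at hu
    obtain ⟨c, -, rfl⟩ := hu
    refine (mem_MM (x := Additive.toMul x)).2 ⟨c, ?_⟩
    rw [← hc, ha]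
  all_goals
    have key : ∀ (F : Type) [Field F] [Finite F] (Φ : (R →+* F) → Prop),
        ct (fun ψ : polyT w R →+* F => Φ (ψ.comp (iRT hRT))) = (Nat.card F : ℝ) ^ n * ct Φ := by
      intro F _ _ Φ
      have hi : Function.Injective (MvPolynomial.eval₂Hom ((algebraMap M K).comp R.subtype) w) := by
        intro p q hpq
        rw [eval₂_sub, eval₂_sub] at hpq
        exact MvPolynomial.map_injective _ Subtype.val_injective (hinj hpq)
      let E : MvPolynomial (Fin n) R ≃+* polyT w R :=
        RingEquiv.ofBijective (MvPolynomial.eval₂Hom ((algebraMap M K).comp R.subtype) w).rangeRestrict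
          ⟨fun p q hpq => hi (congrArg Subtype.val hpq), RingHom.rangeRestrict_surjective _⟩
      let ε : (polyT w R →+* F) ≃ (MvPolynomial (Fin n) R →+* F) :=
        { toFun := fun ψ => ψ.comp (E : MvPolynomial (Fin n) R →+* polyT w R)
          invFun := fun ψ => ψ.comp (E.symm : polyT w R →+* MvPolynomial (Fin n) R)
          left_inv := fun ψ => by
            ext x
            show ψ (E (E.symm x)) = ψ x
            rw [E.apply_symm_apply]
          right_inv := fun ψ => by
            refine RingHom.ext fun x => ?_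
            show ψ (E.symm (E x)) = ψ x
            rw [E.symm_apply_apply] }
      have hCi : ∀ r : R, E (MvPolynomial.C r) = iRT hRT r := by
        intro r
        apply Subtype.ext
        show MvPolynomial.eval₂Hom ((algebraMap M K).comp R.subtype) w (MvPolynomial.C r) = _
        rw [MvPolynomial.eval₂Hom_C]
        rfl
      have h1 : Nat.card {ψ : polyT w R →+* F // Φ (ψ.comp (iRT hRT))} =
          Nat.card ({φ : R →+* F // Φ φ} × (Fin n → F)) := by
        refine Nat.card_congr ?_
        refine ((ε.trans (mvEquiv R n F)).subtypeEquiv (q := fun z => Φ z.1) fun ψ => ?_).trans ?_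
        · have h2 : ((ε.trans (mvEquiv R n F)) ψ).1 = ψ.comp (iRT hRT) := by
            ext r
            show ψ (E (MvPolynomial.C r)) = ψ (iRT hRT r)
            rw [hCi]
          rw [h2]
        · exact { toFun := fun z => (⟨z.1.1, z.2⟩, z.1.2)
                  invFun := fun z => ⟨(z.1.1, z.2), z.1.2⟩
                  left_inv := fun z => rfl
                  right_inv := fun z => rfl }
      unfold ct
      rw [h1, Nat.card_prod, Nat.card_fun, Nat.card_fin]
      push_cast
      ring
  · intro r hr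
    refine (Asy.zero _).congr 1 one_ne_zero fun F _ _ _ => ?_
    have h2 := key F (fun φ => φ r = 0)
    change (Nat.card F : ℝ) * ((Nat.card F : ℝ) ^ n * ct (fun φ : R →+* F => φ r = 0) -
      ct (fun ψ : polyT w R →+* F => (ψ.comp (iRT hRT)) r = 0)) = 0
    rw [h2, sub_self, mul_zero]
  · have h3 : ((0 : ℕ) : ℝ) = 0 := Nat.cast_zero
    rw [h3]
    refine (Asy.zero _).congr 1 one_ne_zero fun F _ _ _ => ?_
    have h2 := key F (fun _ => True)
    rw [h2, sub_self, mul_zero]
  · refine ⟨0, 1, le_rfl, one_ne_zero, fun F _ _ _ Φ => ?_⟩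
    rw [key F Φ, sub_self, abs_zero, zero_mul, zero_mul]

end

end Pool.Agent.T6.H77.NB
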