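import Pool.Agent.T6.H77.NB.Mat
import Pool.Agent.T6.H77.NB.NPoly
import Pool.Agent.T6.H77.NB.NLoc2

/-!
# Nice models of the base and of the total space
-/

set_option autoImplicit false
set_option linter.unusedSectionVars false
set_option linter.style.haveILetI false

open Polynomial

namespace Pool.Agent.T6.H77.NB

open FF

section
variable {M K L : Type} [Field M] [Field K] [Field L] [Algebra M K] [Algebra M L] [Algebra K L]
  [IsScalarTower M K L]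

variable {T : Subring K} {t : L} {A : Subring L}

theorem frac_nice {n e ρ : ℕ} {R : Subring M} {T D : Subring K} {hRT : ∀ r ∈ R, algebraMap M K r ∈ T}
    {S : Set (Place M K)} (h : Nice n e R T D hRT S ρ) (z : K) :
    ∃ a ∈ T, ∃ b ∈ T, b ≠ 0 ∧ z = a / b := by
  obtain ⟨a, ha, b, hb, hb0, rfl⟩ := h.af.frac z
  obtain ⟨s1, hs1, hs10, hx⟩ := h.DT a ha
  obtain ⟨s2, hs2, hs20, hy⟩ := h.DT b hb
  have h1 : algebraMap M K s1 ≠ 0 := by rwa [Ne, map_eq_zero]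
  have h2 : algebraMap M K s2 ≠ 0 := by rwa [Ne, map_eq_zero]
  refine ⟨_, T.mul_mem (hRT s2 hs2) hx, _, T.mul_mem (hRT s1 hs1) hy, ?_, ?_⟩
  · exact mul_ne_zero h1 (mul_ne_zero h2 hb0)
  · field_simp

/-- **The models of the base and of the total space.** -/
theorem exists_models (h : Chart T t A) {n n' e e' ρ₁ ρ₂ : ℕ} {R : Subring M} {T₁ D₁ : Subring K}
    {E₁ D₂ : Subring L} {hRT : ∀ r ∈ R, algebraMap M K r ∈ T₁} {hRE : ∀ r ∈ R, algebraMap M L r ∈ E₁}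
    {S₁ : Set (Place M K)} {S₂ : Set (Place M L)} (hK : Nice n e R T₁ D₁ hRT S₁ ρ₁)
    (hL : Nice n' e' R E₁ D₂ hRE S₂ ρ₂) :
    ∃ (g : T[X]) (N : T), g ≠ 0 ∧ N ≠ 0 ∧
      (∀ 𝔭 : Ideal T, 𝔭.IsPrime → N ∉ 𝔭 → ∃ i, g.coeff i ∉ 𝔭) ∧
      ∃ (R' : Subring M) (_ : R ≤ R'),
        (∃ (hRT' : ∀ x ∈ R', algebraMap M K x ∈ loc T (N : K) N.2) (DK : Subring K)
          (SK : Set (Place M K)) (ρK : ℕ), Nice n e R' (loc T (N : K) N.2) DK hRT' SK ρK) ∧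
        (∃ (hRE' : ∀ x ∈ R', algebraMap M L x ∈ loc A ((evT h.TA h.tA g * iRT h.TA N : A) : L)
            (evT h.TA h.tA g * iRT h.TA N : A).2) (DL : Subring L) (SL : Set (Place M L)) (ρL : ℕ),
          Nice n' e' R' (loc A ((evT h.TA h.tA g * iRT h.TA N : A) : L)
            (evT h.TA h.tA g * iRT h.TA N : A).2) DL hRE' SL ρL) := by
  classical
  -- the base
  obtain ⟨a, ha, a₂, ha₂, ha0, ha₂0, hT⟩ := exists_match h.Tft hK.Tft h.Tfrac (frac_nice hK)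
  obtain ⟨α, hα, β, hβ, hα0, hβ0, hE⟩ := exists_match h.Aft hL.Tft h.Afrac (frac_nice hL)
  -- the norm
  obtain ⟨g, hg0, α', hgα⟩ := h.exists_norm (a := ⟨α, hα⟩) fun hh => hα0 (congrArg Subtype.val hh)
  set c : T := g.leadingCoeff with hc
  have hc0 : c ≠ 0 := Polynomial.leadingCoeff_ne_zero.2 hg0
  have hcK : (c : K) ≠ 0 := fun hh => hc0 (Subtype.ext hh)
  have hgA0 : evT h.TA h.tA g ≠ 0 := fun h0 => hg0 (evT_inj h.TA h.tA h.tr (by rw [h0, map_zero]))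
  have hgL0 : ((evT h.TA h.tA g : A) : L) ≠ 0 := fun hh => hgA0 (Subtype.ext hh)
  have hα'0 : ((α' : A) : L) ≠ 0 := by
    intro h0
    apply hgL0
    rw [hgα, Subring.coe_mul, h0, mul_zero]
  have haA : algebraMap K L a ∈ A := h.TA a ha
  have haL0 : algebraMap K L a ≠ 0 := by rwa [Ne, map_eq_zero]
  have hcL0 : algebraMap K L c ≠ 0 := by rwa [Ne, map_eq_zero]
  -- the localization of the base by the leading coefficient
  obtain ⟨k₁, hk₁⟩ : ∃ k : ℕ, a₂ ^ k * (c : K) ∈ T₁ := by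
    have : (c : K) ∈ loc T₁ a₂ ha₂ := by
      rw [← hT]
      exact le_loc ha c.2
    exact this
  have hT2 : loc T (a * c) (T.mul_mem ha c.2) = loc T₁ (a₂ * (a₂ ^ k₁ * c)) (T₁.mul_mem ha₂ hk₁) := by
    refine (loc_mul_eq (X := T₁) (Y := T) (x := a₂) (y := a) ha₂0 ha0 hT.symm (u := a₂ ^ k₁)
      (z := (c : K)) (z' := a₂ ^ k₁ * c) (pow_ne_zero _ ha₂0) hcK ?_ ?_ c.2 hk₁ rfl).symm
    · exact le_loc ha₂ (T₁.pow_mem ha₂ _)
    · rw [← inv_pow]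
      exact Subring.pow_mem _ (inv_mem_loc ha₂ ha₂0) _
  -- the localization of the total space
  set γ : A := α' * (iRT h.TA ⟨a, ha⟩ * iRT h.TA c) with hγ
  have hγL : (γ : L) = (α' : L) * (algebraMap K L a * algebraMap K L c) := rfl
  have hγ0 : (γ : L) ≠ 0 := by
    rw [hγL]
    exact mul_ne_zero hα'0 (mul_ne_zero haL0 hcL0)
  obtain ⟨k₂, hk₂⟩ : ∃ k : ℕ, β ^ k * (γ : L) ∈ E₁ := by
    have : (γ : L) ∈ loc E₁ β hβ := by
      rw [← hE]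
      exact le_loc hα γ.2
    exact this
  have hE2 : loc A (α * γ) (A.mul_mem hα γ.2) = loc E₁ (β * (β ^ k₂ * γ)) (E₁.mul_mem hβ hk₂) := by
    refine (loc_mul_eq (X := E₁) (Y := A) (x := β) (y := α) hβ0 hα0 hE.symm (u := β ^ k₂)
      (z := (γ : L)) (z' := β ^ k₂ * γ) (pow_ne_zero _ hβ0) hγ0 ?_ ?_ γ.2 hk₂ rfl).symm
    · exact le_loc hβ (E₁.pow_mem hβ _)
    · rw [← inv_pow]
      exact Subring.pow_mem _ (inv_mem_loc hβ hβ0) _
  set N₀ : K := a * c with hN₀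
  have hN₀T : N₀ ∈ T := T.mul_mem ha c.2
  have hN₀0 : N₀ ≠ 0 := mul_ne_zero ha0 hcK
  have hN₀L0 : algebraMap K L N₀ ≠ 0 := by rwa [Ne, map_eq_zero]
  have hαγ : α * (γ : L) = ((evT h.TA h.tA g : A) : L) * algebraMap K L N₀ := by
    rw [hγL, hgα, hN₀, map_mul]
    show α * ((α' : L) * (algebraMap K L a * algebraMap K L c)) =
      (α * (α' : L)) * (algebraMap K L a * algebraMap K L c)
    ring
  set b₀ : L := ((evT h.TA h.tA g : A) : L) * algebraMap K L N₀ with hb₀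
  have hb₀A : b₀ ∈ A := A.mul_mem (evT h.TA h.tA g).2 (h.TA _ hN₀T)
  have hb₀0 : b₀ ≠ 0 := mul_ne_zero hgL0 hN₀L0
  set t₁ : K := a₂ * (a₂ ^ k₁ * c) with ht₁
  have ht₁T : t₁ ∈ T₁ := T₁.mul_mem ha₂ hk₁
  have ht₁0 : t₁ ≠ 0 := mul_ne_zero ha₂0 (mul_ne_zero (pow_ne_zero _ ha₂0) hcK)
  set s₁ : L := β * (β ^ k₂ * γ) with hs₁
  have hs₁E : s₁ ∈ E₁ := E₁.mul_mem hβ hk₂
  have hs₁0 : s₁ ≠ 0 := mul_ne_zero hβ0 (mul_ne_zero (pow_ne_zero _ hβ0) hγ0)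
  have hT3 : loc T N₀ hN₀T = loc T₁ t₁ ht₁T := hT2
  have hE3 : loc A b₀ hb₀A = loc E₁ s₁ hs₁E := by
    rw [← hE2]
    congr 1
    exact hαγ.symm
  -- the denominators
  obtain ⟨r₁, hr₁, hnK⟩ := hK.exists_loc ht₁T ht₁0
  obtain ⟨r₂, hr₂, hnL⟩ := hL.exists_loc hs₁E hs₁0
  set r : R := r₁ * r₂ with hr
  have hr0 : r ≠ 0 := mul_ne_zero hr₁ hr₂
  have hrM0 : (r : M) ≠ 0 := fun hh => hr0 (Subtype.ext hh)
  have hrK0 : algebraMap M K r ≠ 0 := by rwa [Ne, map_eq_zero]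
  obtain ⟨k, hk⟩ : ∃ k : ℕ, N₀ ^ k * algebraMap M K r ∈ T := by
    have : algebraMap M K r ∈ loc T N₀ hN₀T := by
      rw [hT3]
      exact le_loc _ (hRT r r.2)
    exact this
  have hN'0 : N₀ ^ k * algebraMap M K r ≠ 0 := mul_ne_zero (pow_ne_zero _ hN₀0) hrK0
  let N : T := ⟨N₀ * (N₀ ^ k * algebraMap M K r), T.mul_mem hN₀T hk⟩
  have hN0 : N ≠ 0 := fun hh => mul_ne_zero hN₀0 hN'0 (congrArg Subtype.val hh)
  -- the equalities of the models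
  have hT4 : loc T (N : K) N.2 = loc T₁ (t₁ * algebraMap M K r) (T₁.mul_mem ht₁T (hRT r r.2)) := by
    refine loc_mul_eq (X := T) (Y := T₁) (x := N₀) (y := t₁) hN₀0 ht₁0 hT3 (u := N₀ ^ k)
      (z := algebraMap M K r) (z' := N₀ ^ k * algebraMap M K r) (pow_ne_zero _ hN₀0) hrK0 ?_ ?_
      (hRT r r.2) hk rfl
    · exact le_loc hN₀T (T.pow_mem hN₀T _)
    · rw [← inv_pow]
      exact Subring.pow_mem _ (inv_mem_loc hN₀T hN₀0) _
  have hNL : ((evT h.TA h.tA g * iRT h.TA N : A) : L) = b₀ * algebraMap K L (N₀ ^ k * algebraMap M K r) := by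
    show ((evT h.TA h.tA g : A) : L) * algebraMap K L (N₀ * (N₀ ^ k * algebraMap M K r)) = _
    rw [map_mul, hb₀, mul_assoc]
  have hMK : ∀ x : M, algebraMap K L (algebraMap M K x) = algebraMap M L x := fun x =>
    (IsScalarTower.algebraMap_apply M K L x).symm
  have hrL0 : algebraMap M L r ≠ 0 := by rwa [Ne, map_eq_zero]
  have hE4 : loc A ((evT h.TA h.tA g * iRT h.TA N : A) : L) (evT h.TA h.tA g * iRT h.TA N : A).2 =
      loc E₁ (s₁ * algebraMap M L r) (E₁.mul_mem hs₁E (hRE r r.2)) := by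
    have h1 := loc_mul_eq (X := A) (Y := E₁) (x := b₀) (y := s₁) hb₀0 hs₁0 hE3
      (u := algebraMap K L N₀ ^ k) (z := algebraMap M L r)
      (z' := algebraMap K L (N₀ ^ k * algebraMap M K r)) (pow_ne_zero _ hN₀L0) hrL0 ?_ ?_
      (hRE r r.2) (h.TA _ hk) (by rw [map_mul, map_pow, hMK])
    · rw [← h1]
      congr 1
    · exact le_loc hb₀A (A.pow_mem (h.TA _ hN₀T) _)
    · rw [← inv_pow]
      refine Subring.pow_mem _ ?_ _
      have h2 := inv_mem_mul (T := A) (h.TA _ hN₀T) (evT h.TA h.tA g).2 hN₀L0 hgL0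
      have h3 : loc A (algebraMap K L N₀ * ((evT h.TA h.tA g : A) : L))
          (A.mul_mem (h.TA _ hN₀T) (evT h.TA h.tA g).2) = loc A b₀ hb₀A := by
        congr 1
        rw [hb₀, mul_comm]
      rw [← h3]
      exact h2
  refine ⟨g, N, hg0, hN0, ?_, loc R r r.2, le_loc r.2, ?_, ?_⟩
  · intro 𝔭 h𝔭 hN𝔭
    refine ⟨g.natDegree, fun hh => hN𝔭 ?_⟩
    have h1 : N = (⟨a, ha⟩ * ⟨_, hk⟩ : T) * c := by
      apply Subtype.ext
      show N₀ * (N₀ ^ k * algebraMap M K r) = a * (N₀ ^ k * algebraMap M K r) * c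
      rw [hN₀]
      ring
    rw [h1]
    exact 𝔭.mul_mem_left _ hh
  · rw [hT4]
    obtain ⟨hRT', hn⟩ := hnK r₂ hr₂ r r.2 (by rw [hr]) (t₁ * algebraMap M K r)
      (T₁.mul_mem ht₁T (hRT r r.2)) (mul_comm _ _)
    exact ⟨hRT', _, _, _, hn⟩
  · rw [hE4]
    obtain ⟨hRE', hn⟩ := hnL r₁ hr₁ r r.2 (by rw [hr, mul_comm]) (s₁ * algebraMap M L r)
      (E₁.mul_mem hs₁E (hRE r r.2)) (mul_comm _ _)
    exact ⟨hRE', _, _, _, hn⟩

end

end Pool.Agent.T6.H77.NB
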