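import Pool.Agent.T6.H77.NB.Nice

/-!
# Localization of nice models
-/

set_option autoImplicit false
set_option linter.unusedSectionVars false
set_option linter.style.haveILetI false

open Polynomial

namespace Pool.Agent.T6.H77.NB

open FF
open Pool.Agent.R410.NG (Ff Asy)

section
variable {M K : Type} [Field M] [Field K] [Algebra M K]
variable {n e ρ : ℕ} {R : Subring M} {T D : Subring K} {hRT : ∀ r ∈ R, algebraMap M K r ∈ T}
  {S : Set (Place M K)}

theorem iRT_ne {r : R} (hr : r ≠ 0) : ((iRT hRT r : T) : K) ≠ 0 := by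
  show algebraMap M K r ≠ 0
  rw [Ne, map_eq_zero]
  exact fun h => hr (Subtype.ext h)

theorem ord_c (P : Place M K) {r : M} (hr : r ≠ 0) : P.ord (algebraMap M K r) = 0 := P.ord_const hr

theorem regT (h : Nice n e R T D hRT S ρ) {P : Place M K} (hP : P ∈ S) (x : T) :
    P.Reg (T.subtype x) := h.af.reg P hP x (h.TD x.2)

open Classical in
/-- the centre of a place of `S` on `T` -/
noncomputable def cc (h : Nice n e R T D hRT S ρ) (P : Place M K) : Ideal T :=
  if hP : P ∈ S then cen P T.subtype (regT h hP) else ⊥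

variable (h : Nice n e R T D hRT S ρ)

theorem cc_eq {P : Place M K} (hP : P ∈ S) :
    cc h P = cen P T.subtype (regT h hP) := by
  unfold cc
  rw [dif_pos hP]

theorem mem_cc {P : Place M K} (hP : P ∈ S) (x : T) :
    x ∈ cc h P ↔ ((x : K) = 0 ∨ 0 < P.ord (x : K)) := by
  rw [cc_eq h hP, mem_cen]
  rfl

theorem cc_prime {P : Place M K} (hP : P ∈ S) : (cc h P).IsPrime := by
  rw [cc_eq h hP]
  exact cen_prime _ _ _

theorem cc_le {P P' : Place M K} (hP : P ∈ S) (hP' : P' ∈ S) (hle : cc h P ≤ cc h P') : P = P' := by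
  by_contra hne
  obtain ⟨π, hπ, hπ0, hpos, hQ⟩ := h.af.unif P hP
  obtain ⟨s, hs, hs0, hsT⟩ := h.DT π hπ
  have hsK : algebraMap M K s ≠ 0 := by rwa [Ne, map_eq_zero]
  have h1 : (⟨_, hsT⟩ : T) ∈ cc h P := by
    rw [mem_cc h hP]
    right
    show 0 < P.ord (algebraMap M K s * π)
    rw [P.ord_mul hsK hπ0, ord_c P hs0, zero_add]
    exact hpos
  have h2 := hle h1
  rw [mem_cc h hP'] at h2
  rcases h2 with h2 | h2
  · exact mul_ne_zero hsK hπ0 h2
  · have h3 : P'.ord (algebraMap M K s * π) = 0 := by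
      rw [P'.ord_mul hsK hπ0, ord_c P' hs0, zero_add, hQ P' hP' fun hh => hne hh.symm]
    change 0 < P'.ord (algebraMap M K s * π) at h2
    omega

theorem cc_not_const {P : Place M K} (hP : P ∈ S) {r : R} (hr : r ≠ 0) : iRT hRT r ∉ cc h P := by
  rw [mem_cc h hP]
  push Not
  refine ⟨iRT_ne hr, ?_⟩
  show P.ord (algebraMap M K r) ≤ 0
  rw [ord_c P fun hh => hr (Subtype.ext hh)]

theorem cc_dm {P : Place M K} (hP : P ∈ S) : ∃ e', e' + 1 = e ∧ Dm T (cc h P) e' := by
  rw [cc_eq h hP]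
  exact h.dim P hP _

/-- the minimal primes of a principal ideal -/
theorem min_prime {a : K} (ha : a ∈ T) (ha0 : a ≠ 0) {Q : Ideal T}
    (hQ : Q ∈ (Ideal.span {(⟨a, ha⟩ : T)}).minimalPrimes) (hQR : ∀ r : R, r ≠ 0 → iRT hRT r ∉ Q) :
    ∃ P ∈ S, P.ord a ≠ 0 ∧ Q = cc h P := by
  classical
  have hQp : Q.IsPrime := hQ.1.1
  have haQ : (⟨a, ha⟩ : T) ∈ Q := hQ.1.2 (Ideal.mem_span_singleton_self _)
  let I : Ideal D :=
    { carrier := {x | ∃ s : R, s ≠ 0 ∧ ∃ ht : algebraMap M K s * (x : K) ∈ T, (⟨_, ht⟩ : T) ∈ Q}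
      add_mem' := by
        rintro x y ⟨s, hs, ht, hq⟩ ⟨s', hs', ht', hq'⟩
        have h1 := Q.add_mem (Q.mul_mem_left (iRT hRT s') hq) (Q.mul_mem_left (iRT hRT s) hq')
        have h2 : (((iRT hRT s' * ⟨_, ht⟩ + iRT hRT s * ⟨_, ht'⟩ : T)) : K) =
            algebraMap M K ((s * s' : R) : M) * ((x + y : D) : K) := by
          show algebraMap M K s' * (algebraMap M K s * x) + algebraMap M K s * (algebraMap M K s' * y) =
            algebraMap M K (s * s') * (x + y)
          rw [map_mul]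
          ring
        refine ⟨s * s', mul_ne_zero hs hs', h2 ▸ Subtype.property _, ?_⟩
        convert h1 using 1
        exact Subtype.ext h2.symm
      zero_mem' := by
        refine ⟨1, one_ne_zero, ?_, ?_⟩
        · show algebraMap M K ((1 : R) : M) * ((0 : D) : K) ∈ T
          rw [show ((0 : D) : K) = 0 from rfl, mul_zero]
          exact T.zero_mem
        · convert Q.zero_mem using 1
          apply Subtype.ext
          show algebraMap M K ((1 : R) : M) * ((0 : D) : K) = 0
          rw [show ((0 : D) : K) = 0 from rfl, mul_zero]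
      smul_mem' := by
        rintro c x ⟨s, hs, ht, hq⟩
        obtain ⟨s', hs', hs0', hc⟩ := h.DT c c.2
        have h1 := Q.mul_mem_left (⟨_, hc⟩ : T) hq
        have h2 : (((⟨_, hc⟩ * ⟨_, ht⟩ : T)) : K) =
            algebraMap M K (((⟨s', hs'⟩ * s : R)) : M) * ((c • x : D) : K) := by
          show algebraMap M K s' * c * (algebraMap M K s * x) = algebraMap M K (s' * s) * (c * x)
          rw [map_mul]
          ring
        refine ⟨⟨s', hs'⟩ * s, mul_ne_zero (fun hh => hs0' (congrArg Subtype.val hh)) hs,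
          h2 ▸ Subtype.property _, ?_⟩
        convert h1 using 1
        exact Subtype.ext h2.symm }
  have hI : I.IsPrime := by
    refine ⟨?_, ?_⟩
    · rw [Ideal.ne_top_iff_one]
      rintro ⟨s, hs, ht, hq⟩
      apply hQR s hs
      convert hq using 1
      apply Subtype.ext
      show algebraMap M K s = algebraMap M K s * ((1 : D) : K)
      rw [show ((1 : D) : K) = 1 from rfl, mul_one]
    · rintro x y ⟨s, hs, ht, hq⟩
      obtain ⟨s1, hs1, hs10, hx⟩ := h.DT x x.2
      obtain ⟨s2, hs2, hs20, hy⟩ := h.DT y y.2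
      have h1 : (⟨_, hx⟩ * ⟨_, hy⟩ : T) * iRT hRT s ∈ Q := by
        have h2 := Q.mul_mem_left (iRT hRT (⟨s1, hs1⟩ * ⟨s2, hs2⟩)) hq
        convert h2 using 1
        apply Subtype.ext
        show algebraMap M K s1 * x * (algebraMap M K s2 * y) * algebraMap M K s =
          algebraMap M K (s1 * s2) * (algebraMap M K s * ((x * y : D) : K))
        rw [map_mul, show ((x * y : D) : K) = (x : K) * y from rfl]
        ring
      have h3 := (hQp.mem_or_mem h1).resolve_right (hQR s hs)
      rcases hQp.mem_or_mem h3 with h4 | h4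
      · left
        exact ⟨⟨s1, hs1⟩, fun hh => hs10 (congrArg Subtype.val hh), hx, h4⟩
      · right
        exact ⟨⟨s2, hs2⟩, fun hh => hs20 (congrArg Subtype.val hh), hy, h4⟩
  have hback : ∀ x : T, (⟨(x : K), h.TD x.2⟩ : D) ∈ I → x ∈ Q := by
    rintro x ⟨s, hs, ht, hq⟩
    have h1 : iRT hRT s * x ∈ Q := by
      convert hq using 1
      exact Subtype.ext rfl
    exact (hQp.mem_or_mem h1).resolve_left (hQR s hs)
  have haI : (⟨a, h.TD ha⟩ : D) ∈ I := by
    refine ⟨1, one_ne_zero, ?_, ?_⟩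
    · show algebraMap M K ((1 : R) : M) * a ∈ T
      rw [show ((1 : R) : M) = 1 from rfl, map_one, one_mul]
      exact ha
    · convert haQ using 1
      apply Subtype.ext
      show algebraMap M K ((1 : R) : M) * a = a
      rw [show ((1 : R) : M) = 1 from rfl, map_one, one_mul]
  obtain ⟨π, hπ⟩ := h.af.exists_pi
  obtain ⟨P, hP, hPI, hPa⟩ := h.af.exists_pi_mem hπ (fun P hP => (hπ P hP).1) I haI
    (fun hh => ha0 (congrArg Subtype.val hh))
  refine ⟨P, hP, hPa.ne', ?_⟩
  have hle : cc h P ≤ Q := by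
    intro x hx
    rw [mem_cc h hP] at hx
    obtain ⟨m, y, hy, hxm⟩ := h.af.pow_div hP (π P).ne_zero (hπ P hP).2.2 (h.TD x.2) hx
    apply hback
    apply hI.mem_of_pow_mem m
    have : (⟨(x : K), h.TD x.2⟩ : D) ^ m = ⟨(π P : K), (hπ P hP).1⟩ * ⟨y, hy⟩ := Subtype.ext hxm
    rw [this]
    exact I.mul_mem_right _ hPI
  have hge : Q ≤ cc h P := by
    refine hQ.2 ⟨cc_prime h hP, ?_⟩ hle
    rw [Ideal.span_singleton_le_iff_mem, mem_cc h hP]
    right
    exact hPa
  exact le_antisymm hge hle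

end

end Pool.Agent.T6.H77.NB
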