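import Pool.Agent.R410.BS.Tr
import Pool.Agent.T6.H77.NB.Cnt
import Pool.Agent.T6.H77.NB.Un

/-!
# Models of fields whose number of points is known up to the second term
-/

set_option autoImplicit false
set_option linter.unusedSectionVars false
set_option linter.style.haveILetI false

open Polynomial

namespace Pool.Agent.T6.H77.NB

open FF
open Pool.Agent.R410.NG (Ff Asy)

/-- the number of the elements with a property -/
noncomputable def ct {H : Type*} (p : H → Prop) : ℝ := (Nat.card {x // p x} : ℝ)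

section
variable {H H' : Type*}

theorem ct_nonneg (p : H → Prop) : 0 ≤ ct p := Nat.cast_nonneg _

theorem ct_congr {p p' : H → Prop} (h : ∀ x, p x ↔ p' x) : ct p = ct p' := by
  unfold ct
  rw [Nat.card_congr (Equiv.subtypeEquivRight h)]

theorem ct_equiv {p : H → Prop} {p' : H' → Prop} (e : H ≃ H') (h : ∀ x, p x ↔ p' (e x)) :
    ct p = ct p' := by
  unfold ct
  rw [Nat.card_congr (e.subtypeEquiv h)]

theorem ct_mono [Finite H] {p p' : H → Prop} (h : ∀ x, p x → p' x) : ct p ≤ ct p' := by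
  unfold ct
  exact_mod_cast Nat.card_le_card_of_injective (Subtype.map id h)
    (Subtype.map_injective h Function.injective_id)

theorem ct_split [Finite H] (p q : H → Prop) :
    ct p = ct (fun x => p x ∧ q x) + ct (fun x => p x ∧ ¬ q x) := by
  classical
  unfold ct
  have h1 : Nat.card {x // p x} = Nat.card {x // p x ∧ q x} + Nat.card {x // p x ∧ ¬ q x} := by
    rw [← Nat.card_sum]
    refine Nat.card_congr ?_
    exact (Equiv.sumCompl (fun x : {x // p x} => q x.1)).symm.trans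
      (Equiv.sumCongr (Equiv.subtypeSubtypeEquivSubtypeInter p q)
        (Equiv.subtypeSubtypeEquivSubtypeInter p fun x => ¬ q x))
  exact_mod_cast h1

theorem ct_cover [Finite H] {ι : Type*} (s : Finset ι) (p : H → Prop) (q : ι → H → Prop)
    (h : ∀ x, p x → ∃ i ∈ s, q i x) : ct p ≤ ∑ i ∈ s, ct (q i) := by
  classical
  let _ := Fintype.ofFinite H
  unfold ct
  simp only [Nat.card_eq_fintype_card, Fintype.card_subtype]
  have h1 : (Finset.univ.filter p) ⊆ s.biUnion fun i => Finset.univ.filter (q i) := by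
    intro x hx
    obtain ⟨i, hi, hq⟩ := h x (Finset.mem_filter.1 hx).2
    exact Finset.mem_biUnion.2 ⟨i, hi, Finset.mem_filter.2 ⟨Finset.mem_univ _, hq⟩⟩
  exact_mod_cast (Finset.card_le_card h1).trans Finset.card_biUnion_le

end

theorem ZN_eq (A : Type) [CommRing A] (a N : A) (F : Type) [Field F] [Finite F] :
    ZN A (Ideal.span {a}) N F = ct (fun φ : A →+* F => φ a = 0 ∧ φ N ≠ 0) := by
  unfold ZN
  refine ct_congr fun φ => ?_
  constructor
  · rintro ⟨h1, h2⟩
    exact ⟨h1 a (Ideal.mem_span_singleton_self a), h2⟩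
  · rintro ⟨h1, h2⟩
    refine ⟨fun x hx => ?_, h2⟩
    obtain ⟨c, rfl⟩ := Ideal.mem_span_singleton.1 hx
    rw [map_mul, h1, zero_mul]

section
variable {K : Type} [Field K]

/-- the inclusion into the localization -/
def locI (T : Subring K) (a : K) (ha : a ∈ T) : T →+* loc T a ha := Subring.inclusion (le_loc ha)

theorem loc_unit {T : Subring K} {a : K} (ha : a ∈ T) (ha0 : a ≠ 0) :
    IsUnit (locI T a ha ⟨a, ha⟩) := by
  refine IsUnit.of_mul_eq_one ⟨a⁻¹, 1, ?_⟩ ?_
  · rw [pow_one, mul_inv_cancel₀ ha0]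
    exact T.one_mem
  · exact Subtype.ext (mul_inv_cancel₀ ha0)

theorem ft_poly {B C : Type} [CommRing B] [CommRing C] (hB : Algebra.FiniteType ℤ B) (θ : B →+* C)
    (c : C) (h : ∀ x : C, ∃ p : B[X], x = p.eval₂ θ c) : Algebra.FiniteType ℤ C := by
  classical
  obtain ⟨G, hG⟩ := hB.out
  refine ⟨⟨insert c (G.image θ), ?_⟩⟩
  rw [eq_top_iff]
  intro x _
  have hθ : ∀ b, θ b ∈ Algebra.adjoin ℤ ((insert c (G.image θ) : Finset C) : Set C) := by
    intro b
    have hb : b ∈ Algebra.adjoin ℤ (G : Set B) := by rw [hG]; trivial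
    induction hb using Algebra.adjoin_induction with
    | mem x hx =>
      apply Algebra.subset_adjoin
      exact Finset.mem_coe.2 (Finset.mem_insert_of_mem (Finset.mem_image_of_mem _ hx))
    | algebraMap n =>
      rw [eq_intCast, map_intCast]
      exact intCast_mem _ n
    | add x y _ _ hx hy =>
      rw [map_add]
      exact add_mem hx hy
    | mul x y _ _ hx hy =>
      rw [map_mul]
      exact mul_mem hx hy
  obtain ⟨p, hp⟩ := h x
  rw [hp, Polynomial.eval₂_eq_sum_range]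
  refine sum_mem fun i _ => mul_mem (hθ _) (pow_mem ?_ _)
  exact Algebra.subset_adjoin (Finset.mem_coe.2 (Finset.mem_insert_self _ _))

theorem loc_ft {T : Subring K} (hT : Algebra.FiniteType ℤ T) {a : K} (ha : a ∈ T) (ha0 : a ≠ 0) :
    Algebra.FiniteType ℤ (loc T a ha) := by
  have ha' : a⁻¹ ∈ loc T a ha := ⟨1, by
    rw [pow_one, mul_inv_cancel₀ ha0]
    exact T.one_mem⟩
  refine ft_poly hT (locI T a ha) ⟨a⁻¹, ha'⟩ ?_
  rintro ⟨x, n, hn⟩
  refine ⟨Polynomial.C ⟨_, hn⟩ * Polynomial.X ^ n, ?_⟩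
  rw [Polynomial.eval₂_mul, Polynomial.eval₂_C, Polynomial.eval₂_pow, Polynomial.eval₂_X]
  apply Subtype.ext
  show x = a ^ n * x * a⁻¹ ^ n
  rw [inv_pow, mul_right_comm, mul_inv_cancel₀ (pow_ne_zero n ha0), one_mul]

/-- the homomorphisms from a localization -/
theorem exists_locEquiv {T : Subring K} {a : K} (ha : a ∈ T) (ha0 : a ≠ 0) (F : Type) [Field F] :
    ∃ e : (loc T a ha →+* F) ≃ {ψ : T →+* F // ψ ⟨a, ha⟩ ≠ 0}, ∀ φ, (e φ).1 = φ.comp (locI T a ha) := by
  classical
  let _ : Algebra T (loc T a ha) := (locI T a ha).toAlgebra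
  have hinj : Function.Injective (algebraMap T (loc T a ha)) := Subring.inclusion_injective (le_loc ha)
  have hne : (⟨a, ha⟩ : T) ≠ 0 := fun h => ha0 (congrArg Subtype.val h)
  have hb := Pool.Agent.R410.BS.bir_bij (A := T) (B := loc T a ha) hinj hne (by
    rintro ⟨x, n, hn⟩
    exact ⟨n, ⟨_, hn⟩, Subtype.ext rfl⟩) dvd_rfl F
  have hu : ∀ φ : loc T a ha →+* F, φ (algebraMap T (loc T a ha) ⟨a, ha⟩) ≠ 0 := fun φ =>
    ((loc_unit ha ha0).map φ).ne_zero
  let e0 : (loc T a ha →+* F) ≃ {φ : loc T a ha →+* F // φ (algebraMap T (loc T a ha) ⟨a, ha⟩) ≠ 0} :=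
    (Equiv.subtypeUnivEquiv hu).symm
  exact ⟨e0.trans (Equiv.ofBijective _ hb), fun φ => rfl⟩

end

section
variable {M K : Type} [Field M] [Field K] [Algebra M K]

/-- the inclusion -/
def iRT {R : Subring M} {T : Subring K} (h : ∀ r ∈ R, algebraMap M K r ∈ T) : R →+* T :=
  ((algebraMap M K).comp R.subtype).codRestrict T fun r => h r r.2

/-- `T` is a model of `K` over the model `R` of `M` whose number of points is known up to the second
term -/
structure Nice (n e : ℕ) (R : Subring M) (T D : Subring K) (hRT : ∀ r ∈ R, algebraMap M K r ∈ T)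
    (S : Set (Place M K)) (ρ : ℕ) : Prop where
  Rft : Algebra.FiniteType ℤ R
  Tft : Algebra.FiniteType ℤ T
  TD : T ≤ D
  DT : ∀ x ∈ D, ∃ r ∈ R, r ≠ 0 ∧ algebraMap M K r * x ∈ T
  af : AF D S
  dim : ∀ P ∈ S, ∀ h : ∀ a, P.Reg (T.subtype a), ∃ e', e' + 1 = e ∧ Dm T (cen P T.subtype h) e'
  rk : rr (UU S) (MM M K) = ρ
  n4 : ∀ r : R, r ≠ 0 → Asy (fun F _ _ => (Nat.card F : ℝ) * ((Nat.card F : ℝ) ^ n *
    ct (fun φ : R →+* F => φ r = 0) - ct (fun ψ : T →+* F => ψ (iRT hRT r) = 0))) e 0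
  n5 : Asy (fun F _ _ => (Nat.card F : ℝ) * ((Nat.card F : ℝ) ^ n *
    ct (fun _ : R →+* F => True) - ct (fun _ : T →+* F => True))) e ρ
  n6 : ∃ (C : ℝ) (N : ℕ), 0 ≤ C ∧ N ≠ 0 ∧ ∀ (F : Type) [Field F] [Finite F], ((N : ℕ) : F) ≠ 0 →
    ∀ Φ : (R →+* F) → Prop, |(Nat.card F : ℝ) ^ n * ct Φ -
      ct (fun ψ : T →+* F => Φ (ψ.comp (iRT hRT)))| * Nat.card F ≤ C * (Nat.card F : ℝ) ^ e

/-- the centre on a localization -/
theorem dm_loc {T : Subring K} {b : K} (hb : b ∈ T) (hb0 : b ≠ 0) {P : Place M K}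
    (h : ∀ a, P.Reg (T.subtype a)) (h' : ∀ a, P.Reg ((loc T b hb).subtype a)) (hPb : P.ord b = 0)
    {e : ℕ} (hd : Dm T (cen P T.subtype h) e) : Dm (loc T b hb) (cen P (loc T b hb).subtype h') e := by
  have hp := cen_prime P T.subtype h
  have hp' := cen_prime P (loc T b hb).subtype h'
  have : IsDomain (T ⧸ cen P T.subtype h) := Ideal.Quotient.isDomain _
  have : IsDomain (loc T b hb ⧸ cen P (loc T b hb).subtype h') := Ideal.Quotient.isDomain _
  have hcz := hd.2.1
  have hcomap : (cen P (loc T b hb).subtype h').comap (locI T b hb) = cen P T.subtype h := by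
    ext x
    rw [Ideal.mem_comap, mem_cen, mem_cen]
    rfl
  let j : T ⧸ cen P T.subtype h →+* loc T b hb ⧸ cen P (loc T b hb).subtype h' :=
    Ideal.quotientMap _ (locI T b hb) hcomap.ge
  have hj : Function.Injective j := Ideal.quotientMap_injective' hcomap.le
  have hj' : ∀ t : T, j (Ideal.Quotient.mk _ t) = Ideal.Quotient.mk _ (locI T b hb t) := fun t => rfl
  refine ⟨hp', ?_, ?_⟩
  · refine ⟨fun x y hxy => ?_⟩
    have h1 : j x = j y := by rw [map_natCast, map_natCast]; exact hxy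
    exact Nat.cast_injective (hj h1)
  · rw [← hd.2.2]
    symm
    let _ := j.toAlgebra
    have hal : Algebra.IsAlgebraic (T ⧸ cen P T.subtype h) (loc T b hb ⧸ cen P (loc T b hb).subtype h') := by
      refine ⟨fun z => ?_⟩
      obtain ⟨⟨x, n, hn⟩, rfl⟩ := Ideal.Quotient.mk_surjective z
      have hbn : Ideal.Quotient.mk (cen P T.subtype h) (⟨b, hb⟩ ^ n : T) ≠ 0 := by
        rw [Ne, Ideal.Quotient.eq_zero_iff_mem, mem_cen]
        push Not
        refine ⟨?_, ?_⟩
        · rw [map_pow]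
          exact pow_ne_zero n hb0
        · rw [map_pow, P.ord_pow]
          show (n : ℤ) * P.ord b ≤ 0
          rw [hPb, mul_zero]
      refine ⟨Polynomial.C (Ideal.Quotient.mk _ (⟨b, hb⟩ ^ n : T)) * Polynomial.X -
        Polynomial.C (Ideal.Quotient.mk _ (⟨_, hn⟩ : T)), ?_, ?_⟩
      · intro h0
        have h6 := congrArg (fun p => Polynomial.coeff p 1) h0
        simp only [Polynomial.coeff_sub, Polynomial.coeff_C_mul, Polynomial.coeff_X_one, mul_one,
          Polynomial.coeff_C_succ, sub_zero, Polynomial.coeff_zero] at h6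
        exact hbn h6
      · rw [map_sub, map_mul, Polynomial.aeval_C, Polynomial.aeval_X, Polynomial.aeval_C]
        show j _ * _ - j _ = 0
        rw [hj', hj', ← map_mul, ← map_sub, Ideal.Quotient.eq_zero_iff_mem]
        have h7 : locI T b hb (⟨b, hb⟩ ^ n) * ⟨x, n, hn⟩ - locI T b hb ⟨b ^ n * x, hn⟩ = 0 := by
          apply Subtype.ext
          show ((b ^ n : K)) * x - b ^ n * x = 0
          rw [sub_self]
        rw [h7]
        exact Ideal.zero_mem _
    exact trdeg_alg (B := T ⧸ cen P T.subtype h) hj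

end

end Pool.Agent.T6.H77.NB
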