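import Pool.Agent.R410.NG.Res
import Pool.Agent.T6.H77.NB.Bd

/-!
# The residue of the series of the averages of the defects
-/

set_option autoImplicit false
set_option linter.unusedSectionVars false
set_option linter.style.haveILetI false

namespace Pool.Agent.T6.H77.NB

open Polynomial NumberField IsDedekindDomain Filter Topology
open Pool.Agent.R410.BS (cF)
open Pool.Agent.R410.NG (Ff Asy residue_fun)
open Pool.Agent.Y707.PR (HasResidue)
open Pool.Agent.Y707.DK (bound_fin)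
open Pool.Agent.H921R2.TatePole (kerPrime)

theorem ct_fiber {ι H : Type*} [Fintype ι] [Finite H] (f : H → ι) (p : H → Prop) :
    ∑ i, ct (fun x => p x ∧ f x = i) = ct p := by
  classical
  let _ := Fintype.ofFinite H
  unfold ct
  simp only [Nat.card_eq_fintype_card, Fintype.card_subtype]
  have h1 : (Finset.univ.filter p).card = ∑ i, ((Finset.univ.filter p).filter fun x => f x = i).card :=
    Finset.card_eq_sum_card_fiberwise fun x _ => Finset.mem_univ _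
  rw [h1]
  push_cast
  refine Finset.sum_congr rfl fun i _ => ?_
  rw [Finset.filter_filter]

section
variable {O X : Type} [CommRing O] [CommRing X]

theorem ct_iso (o : O →+* X) {F F' : Type} [Field F] [Field F'] (e : F ≃+* F') (ψ : O →+* F)
    (p : (X →+* F) → Prop) (p' : (X →+* F') → Prop)
    (hp : ∀ φ, p φ ↔ p' ((e : F →+* F').comp φ)) :
    ct (fun φ : X →+* F' => p' φ ∧ φ.comp o = (e : F →+* F').comp ψ) =
      ct (fun φ : X →+* F => p φ ∧ φ.comp o = ψ) := by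
  let E : (X →+* F) ≃ (X →+* F') :=
    { toFun := fun φ => (e : F →+* F').comp φ
      invFun := fun φ => (e.symm : F' →+* F).comp φ
      left_inv := fun φ => RingHom.ext fun x => e.symm_apply_apply _
      right_inv := fun φ => RingHom.ext fun x => e.apply_symm_apply _ }
  refine (ct_equiv E fun φ => ?_).symm
  rw [hp φ]
  refine and_congr Iff.rfl ?_
  constructor
  · rintro rfl
    rfl
  · intro h
    ext x
    have := RingHom.congr_fun h x
    exact e.injective this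

end

section
variable {k : Type} [Field k] [NumberField k] {T A A' : Type} [CommRing T] [CommRing A] [CommRing A']
  [Algebra.FiniteType ℤ T] [Algebra.FiniteType ℤ A] [Algebra.FiniteType ℤ A']

/-- the defect over a homomorphism of the ring of the integers -/
noncomputable def dfc (oT : 𝓞 k →+* T) (oA : 𝓞 k →+* A) (oA' : 𝓞 k →+* A') (ti : A') (F : Type)
    [Field F] (ψ : 𝓞 k →+* F) : ℝ :=
  ((Nat.card F : ℝ) + 1) * ct (fun φ : T →+* F => True ∧ φ.comp oT = ψ) -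
    ct (fun χ : A →+* F => True ∧ χ.comp oA = ψ) - ct (fun χ : A' →+* F => χ ti = 0 ∧ χ.comp oA' = ψ)

theorem dfc_iso (oT : 𝓞 k →+* T) (oA : 𝓞 k →+* A) (oA' : 𝓞 k →+* A') (ti : A') {F F' : Type}
    [Field F] [Field F'] (e : F ≃+* F') (ψ : 𝓞 k →+* F) :
    dfc oT oA oA' ti F' ((e : F →+* F').comp ψ) = dfc oT oA oA' ti F ψ := by
  unfold dfc
  rw [ct_iso oT e ψ (fun _ => True) (fun _ => True) fun _ => Iff.rfl,
    ct_iso oA e ψ (fun _ => True) (fun _ => True) fun _ => Iff.rfl,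
    ct_iso oA' e ψ (fun χ => χ ti = 0) (fun χ => χ ti = 0) fun χ => by
      show _ ↔ e (χ ti) = 0
      rw [map_eq_zero_iff e e.injective], Nat.card_congr e.toEquiv]

theorem dfc_sum (oT : 𝓞 k →+* T) (oA : 𝓞 k →+* A) (oA' : 𝓞 k →+* A') (ti : A') (F : Type)
    [Field F] [Finite F] [Fintype (𝓞 k →+* F)] : ∑ ψ : 𝓞 k →+* F, dfc oT oA oA' ti F ψ =
      ((Nat.card F : ℝ) + 1) * ct (fun _ : T →+* F => True) - ct (fun _ : A →+* F => True) -
        ct (fun χ : A' →+* F => χ ti = 0) := by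
  have hfinT : Finite (T →+* F) := hom_fin F
  have hfinA : Finite (A →+* F) := hom_fin F
  have hfinA' : Finite (A' →+* F) := hom_fin F
  unfold dfc
  rw [Finset.sum_sub_distrib, Finset.sum_sub_distrib, ← Finset.mul_sum,
    ct_fiber (fun φ : T →+* F => φ.comp oT) (fun _ => True),
    ct_fiber (fun φ : A →+* F => φ.comp oA) (fun _ => True),
    ct_fiber (fun φ : A' →+* F => φ.comp oA') (fun χ => χ ti = 0)]

/-- **The residue of the series of the averages.** -/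
theorem residue_dfc (oT : 𝓞 k →+* T) (oA : 𝓞 k →+* A) (oA' : 𝓞 k →+* A') (ti : A') (e : ℕ) (r : ℤ)
    (h1 : ∃ (C : ℝ) (m : ℕ), 0 ≤ C ∧ m ≠ 0 ∧ ∀ (F : Type) [Field F] [Finite F], ((m : ℕ) : F) ≠ 0 →
      ∀ ψ : 𝓞 k →+* F, |dfc oT oA oA' ti F ψ| ≤ C * (Nat.card F : ℝ) ^ e)
    (h2 : Asy (fun F _ _ => ((Nat.card F : ℝ) + 1) * ct (fun _ : T →+* F => True) -
      ct (fun _ : A →+* F => True) - ct (fun χ : A' →+* F => χ ti = 0)) e r)
    (S : Finset (HeightOneSpectrum (𝓞 k))) :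
    HasResidue S (fun v => ((Nat.card (𝓞 k ⧸ v.asIdeal) : ℝ) ^ e)⁻¹ *
      dfc oT oA oA' ti (𝓞 k ⧸ v.asIdeal) (Ideal.Quotient.mk v.asIdeal)) 1 r := by
  classical
  obtain ⟨C1, m1, hC1, hm1, g1⟩ := h1
  obtain ⟨κ, i1, L, i2, i3, a, ha, C2, m2, hC2, hm2, g2⟩ := h2
  -- the average is bounded
  have hb : ∀ᶠ v : HeightOneSpectrum (𝓞 k) in cofinite, |((Nat.card (𝓞 k ⧸ v.asIdeal) : ℝ) ^ e)⁻¹ *
      dfc oT oA oA' ti (𝓞 k ⧸ v.asIdeal) (Ideal.Quotient.mk v.asIdeal)| ≤ C1 := by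
    have hm : ((m1 : ℕ) : 𝓞 k) ≠ 0 := by exact_mod_cast hm1
    filter_upwards [Pool.Agent.Y707.PC.ae_notMem hm] with v hv
    have hfin := Pool.Agent.H341R2.finite_v v
    have hmv : ((m1 : ℕ) : 𝓞 k ⧸ v.asIdeal) ≠ 0 := by
      intro h0
      apply hv
      rw [← Ideal.Quotient.eq_zero_iff_mem, map_natCast]
      exact h0
    have e1 := g1 (𝓞 k ⧸ v.asIdeal) hmv (Ideal.Quotient.mk v.asIdeal)
    set q : ℝ := (Nat.card (𝓞 k ⧸ v.asIdeal) : ℝ) with hq
    have hq1 : (1 : ℝ) ≤ q := by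
      rw [hq]
      exact_mod_cast Nat.card_pos
    have hqe : (0 : ℝ) < q ^ e := by positivity
    rw [abs_mul, abs_of_pos (inv_pos.2 hqe), inv_mul_le_iff₀ hqe, mul_comm]
    exact e1
  obtain ⟨B', hB'⟩ := bound_fin hb
  refine residue_fun hB' L a ha (D := C2) ?_ S
  have hcof : ∀ᶠ p : Nat.Primes in Filter.cofinite, ((m2 : ℕ) : ZMod (p : ℕ)) ≠ 0 := by
    have hfin : {p : Nat.Primes | ((m2 : ℕ) : ZMod (p : ℕ)) = 0}.Finite := by
      refine Set.Finite.of_injOn (f := fun p : Nat.Primes => (p : ℕ))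
        (t := ((m2).primeFactors : Set ℕ)) ?_ ?_ (Finset.finite_toSet _)
      · intro p hp
        rw [Set.mem_ofPred_eq, ZMod.natCast_eq_zero_iff] at hp
        exact Nat.mem_primeFactors.2 ⟨p.2, hp, hm2⟩
      · intro p _ q _ h
        exact Subtype.ext h
    rw [Filter.eventually_cofinite]
    simpa only [ne_eq, not_not] using hfin
  filter_upwards [hcof] with p hp
  have : Fact (p : ℕ).Prime := ⟨p.2⟩
  have hfin := Pool.Agent.H921R2.TatePole.hom_finite (K := k) p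
  let _ := Fintype.ofFinite (𝓞 k →+* ZMod (p : ℕ))
  have hcard : (Nat.card (ZMod (p : ℕ)) : ℝ) = ((p : ℕ) : ℝ) := by
    rw [Nat.card_eq_fintype_card, ZMod.card]
  have e2 := g2 (ZMod (p : ℕ)) hp
  beta_reduce at e2
  rw [← dfc_sum oT oA oA' ti (ZMod (p : ℕ)), hcard] at e2
  set q : ℝ := ((p : ℕ) : ℝ) with hq
  have hq0 : (0 : ℝ) < q := by
    rw [hq]
    exact_mod_cast p.2.pos
  have hqe : (0 : ℝ) < q ^ e := by positivity
  have hs : 0 < √q := Real.sqrt_pos.2 hq0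
  have hker : ∀ ψ : 𝓞 k →+* ZMod (p : ℕ),
      ((Nat.card (𝓞 k ⧸ (kerPrime p ψ).1.1.asIdeal) : ℝ) ^ e)⁻¹ *
        dfc oT oA oA' ti (𝓞 k ⧸ (kerPrime p ψ).1.1.asIdeal)
          (Ideal.Quotient.mk (kerPrime p ψ).1.1.asIdeal) =
      (q ^ e)⁻¹ * dfc oT oA oA' ti (ZMod (p : ℕ)) ψ := by
    intro ψ
    have hsurj : Function.Surjective ψ := ZMod.ringHom_surjective ψ
    let ε : (𝓞 k ⧸ (kerPrime p ψ).1.1.asIdeal) ≃+* ZMod (p : ℕ) :=
      RingHom.quotientKerEquivOfSurjective hsurj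
    have hε : (ε : (𝓞 k ⧸ (kerPrime p ψ).1.1.asIdeal) →+* ZMod (p : ℕ)).comp
        (Ideal.Quotient.mk (kerPrime p ψ).1.1.asIdeal) = ψ := by
      ext x
      rfl
    have h1 := dfc_iso oT oA oA' ti ε (Ideal.Quotient.mk (kerPrime p ψ).1.1.asIdeal)
    rw [hε] at h1
    have h2 : (Nat.card (𝓞 k ⧸ (kerPrime p ψ).1.1.asIdeal) : ℝ) = q := by
      rw [hq, Nat.card_congr ε.toEquiv, Nat.card_eq_fintype_card, ZMod.card]
    rw [h2, h1]
  have e3 : ∑ᶠ ψ : 𝓞 k →+* ZMod (p : ℕ), ((Nat.card (𝓞 k ⧸ (kerPrime p ψ).1.1.asIdeal) : ℝ) ^ e)⁻¹ *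
        dfc oT oA oA' ti (𝓞 k ⧸ (kerPrime p ψ).1.1.asIdeal)
          (Ideal.Quotient.mk (kerPrime p ψ).1.1.asIdeal) =
      (q ^ e)⁻¹ * ∑ ψ : 𝓞 k →+* ZMod (p : ℕ), dfc oT oA oA' ti (ZMod (p : ℕ)) ψ := by
    rw [finsum_eq_sum_of_fintype, Finset.mul_sum]
    exact Finset.sum_congr rfl fun ψ _ => hker ψ
  have e5 : q ^ (-(1 / 2) : ℝ) = (√q)⁻¹ := by
    rw [Real.sqrt_eq_rpow, ← Real.rpow_neg hq0.le]
  rw [e3, e5]
  set W := ∑ ψ : 𝓞 k →+* ZMod (p : ℕ), dfc oT oA oA' ti (ZMod (p : ℕ)) ψ with hW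
  have e6 : (q ^ e)⁻¹ * W - cF L a (ZMod (p : ℕ)) =
      (W - cF L a (ZMod (p : ℕ)) * q ^ e) / q ^ e := by
    field_simp
  rw [e6, abs_div, abs_of_pos hqe, div_le_iff₀ hqe, ← div_eq_mul_inv, div_mul_eq_mul_div,
    le_div_iff₀ hs]
  exact e2

end

end Pool.Agent.T6.H77.NB
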