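import Pool.Agent.T6.H77.NB.Mod
import Pool.Agent.T6.H77.NB.Ch3
import Pool.Agent.T6.H77.NB.Al4

/-!
# The number of the points of the total space
-/

set_option autoImplicit false
set_option linter.unusedSectionVars false
set_option linter.style.haveILetI false

open Polynomial

namespace Pool.Agent.T6.H77.NB

open FF
open Pool.Agent.R410.NG (Ff Asy)

theorem asy_divq' {T : Ff} {e : ℕ} {r : ℝ} (h : Asy (fun F _ _ => (Nat.card F : ℝ) * T F) (e + 1) r) :
    Asy T e r := Asy.divq h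

section
variable {M K L : Type} [Field M] [Field K] [Field L] [Algebra M K] [Algebra M L] [Algebra K L]
  [IsScalarTower M K L] [CharZero K] [hff : IsFF K L]
variable {T : Subring K} {t : L} {A A' : Subring L}

/-- the defect of the number of the points of the fibres over a set of points -/
noncomputable def defect (T : Subring K) (A A' : Subring L) (ti : A') (F : Type) [Field F]
    (Φ : (T →+* F) → Prop) (Ψ : (A →+* F) → Prop) (Ψ' : (A' →+* F) → Prop) : ℝ :=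
  ((Nat.card F : ℝ) + 1) * ct Φ - ct Ψ - ct (fun χ => χ ti = 0 ∧ Ψ' χ)

omit hff in
/-- dimension of the total space -/
theorem Chart.dm_botA [IsFF K L] (h : Chart T t A) {e : ℕ} (he : Algebra.trdeg ℚ K = e) :
    Dm A ⊥ (e + 1) := by
  have hcz : CharZero L := charZero_of_injective_algebraMap (algebraMap K L).injective
  have hfr : IsFractionRing A L := by
    refine IsFractionRing.of_field A L fun z => ?_
    obtain ⟨a, ha, b, hb, hb0, rfl⟩ := h.Afrac z
    exact ⟨⟨a, ha⟩, ⟨b, hb⟩, rfl⟩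
  have htr : Algebra.trdeg ℚ L = (e + 1 : ℕ) := by
    have h2 := trdeg_add_eq ℚ K (A := L)
    rw [he, IsFF.trdeg (k := K) (K := L)] at h2
    rw [← h2]
    push_cast
    rfl
  have h0 : RingHom.ker (algebraMap A L) = ⊥ :=
    (RingHom.injective_iff_ker_eq_bot _).1 (IsFractionRing.injective A L)
  rw [← h0]
  refine dm_of (algebraMap A L) htr fun z => ?_
  have : Algebra.IsAlgebraic A L := IsLocalization.isAlgebraic (R := A) (S := L) (nonZeroDivisors A)
  obtain ⟨p, hp0, hp⟩ := this.isAlgebraic z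
  exact ⟨p, (Polynomial.map_ne_zero_iff (IsFractionRing.injective A L)).2 hp0, hp⟩

/-- the homomorphisms from a localization, with a property -/
theorem ct_loc {K : Type} [Field K] {T : Subring K} {a : K} (ha : a ∈ T) (ha0 : a ≠ 0) (F : Type)
    [Field F] (Φ : (T →+* F) → Prop) : ct (fun φ : loc T a ha →+* F => Φ (φ.comp (locI T a ha))) =
      ct (fun φ : T →+* F => Φ φ ∧ φ ⟨a, ha⟩ ≠ 0) := by
  obtain ⟨ε, hε⟩ := exists_locEquiv ha ha0 F
  unfold ct
  refine Nat.cast_inj.2 (Nat.card_congr ?_)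
  refine (ε.subtypeEquiv (q := fun z => Φ z.1) fun φ => by rw [hε]).trans ?_
  exact { toFun := fun z => ⟨z.1.1, z.2, z.1.2⟩
          invFun := fun z => ⟨⟨z.1, z.2.2⟩, z.2.1⟩
          left_inv := fun z => rfl
          right_inv := fun z => rfl }

/-- **The decomposition of the defect.** -/
theorem defect_eq (h : Chart T t A) (g : T[X]) (N : T) (ti : A')
    (F : Type) [Field F] [Finite F] (Φ : (T →+* F) → Prop) (Ψ : (A →+* F) → Prop)
    (Ψ' : (A' →+* F) → Prop) : defect T A A' ti F Φ Ψ Ψ' =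
      ((Nat.card F : ℝ) * ct (fun φ : T →+* F => Φ φ ∧ φ N ≠ 0) -
        ct (fun χ : A →+* F => Ψ χ ∧ χ (evT h.TA h.tA g * iRT h.TA N) ≠ 0)) +
      ct (fun φ : T →+* F => Φ φ ∧ φ N ≠ 0) -
      ct (fun χ : A →+* F => (χ (evT h.TA h.tA g) = 0 ∧ χ (iRT h.TA N) ≠ 0) ∧ Ψ χ) +
      (((Nat.card F : ℝ) + 1) * ct (fun φ : T →+* F => φ N = 0 ∧ Φ φ) -
        ct (fun χ : A →+* F => χ (iRT h.TA N) = 0 ∧ Ψ χ)) -
      ct (fun χ : A' →+* F => χ ti = 0 ∧ Ψ' χ) := by
  have hTft := h.Tft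
  have hAft := h.Aft
  have hfinT : Finite (T →+* F) := hom_fin F
  have hfinA : Finite (A →+* F) := hom_fin F
  unfold defect
  have e1 := ct_split Φ (fun φ : T →+* F => φ N = 0)
  have e2 := ct_split Ψ (fun χ : A →+* F => χ (iRT h.TA N) = 0)
  have e3 := ct_split (fun χ : A →+* F => Ψ χ ∧ ¬ χ (iRT h.TA N) = 0)
    (fun χ => χ (evT h.TA h.tA g) = 0)
  have a1 : ct (fun φ : T →+* F => Φ φ ∧ φ N = 0) = ct (fun φ : T →+* F => φ N = 0 ∧ Φ φ) :=
    ct_congr fun φ => and_comm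
  have a2 : ct (fun χ : A →+* F => Ψ χ ∧ χ (iRT h.TA N) = 0) =
      ct (fun χ : A →+* F => χ (iRT h.TA N) = 0 ∧ Ψ χ) := ct_congr fun φ => and_comm
  have a3 : ct (fun χ : A →+* F => (Ψ χ ∧ ¬ χ (iRT h.TA N) = 0) ∧ χ (evT h.TA h.tA g) = 0) =
      ct (fun χ : A →+* F => (χ (evT h.TA h.tA g) = 0 ∧ χ (iRT h.TA N) ≠ 0) ∧ Ψ χ) :=
    ct_congr fun χ => by tauto
  have a4 : ct (fun χ : A →+* F => (Ψ χ ∧ ¬ χ (iRT h.TA N) = 0) ∧ ¬ χ (evT h.TA h.tA g) = 0) =
      ct (fun χ : A →+* F => Ψ χ ∧ χ (evT h.TA h.tA g * iRT h.TA N) ≠ 0) :=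
    ct_congr fun χ => by
      rw [map_mul, mul_ne_zero_iff]
      tauto
  have a5 : ct (fun φ : T →+* F => Φ φ ∧ ¬ φ N = 0) = ct (fun φ : T →+* F => Φ φ ∧ φ N ≠ 0) := rfl
  rw [a1, a5] at e1
  rw [a3, a4] at e3
  rw [a2] at e2
  rw [e1, e2, e3]
  ring

/-- **The defect, on average.** -/
theorem asy_defect (h : Chart T t A) (h' : Chart T t⁻¹ A') {n n' e ρK ρL : ℕ}
    (he : Algebra.trdeg ℚ K = e) (hcl : ∀ x : L, IsAlgebraic K x → ∃ y : K, algebraMap K L y = x)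
    (hn' : n' = n + 1)
    {g : T[X]} {N : T} (hg0 : g ≠ 0) (hN : N ≠ 0)
    (hg : ∀ 𝔭 : Ideal T, 𝔭.IsPrime → N ∉ 𝔭 → ∃ i, g.coeff i ∉ 𝔭) {R : Subring M}
    {DK : Subring K} {DL : Subring L}
    {hRT : ∀ x ∈ R, algebraMap M K x ∈ loc T (N : K) N.2} {SK : Set (Place M K)}
    (hK : Nice n e R (loc T (N : K) N.2) DK hRT SK ρK)
    {hRE : ∀ x ∈ R, algebraMap M L x ∈ loc A ((evT h.TA h.tA g * iRT h.TA N : A) : L)
      (evT h.TA h.tA g * iRT h.TA N : A).2} {SL : Set (Place M L)}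
    (hL : Nice n' (e + 1) R (loc A ((evT h.TA h.tA g * iRT h.TA N : A) : L)
      (evT h.TA h.tA g * iRT h.TA N : A).2) DL hRE SL ρL) :
    ∃ ρ : ℕ, picRank K L = ρ ∧
      Asy (fun F _ _ => defect T A A' ⟨t⁻¹, h'.tA⟩ F (fun _ => True) (fun _ => True) (fun _ => True))
        e (-(ρ : ℝ)) := by
  classical
  subst hn'
  have hTft := h.Tft
  have hAft := h.Aft
  have hA'ft := h'.Aft
  have hRft := hK.Rft
  have ht0 : t ≠ 0 := by
    rintro rfl
    exact h.tr isAlgebraic_zero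
  have hNK : (N : K) ≠ 0 := fun hh => hN (Subtype.ext hh)
  have hNL : algebraMap K L N ≠ 0 := by rwa [Ne, map_eq_zero]
  have hgA0 : evT h.TA h.tA g ≠ 0 := fun h0 => hg0 (evT_inj h.TA h.tA h.tr (by rw [h0, map_zero]))
  have hgL0 : ((evT h.TA h.tA g : A) : L) ≠ 0 := fun hh => hgA0 (Subtype.ext hh)
  set b : A := evT h.TA h.tA g * iRT h.TA N with hb
  have hbL : (b : L) = ((evT h.TA h.tA g : A) : L) * algebraMap K L N := rfl
  have hb0 : (b : L) ≠ 0 := by
    rw [hbL]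
    exact mul_ne_zero hgL0 hNL
  -- the boundary
  have hfin1 : {P : Place K L | P.Reg t ∧ 0 < P.ord ((evT h.TA h.tA g : A) : L)}.Finite :=
    (finite_support (k := K) ((evT h.TA h.tA g : A) : L)).subset fun P hP => hP.2.ne'
  have hfin2 : {P : Place K L | P.Reg t⁻¹ ∧ 0 < P.ord t⁻¹}.Finite :=
    (finite_support (k := K) t⁻¹).subset fun P hP => hP.2.ne'
  set s₁ := hfin1.toFinset with hs₁
  set s₂ := hfin2.toFinset with hs₂
  have hs₁m : ∀ P, P ∈ s₁ ↔ (P.Reg t ∧ 0 < P.ord ((evT h.TA h.tA g : A) : L)) := fun P =>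
    hfin1.mem_toFinset
  have hs₂m : ∀ P, P ∈ s₂ ↔ (P.Reg t⁻¹ ∧ 0 < P.ord t⁻¹) := fun P => hfin2.mem_toFinset
  have hdisj : Disjoint s₁ s₂ := by
    rw [Finset.disjoint_left]
    intro P h1 h2
    have a1 := (P.reg_iff ht0).1 ((hs₁m P).1 h1).1
    have a2 := ((hs₂m P).1 h2).2
    rw [P.ord_inv] at a2
    omega
  have hTE : ∀ r ∈ loc T (N : K) N.2, algebraMap K L r ∈ loc A (b : L) b.2 := by
    rintro r ⟨m, hm⟩
    refine ⟨m, ?_⟩
    rw [hbL, mul_pow, mul_assoc, ← map_pow, ← map_mul]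
    exact A.mul_mem (A.pow_mem (evT h.TA h.tA g).2 m) (h.TA _ hm)
  have hs : ∀ P : Place K L, P ∈ s₁ ∪ s₂ ↔ ¬ ∀ z : loc A (b : L) b.2, P.Reg ((loc A (b : L) b.2).subtype z) := by
    intro P
    rw [Finset.mem_union, hs₁m, hs₂m]
    constructor
    · rintro (⟨h1, h2⟩ | ⟨h1, h2⟩) hreg
      · have h3 := hreg ⟨_, inv_mem_loc b.2 hb0⟩
        change P.Reg ((b : L)⁻¹) at h3
        rw [P.reg_iff (inv_ne_zero hb0), P.ord_inv, hbL, P.ord_mul hgL0 hNL, P.ord_const hNK] at h3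
        omega
      · have h3 := hreg ⟨t, le_loc b.2 h.tA⟩
        change P.Reg t at h3
        rw [P.reg_iff ht0] at h3
        rw [P.ord_inv] at h2
        omega
    · intro hreg
      by_contra hc
      push Not at hc
      obtain ⟨h1, h2⟩ := hc
      apply hreg
      have h3 : 0 ≤ P.ord t := by
        by_contra h4
        have h5 : 0 < P.ord t⁻¹ := by rw [P.ord_inv]; omega
        have := h2 (Or.inr h5.le)
        omega
      have h4 : P.Reg t := Or.inr h3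
      have h5 := h1 h4
      have h6 := (P.reg_iff hgL0).1 (h.regA h4 (evT h.TA h.tA g))
      rintro ⟨z, m, hz⟩
      by_cases hz0 : z = 0
      · exact Or.inl hz0
      have h7 := (P.reg_iff (mul_ne_zero (pow_ne_zero m hb0) hz0)).1 (h.regA h4 ⟨_, hz⟩)
      rw [P.ord_mul (pow_ne_zero m hb0) hz0, P.ord_pow, hbL, P.ord_mul hgL0 hNL, P.ord_const hNK] at h7
      have h8 : P.ord ((evT h.TA h.tA g : A) : L) = 0 := by omega
      rw [h8] at h7
      right
      show 0 ≤ P.ord z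
      simpa using h7
  have hne : (s₁ ∪ s₂).Nonempty := by
    obtain ⟨S, hS1, hS3⟩ := FF.poles (k := K) h.tr
    have hfin := IsFF.finite (k := K) h.tr
    have h10 : 0 < Module.finrank (IntermediateField.adjoin K {t}) L := Module.finrank_pos
    rw [← hS3] at h10
    obtain ⟨P, hP, -⟩ := Finset.exists_ne_zero_of_sum_ne_zero h10.ne'
    have h1 := (hS1 P).1 hP
    refine ⟨P, Finset.mem_union_right _ ((hs₂m P).2 ?_)⟩
    have h2 : 0 < P.ord t⁻¹ := by
      rw [P.ord_inv]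
      omega
    exact ⟨Or.inr h2.le, h2⟩
  have hfib := h.fib_loc g N hN hg b.2 hb0 rfl hTE
  obtain ⟨ρ, hρ, hρe⟩ := rank_pic hK hL hTE hfib he hcl (s₁ ∪ s₂) hs hne
  refine ⟨ρ, hρ, ?_⟩
  rw [Finset.card_union_of_disjoint hdisj] at hρe
  -- the terms
  have i1 : Asy (fun F _ _ => (Nat.card F : ℝ) * ct (fun φ : T →+* F => True ∧ φ N ≠ 0) -
      ct (fun χ : A →+* F => True ∧ χ b ≠ 0)) e (ρL - ρK) := by
    have h5 := (asy_divq' hL.n5).add hK.n5.neg
    rw [show (ρL : ℝ) + -(ρK : ℝ) = ρL - ρK by ring] at h5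
    refine h5.congr 1 one_ne_zero fun F _ _ _ => ?_
    have a1 := ct_loc N.2 hNK F (fun _ => True)
    have a2 := ct_loc b.2 hb0 F (fun _ => True)
    rw [← a2]
    have a3 : ct (fun φ : T →+* F => True ∧ φ N ≠ 0) = ct (fun _ : loc T (N : K) N.2 →+* F => True) :=
      a1.symm
    rw [a3]
    ring
  have i2 : Asy (fun F _ _ => ct (fun φ : T →+* F => True ∧ φ N ≠ 0)) e 1 := by
    have hNb : N ∉ (⊥ : Ideal T) := fun hh => hN hh
    refine (asy_prime (h.dm_bot he) hNb).congr 1 one_ne_zero fun F _ _ _ => ?_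
    unfold ZN
    refine ct_congr fun φ => ?_
    constructor
    · rintro ⟨-, h2⟩
      refine ⟨fun a ha => ?_, h2⟩
      rw [Ideal.mem_bot] at ha
      rw [ha, map_zero]
    · rintro ⟨-, h2⟩
      exact ⟨trivial, h2⟩
  have i3 := h.asy_hor he hN hg s₁ (fun P => by rw [hs₁m, evT_coe])
  have i4 := h.asy_vert he hN
  have i5 : Asy (fun F _ _ => ct (fun χ : A' →+* F => χ ⟨t⁻¹, h'.tA⟩ = 0 ∧ True)) e s₂.card := by
    have h6 := h'.asy_hor (g := Polynomial.X) (N := 1) he one_ne_zero (fun 𝔭 h𝔭 h1 => ⟨1, by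
      rwa [Polynomial.coeff_X_one]⟩) s₂ (fun P => by rw [hs₂m, Polynomial.eval₂_X])
    refine h6.congr 1 one_ne_zero fun F _ _ _ => ?_
    refine ct_congr fun χ => ?_
    have e1 : evT h'.TA h'.tA Polynomial.X = ⟨t⁻¹, h'.tA⟩ := by
      unfold evT
      rw [Polynomial.coe_eval₂RingHom, Polynomial.eval₂_X]
    rw [e1, map_one, map_one]
    simp
  have i6 := (((i1.add i2).add i3.neg).add i4).add i5.neg
  have hval : ((ρL : ℝ) - ρK + 1 + -(s₁.card : ℝ) + 0 + -(s₂.card : ℝ)) = -(ρ : ℝ) := by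
    have : ((ρ + ρL + 1 : ℕ) : ℝ) = ((ρK + (s₁.card + s₂.card) : ℕ) : ℝ) := by rw [hρe]
    push_cast at this
    linarith
  rw [hval] at i6
  refine i6.congr 1 one_ne_zero fun F _ _ _ => ?_
  rw [defect_eq h g N]
  have c1 : ct (fun χ : A →+* F => (χ (evT h.TA h.tA g) = 0 ∧ χ (iRT h.TA N) ≠ 0) ∧ True) =
      ct (fun χ : A →+* F => χ (evT h.TA h.tA g) = 0 ∧ χ (iRT h.TA N) ≠ 0) :=
    ct_congr fun χ => by tauto
  have c2 : ct (fun φ : T →+* F => φ N = 0 ∧ True) = ct (fun φ : T →+* F => φ N = 0) :=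
    ct_congr fun χ => by tauto
  have c3 : ct (fun χ : A →+* F => χ (iRT h.TA N) = 0 ∧ True) =
      ct (fun χ : A →+* F => χ (iRT h.TA N) = 0) := ct_congr fun χ => by tauto
  rw [c1, c2, c3]
  ring

end

end Pool.Agent.T6.H77.NB
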