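import Pool.Agent.Y692.PS.Plc
import Pool.Agent.T6.H77.NB.Un

/-!
# Factorial rings are almost factorial
-/

set_option autoImplicit false
set_option linter.unusedSectionVars false

namespace Pool.Agent.T6.H77.NB

open FF

section
variable {M K B : Type} [Field M] [Field K] [Algebra M K] [CommRing B] [IsDomain B]
  [UniqueFactorizationMonoid B] [Algebra B K] [IsFractionRing B K]

variable (M K) in
/-- the place is the one of the prime element `π` -/
def IsPl (π : B) (P : Place M K) : Prop := ∀ a b : B, a ≠ 0 → b ≠ 0 →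
  P.ord (algebraMap B K a / algebraMap B K b) = (multiplicity π a : ℤ) - (multiplicity π b : ℤ)

theorem IsPl.ord {π : B} (hπ : Prime π) {P : Place M K} (h : IsPl M K π P) {a : B} (ha : a ≠ 0) :
    P.ord (algebraMap B K a) = (multiplicity π a : ℤ) := by
  have h1 := h a 1 ha one_ne_zero
  rw [map_one, div_one] at h1
  rw [h1, multiplicity_eq_zero.2 (fun h2 => hπ.not_isUnit (isUnit_of_dvd_one h2))]
  simp

theorem IsPl.uniq {π π' : B} (hass : Associated π π') {P P' : Place M K} (h : IsPl M K π P)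
    (h' : IsPl M K π' P') : P = P' := by
  ext f
  by_cases hf : f = 0
  · rw [hf, P.ord_zero, P'.ord_zero]
  obtain ⟨a, b, hb, rfl⟩ := IsFractionRing.div_surjective (A := B) f
  have hb0 : b ≠ 0 := nonZeroDivisors.ne_zero hb
  have ha0 : a ≠ 0 := by
    rintro rfl
    simp at hf
  rw [h a b ha0 hb0, h' a b ha0 hb0, multiplicity_eq_of_associated_left hass,
    multiplicity_eq_of_associated_left hass]

theorem exists_isPl (hM : ∀ c : M, ∃ b : B, algebraMap B K b = algebraMap M K c) {π : B}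
    (hπ : Prime π) : ∃ P : Place M K, IsPl M K π P := by
  refine Pool.Agent.Y692.PS.place_of_prime π hπ
    (fun a ha => FiniteMultiplicity.of_prime_left hπ ha) fun c hc => ?_
  obtain ⟨a, ha⟩ := hM c
  obtain ⟨a', ha'⟩ := hM c⁻¹
  have hu : a * a' = 1 := by
    apply IsFractionRing.injective B K
    rw [map_mul, ha, ha', map_one, ← map_mul, mul_inv_cancel₀ hc, map_one]
  have ha0 : a ≠ 0 := left_ne_zero_of_mul_eq_one hu
  refine ⟨a, 1, ha0, one_ne_zero, ?_, ?_, by rw [map_one, div_one, ha]⟩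
  · intro h
    exact hπ.not_isUnit (isUnit_of_dvd_unit h (IsUnit.of_mul_eq_one _ hu))
  · intro h
    exact hπ.not_isUnit (isUnit_of_dvd_one h)

variable (M K B) in
/-- the places of the prime elements -/
def SP : Set (Place M K) := {P | ∃ π : B, Prime π ∧ IsPl M K π P}

theorem af_ufd (hM : ∀ c : M, ∃ b : B, algebraMap B K b = algebraMap M K c) :
    AF (algebraMap B K).range (SP M K B) := by
  classical
  have hinj : Function.Injective (algebraMap B K) := IsFractionRing.injective B K
  have hex : ∀ π : B, ∃ P : Option (Place M K), Prime π → ∃ P', P = some P' ∧ IsPl M K π P' := by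
    intro π
    by_cases hπ : Prime π
    · obtain ⟨P, hP⟩ := exists_isPl (K := K) hM hπ
      exact ⟨some P, fun _ => ⟨P, rfl, hP⟩⟩
    · exact ⟨none, fun h => absurd h hπ⟩
  choose Pf hPf using hex
  refine ⟨fun c => ?_, fun z => ?_, ?_, ?_, ?_, ?_⟩
  · obtain ⟨b, hb⟩ := hM c
    exact ⟨b, hb⟩
  · obtain ⟨a, b, hb, rfl⟩ := IsFractionRing.div_surjective (A := B) z
    refine ⟨_, ⟨a, rfl⟩, _, ⟨b, rfl⟩, ?_, rfl⟩
    exact (map_ne_zero_iff _ hinj).2 (nonZeroDivisors.ne_zero hb)
  · rintro P ⟨π, hπ, hP⟩ _ ⟨a, rfl⟩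
    by_cases ha : a = 0
    · left
      rw [ha, map_zero]
    · right
      rw [hP.ord hπ ha]
      positivity
  · rintro _ ⟨a, rfl⟩ hx0
    have ha : a ≠ 0 := by
      rintro rfl
      rw [map_zero] at hx0
      exact hx0 rfl
    refine (((UniqueFactorizationMonoid.factors a).toFinset.image Pf).finite_toSet.preimage
      (Option.some_injective _).injOn).subset ?_
    rintro P ⟨⟨π, hπ, hP⟩, hne⟩
    rw [hP.ord hπ ha] at hne
    have hdvd : π ∣ a := by
      by_contra hnd
      rw [multiplicity_eq_zero.2 hnd] at hne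
      exact hne rfl
    obtain ⟨π', hπ', hass⟩ := UniqueFactorizationMonoid.exists_mem_factors_of_dvd ha
      hπ.irreducible hdvd
    obtain ⟨P', hP', hP''⟩ := hPf π' (UniqueFactorizationMonoid.prime_of_factor π' hπ')
    rw [Set.mem_preimage, Finset.coe_image]
    refine ⟨π', Finset.mem_coe.2 (Multiset.mem_toFinset.2 hπ'), ?_⟩
    rw [hP', hP''.uniq hass.symm hP]
  · intro x hx0 hx
    obtain ⟨a, b, hab, rfl⟩ := IsFractionRing.exists_reduced_fraction (A := B) x
    have hb0 : (b : B) ≠ 0 := nonZeroDivisors.ne_zero b.2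
    have hmk : IsLocalization.mk' K a b = algebraMap B K a / algebraMap B K b :=
      IsFractionRing.mk'_eq_div _
    have ha0 : a ≠ 0 := by
      rintro rfl
      rw [hmk] at hx0
      simp at hx0
    have hbu : IsUnit (b : B) := by
      by_contra hnu
      obtain ⟨π, hπi, hπb⟩ := WfDvdMonoid.exists_irreducible_factor hnu hb0
      have hπ := hπi.prime
      obtain ⟨P, hP⟩ := exists_isPl (K := K) hM hπ
      have h1 := hx P ⟨π, hπ, hP⟩
      rw [hmk, hP a b ha0 hb0] at h1
      have h2 : ¬ π ∣ a := fun h => hπ.not_isUnit (hab h hπb)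
      rw [multiplicity_eq_zero.2 h2] at h1
      have h3 : multiplicity π (b : B) ≠ 0 := multiplicity_ne_zero.2 hπb
      omega
    obtain ⟨u, hu⟩ := hbu
    refine ⟨a * (u⁻¹ : Bˣ), ?_⟩
    rw [hmk, map_mul, eq_div_iff ((map_ne_zero_iff _ hinj).2 hb0), mul_assoc, ← map_mul, ← hu,
      Units.inv_mul, map_one, mul_one]
  · rintro P ⟨π, hπ, hP⟩
    refine ⟨algebraMap B K π, ⟨π, rfl⟩, (map_ne_zero_iff _ hinj).2 hπ.ne_zero, ?_, ?_⟩
    · rw [hP.ord hπ hπ.ne_zero]
      have : multiplicity π π ≠ 0 := multiplicity_ne_zero.2 dvd_rfl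
      omega
    · rintro Q ⟨π', hπ', hQ⟩ hQP
      rw [hQ.ord hπ' hπ.ne_zero, multiplicity_eq_zero.2]
      · rfl
      · intro hd
        exact hQP (hQ.uniq ((hπ'.associated_of_dvd hπ hd)) hP)

end

end Pool.Agent.T6.H77.NB
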